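import Pool.Agent.Lib.MP_f80667_ag.Ct.DA

/-!
# The bilinear identity

`B : O × O → A` biadditive with `B (x w) (y v) + B (x v) (y w) = B (x w v) y + B x (y w v)`: then
`D v u = B u v - B (u v) 1` is a derivation `O → Hom (O, A)`, so it is killed by `p ^ c` (`DK`), and
`2 p ^ c B u v = p ^ c (B (u v) 1 + B 1 (u v))`.
-/

set_option autoImplicit false

namespace CV

variable {O A : Type} [CommRing O] [AddCommGroup A]

/-- The homomorphisms `O → A` as an `O`-module by the multiplication of the argument. -/
def Hm (O A : Type) [CommRing O] [AddCommGroup A] : Type := O →+ A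

instance : AddCommGroup (Hm O A) := inferInstanceAs (AddCommGroup (O →+ A))

/-- The module structure: `(w φ) u = φ (w u)`. -/
instance : Module O (Hm O A) where
  smul w φ := (show O →+ A from φ).comp (AddMonoidHom.mulLeft w)
  one_smul φ := by
    refine AddMonoidHom.ext fun u => ?_
    change (show O →+ A from φ) (1 * u) = _
    rw [one_mul]
  mul_smul w v φ := by
    refine AddMonoidHom.ext fun u => ?_
    change (show O →+ A from φ) (w * v * u) = (show O →+ A from φ) (v * (w * u))
    congr 1
    ring
  smul_zero w := rfl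
  smul_add w φ ψ := rfl
  add_smul w v φ := by
    refine AddMonoidHom.ext fun u => ?_
    change (show O →+ A from φ) ((w + v) * u) = (show O →+ A from φ) (w * u) + (show O →+ A from φ) (v * u)
    rw [add_mul, map_add]
  zero_smul φ := by
    refine AddMonoidHom.ext fun u => ?_
    change (show O →+ A from φ) (0 * u) = 0
    rw [zero_mul, map_zero]

/-- Proof: the derivation `D v u = B u v - B (u v) 1` (`hE` with `y = 1`). -/
theorem bil_left {p n c : ℕ} (hDK : DK O p c) (hA : ∀ a : A, p ^ n • a = 0) (B : O →+ O →+ A)
    (hE : ∀ x y w v : O, B (x * w) (y * v) + B (x * v) (y * w) = B (x * w * v) y + B x (y * w * v))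
    (u v : O) : p ^ c • B u v = p ^ c • B (u * v) 1 := by
  let δ : O →+ Hm O A := AddMonoidHom.mk'
    (fun v => (B.flip v - (B.flip 1).comp (AddMonoidHom.mulRight v) : O →+ A)) (by
      intro v w
      refine AddMonoidHom.ext fun u => ?_
      change B u (v + w) - B (u * (v + w)) 1 = (B u v - B (u * v) 1) + (B u w - B (u * w) 1)
      rw [map_add, mul_add, map_add, AddMonoidHom.add_apply]
      abel)
  let D : Derivation ℤ O (Hm O A) := Derivation.mk' δ.toIntLinearMap (by
    intro w v
    refine AddMonoidHom.ext fun u => ?_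
    change B u (w * v) - B (u * (w * v)) 1 =
      (B (w * u) v - B (w * u * v) 1) + (B (v * u) w - B (v * u * w) 1)
    have h1 := hE u 1 w v
    rw [one_mul, one_mul] at h1
    have e1 : u * (w * v) = u * w * v := by ring
    have e2 : w * u * v = u * w * v := by ring
    have e3 : v * u * w = u * w * v := by ring
    have e4 : w * u = u * w := by ring
    have e5 : v * u = u * v := by ring
    have e6 : B u (w * v) = B (u * w) v + B (u * v) w - B (u * w * v) 1 := by
      rw [h1]
      abel
    rw [e2, e3, e1, e4, e5, e6]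
    abel)
  have h := hDK n (Hm O A) D (fun φ => AddMonoidHom.ext fun x => hA ((show O →+ A from φ) x)) v
  have h2 : (show O →+ A from (p ^ c • D v)) u = p ^ c • (B u v - B (u * v) 1) := rfl
  have h3 : (show O →+ A from (p ^ c • D v)) u = 0 := by
    rw [h]
    rfl
  rw [h2, smul_sub, sub_eq_zero] at h3
  exact h3

/-- Proof: `bil_left` for `B.flip`. -/
theorem bil_right {p n c : ℕ} (hDK : DK O p c) (hA : ∀ a : A, p ^ n • a = 0) (B : O →+ O →+ A)
    (hE : ∀ x y w v : O, B (x * w) (y * v) + B (x * v) (y * w) = B (x * w * v) y + B x (y * w * v))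
    (u v : O) : p ^ c • B u v = p ^ c • B 1 (u * v) := by
  have h := bil_left hDK hA B.flip (fun x y w v => by
    change B (y * v) (x * w) + B (y * w) (x * v) = B y (x * w * v) + B (y * w * v) x
    rw [add_comm, hE y x w v, add_comm]) v u
  change p ^ c • B u v = p ^ c • B 1 (v * u) at h
  rw [h, mul_comm v u]

theorem bil_kill {p n c : ℕ} (hDK : DK O p c) (hA : ∀ a : A, p ^ n • a = 0) (B : O →+ O →+ A)
    (hE : ∀ x y w v : O, B (x * w) (y * v) + B (x * v) (y * w) = B (x * w * v) y + B x (y * w * v))
    (u v : O) : (2 * p ^ c) • B u v = p ^ c • (B (u * v) 1 + B 1 (u * v)) := by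
  rw [mul_comm, mul_smul, smul_add, ← bil_left hDK hA B hE, ← bil_right hDK hA B hE, two_smul,
    smul_add]

end CV
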