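import Mathlib

/-!
# Derivations of a ramified ring: representatives, the expansion in powers of the uniformizer

`DK O p c`: `p ^ c` kills all derivations of `O` into modules which are killed by a power of `p`.
`Ppu p x`: `x` is `0` or a power of `p` times a unit.
-/

set_option autoImplicit false

open Finset

namespace CV

/-- `p ^ c` kills all derivations into modules which are killed by a power of `p`. -/
def DK (O : Type) [CommRing O] (p c : ℕ) : Prop :=
  ∀ (n : ℕ) (N : Type) [AddCommGroup N] [Module O N] (D : Derivation ℤ O N),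
    (∀ x : N, p ^ n • x = 0) → ∀ x, p ^ c • D x = 0

/-- `0` or a power of `p` times a unit. -/
def Ppu {O : Type} [CommRing O] (p : ℕ) (x : O) : Prop :=
  x = 0 ∨ ∃ (k : ℕ) (u : O), IsUnit u ∧ x = (p : O) ^ k * u

section der

variable {O : Type} [CommRing O] {N : Type} [AddCommGroup N] [Module O N] {p n : ℕ}
  (D : Derivation ℤ O N)

theorem der_pow (hn : ∀ y : N, p ^ n • y = 0) (x : O) (k : ℕ) : D (x ^ (p ^ n * k)) = 0 := by
  rw [Derivation.leibniz_pow, mul_comm, mul_smul, hn, smul_zero]

theorem der_mul (hn : ∀ y : N, p ^ n • y = 0) (x : O) : D ((p : O) ^ n * x) = 0 := by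
  have h : (p : O) ^ n * x = p ^ n • x := by rw [nsmul_eq_mul, Nat.cast_pow]
  rw [h, map_nsmul, hn]

end der

section dvr

variable {O : Type} [CommRing O] [IsDomain O] [IsDiscreteValuationRing O] {π : O} {p e : ℕ}

omit [IsDomain O] [IsDiscreteValuationRing O] in
private theorem frob_iter {f : ℕ} (hf : ∀ x : O, π ∣ x ^ p ^ f - x) (m : ℕ) (x : O) :
    π ∣ x ^ p ^ (f * m) - x := by
  induction m with
  | zero => simp
  | succ m ih =>
    have h1 : x ^ p ^ (f * (m + 1)) - x =
        ((x ^ p ^ (f * m)) ^ p ^ f - x ^ p ^ (f * m)) + (x ^ p ^ (f * m) - x) := by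
      rw [← pow_mul, ← pow_add, Nat.mul_succ]
      ring
    rw [h1]
    exact dvd_add (hf _) ih

/-- Proof: `x ^ (p ^ f) ≡ x` implies `x ^ (p ^ (f m)) ≡ x` for all `m`; take `m` with `f m ≥ n` and `z = x ^ (p ^ (f m))`
(`der_pow`), a unit if `π` does not divide `x`; otherwise take `z = 0`. -/
theorem exists_rep (hπ : Irreducible π) (hq : ∃ f : ℕ, f ≠ 0 ∧ ∀ x : O, π ∣ x ^ p ^ f - x)
    {N : Type} [AddCommGroup N] [Module O N] {n : ℕ} (D : Derivation ℤ O N)
    (hn : ∀ y : N, p ^ n • y = 0) (x : O) :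
    ∃ z : O, D z = 0 ∧ (z = 0 ∨ IsUnit z) ∧ π ∣ x - z := by
  obtain ⟨f, hf0, hf⟩ := hq
  by_cases hx : π ∣ x
  · exact ⟨0, map_zero D, Or.inl rfl, by rwa [sub_zero]⟩
  · have hxu : IsUnit x := by
      by_contra h
      have h1 : x ∈ IsLocalRing.maximalIdeal O := (IsLocalRing.mem_maximalIdeal x).2 h
      rw [hπ.maximalIdeal_eq, Ideal.mem_span_singleton] at h1
      exact hx h1
    refine ⟨x ^ p ^ (f * n), ?_, Or.inr (hxu.pow _), ?_⟩
    · have h1 : n ≤ f * n := Nat.le_mul_of_pos_left n (Nat.pos_of_ne_zero hf0)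
      obtain ⟨j, hj⟩ := Nat.exists_eq_add_of_le h1
      rw [hj, pow_add]
      exact der_pow D hn x _
    · rw [← neg_sub, dvd_neg]
      exact frob_iter hf n x

/-- The expansion in powers of `π`. Proof: induction on `k` with `exists_rep`. -/
theorem exp_pi (hπ : Irreducible π) (hq : ∃ f : ℕ, f ≠ 0 ∧ ∀ x : O, π ∣ x ^ p ^ f - x)
    {N : Type} [AddCommGroup N] [Module O N] {n : ℕ} (D : Derivation ℤ O N)
    (hn : ∀ y : N, p ^ n • y = 0) (k : ℕ) (x : O) :
    ∃ (z : ℕ → O) (x' : O), (∀ i, D (z i) = 0) ∧ (∀ i, z i = 0 ∨ IsUnit (z i)) ∧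
      x = ∑ i ∈ range k, z i * π ^ i + π ^ k * x' := by
  induction k with
  | zero => exact ⟨fun _ => 0, x, fun _ => map_zero D, fun _ => Or.inl rfl, by simp⟩
  | succ k ih =>
    obtain ⟨z, x', h1, h2, h3⟩ := ih
    obtain ⟨w, hw1, hw2, y, hy⟩ := exists_rep hπ hq D hn x'
    refine ⟨Function.update z k w, y, fun i => ?_, fun i => ?_, ?_⟩
    · rcases eq_or_ne i k with rfl | hi
      · rwa [Function.update_self]
      · rw [Function.update_of_ne hi]
        exact h1 i
    · rcases eq_or_ne i k with rfl | hi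
      · rwa [Function.update_self]
      · rw [Function.update_of_ne hi]
        exact h2 i
    · rw [Finset.sum_range_succ, Function.update_self]
      have h4 : ∑ i ∈ range k, Function.update z k w i * π ^ i = ∑ i ∈ range k, z i * π ^ i := by
        refine Finset.sum_congr rfl fun i hi => ?_
        rw [Function.update_of_ne (Finset.mem_range.1 hi).ne]
      rw [h4]
      have h5 : x' = w + π * y := by linear_combination hy
      calc x = ∑ i ∈ range k, z i * π ^ i + π ^ k * x' := h3
        _ = ∑ i ∈ range k, z i * π ^ i + w * π ^ k + π ^ (k + 1) * y := by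
          rw [h5]
          ring

end dvr

end CV
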