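import Pool.Agent.Lib.MP_f80667_ag.Ct.DA

/-! # The expansion over the kernel of a derivation -/

set_option autoImplicit false

open Finset

namespace CV

variable {O : Type} [CommRing O] [IsDomain O] [IsDiscreteValuationRing O] {π : O} {p e : ℕ}

private theorem expE_unit {v b : O} (hv : IsUnit v) (hb : b ∈ IsLocalRing.maximalIdeal O) :
    IsUnit (v + b) := by
  by_contra h
  have h1 : v + b ∈ IsLocalRing.maximalIdeal O := (IsLocalRing.mem_maximalIdeal _).2 h
  have h2 : v ∈ IsLocalRing.maximalIdeal O := by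
    have h3 := (IsLocalRing.maximalIdeal O).sub_mem h1 hb
    rwa [add_sub_cancel_right] at h3
  exact (IsLocalRing.mem_maximalIdeal _).1 h2 hv

private theorem expE_inv (hπ : Irreducible π) (hq : ∃ f : ℕ, f ≠ 0 ∧ ∀ x : O, π ∣ x ^ p ^ f - x)
    {u : O} (hp : (p : O) ∈ IsLocalRing.maximalIdeal O) (he : π ^ e = (p : O) * u)
    {N : Type} [AddCommGroup N] [Module O N] {n : ℕ} (D : Derivation ℤ O N)
    (hn : ∀ y : N, p ^ n • y = 0) (k : ℕ) (x : O) :
    ∃ (a : ℕ → O) (x' : O), (∀ i, D (a i) = 0) ∧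
      (∀ i, a i = 0 ∨ ∃ j < k, ∃ v : O, IsUnit v ∧ a i = (p : O) ^ j * v) ∧
      x = ∑ i ∈ range e, a i * π ^ i + (p : O) ^ k * x' := by
  induction k with
  | zero => exact ⟨fun _ => 0, x, fun _ => map_zero D, fun _ => Or.inl rfl, by simp⟩
  | succ k ih =>
    obtain ⟨a, x', h1, h2, h3⟩ := ih
    obtain ⟨z, x'', h4, h5, h6⟩ := exp_pi hπ hq D hn e x'
    refine ⟨fun i => a i + (p : O) ^ k * z i, u * x'', fun i => ?_, fun i => ?_, ?_⟩
    · change D (a i + (p : O) ^ k * z i) = 0
      have h7 : (p : O) ^ k * z i = p ^ k • z i := by rw [nsmul_eq_mul, Nat.cast_pow]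
      rw [map_add, h1, h7, map_nsmul, h4, smul_zero, add_zero]
    · change a i + (p : O) ^ k * z i = 0 ∨ ∃ j < k + 1, ∃ v : O, IsUnit v ∧
        a i + (p : O) ^ k * z i = (p : O) ^ j * v
      rcases h2 i with h7 | ⟨j, hj, v, hv, h7⟩
      · rcases h5 i with h8 | h8
        · left
          rw [h7, h8]
          ring
        · right
          exact ⟨k, Nat.lt_succ_self k, z i, h8, by rw [h7]; ring⟩
      · right
        refine ⟨j, by omega, v + (p : O) ^ (k - j) * z i, ?_, ?_⟩
        · apply expE_unit hv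
          obtain ⟨t, ht⟩ : ∃ t, k - j = t + 1 := ⟨k - j - 1, by omega⟩
          rw [ht, pow_succ, mul_comm ((p : O) ^ t), mul_assoc]
          exact Ideal.mul_mem_right _ _ hp
        · have h9 : (p : O) ^ k = (p : O) ^ j * (p : O) ^ (k - j) := by
            rw [← pow_add]
            congr 1
            omega
          rw [h7, h9]
          ring
    · have h7 : ∑ i ∈ range e, (a i + (p : O) ^ k * z i) * π ^ i =
          ∑ i ∈ range e, a i * π ^ i + (p : O) ^ k * ∑ i ∈ range e, z i * π ^ i := by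
        rw [Finset.mul_sum, ← Finset.sum_add_distrib]
        refine Finset.sum_congr rfl fun i _ => ?_
        ring
      rw [he] at h6
      calc x = ∑ i ∈ range e, a i * π ^ i + (p : O) ^ k * x' := h3
        _ = ∑ i ∈ range e, a i * π ^ i +
            (p : O) ^ k * (∑ i ∈ range e, z i * π ^ i + (p : O) * u * x'') := by rw [← h6]
        _ = _ := by
          rw [h7]
          ring

/-- The expansion over the kernel of `D`. Proof: induction on `k`, with the invariant: `a i = 0` or `a i = p ^ j u`, `j < k`,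
`u` a unit; the step: `exp_pi` with `k = e` for the rest `x'`, `π ^ e = p u`; `p ^ j u + p ^ k z = p ^ j (u + p ^ (k - j) z)`, and
`p` is in the maximal ideal (`e ≠ 0`). -/
theorem exp_e (hπ : Irreducible π) (hq : ∃ f : ℕ, f ≠ 0 ∧ ∀ x : O, π ∣ x ^ p ^ f - x)
    {u : O} (he0 : e ≠ 0) (he : π ^ e = (p : O) * u) (hu : IsUnit u)
    {N : Type} [AddCommGroup N] [Module O N] {n : ℕ} (D : Derivation ℤ O N)
    (hn : ∀ y : N, p ^ n • y = 0) (k : ℕ) (x : O) :
    ∃ (a : ℕ → O) (x' : O), (∀ i, D (a i) = 0) ∧ (∀ i, Ppu p (a i)) ∧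
      x = ∑ i ∈ range e, a i * π ^ i + (p : O) ^ k * x' := by
  have hp : (p : O) ∈ IsLocalRing.maximalIdeal O := by
    rw [IsLocalRing.mem_maximalIdeal]
    intro h
    have h1 : IsUnit (π ^ e) := by
      rw [he]
      exact h.mul hu
    exact hπ.not_isUnit ((isUnit_pow_iff he0).1 h1)
  obtain ⟨a, x', h1, h2, h3⟩ := expE_inv hπ hq hp he D hn k x
  refine ⟨a, x', h1, fun i => ?_, h3⟩
  rcases h2 i with h | ⟨j, _, v, hv, h⟩
  · exact Or.inl h
  · exact Or.inr ⟨j, v, hv, h⟩

end CV
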