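import Pool.Agent.Lib.MP_f80667_ag.Ct.DA

/-! # Sums with distinct valuations -/

set_option autoImplicit false

open Finset

namespace CV

variable {O : Type} [CommRing O] [IsDomain O] [IsDiscreteValuationRing O] {π : O} {p e : ℕ}

omit [IsDiscreteValuationRing O] in
private theorem dist_step (hπ : Irreducible π) {u : O} (he : π ^ e = (p : O) * u) (hu : IsUnit u)
    {a : O} (ha : Ppu p a) {m i : ℕ} (hi : i < e) (hm : i ≠ m % e) (h : π ^ m ∣ a * π ^ i) :
    π ^ (m + 1) ∣ a * π ^ i := by
  rcases ha with rfl | ⟨k, w, hw, rfl⟩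
  · rw [zero_mul]
    exact dvd_zero _
  · obtain ⟨u', rfl⟩ := hu
    have hp : (p : O) = π ^ e * ((u'⁻¹ : Oˣ) : O) := by
      rw [he, mul_assoc, Units.mul_inv, mul_one]
    have e1 : (p : O) ^ k * w * π ^ i = π ^ (e * k + i) * (((u'⁻¹ : Oˣ) : O) ^ k * w) := by
      rw [hp, mul_pow, ← pow_mul, pow_add]
      ring
    have hU : IsUnit (((u'⁻¹ : Oˣ) : O) ^ k * w) := ((u'⁻¹).isUnit.pow k).mul hw
    rw [e1] at h ⊢
    rw [hU.dvd_mul_right] at h ⊢
    have h1 := (pow_dvd_pow_iff hπ.ne_zero hπ.not_isUnit).1 h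
    refine pow_dvd_pow _ ?_
    have h2 : m ≠ e * k + i := by
      rintro rfl
      rw [Nat.mul_add_mod, Nat.mod_eq_of_lt hi] at hm
      exact hm rfl
    omega

/-- Distinct valuations. Proof: the valuations of the nonzero terms are `e k + i`, `i < e`, so distinct; if one of them were
`< m`, the smallest one would be the valuation of the sum. -/
theorem val_dist (hπ : Irreducible π) {u : O} (he : π ^ e = (p : O) * u) (hu : IsUnit u) (a : ℕ → O)
    (ha : ∀ i < e, Ppu p (a i)) {m : ℕ} (h : π ^ m ∣ ∑ i ∈ range e, a i * π ^ i) :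
    ∀ i < e, π ^ m ∣ a i * π ^ i := by
  induction m with
  | zero =>
    intro i _
    rw [pow_zero]
    exact one_dvd _
  | succ m ih =>
    have h0 := ih ((pow_dvd_pow π (Nat.le_succ m)).trans h)
    have h1 : ∀ i < e, i ≠ m % e → π ^ (m + 1) ∣ a i * π ^ i := fun i hi hm =>
      dist_step hπ he hu (ha i hi) hi hm (h0 i hi)
    intro i hi
    by_cases hm : i = m % e
    · have h2 : π ^ (m + 1) ∣ ∑ j ∈ (range e).erase i, a j * π ^ j := by
        refine dvd_sum fun j hj => ?_
        rw [mem_erase, mem_range] at hj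
        exact h1 j hj.2 fun h3 => hj.1 (h3.trans hm.symm)
      rw [← add_sum_erase _ _ (mem_range.2 hi)] at h
      exact (dvd_add_left h2).1 h
    · exact h1 i hi hm

end CV
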