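import Pool.Agent.Lib.MP_f80667_ag.Ct.DB
import Pool.Agent.Lib.MP_f80667_ag.Ct.DC

/-! # The derivations of a ramified ring are killed by `p ^ (v_p(e) + 1)` -/

set_option autoImplicit false

open Finset

namespace CV

variable {O : Type} [CommRing O] [IsDomain O] [IsDiscreteValuationRing O] {π : O} {p e : ℕ}

omit [IsDomain O] [IsDiscreteValuationRing O] in
private theorem dd_term {N : Type} [AddCommGroup N] [Module O N] (D : Derivation ℤ O N) {a : O}
    (ha : D a = 0) (x : O) (i : ℕ) : D (a * x ^ i) = (a * (i : O) * x ^ (i - 1)) • D x := by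
  rw [Derivation.leibniz, ha, smul_zero, add_zero, Derivation.leibniz_pow, ← Nat.cast_smul_eq_nsmul O,
    smul_smul, smul_smul]

omit [IsDomain O] [IsDiscreteValuationRing O] in
private theorem dd_sum {N : Type} [AddCommGroup N] [Module O N] {n : ℕ} (D : Derivation ℤ O N)
    (hn : ∀ y : N, p ^ n • y = 0) {a : ℕ → O} (ha : ∀ i, D (a i) = 0) (x x' : O) (e : ℕ) :
    D (∑ i ∈ range e, a i * x ^ i + (p : O) ^ n * x') =
      (∑ i ∈ range e, a i * (i : O) * x ^ (i - 1)) • D x := by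
  rw [map_add, der_mul D hn, add_zero, map_sum, Finset.sum_smul]
  exact Finset.sum_congr rfl fun i _ => dd_term D (ha i) x i

omit [IsDomain O] [IsDiscreteValuationRing O] in
private theorem dd_p (he0 : e ≠ 0) (hπ : Irreducible π) {u : O} (he : π ^ e = (p : O) * u) :
    ¬ IsUnit (p : O) ∨ ¬ IsUnit u := by
  by_contra hcon
  push Not at hcon
  have h1 : IsUnit (π ^ e) := by
    rw [he]
    exact hcon.1.mul hcon.2
  exact hπ.not_isUnit ((isUnit_pow_iff he0).1 h1)

private theorem dd_unit (hp : p.Prime) (hp' : ¬ IsUnit (p : O)) {m : ℕ} (hm : ¬ p ∣ m) :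
    IsUnit (m : O) := by
  have h1 : IsCoprime (m : ℤ) (p : ℤ) :=
    Nat.isCoprime_iff_coprime.2 ((Nat.Prime.coprime_iff_not_dvd hp).2 hm).symm
  obtain ⟨a, b, hab⟩ := h1
  have h2 : (a : O) * (m : O) + (b : O) * (p : O) = 1 := by exact_mod_cast congrArg (Int.cast : ℤ → O) hab
  rcases IsLocalRing.isUnit_or_isUnit_of_add_one h2 with h3 | h3
  · exact isUnit_of_mul_isUnit_right h3
  · exact absurd (isUnit_of_mul_isUnit_right h3) hp'

private theorem dd_ppu_nat (hp : p.Prime) (hp' : ¬ IsUnit (p : O)) (m : ℕ) : Ppu p (m : O) := by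
  by_cases hm : m = 0
  · left
    rw [hm, Nat.cast_zero]
  · right
    obtain ⟨k, r, hr, hm'⟩ := Nat.exists_eq_pow_mul_and_not_dvd hm p hp.ne_one
    exact ⟨k, (r : O), dd_unit hp hp' hr, by rw [hm', Nat.cast_mul, Nat.cast_pow]⟩

omit [IsDomain O] [IsDiscreteValuationRing O] in
private theorem dd_ppu_mul {x y : O} (hx : Ppu p x) (hy : Ppu p y) : Ppu p (x * y) := by
  rcases hx with hx | ⟨k, u, hu, hx⟩
  · exact Or.inl (by rw [hx, zero_mul])
  rcases hy with hy | ⟨l, v, hv, hy⟩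
  · exact Or.inl (by rw [hy, mul_zero])
  · exact Or.inr ⟨k + l, u * v, hu.mul hv, by rw [hx, hy]; ring⟩

omit [IsDomain O] [IsDiscreteValuationRing O] in
private theorem dd_ppu_neg {x : O} (hx : Ppu p x) : Ppu p (-x) := by
  rcases hx with hx | ⟨k, u, hu, hx⟩
  · exact Or.inl (by rw [hx, neg_zero])
  · exact Or.inr ⟨k, -u, hu.neg, by rw [hx]; ring⟩

private theorem dd_dvd (hp : p.Prime) (hπ : Irreducible π) {u : O} (he0 : e ≠ 0)
    (he : π ^ e = (p : O) * u) (hu : IsUnit u) {a : ℕ → O} (ha : ∀ i, Ppu p (a i)) :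
    (e : O) * π ^ (e - 1) - ∑ i ∈ range e, (p : O) * a i * (i : O) * π ^ (i - 1) ∣
      (p : O) ^ (padicValNat p e + 1) := by
  classical
  have hp' : ¬ IsUnit (p : O) := by
    rcases dd_p he0 hπ he with h | h
    · exact h
    · exact absurd hu h
  obtain ⟨c, hc⟩ : ∃ c, c = padicValNat p e + 1 := ⟨_, rfl⟩
  obtain ⟨b, hb⟩ : ∃ b, b = (e : O) * π ^ (e - 1) -
    ∑ i ∈ range e, (p : O) * a i * (i : O) * π ^ (i - 1) := ⟨_, rfl⟩
  rw [← hb, ← hc]
  by_contra hcon
  -- `π p ^ c` divides `b`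
  have h1 : π * (p : O) ^ c ∣ b := by
    rcases ValuationRing.dvd_total b ((p : O) ^ c) with h | ⟨r, hr⟩
    · exact absurd h hcon
    · by_cases hru : IsUnit r
      · exfalso
        obtain ⟨s, hs⟩ := hru
        exact hcon ⟨((s⁻¹ : Oˣ) : O), by rw [hr, ← hs, mul_assoc, Units.mul_inv, mul_one]⟩
      · have h2 : r ∈ IsLocalRing.maximalIdeal O := (IsLocalRing.mem_maximalIdeal r).2 hru
        rw [(IsDiscreteValuationRing.irreducible_iff_uniformizer π).1 hπ,
          Ideal.mem_span_singleton] at h2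
        obtain ⟨s, hs⟩ := h2
        exact ⟨s, by rw [hr, hs]; ring⟩
  have h2 : π ^ (e * c + 1) ∣ b := by
    have h3 : π ^ (e * c + 1) = π * (p : O) ^ c * u ^ c := by
      rw [pow_succ, pow_mul, he, mul_pow]
      ring
    rw [h3]
    exact (hu.pow c).mul_right_dvd.2 h1
  -- the coefficients
  obtain ⟨e', rfl⟩ : ∃ e', e = e' + 1 := ⟨e - 1, by omega⟩
  have h3 : b = ∑ j ∈ range (e' + 1), (if j = e' then ((e' + 1 : ℕ) : O) else
      -((p : O) * a (j + 1) * ((j + 1 : ℕ) : O))) * π ^ j := by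
    rw [hb, Finset.sum_range_succ', Finset.sum_range_succ, if_pos rfl, Nat.add_sub_cancel]
    have h4 : ∑ j ∈ range e', (if j = e' then ((e' + 1 : ℕ) : O) else
        -((p : O) * a (j + 1) * ((j + 1 : ℕ) : O))) * π ^ j =
        ∑ j ∈ range e', -((p : O) * a (j + 1) * ((j + 1 : ℕ) : O) * π ^ (j + 1 - 1)) := by
      refine Finset.sum_congr rfl fun j hj => ?_
      rw [if_neg (by have := Finset.mem_range.1 hj; omega), Nat.add_sub_cancel]
      ring
    rw [h4, Finset.sum_neg_distrib]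
    push_cast
    ring
  rw [h3] at h2
  have h5 := val_dist hπ he hu _ (fun i _ => by
    by_cases hi : i = e'
    · rw [if_pos hi]
      exact dd_ppu_nat hp hp' _
    · rw [if_neg hi]
      refine dd_ppu_neg (dd_ppu_mul (dd_ppu_mul ?_ (ha _)) (dd_ppu_nat hp hp' _))
      exact Or.inr ⟨1, 1, isUnit_one, by ring⟩) h2 e' (Nat.lt_succ_self e')
  rw [if_pos rfl] at h5
  -- the valuation of `e`
  have h6 : ((e' + 1 : ℕ) : O) = (p : O) ^ (padicValNat p (e' + 1)) *
      (((e' + 1) / p ^ (padicValNat p (e' + 1)) : ℕ) : O) := by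
    rw [← Nat.factorization_def _ hp]
    have h7 := Nat.ordProj_mul_ordCompl_eq_self (e' + 1) p
    conv_lhs => rw [← h7]
    rw [Nat.cast_mul, Nat.cast_pow]
  have h8 : IsUnit (((e' + 1) / p ^ (padicValNat p (e' + 1)) : ℕ) : O) := by
    rw [← Nat.factorization_def _ hp]
    exact dd_unit hp hp' (Nat.not_dvd_ordCompl hp he0)
  rw [h6, mul_right_comm, h8.dvd_mul_right] at h5
  have h9 : (p : O) ^ (padicValNat p (e' + 1)) * π ^ e' ∣
      π ^ ((e' + 1) * padicValNat p (e' + 1) + e') := by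
    rw [pow_add, pow_mul, he, mul_pow]
    exact mul_dvd_mul_right (Dvd.intro _ rfl) _
  have h10 := (pow_dvd_pow_iff hπ.ne_zero hπ.not_isUnit).1 (h5.trans h9)
  rw [hc] at h10
  have h11 : (e' + 1) * (padicValNat p (e' + 1) + 1) =
      (e' + 1) * padicValNat p (e' + 1) + (e' + 1) := by ring
  omega

/-- Proof: `π ^ e = p u` and `u = ∑ (i < e) a i π ^ i + p ^ n x'` (`exp_e`); `D` of this (`der_mul`) gives
`(e π ^ (e - 1) - ∑ (1 ≤ i < e) i p (a i) π ^ (i - 1)) D π = 0`. If the bracket `b` did not divide `p ^ c`, `c = v_p(e) + 1`, then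
`π p ^ c ∣ b` (discrete valuation ring), so `π ^ (e c + 1) ∣ b`, so `π ^ (e c + 1) ∣ e π ^ (e - 1)` by `val_dist` for the
coefficients `e` (at `e - 1`) and `-(i + 1) p a (i + 1)` (at `i < e - 1`), which are `Ppu` (a natural number is a power of `p`
times a number prime to `p`, and this is a unit); but `e = p ^ (c - 1)` times a unit. -/
theorem der_pi (hp : p.Prime) (hπ : Irreducible π)
    (hq : ∃ f : ℕ, f ≠ 0 ∧ ∀ x : O, π ∣ x ^ p ^ f - x)
    {u : O} (he0 : e ≠ 0) (he : π ^ e = (p : O) * u) (hu : IsUnit u)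
    {N : Type} [AddCommGroup N] [Module O N] {n : ℕ} (D : Derivation ℤ O N)
    (hn : ∀ y : N, p ^ n • y = 0) : p ^ (padicValNat p e + 1) • D π = 0 := by
  obtain ⟨a, x', ha, hP, hx⟩ := exp_e hπ hq he0 he hu D hn n u
  have hpa : ∀ i, D ((p : O) * a i) = 0 := by
    intro i
    rw [← nsmul_eq_mul, map_nsmul, ha, smul_zero]
  have h1 : π ^ e = ∑ i ∈ range e, (p : O) * a i * π ^ i + (p : O) ^ n * ((p : O) * x') := by
    rw [he]
    conv_lhs => rw [hx]
    rw [mul_add, Finset.mul_sum]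
    congr 1
    · exact Finset.sum_congr rfl fun i _ => by ring
    · ring
  have h2 := dd_sum D hn hpa π ((p : O) * x') e
  rw [← h1] at h2
  have h3 := dd_term D (a := 1) (by rw [Derivation.map_one_eq_zero]) π e
  rw [one_mul, one_mul] at h3
  have h4 : ((e : O) * π ^ (e - 1) - ∑ i ∈ range e, (p : O) * a i * (i : O) * π ^ (i - 1)) •
      D π = 0 := by
    rw [sub_smul, ← h3, ← h2, sub_self]
  obtain ⟨r, hr⟩ := dd_dvd hp hπ he0 he hu hP
  rw [← Nat.cast_smul_eq_nsmul O, Nat.cast_pow, hr, mul_comm, mul_smul, h4, smul_zero]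

/-- Proof: `x = ∑ (i < e) a i π ^ i + p ^ n x'` (`exp_e` with `k = n`), so `D x` is a multiple of `D π`. -/
theorem dk_dvr (hp : p.Prime) (hπ : Irreducible π)
    (hq : ∃ f : ℕ, f ≠ 0 ∧ ∀ x : O, π ∣ x ^ p ^ f - x)
    {u : O} (he0 : e ≠ 0) (he : π ^ e = (p : O) * u) (hu : IsUnit u) :
    DK O p (padicValNat p e + 1) := by
  intro n N _ _ D hn x
  obtain ⟨a, x', ha, -, hx⟩ := exp_e hπ hq he0 he hu D hn n x
  have h1 := der_pi hp hπ hq he0 he hu D hn
  rw [hx, dd_sum D hn ha, smul_comm, h1, smul_zero]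

end CV
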