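import Pool.Agent.Lib.MP_f80667_ag.ZC.Tr

/-!
Real points of a complete intersection (any degrees): nearby smooth real points are rationally
equivalent modulo norms. Definitions.

`P` is a real zero of the forms `f i` with linearly independent gradients `gr f P i`, `u` is a vector
orthogonal to `P` and to the gradients, and `L` is the linear space spanned by `P`, `u` and the
gradients: the vectors `pt f P u s t b = s P + t u + ∑ b_i ∇ f_i(P)`. The curve is `X ∩ L`, it is
smooth at `P` with tangent direction `u`. `sph P Q s x = (x - s P) · (x - s Q)` is the form whose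
zero set is the sphere with diameter `P Q`.
-/

open MvPolynomial
open scoped LinearAlgebra.Projectivization

namespace Ct

open ZC

universe u

variable {k : Type u} [Field k] {n r : ℕ}

/-- The gradient of `f i` at `P`. -/
noncomputable def gr (f : Fin r → MvPolynomial (Fin n) k) (P : Fin n → k) (i : Fin r)
    (j : Fin n) : k :=
  aeval P (pderiv j (f i))

/-- The vector `s P + t u + ∑ b_i ∇ f_i(P)` over an extension of `k`. -/
noncomputable def pt (f : Fin r → MvPolynomial (Fin n) k) (P u : Fin n → k) {R : Type*}
    [CommRing R] [Algebra k R] (s t : R) (b : Fin r → R) : Fin n → R :=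
  fun j => s * algebraMap k R (P j) + t * algebraMap k R (u j) +
    ∑ i, b i * algebraMap k R (gr f P i j)

/-- The form of the sphere with diameter `P Q`: `(x - s P) · (x - s Q)`. -/
def sph (P Q : Fin n → k) {R : Type*} [CommRing R] [Algebra k R] (s : R) (x : Fin n → R) : R :=
  ∑ j, (x j - s * algebraMap k R (P j)) * (x j - s * algebraMap k R (Q j))

/-- The frame at a smooth point `P`: `u` is tangent, the Gram matrix of the gradients is invertible,
and everything is orthogonal to `P`. -/
structure Frame (f : Fin r → MvPolynomial (Fin n) k) (P u : Fin n → k) : Prop where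
  hom : ∀ i, ∃ d, (f i).IsHomogeneous d
  zP : Zer f k P
  PP : ∑ j, P j * P j ≠ 0
  uu : ∑ j, u j * u j ≠ 0
  Pu : ∑ j, P j * u j = 0
  gP : ∀ i, ∑ j, gr f P i j * P j = 0
  gu : ∀ i, ∑ j, gr f P i j * u j = 0
  gram : ∀ c : Fin r → k, (∀ i, ∑ i', c i' * ∑ j, gr f P i j * gr f P i' j = 0) → c = 0

/-- `P` and `Q` are the only zeros of `sph P Q` on the curve. -/
structure Pair (f : Fin r → MvPolynomial (Fin n) k) (P Q u : Fin n → k) : Prop
    extends Frame f P u where
  zQ : Zer f k Q
  Q_eq : ∃ a : Fin r → k, Q = pt f P u 1 1 a
  only : ∀ (s t : k) (b : Fin r → k), Zer f k (pt f P u s t b) →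
    sph P Q s (pt f P u s t b) = 0 →
    ∃ c : k, pt f P u s t b = c • P ∨ pt f P u s t b = c • Q

end Ct
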