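import Pool.Agent.Lib.MP_f80667_ag.Dz.Main

/-! The push-forward of the divisor of a function exists. -/

open Polynomial IsDedekindDomain

open scoped IntermediateField.algebraAdjoinAdjoin LinearAlgebra.Projectivization

namespace Ct

open ZC

universe u

/-- A transcendental function has finitely many zeros, and it has an order at each of them. -/
private theorem zeros_fin {k E Ω : Type u} [Field k] [CharZero k] [Field E] [Algebra k E] [Field Ω]
    [Algebra k Ω] [IsAlgClosed Ω] (hE : IsFunField k E) {x : E} (hx : Transcendental k x) :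
    {w : Place k E Ω | x ∈ w.V.nonunits}.Finite ∧
      ∀ w : Place k E Ω, x ∈ w.V.nonunits → ∃ m : ℤ, w.IsOrd x m := by
  classical
  let R := Algebra.adjoin k {x}
  let K := IntermediateField.adjoin k {x}
  let B := integralClosure R E
  have hfin : FiniteDimensional K E := Dz.finite_adjoin hE hx
  have hpid : IsPrincipalIdealRing R := Dz.dedekind_adjoin hx
  have hded : IsDedekindDomain R := inferInstance
  have hchar : CharZero K := charZero_of_injective_algebraMap (algebraMap k K).injective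
  have hsep : Algebra.IsSeparable K E := inferInstance
  have hB : IsDedekindDomain B := integralClosure.isDedekindDomain R K E
  have hBfin : Module.Finite R B := IsIntegralClosure.finite R K E B
  have hfr : IsFractionRing B E := IsIntegralClosure.isFractionRing_of_finite_extension R K E B
  let p : Ideal R := Ideal.span {Dz.xx k x}
  have hp : p.IsMaximal := Dz.max_ker hx
  have hx0 : x ≠ 0 := by
    rintro rfl
    exact hx ⟨X, X_ne_zero, by simp⟩
  have hxx0 : Dz.xx k x ≠ 0 := fun h => hx0 (congrArg Subtype.val h)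
  have hp0 : p ≠ ⊥ := by
    rw [Ne, Ideal.span_singleton_eq_bot]
    exact hxx0
  let b0 : B := algebraMap R B (Dz.xx k x)
  have hb0E : algebraMap B E b0 = x := rfl
  have hb0 : b0 ≠ 0 := fun h => hx0 (by rw [← hb0E, h, map_zero])
  let : Fintype (p.primesOver B) := (Algebra.QuasiFinite.finite_primesOver p).fintype
  have hIsB : ∀ (w : Place k E Ω), x ∈ w.V → ∀ b : B, algebraMap B E b ∈ w.V :=
    fun w hw b => Dz.mem_of_integral w hw b
  -- the centre of a place
  have hex : ∀ w : Place k E Ω, x ∈ w.V.nonunits → ∃ q : p.primesOver B,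
      ∀ b : B, algebraMap B E b ∈ w.V.nonunits ↔ b ∈ q.1 := by
    intro w hxw
    have hxV : x ∈ w.V := w.V.nonunits_subset hxw
    let χ : B →+* Ω := w.res.comp ((algebraMap B E).codRestrict w.V.toSubring (hIsB w hxV))
    have hχ : ∀ b, b ∈ RingHom.ker χ ↔ algebraMap B E b ∈ w.V.nonunits := by
      intro b
      rw [RingHom.mem_ker]
      exact Fa.res_eq_zero_iff w _
    have hprime : (RingHom.ker χ).IsPrime := RingHom.ker_isPrime χ
    have hle : p ≤ (RingHom.ker χ).under R := by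
      rw [Ideal.span_singleton_le_iff_mem]
      change algebraMap R B (Dz.xx k x) ∈ RingHom.ker χ
      rw [hχ]
      exact hxw
    have hlies : (RingHom.ker χ).LiesOver p := by
      refine ⟨hp.eq_of_le ?_ hle⟩
      exact Ideal.IsPrime.ne_top inferInstance
    exact ⟨⟨RingHom.ker χ, hprime, hlies⟩, fun b => (hχ b).symm⟩
  have hbot : ∀ q : p.primesOver B, q.1 ≠ ⊥ := by
    intro q hq
    have h3 : b0 ∈ q.1 := by
      have := q.2.2
      have h4 : Dz.xx k x ∈ q.1.under R := by
        rw [← q.2.2.over]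
        exact Ideal.mem_span_singleton_self _
      exact h4
    rw [hq, Ideal.mem_bot] at h3
    exact hb0 h3
  let vq : p.primesOver B → HeightOneSpectrum B := fun q => ⟨q.1, q.2.1, hbot q⟩
  have hplc : ∀ w : Place k E Ω, x ∈ w.V.nonunits → ∃ (q : p.primesOver B)
      (φ : B ⧸ (vq q).asIdeal →ₐ[k] Ω), Dz.plc (vq q) φ E = w := by
    intro w hw
    obtain ⟨q, hc⟩ := hex w hw
    obtain ⟨φ, hφ⟩ := Dz.plc_surj (vq q) w (hIsB w (w.V.nonunits_subset hw)) hc
    exact ⟨q, φ, hφ⟩
  have hfinA : ∀ q : p.primesOver B, Finite (B ⧸ (vq q).asIdeal →ₐ[k] Ω) := by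
    intro q
    have hq1 := q.2.1
    have hq2 := q.2.2
    have hq3 : q.1.IsMaximal := Ideal.IsMaximal.of_liesOver_isMaximal q.1 p
    let : Field (R ⧸ p) := Ideal.Quotient.field p
    let : Field (B ⧸ q.1) := Ideal.Quotient.field q.1
    have hs1 : IsScalarTower k (R ⧸ p) (B ⧸ q.1) := IsScalarTower.of_algebraMap_eq fun a => rfl
    have hf1 : Module.finrank k (R ⧸ p) = 1 := Dz.finrank_quot hx
    have hf3 : Module.Finite k (R ⧸ p) := Module.finite_of_finrank_pos (by rw [hf1]; exact one_pos)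
    have hf4 : Module.Finite k (B ⧸ q.1) := Module.Finite.trans (R ⧸ p) (B ⧸ q.1)
    have h5 : Finite (B ⧸ q.1 →ₐ[k] Ω) := inferInstance
    exact h5
  refine ⟨?_, ?_⟩
  · refine Set.Finite.subset (Set.finite_iUnion fun q : p.primesOver B =>
      Set.finite_range fun φ : B ⧸ (vq q).asIdeal →ₐ[k] Ω => Dz.plc (vq q) φ E) ?_
    intro w hw
    obtain ⟨q, φ, h⟩ := hplc w hw
    exact Set.mem_iUnion.2 ⟨q, φ, h⟩
  · intro w hw
    obtain ⟨q, φ, h⟩ := hplc w hw
    have h3 : w.V = Dz.VV E (vq q) := by rw [← h]; rfl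
    have h4 := Dz.ord_plc (k := k) (vq q) w h3 hb0
    rw [hb0E] at h4
    exact ⟨_, h4⟩

private theorem val_ex {k E Ω : Type u} [Field k] [Field E] [Algebra k E] [Field Ω]
    [Algebra k Ω] {n : ℕ} {p : Fin n → E} (hp : p ≠ 0) (w : Place k E Ω) :
    ∃ y : ℙ Ω (Fin n → Ω), w.IsVal p y := by
  obtain ⟨i0, hi0⟩ := Function.ne_iff.1 hp
  obtain ⟨i, -, hi⟩ := Finset.exists_max_image Finset.univ (fun i => w.V.valuation (p i))
    ⟨i0, Finset.mem_univ _⟩
  have hpi : p i ≠ 0 := by
    intro h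
    have h1 := hi i0 (Finset.mem_univ _)
    rw [h, map_zero] at h1
    have h2 : w.V.valuation (p i0) = 0 := le_antisymm h1 zero_le
    exact hi0 ((Valuation.zero_iff _).1 h2)
  have hv : w.V.valuation (p i) ≠ 0 := (Valuation.ne_zero_iff _).2 hpi
  have hc : ∀ j, (p i)⁻¹ * p j ∈ w.V := by
    intro j
    rw [← w.V.valuation_le_one_iff, map_mul, map_inv₀]
    have h1 := hi j (Finset.mem_univ _)
    calc (w.V.valuation (p i))⁻¹ * w.V.valuation (p j)
        ≤ (w.V.valuation (p i))⁻¹ * w.V.valuation (p i) := by gcongr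
      _ = 1 := inv_mul_cancel₀ hv
  refine ⟨_, (p i)⁻¹, hc, ?_, rfl⟩
  intro h
  have h1 := congrFun h i
  have h2 : (⟨(p i)⁻¹ * p i, hc i⟩ : w.V) = 1 := by
    ext
    exact inv_mul_cancel₀ hpi
  have h3 : w.res ⟨(p i)⁻¹ * p i, hc i⟩ = 0 := h1
  rw [h2, map_one] at h3
  exact one_ne_zero h3

theorem exists_div {k E Ω : Type u} [Field k] [CharZero k] [Field E] [Algebra k E] [Field Ω]
    [Algebra k Ω] [IsAlgClosed Ω] (hE : IsFunField k E) {g : E} (hg : Transcendental k g) {n : ℕ}
    {p : Fin n → E} (hp : p ≠ 0) :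
    ∃ (S : Finset (Place k E Ω)) (m : Place k E Ω → ℤ) (x : Place k E Ω → ℙ Ω (Fin n → Ω)),
      (∀ w, w ∉ S → g ∈ w.V ∧ g⁻¹ ∈ w.V) ∧ (∀ w ∈ S, w.IsOrd g (m w) ∧ w.IsVal p (x w)) := by
  classical
  have hg' : Transcendental k g⁻¹ := fun h => hg (by simpa using h.inv)
  obtain ⟨f1, o1⟩ := zeros_fin (Ω := Ω) hE hg
  obtain ⟨f2, o2⟩ := zeros_fin (Ω := Ω) hE hg'
  have hm : ∀ w : Place k E Ω, ∃ m : ℤ, w ∈ f1.toFinset ∪ f2.toFinset → w.IsOrd g m := by
    intro w
    by_cases h : w ∈ f1.toFinset ∪ f2.toFinset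
    · rw [Finset.mem_union, Set.Finite.mem_toFinset, Set.Finite.mem_toFinset] at h
      rcases h with h | h
      · obtain ⟨m, hm⟩ := o1 w h
        exact ⟨m, fun _ => hm⟩
      · obtain ⟨m, hm⟩ := o2 w h
        have h3 := Dz.ord_inv hm
        rw [inv_inv] at h3
        exact ⟨-m, fun _ => h3⟩
    · exact ⟨0, fun h' => absurd h' h⟩
  choose m hm using hm
  choose x hx using fun w : Place k E Ω => val_ex hp w
  refine ⟨f1.toFinset ∪ f2.toFinset, m, x, ?_, fun w hw => ⟨hm w hw, hx w⟩⟩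
  intro w hw
  rw [Finset.mem_union, Set.Finite.mem_toFinset, Set.Finite.mem_toFinset, not_or] at hw
  obtain ⟨h1, h2⟩ := hw
  have h3 : ¬ g ∈ w.V.nonunits := h1
  have h4 : ¬ g⁻¹ ∈ w.V.nonunits := h2
  rw [ValuationSubring.mem_nonunits_iff_or, not_or, not_not] at h3 h4
  rw [inv_inv] at h4
  exact ⟨h4.2, h3.2⟩

end Ct
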