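import Pool.Agent.Lib.MP_f80667_ag.Ct.K

/-! # Enough roots of unity -/

set_option autoImplicit false

open PE Finset Polynomial

namespace CV

variable {K Ω : Type} [Field K] [CharZero K] [Field Ω] [Algebra K Ω] [IsAlgClosure K Ω]
  {A B G : Type} [AddCommGroup A] [AddCommGroup B] [AddCommGroup G]
  [DistribMulAction (Ω ≃ₐ[K] Ω) A] [DistribMulAction (Ω ≃ₐ[K] Ω) B]
  {W : Tw K Ω} {p e c : ℕ} {S : Sc K Ω A B G} {X : Lp W p e A} {Y : Lp W p e B}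
  {hp : p ≠ 0} {n : ℕ} {M : IntermediateField K Ω} {α : W.O M → A} {β : W.O M → B}

/-- One may enlarge the field. Proof: `H.mu`: `M'`; `X.nm`: `α x = Nm M M' a'` up to `D M (I + 1)`, `S.nm₁`, `fn_dd`; then `dd_gen`
over `M'` for `a'` and `β y` (`Y.res`), with `H.tr`. -/
theorem to_big (H : Rl W p e c X Y S) (hM : W.U M) (hα : α ∈ X.Ch M) (hβ : β ∈ Y.Ch M) {k : ℕ}
    (hk : ¬p ∣ k) {I J : ℕ} (hI : I ≠ 0) (hJ : J ≠ 0) {x y : W.O M} (hx : W.π M ^ I ∣ x)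
    (hy : W.π M ^ J ∣ y)
    (h : ∀ (M' : IntermediateField K Ω) (α' : W.O M' → A) (β' : W.O M' → B) (x' y' : W.O M'),
      W.U M' → α' ∈ X.Ch M' → β' ∈ Y.Ch M' → W.π M' ^ I ∣ x' → W.π M' ^ J ∣ y' →
      (∃ s : Multiset (W.O M'), Mun k s) → S.sy M' (α' x') (β' y') ∈ Fn X Y S hp n (I + J + 1)) :
    S.sy M (α x) (β y) ∈ Fn X Y S hp n (I + J + 1) := by
  have := W.fd hM
  obtain ⟨M', hM', hmu⟩ := H.mu hM hk
  have hU' := W.up hM hM'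
  have := W.fd hU'
  have hle := W.le hM'
  obtain ⟨a', ha', hd⟩ := X.nm hM hM' hI hα hx
  have h1 := X.fx hM (X.chD hM hα hI hx)
  have hβy := Y.chD hM hβ hJ hy
  have h2 := Y.fx hM hβy
  have h3 := X.fx hU' ha'
  have h4 : Fx M (Nm M M' a') := nm_fx hle h3
  have e1 : S.sy M (α x) (β y) = S.sy M' a' (β y) + S.sy M (α x - Nm M M' a') (β y) := by
    rw [sy_sub₁ h1 h4 h2, S.nm₁ M M' a' (β y) hle h3 h2]
    abel
  rw [e1]
  refine (Fn X Y S hp n (I + J + 1)).add_mem ?_ (fn_anti (by omega)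
    (fn_dd H.nul₁ H.nul₂ hM (Nat.succ_ne_zero I) hJ hd hβy))
  refine dd_gen H.nul₁ H.nul₂ hU' hI hJ ha' (Y.res hM hM' hJ hβy) ?_
  rintro M₁ α' β' x' y' hU₁ ⟨M₂, h5, h6⟩ hα' hβ' hx' hy'
  obtain ⟨s, h7, h8, h9⟩ := hmu M₁ (H.tr h5 h6)
  exact h M₁ α' β' x' y' hU₁ hα' hβ' hx' hy' ⟨s, h7, h8, h9⟩

end CV
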