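import Pool.Agent.Lib.MP_f80667_ag.Ct.KA

/-! # The line and the four point relation -/

set_option autoImplicit false

open PE Finset Polynomial

namespace CV

variable {K Ω : Type} [Field K] [CharZero K] [Field Ω] [Algebra K Ω] [IsAlgClosure K Ω]
  {A B G : Type} [AddCommGroup A] [AddCommGroup B] [AddCommGroup G]
  [DistribMulAction (Ω ≃ₐ[K] Ω) A] [DistribMulAction (Ω ≃ₐ[K] Ω) B]
  {W : Tw K Ω} {p e c : ℕ} {S : Sc K Ω A B G} {X : Lp W p e A} {Y : Lp W p e B}
  {hp : p ≠ 0} {n : ℕ} {M : IntermediateField K Ω} {α : W.O M → A} {β : W.O M → B}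

/-- The line. Proof: `cx` with `a = 1`, `s = {w, w'}`, `t = {0, w + w'}`, `N = I + J` (`lin_pair`), `psn_le`, `ch_zero₁`, and
`expand` with `k = 1`. -/
theorem line (H : Rl W p e c X Y S) (hM : W.U M) (hα : α ∈ X.Ch M) (hβ : β ∈ Y.Ch M) (x y : W.O M)
    {w w' : W.O M} {I J : ℕ} (hI : I ≠ 0) (hJ : J ≠ 0) (hw : W.π M ^ I ∣ w)
    (hw' : W.π M ^ J ∣ w') :
    S.sy M (α (x * w)) (β (y * w')) + S.sy M (α (x * w')) (β (y * w)) ∈
      Fn X Y S hp n (I + J + 1) := by
  have h0 : W.π M ∣ w := (dvd_pow_self _ hI).trans hw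
  have h0' : W.π M ∣ w' := (dvd_pow_self _ hJ).trans hw'
  have h1 := H.cx x y 1 (I + J) {w, w'} {0, w + w'} hM hα hβ one_ne_zero (by omega) rfl
    (by
      intro z hz
      simp only [Multiset.insert_eq_cons, Multiset.mem_cons, Multiset.mem_singleton] at hz
      rcases hz with rfl | rfl
      · exact h0
      · exact h0')
    (by
      intro z hz
      simp only [Multiset.insert_eq_cons, Multiset.mem_cons, Multiset.mem_singleton] at hz
      rcases hz with rfl | rfl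
      · exact dvd_zero _
      · exact dvd_add h0 h0')
    (by
      rw [lin_pair, pow_add]
      exact map_dvd C (mul_dvd_mul hw hw'))
  have h2 := psn_le (hp := hp) (n := n) H.nul₁ H.nul₂ (show I + J ≠ 0 by omega) h1
  simp only [Multiset.insert_eq_cons, Multiset.map_cons, Multiset.map_singleton,
    Multiset.sum_cons, Multiset.sum_singleton, pow_one, mul_zero] at h2
  have h3 := expand (hp := hp) (n := n) H hM hα hβ x y (k := 1) hI hJ (by omega) (by omega) hw hw'
  have h4 : S.sy M (α 0) (β 0) ∈ Fn X Y S hp n (I + J + 1) :=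
    ch_zero₁ H hM hα hβ one_ne_zero (dvd_zero _) _
  have h5 := (Fn X Y S hp n (I + J + 1)).neg_mem (add_mem (add_mem h2 h3) h4)
  refine (congrArg (fun g => g ∈ Fn X Y S hp n (I + J + 1)) ?_).mp h5
  abel

/-- Proof: `key`, `psn_le`, `expand` with `I = J = k = h`. -/
theorem key_T (H : Rl W p e c X Y S) (hM : W.U M) (hα : α ∈ X.Ch M) (hβ : β ∈ Y.Ch M)
    (x y : W.O M) {h : ℕ} (hh : h ≠ 0) : ∃ Φ : W.O M → G, ∀ w w' : W.O M,
    W.π M ^ h ∣ w → W.π M ^ h ∣ w' →
    S.sy M (α (x * w)) (β (y * w')) + S.sy M (α (x * w')) (β (y * w)) + Φ (w * w') ∈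
      Fn X Y S hp n (3 * h) := by
  obtain ⟨Φ, hΦ⟩ := H.key x y h hM hα hβ hh
  refine ⟨Φ, fun w w' hw hw' => ?_⟩
  have h2 := fn_anti (show 3 * h ≤ 3 * h + 1 by omega)
    (psn_le (hp := hp) (n := n) H.nul₁ H.nul₂ (show 3 * h ≠ 0 by omega) (hΦ w w' hw hw'))
  have h3 := expand (hp := hp) (n := n) H hM hα hβ x y (k := h) hh hh le_rfl le_rfl hw hw'
  rw [show h + h + h = 3 * h by ring] at h3
  have h5 := sub_mem h2 h3
  refine (congrArg (fun g => g ∈ Fn X Y S hp n (3 * h)) ?_).mp h5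
  abel

end CV
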