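import Pool.Agent.Lib.MP_f80667_ag.Ct.EA
import Pool.Agent.Lib.MP_f80667_ag.Ct.KB

/-! # Balance -/

set_option autoImplicit false

open PE Finset Polynomial

namespace CV

variable {K Ω : Type} [Field K] [CharZero K] [Field Ω] [Algebra K Ω] [IsAlgClosure K Ω]
  {A B G : Type} [AddCommGroup A] [AddCommGroup B] [AddCommGroup G]
  [DistribMulAction (Ω ≃ₐ[K] Ω) A] [DistribMulAction (Ω ≃ₐ[K] Ω) B]
  {W : Tw K Ω} {p e c : ℕ} {S : Sc K Ω A B G} {X : Lp W p e A} {Y : Lp W p e B}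
  {hp : p ≠ 0} {n : ℕ} {M : IntermediateField K Ω} {α : W.O M → A} {β : W.O M → B}

/-- Balance. Proof: `line` for `(x u, y)`, `w = π ^ I`, `w' = π ^ J v` and for `(x u v, y)`, `w = π ^ J`, `w' = π ^ I`. -/
theorem bal (H : Rl W p e c X Y S) (hM : W.U M) (hα : α ∈ X.Ch M) (hβ : β ∈ Y.Ch M) {I J : ℕ}
    (hI : I ≠ 0) (hJ : J ≠ 0) (x y u v : W.O M) :
    S.sy M (α (W.π M ^ I * (x * u))) (β (W.π M ^ J * (y * v))) -
      S.sy M (α (W.π M ^ I * (x * u * v))) (β (W.π M ^ J * y)) ∈ Fn X Y S hp n (I + J + 1) := by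
  have h1 := line (hp := hp) (n := n) H hM hα hβ (x * u) y hI hJ (dvd_refl (W.π M ^ I))
    (dvd_mul_right (W.π M ^ J) v)
  have h2 := line (hp := hp) (n := n) H hM hα hβ (x * u * v) y hJ hI (dvd_refl (W.π M ^ J))
    (dvd_refl (W.π M ^ I))
  rw [show J + I + 1 = I + J + 1 by omega] at h2
  have h3 := sub_mem h1 h2
  rw [show x * u * W.π M ^ I = W.π M ^ I * (x * u) by ring,
    show y * (W.π M ^ J * v) = W.π M ^ J * (y * v) by ring,
    show x * u * (W.π M ^ J * v) = x * u * v * W.π M ^ J by ring,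
    show x * u * v * W.π M ^ I = W.π M ^ I * (x * u * v) by ring,
    show y * W.π M ^ J = W.π M ^ J * y by ring] at h3
  refine (congrArg (fun g => g ∈ Fn X Y S hp n (I + J + 1)) ?_).mp h3
  abel

end CV
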