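import Pool.Agent.Lib.MP_f80667_ag.Ct.PA

/-! # The relation from `z ^ (a + 1) - w ^ a z` -/

set_option autoImplicit false

open PE Finset Polynomial

namespace CV

variable {K Ω : Type} [Field K] [CharZero K] [Field Ω] [Algebra K Ω] [IsAlgClosure K Ω]
  {A B G : Type} [AddCommGroup A] [AddCommGroup B] [AddCommGroup G]
  [DistribMulAction (Ω ≃ₐ[K] Ω) A] [DistribMulAction (Ω ≃ₐ[K] Ω) B]
  {W : Tw K Ω} {p e c : ℕ} {S : Sc K Ω A B G} {X : Lp W p e A} {Y : Lp W p e B}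
  {hp : p ≠ 0} {n : ℕ} {M : IntermediateField K Ω} {α : W.O M → A} {β : W.O M → B}

/-- The first two terms of the power of a sum. -/
private theorem add_pow_two {R : Type} [CommRing R] (z q : R) (a : ℕ) :
    ∃ r : R, (z + q) ^ (a + 1) = z ^ (a + 1) + (a + 1 : ℕ) * z ^ a * q + q ^ 2 * r := by
  induction a with
  | zero => exact ⟨0, by simp⟩
  | succ a ih =>
    obtain ⟨r, hr⟩ := ih
    refine ⟨(a + 1) * z ^ a + z * r + q * r, ?_⟩
    rw [pow_succ, hr]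
    push_cast
    ring

/-- One root `z + η`, `z` a root of unity of order `a`, `a η ≡ π ^ t`. -/
theorem as_term (H : Rl W p e c X Y S) (hM : W.U M) (hα : α ∈ X.Ch M) (hβ : β ∈ Y.Ch M)
    {a j t : ℕ} (ha : a ≠ 0) (hj : j ≠ 0) (ht : t ≠ 0) (x y : W.O M) {z η : W.O M}
    (hz : z ^ a = 1) (hη : W.π M ^ t ∣ η) (hη' : W.π M * W.π M ^ t ∣ a * η - W.π M ^ t) :
    a • (S.sy M (α (x * ((z + η) * W.π M ^ j) ^ a)) (β (y * ((z + η) * W.π M ^ j))) -
      S.sy M (α (x * (z * W.π M ^ j) ^ a)) (β (y * (z * W.π M ^ j)))) -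
      (a • S.sy M (α (W.π M ^ (a * j + t) * x)) (β (W.π M ^ j * y)) +
        S.sy M (α (W.π M ^ (a * j) * x)) (β (W.π M ^ (j + t) * y))) ∈
        Fn X Y S hp n ((a + 1) * j + t + 1) := by
  have hfd := W.fd hM
  obtain ⟨V, hV⟩ : ∃ V, V = Fn X Y S hp n ((a + 1) * j + t + 1) := ⟨_, rfl⟩
  have haj : 0 < a * j := Nat.mul_pos (Nat.pos_of_ne_zero ha) (Nat.pos_of_ne_zero hj)
  have hN : (a + 1) * j = a * j + j := by ring
  obtain ⟨b, rfl⟩ := Nat.exists_eq_succ_of_ne_zero ha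
  obtain ⟨r, hr⟩ := add_pow_two z η b
  obtain ⟨g, hg⟩ := hη'
  rw [Nat.succ_eq_add_one] at *
  -- the elements
  obtain ⟨X0, hX0⟩ : ∃ X0, X0 = W.π M ^ ((b + 1) * j) * x := ⟨_, rfl⟩
  obtain ⟨X1, hX1⟩ : ∃ X1, X1 = W.π M ^ ((b + 1) * j + t) * (x * z ^ b) := ⟨_, rfl⟩
  obtain ⟨X2, hX2⟩ : ∃ X2, X2 = W.π M ^ ((b + 1) * j) * x * z ^ b * (W.π M * W.π M ^ t * g) +
    W.π M ^ ((b + 1) * j) * x * (η ^ 2 * r) := ⟨_, rfl⟩
  obtain ⟨Y0, hY0⟩ : ∃ Y0, Y0 = W.π M ^ j * (y * z) := ⟨_, rfl⟩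
  obtain ⟨Y1, hY1⟩ : ∃ Y1, Y1 = W.π M ^ j * y * η := ⟨_, rfl⟩
  have haη : ((b + 1 : ℕ) : W.O M) * η = W.π M ^ t + W.π M * W.π M ^ t * g := by
    rw [← hg]
    ring
  have eX : x * ((z + η) * W.π M ^ j) ^ (b + 1) = X0 + (X1 + X2) := by
    have e1 : ((z + η) * W.π M ^ j) ^ (b + 1) =
        (z ^ (b + 1) + z ^ b * (((b + 1 : ℕ) : W.O M) * η) + η ^ 2 * r) *
          W.π M ^ ((b + 1) * j) := by
      rw [mul_pow, hr, ← pow_mul, mul_comm j]
      ring
    rw [e1, hz, haη, hX0, hX1, hX2, pow_add (W.π M) _ t]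
    ring
  have eX0 : x * (z * W.π M ^ j) ^ (b + 1) = X0 := by
    rw [mul_pow, hz, one_mul, ← pow_mul, mul_comm j, hX0, mul_comm]
  have eY : y * ((z + η) * W.π M ^ j) = Y0 + Y1 := by
    rw [hY0, hY1]
    ring
  have eY0 : y * (z * W.π M ^ j) = Y0 := by
    rw [hY0]
    ring
  have dX0 : W.π M ^ ((b + 1) * j) ∣ X0 := hX0 ▸ dvd_mul_right _ _
  have dX1 : W.π M ^ ((b + 1) * j + t) ∣ X1 := hX1 ▸ dvd_mul_right _ _
  have dX2 : W.π M ^ ((b + 1) * j + t + 1) ∣ X2 := by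
    rw [hX2]
    refine dvd_add ?_ ?_
    · refine ⟨x * z ^ b * g, ?_⟩
      rw [pow_succ, pow_add]
      ring
    · obtain ⟨η₀, rfl⟩ := hη
      have h1 : W.π M ^ (t + 1) ∣ (W.π M ^ t * η₀) ^ 2 * r := by
        rw [mul_pow, ← pow_mul]
        exact ((pow_dvd_pow _ (by omega)).mul_right _).mul_right _
      rw [add_assoc, pow_add]
      exact mul_dvd_mul (dvd_mul_right _ _) h1
  have dX12 : W.π M ^ ((b + 1) * j + t) ∣ X1 + X2 :=
    dvd_add dX1 ((pow_dvd_pow _ (by omega)).trans dX2)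
  have dY0 : W.π M ^ j ∣ Y0 := hY0 ▸ dvd_mul_right _ _
  have dY1 : W.π M ^ (j + t) ∣ Y1 := by
    rw [hY1, pow_add]
    exact mul_dvd_mul (dvd_mul_right _ _) hη
  have dY : W.π M ^ j ∣ Y0 + Y1 := dvd_add dY0 ((pow_dvd_pow _ (by omega)).trans dY1)
  -- the terms
  have h1 : S.sy M (α (X0 + (X1 + X2))) (β (Y0 + Y1)) - S.sy M (α X0) (β (Y0 + Y1)) -
      S.sy M (α (X1 + X2)) (β (Y0 + Y1)) ∈ V := by
    rw [hV]
    exact fn_anti (by omega) (fn_add₁ (hp := hp) (n := n) H.nul₁ H.nul₂ hM hα hβ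
      (show (b + 1) * j ≠ 0 by omega) (show (b + 1) * j + t ≠ 0 by omega) hj dX0 dX12 dY)
  have h2 : S.sy M (α X0) (β (Y0 + Y1)) - S.sy M (α X0) (β Y0) - S.sy M (α X0) (β Y1) ∈ V := by
    rw [hV]
    exact fn_anti (by omega) (fn_add₂ (hp := hp) (n := n) H.nul₁ H.nul₂ hM hα hβ hj
      (show j + t ≠ 0 by omega) (show (b + 1) * j ≠ 0 by omega) dY0 dY1 dX0)
  have h4 : S.sy M (α (X1 + X2)) (β (Y0 + Y1)) - S.sy M (α (X1 + X2)) (β Y0) -
      S.sy M (α (X1 + X2)) (β Y1) ∈ V := by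
    rw [hV]
    exact fn_anti (by omega) (fn_add₂ (hp := hp) (n := n) H.nul₁ H.nul₂ hM hα hβ hj
      (show j + t ≠ 0 by omega) (show (b + 1) * j + t ≠ 0 by omega) dY0 dY1 dX12)
  have h5 : S.sy M (α (X1 + X2)) (β Y1) ∈ V := by
    rw [hV]
    exact fn_anti (by omega) (ch_mem (hp := hp) (n := n) H hM hα hβ
      (show (b + 1) * j + t ≠ 0 by omega) (show j + t ≠ 0 by omega) dX12 dY1)
  have h6 : S.sy M (α (X1 + X2)) (β Y0) - S.sy M (α X1) (β Y0) - S.sy M (α X2) (β Y0) ∈ V := by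
    rw [hV]
    exact fn_anti (by omega) (fn_add₁ (hp := hp) (n := n) H.nul₁ H.nul₂ hM hα hβ
      (show (b + 1) * j + t ≠ 0 by omega) (show (b + 1) * j + t + 1 ≠ 0 by omega) hj dX1 dX2 dY0)
  have h7 : S.sy M (α X2) (β Y0) ∈ V := by
    rw [hV]
    exact fn_anti (by omega) (ch_mem (hp := hp) (n := n) H hM hα hβ
      (show (b + 1) * j + t + 1 ≠ 0 by omega) hj dX2 dY0)
  have h8 : S.sy M (α X1) (β Y0) -
      S.sy M (α (W.π M ^ ((b + 1) * j + t) * x)) (β (W.π M ^ j * y)) ∈ V := by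
    have k1 := bal (hp := hp) (n := n) H hM hα hβ (show (b + 1) * j + t ≠ 0 by omega) hj x y
      (z ^ b) z
    have e3 : x * z ^ b * z = x := by
      rw [mul_assoc, ← pow_succ, hz, mul_one]
    rw [← hX1, ← hY0, e3] at k1
    rw [hV]
    exact fn_anti (by omega) k1
  -- the second variable: `(b + 1) • S(X0, Y1)`
  have h9 : S.sy M (α X0) (β (((b + 1 : ℕ) : W.O M) * Y1)) - (b + 1) • S.sy M (α X0) (β Y1) ∈ V := by
    have k0 : W.π M ^ (j + t) ∣ ((b + 1 : ℕ) : W.O M) * Y1 := dY1.mul_left _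
    have k1 := Y.chD hM hβ (show j + t ≠ 0 by omega) dY1
    have k2 := Y.chD hM hβ (show j + t ≠ 0 by omega) k0
    have k3 := X.chD hM hα (show (b + 1) * j ≠ 0 by omega) dX0
    have k4 := Y.mul (b + 1) hM hβ (show j + t ≠ 0 by omega) dY1
    have k5 := X.fx hM k3
    rw [← sy_smul₂ k5 (Y.fx hM k1), ← sy_sub₂ k5 (Y.fx hM k2) ((Y.fx hM k1).nsmul _), hV]
    exact fn_anti (by omega) (fn_dd H.nul₁ H.nul₂ hM (show (b + 1) * j ≠ 0 by omega)
      (show 2 * (j + t) ≠ 0 by omega) k3 k4)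
  have h10 : S.sy M (α X0) (β (((b + 1 : ℕ) : W.O M) * Y1)) -
      S.sy M (α (W.π M ^ ((b + 1) * j) * x)) (β (W.π M ^ (j + t) * y)) ∈ V := by
    have e1 : ((b + 1 : ℕ) : W.O M) * Y1 =
        W.π M ^ (j + t) * y + W.π M ^ (j + t + 1) * (y * g) := by
      have e2 : ((b + 1 : ℕ) : W.O M) * Y1 = W.π M ^ j * y * (((b + 1 : ℕ) : W.O M) * η) := by
        rw [hY1]
        ring
      rw [e2, haη, pow_succ, pow_add]
      ring
    have k1 := fn_add₂ (hp := hp) (n := n) H.nul₁ H.nul₂ hM hα hβ (show j + t ≠ 0 by omega)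
      (show j + t + 1 ≠ 0 by omega) (show (b + 1) * j ≠ 0 by omega)
      (dvd_mul_right (W.π M ^ (j + t)) y) (dvd_mul_right (W.π M ^ (j + t + 1)) (y * g)) dX0
    have k2 := ch_mem (hp := hp) (n := n) H hM hα hβ (show (b + 1) * j ≠ 0 by omega)
      (show j + t + 1 ≠ 0 by omega) dX0 (dvd_mul_right (W.π M ^ (j + t + 1)) (y * g))
    rw [← e1] at k1
    have k3 := V.add_mem (show _ ∈ V from by
      rw [hV]
      exact fn_anti (by omega) k1) (show _ ∈ V from by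
      rw [hV]
      exact fn_anti (by omega) k2)
    rw [sub_add_cancel] at k3
    rw [← hX0]
    exact k3
  rw [eX, eY, eX0, eY0, ← hV, ← hX0]
  rw [← hX0] at h10
  have h11 : S.sy M (α (X0 + (X1 + X2))) (β (Y0 + Y1)) - S.sy M (α X0) (β Y0) -
      S.sy M (α X0) (β Y1) -
      S.sy M (α (W.π M ^ ((b + 1) * j + t) * x)) (β (W.π M ^ j * y)) ∈ V := by
    have k := V.add_mem (V.add_mem (V.add_mem (V.add_mem (V.add_mem (V.add_mem h1 h2) h4) h5) h6)
      h7) h8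
    refine (congrArg (fun g => g ∈ V) ?_).mp k
    abel
  have h12 := V.add_mem (V.sub_mem (V.nsmul_mem h11 (b + 1)) h9) h10
  refine (congrArg (fun g => g ∈ V) ?_).mp h12
  simp only [smul_sub]
  abel

/-- The relation. Proof: `cx` on `z ↦ (x z ^ a, y z)` for the roots of `z ^ (a + 1) - w ^ a z - w ^ (a + 1) q` and of
`z ^ (a + 1) - w ^ a z`, `w = π ^ j`, `q = π ^ t`. -/
theorem as_rel (H : Rl W p e c X Y S) (hM : W.U M) (hα : α ∈ X.Ch M) (hβ : β ∈ Y.Ch M)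
    {a j t : ℕ} (hpa : ¬p ∣ a) (hj : j ≠ 0) (ht : t ≠ 0) (x y : W.O M)
    {s : Multiset (W.O M)} (hs : Mun a s) :
    a • (a • S.sy M (α (W.π M ^ (a * j + t) * x)) (β (W.π M ^ j * y)) +
      S.sy M (α (W.π M ^ (a * j) * x)) (β (W.π M ^ (j + t) * y))) ∈
        Fn X Y S hp n ((a + 1) * j + t + 1) := by
  have ha : a ≠ 0 := by
    rintro rfl
    exact hpa (dvd_zero p)
  have haj : 0 < a * j := Nat.mul_pos (Nat.pos_of_ne_zero ha) (Nat.pos_of_ne_zero hj)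
  have hN : (a + 1) * j = a * j + j := by ring
  have hπt : W.π M ∣ W.π M ^ t := dvd_pow_self _ ht
  have hπj : W.π M ∣ W.π M ^ j := dvd_pow_self _ hj
  obtain ⟨u, s', hu, hs', hv, hl⟩ := H.as (W.π M ^ t) hM hpa hs hπt
  obtain ⟨hcard, hroot, hlin⟩ := hs
  have hN0 : (a + 1) * j + t ≠ 0 := by omega
  have hc' : s'.card = a := by rw [← hcard, ← hs', Multiset.card_map]
  have e0 : lin (0 ::ₘ s.map (· * W.π M ^ j)) =
      Polynomial.X ^ (a + 1) - C ((W.π M ^ j) ^ a) * Polynomial.X := by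
    rw [lin, Multiset.map_cons, Multiset.prod_cons]
    have e1 : ((s.map (· * W.π M ^ j)).map fun c => Polynomial.X - C c).prod =
        lin (s.map (· * W.π M ^ j)) := rfl
    rw [e1, hlin, C_0]
    ring
  have h1 := H.cx x y a ((a + 1) * j + t)
    ((u * W.π M ^ j) ::ₘ s'.map fun v => (v.1 + v.2) * W.π M ^ j) (0 ::ₘ s.map (· * W.π M ^ j))
    hM hα hβ ha hN0
    (by rw [Multiset.card_cons, Multiset.card_cons, Multiset.card_map, Multiset.card_map, hc',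
      hcard])
    (by
      intro z hz
      rcases Multiset.mem_cons.1 hz with rfl | hz
      · exact hπj.mul_left _
      · obtain ⟨z', -, rfl⟩ := Multiset.mem_map.1 hz
        exact hπj.mul_left _)
    (by
      intro z hz
      rcases Multiset.mem_cons.1 hz with rfl | hz
      · exact dvd_zero _
      · obtain ⟨z', -, rfl⟩ := Multiset.mem_map.1 hz
        exact hπj.mul_left _)
    (by
      rw [hl, e0]
      have e : Polynomial.X ^ (a + 1) - C ((W.π M ^ j) ^ a) * Polynomial.X -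
          C ((W.π M ^ j) ^ (a + 1) * W.π M ^ t) -
          (Polynomial.X ^ (a + 1) - C ((W.π M ^ j) ^ a) * Polynomial.X) =
          C (-((W.π M ^ j) ^ (a + 1) * W.π M ^ t)) := by
        rw [C_neg]
        ring
      rw [e]
      refine map_dvd C ?_
      rw [dvd_neg, ← pow_mul, ← pow_add, mul_comm j])
  have h2 := psn_le (hp := hp) (n := n) H.nul₁ H.nul₂ hN0 h1
  rw [Multiset.map_cons, Multiset.map_cons, Multiset.sum_cons, Multiset.sum_cons,
    Multiset.map_map, Multiset.map_map, ← hs', Multiset.map_map] at h2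
  -- the roots `u w` and `0`
  have h3 : S.sy M (α (x * (u * W.π M ^ j) ^ a)) (β (y * (u * W.π M ^ j))) ∈
      Fn X Y S hp n ((a + 1) * j + t + 1) := by
    have d1 : W.π M ^ (j + t) ∣ u * W.π M ^ j := by
      rw [add_comm, pow_add]
      exact mul_dvd_mul hu dvd_rfl
    have d2 : W.π M ^ (a * (j + t)) ∣ x * (u * W.π M ^ j) ^ a := by
      rw [mul_comm a, pow_mul]
      exact (pow_dvd_pow_of_dvd d1 a).mul_left _
    have e1 : a * (j + t) = a * j + a * t := by ring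
    have e2 : 0 < a * t := Nat.mul_pos (Nat.pos_of_ne_zero ha) (Nat.pos_of_ne_zero ht)
    exact fn_anti (by omega) (ch_mem (hp := hp) (n := n) H hM hα hβ
      (show a * (j + t) ≠ 0 by omega) (show j + t ≠ 0 by omega) d2 (d1.mul_left y))
  have h4 : S.sy M (α (x * 0 ^ a)) (β (y * 0)) ∈ Fn X Y S hp n ((a + 1) * j + t + 1) := by
    rw [zero_pow ha, mul_zero, mul_zero]
    exact fn_anti (show (a + 1) * j + t + 1 ≤ ((a + 1) * j + t + 1) + 1 by omega)
      (ch_mem (hp := hp) (n := n) H hM hα hβ (by omega) one_ne_zero (dvd_zero _) (dvd_zero _))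
  -- the sum of `as_term`
  have h5 : (s'.map fun v => a • (S.sy M (α (x * ((v.1 + v.2) * W.π M ^ j) ^ a))
        (β (y * ((v.1 + v.2) * W.π M ^ j))) -
      S.sy M (α (x * (v.1 * W.π M ^ j) ^ a)) (β (y * (v.1 * W.π M ^ j)))) -
      (a • S.sy M (α (W.π M ^ (a * j + t) * x)) (β (W.π M ^ j * y)) +
        S.sy M (α (W.π M ^ (a * j) * x)) (β (W.π M ^ (j + t) * y)))).sum ∈
      Fn X Y S hp n ((a + 1) * j + t + 1) := by
    refine AddSubgroup.multiset_sum_mem _ _ ?_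
    intro g hg
    obtain ⟨v, hv', rfl⟩ := Multiset.mem_map.1 hg
    have hv1 : v.1 ∈ s := by
      rw [← hs']
      exact Multiset.mem_map_of_mem _ hv'
    exact as_term H hM hα hβ ha hj ht x y (hroot _ hv1) (hv v hv').1 (hv v hv').2
  rw [Multiset.sum_map_sub, Multiset.map_const', Multiset.sum_replicate, hc',
    Multiset.sum_map_nsmul, Multiset.sum_map_sub] at h5
  have h6 := AddSubgroup.nsmul_mem _ (sub_mem (add_mem h2 h4) h3) a
  have h7 := sub_mem h6 h5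
  refine (congrArg (fun g => g ∈ Fn X Y S hp n ((a + 1) * j + t + 1)) ?_).mp h7
  simp only [Function.comp_def]
  have e3 : ∀ (P Q R U : G) (T : G), a • (P + Q - (R + U) + R - P) - (a • (Q - U) - T) = T := by
    intro P Q R U T
    have e4 : P + Q - (R + U) + R - P = Q - U := by abel
    rw [e4]
    abel
  exact e3 _ _ _ _ _

end CV
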