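import Pool.Agent.Lib.MP_f80667_ag.Ct.KB

/-! # The bilinear map modulo weight `3 h` -/

set_option autoImplicit false

open PE Finset Polynomial

namespace CV

variable {K Ω : Type} [Field K] [CharZero K] [Field Ω] [Algebra K Ω] [IsAlgClosure K Ω]
  {A B G : Type} [AddCommGroup A] [AddCommGroup B] [AddCommGroup G]
  [DistribMulAction (Ω ≃ₐ[K] Ω) A] [DistribMulAction (Ω ≃ₐ[K] Ω) B]
  {W : Tw K Ω} {p e c : ℕ} {S : Sc K Ω A B G} {X : Lp W p e A} {Y : Lp W p e B}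
  {hp : p ≠ 0} {n : ℕ} {M : IntermediateField K Ω} {α : W.O M → A} {β : W.O M → B}

/-- The bilinear map `B u v = S(π ^ h u, π ^ h v)` modulo weight `3 h`. Proof of additivity: `fn_add₁`, `fn_add₂`. -/
theorem exists_B (H : Rl W p e c X Y S) (hM : W.U M) (hα : α ∈ X.Ch M) (hβ : β ∈ Y.Ch M)
    {h : ℕ} (hh : h ≠ 0) : ∃ B : W.O M →+ W.O M →+ G ⧸ Fn X Y S hp n (3 * h), ∀ u v,
      B u v = QuotientAddGroup.mk (S.sy M (α (W.π M ^ h * u)) (β (W.π M ^ h * v))) := by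
  have hd : ∀ u : W.O M, W.π M ^ h ∣ W.π M ^ h * u := fun u => Dvd.intro u rfl
  have hk1 : h + h + h = 3 * h := by omega
  have hk2 : h + (h + h) = 3 * h := by omega
  refine ⟨AddMonoidHom.mk' (fun u => AddMonoidHom.mk' (fun v =>
    (QuotientAddGroup.mk (S.sy M (α (W.π M ^ h * u)) (β (W.π M ^ h * v))) :
      G ⧸ Fn X Y S hp n (3 * h))) ?_) ?_, fun u v => rfl⟩
  · intro v v'
    have h1 := fn_add₂ (hp := hp) (n := n) H.nul₁ H.nul₂ hM hα hβ hh hh hh (hd v) (hd v') (hd u)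
    rw [hk2, ← mul_add] at h1
    rw [← QuotientAddGroup.mk_add, eq_comm, QuotientAddGroup.eq]
    have e1 : -(S.sy M (α (W.π M ^ h * u)) (β (W.π M ^ h * v)) +
        S.sy M (α (W.π M ^ h * u)) (β (W.π M ^ h * v'))) +
        S.sy M (α (W.π M ^ h * u)) (β (W.π M ^ h * (v + v'))) =
        S.sy M (α (W.π M ^ h * u)) (β (W.π M ^ h * (v + v'))) -
        S.sy M (α (W.π M ^ h * u)) (β (W.π M ^ h * v)) -
        S.sy M (α (W.π M ^ h * u)) (β (W.π M ^ h * v')) := by abel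
    rw [e1]
    exact h1
  · intro u u'
    refine AddMonoidHom.ext fun v => ?_
    have h1 := fn_add₁ (hp := hp) (n := n) H.nul₁ H.nul₂ hM hα hβ hh hh hh (hd u) (hd u') (hd v)
    rw [hk1, ← mul_add] at h1
    change (QuotientAddGroup.mk (S.sy M (α (W.π M ^ h * (u + u'))) (β (W.π M ^ h * v))) :
      G ⧸ Fn X Y S hp n (3 * h)) =
      QuotientAddGroup.mk (S.sy M (α (W.π M ^ h * u)) (β (W.π M ^ h * v))) +
      QuotientAddGroup.mk (S.sy M (α (W.π M ^ h * u')) (β (W.π M ^ h * v)))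
    rw [← QuotientAddGroup.mk_add, eq_comm, QuotientAddGroup.eq]
    have e1 : -(S.sy M (α (W.π M ^ h * u)) (β (W.π M ^ h * v)) +
        S.sy M (α (W.π M ^ h * u')) (β (W.π M ^ h * v))) +
        S.sy M (α (W.π M ^ h * (u + u'))) (β (W.π M ^ h * v)) =
        S.sy M (α (W.π M ^ h * (u + u'))) (β (W.π M ^ h * v)) -
        S.sy M (α (W.π M ^ h * u)) (β (W.π M ^ h * v)) -
        S.sy M (α (W.π M ^ h * u')) (β (W.π M ^ h * v)) := by abel
    rw [e1]
    exact h1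

/-- The identity of `bil_kill` for the representatives. -/
private theorem kc_E (H : Rl W p e c X Y S) (hM : W.U M) (hα : α ∈ X.Ch M) (hβ : β ∈ Y.Ch M)
    {h : ℕ} (hh : h ≠ 0) (x y w v : W.O M) :
    (S.sy M (α (W.π M ^ h * (x * w))) (β (W.π M ^ h * (y * v))) +
      S.sy M (α (W.π M ^ h * (x * v))) (β (W.π M ^ h * (y * w)))) -
    (S.sy M (α (W.π M ^ h * (x * w * v))) (β (W.π M ^ h * y)) +
      S.sy M (α (W.π M ^ h * x)) (β (W.π M ^ h * (y * w * v)))) ∈ Fn X Y S hp n (3 * h) := by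
  obtain ⟨Φ, hΦ⟩ := key_T (hp := hp) (n := n) H hM hα hβ x y hh
  have h1 := hΦ (W.π M ^ h * w) (W.π M ^ h * v) (Dvd.intro _ rfl) (Dvd.intro _ rfl)
  have h2 := hΦ (W.π M ^ h * (w * v)) (W.π M ^ h) (Dvd.intro _ rfl) dvd_rfl
  have e0 : W.π M ^ h * (w * v) * W.π M ^ h = W.π M ^ h * w * (W.π M ^ h * v) := by ring
  have e1 : x * (W.π M ^ h * w) = W.π M ^ h * (x * w) := by ring
  have e2 : y * (W.π M ^ h * v) = W.π M ^ h * (y * v) := by ring
  have e3 : x * (W.π M ^ h * v) = W.π M ^ h * (x * v) := by ring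
  have e4 : y * (W.π M ^ h * w) = W.π M ^ h * (y * w) := by ring
  have e5 : x * (W.π M ^ h * (w * v)) = W.π M ^ h * (x * w * v) := by ring
  have e6 : y * W.π M ^ h = W.π M ^ h * y := mul_comm _ _
  have e7 : x * W.π M ^ h = W.π M ^ h * x := mul_comm _ _
  have e8 : y * (W.π M ^ h * (w * v)) = W.π M ^ h * (y * w * v) := by ring
  rw [e1, e2, e3, e4] at h1
  rw [e0, e5, e6, e7, e8] at h2
  have h3 := (Fn X Y S hp n (3 * h)).sub_mem h1 h2
  rw [add_sub_add_right_eq_sub] at h3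
  exact h3

/-- Proof: `exists_B`; the identity of `bil_kill` is `key_T` for the two pairs `(π ^ h w, π ^ h v)`, `(π ^ h w v, π ^ h)` with the
same product; the quotient is killed by `p ^ n` on the values of `B` (`ch_T`, `pT_le`): replace `G` by the image of `T`, or apply
`bil_kill` to `B` with values in the subgroup of the elements killed by `p ^ n`; `g` is `S(π ^ h u v, π ^ h) + S(π ^ h, π ^ h u v)`
(`line` with `x = y = 1`). -/
theorem two_pc (H : Rl W p e c X Y S) (hM : W.U M) (hα : α ∈ X.Ch M) (hβ : β ∈ Y.Ch M)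
    {h i j : ℕ} (hh : h ≠ 0) {x y : W.O M} (hx : W.π M ^ (h + i) ∣ x) (hy : W.π M ^ (h + j) ∣ y) :
    ∃ g ∈ Fn X Y S hp n (2 * h + i + j + 1),
      (2 * p ^ c) • S.sy M (α x) (β y) - p ^ c • g ∈ Fn X Y S hp n (3 * h) := by
  obtain ⟨b, hb⟩ := exists_B (hp := hp) (n := n) H hM hα hβ hh
  obtain ⟨x', rfl⟩ := hx
  obtain ⟨y', rfl⟩ := hy
  obtain ⟨V, hV⟩ : ∃ V : AddSubgroup (G ⧸ Fn X Y S hp n (3 * h)),
      ∀ z, z ∈ V ↔ p ^ n • z = 0 :=
    ⟨(nsmulAddMonoidHom (p ^ n)).ker, fun z => AddMonoidHom.mem_ker⟩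
  have hbV : ∀ u v, b u v ∈ V := by
    intro u v
    rw [hV, hb, ← QuotientAddGroup.mk_nsmul, QuotientAddGroup.eq_zero_iff]
    exact pT_le _ (smul_mem_mulT (ch_T H hM hα hβ hh hh (Dvd.intro _ rfl) (Dvd.intro _ rfl)))
  let b' : W.O M →+ W.O M →+ V := AddMonoidHom.mk' (fun u => AddMonoidHom.mk'
    (fun v => (⟨b u v, hbV u v⟩ : V)) (fun v v' => Subtype.ext (map_add (b u) v v')))
    (fun u u' => AddMonoidHom.ext fun v => Subtype.ext
      (DFunLike.congr_fun (map_add b u u') v))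
  have hb' : ∀ u v, ((b' u v : V) : G ⧸ Fn X Y S hp n (3 * h)) = b u v := fun u v => rfl
  have hk := bil_kill (H.dk M hM) (fun a : V => Subtype.ext ((hV a).1 a.2)) b' (fun x y w v => by
    refine Subtype.ext ?_
    rw [AddSubgroup.coe_add, AddSubgroup.coe_add, hb', hb', hb', hb', hb, hb, hb, hb,
      ← QuotientAddGroup.mk_add, ← QuotientAddGroup.mk_add, eq_comm, QuotientAddGroup.eq,
      neg_add_eq_sub]
    exact kc_E H hM hα hβ hh x y w v) (W.π M ^ i * x') (W.π M ^ j * y')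
  have hk2 := congrArg (fun z : V => (z : G ⧸ Fn X Y S hp n (3 * h))) hk
  simp only [AddSubgroup.coe_nsmul, AddSubgroup.coe_add, hb', hb] at hk2
  have e1 : W.π M ^ h * (W.π M ^ i * x') = W.π M ^ (h + i) * x' := by rw [pow_add, mul_assoc]
  have e2 : W.π M ^ h * (W.π M ^ j * y') = W.π M ^ (h + j) * y' := by rw [pow_add, mul_assoc]
  rw [e1, e2, mul_one] at hk2
  have hI : W.π M ^ (h + i + j) ∣ W.π M ^ h * (W.π M ^ i * x' * (W.π M ^ j * y')) :=
    ⟨x' * y', by rw [pow_add, pow_add]; ring⟩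
  have hl := line (hp := hp) (n := n) H hM hα hβ 1 1 (w := W.π M ^ h * (W.π M ^ i * x' *
    (W.π M ^ j * y'))) (w' := W.π M ^ h) (I := h + i + j) (J := h) (by omega) hh hI dvd_rfl
  rw [one_mul, one_mul] at hl
  have e3 : h + i + j + h + 1 = 2 * h + i + j + 1 := by omega
  rw [e3] at hl
  refine ⟨_, hl, ?_⟩
  rw [← QuotientAddGroup.mk_nsmul, ← QuotientAddGroup.mk_add, ← QuotientAddGroup.mk_nsmul,
    eq_comm, QuotientAddGroup.eq, neg_add_eq_sub] at hk2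
  exact hk2

/-- `p ^ c S(π ^ h u, π ^ h v)` depends only on `u v` modulo weight `3 h` (`bil_left`). -/
theorem pc_uv (H : Rl W p e c X Y S) (hM : W.U M) (hα : α ∈ X.Ch M) (hβ : β ∈ Y.Ch M)
    {h : ℕ} (hh : h ≠ 0) (u v : W.O M) :
    p ^ c • S.sy M (α (W.π M ^ h * u)) (β (W.π M ^ h * v)) -
      p ^ c • S.sy M (α (W.π M ^ h * (u * v))) (β (W.π M ^ h)) ∈ Fn X Y S hp n (3 * h) := by
  obtain ⟨b, hb⟩ := exists_B (hp := hp) (n := n) H hM hα hβ hh
  obtain ⟨V, hV⟩ : ∃ V : AddSubgroup (G ⧸ Fn X Y S hp n (3 * h)),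
      ∀ z, z ∈ V ↔ p ^ n • z = 0 :=
    ⟨(nsmulAddMonoidHom (p ^ n)).ker, fun z => AddMonoidHom.mem_ker⟩
  have hbV : ∀ u v, b u v ∈ V := by
    intro u v
    rw [hV, hb, ← QuotientAddGroup.mk_nsmul, QuotientAddGroup.eq_zero_iff]
    exact pT_le _ (smul_mem_mulT (ch_T H hM hα hβ hh hh (Dvd.intro _ rfl) (Dvd.intro _ rfl)))
  let b' : W.O M →+ W.O M →+ V := AddMonoidHom.mk' (fun u => AddMonoidHom.mk'
    (fun v => (⟨b u v, hbV u v⟩ : V)) (fun v v' => Subtype.ext (map_add (b u) v v')))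
    (fun u u' => AddMonoidHom.ext fun v => Subtype.ext
      (DFunLike.congr_fun (map_add b u u') v))
  have hb' : ∀ u v, ((b' u v : V) : G ⧸ Fn X Y S hp n (3 * h)) = b u v := fun u v => rfl
  have hk := bil_left (H.dk M hM) (fun a : V => Subtype.ext ((hV a).1 a.2)) b' (fun x y w v => by
    refine Subtype.ext ?_
    rw [AddSubgroup.coe_add, AddSubgroup.coe_add, hb', hb', hb', hb', hb, hb, hb, hb,
      ← QuotientAddGroup.mk_add, ← QuotientAddGroup.mk_add, eq_comm, QuotientAddGroup.eq,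
      neg_add_eq_sub]
    exact kc_E H hM hα hβ hh x y w v) u v
  have hk2 := congrArg (fun z : V => (z : G ⧸ Fn X Y S hp n (3 * h))) hk
  simp only [AddSubgroup.coe_nsmul, hb', hb] at hk2
  rw [mul_one] at hk2
  rw [← QuotientAddGroup.mk_nsmul, ← QuotientAddGroup.mk_nsmul, eq_comm, QuotientAddGroup.eq,
    neg_add_eq_sub] at hk2
  exact hk2

end CV
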