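import Pool.Agent.Lib.MP_f80667_ag.Ct.MA
import Pool.Agent.Lib.MP_f80667_ag.Ct.KC

/-! # Multiplication by powers of `p` -/

set_option autoImplicit false

open PE Finset Polynomial

namespace CV

variable {K Ω : Type} [Field K] [CharZero K] [Field Ω] [Algebra K Ω] [IsAlgClosure K Ω]
  {A B G : Type} [AddCommGroup A] [AddCommGroup B] [AddCommGroup G]
  [DistribMulAction (Ω ≃ₐ[K] Ω) A] [DistribMulAction (Ω ≃ₐ[K] Ω) B]
  {W : Tw K Ω} {p e c : ℕ} {S : Sc K Ω A B G} {X : Lp W p e A} {Y : Lp W p e B}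
  {hp : p ≠ 0} {n : ℕ} {M : IntermediateField K Ω}

/-- Proof: `fn_p` iterated. -/
theorem fn_pk (H : Rl W p e c X Y S) (k : ℕ) {s : ℕ} (hs : 2 * e ≤ s) {g : G}
    (hg : g ∈ Fn X Y S hp n s) : p ^ k • g ∈ Fn X Y S hp n (s + k * e) := by
  induction k with
  | zero =>
    rw [pow_zero, one_smul, zero_mul, add_zero]
    exact hg
  | succ k ih =>
    have h := fn_p H.nul₁ H.nul₂ H.pe (show 2 * e ≤ s + k * e by omega) ih
    rw [pow_succ', mul_smul, show s + (k + 1) * e = s + k * e + e by ring]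
    exact h

end CV
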