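import Pool.Agent.Lib.MP_f80667_ag.Ct.PA
import Pool.Agent.Lib.MP_f80667_ag.Ct.MB

/-! # The middle range for all `p` -/

set_option autoImplicit false

open PE Finset Polynomial

namespace CV

variable {K Ω : Type} [Field K] [CharZero K] [Field Ω] [Algebra K Ω] [IsAlgClosure K Ω]
  {A B G : Type} [AddCommGroup A] [AddCommGroup B] [AddCommGroup G]
  [DistribMulAction (Ω ≃ₐ[K] Ω) A] [DistribMulAction (Ω ≃ₐ[K] Ω) B]
  {W : Tw K Ω} {p e c : ℕ} {S : Sc K Ω A B G} {X : Lp W p e A} {Y : Lp W p e B}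
  {hp : p ≠ 0} {n : ℕ} {M : IntermediateField K Ω} {α : W.O M → A} {β : W.O M → B}

/-- `p ^ c S(x, y)` depends only on the product modulo weight `3 h`. -/
theorem pc_xy (H : Rl W p e c X Y S) (hM : W.U M) (hα : α ∈ X.Ch M) (hβ : β ∈ Y.Ch M)
    {h : ℕ} (hh : h ≠ 0) {u v u' v' : W.O M} (huv : u * v = u' * v') :
    p ^ c • S.sy M (α (W.π M ^ h * u)) (β (W.π M ^ h * v)) -
      p ^ c • S.sy M (α (W.π M ^ h * u')) (β (W.π M ^ h * v')) ∈ Fn X Y S hp n (3 * h) := by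
  have h1 := pc_uv (hp := hp) (n := n) H hM hα hβ hh u v
  have h2 := pc_uv (hp := hp) (n := n) H hM hα hβ hh u' v'
  rw [← huv] at h2
  have h3 := sub_mem h1 h2
  rwa [sub_sub_sub_cancel_right] at h3

/-- Charts. `I + r = p j`, the symbol is moved to `S(π ^ r x, y / π ^ r)`, of weight `+ 1` by `kill_pj`. -/
theorem pc_ch (H : Rl W p e c X Y S) (hM : W.U M) (hα : α ∈ X.Ch M) (hβ : β ∈ Y.Ch M)
    {h I J r j : ℕ} (hh : h ≠ 0) (hI : h ≤ I) (hJ : h + r ≤ J) (hr : I + r = p * j) (hj : j ≠ 0)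
    (hjJ : j + r < J) (h1 : 2 * e ≤ I + J + 1) (h2 : I + J + c * e + 1 ≤ 3 * h) {x y : W.O M}
    (hx : W.π M ^ I ∣ x) (hy : W.π M ^ J ∣ y) :
    p ^ c • S.sy M (α x) (β y) ∈ Fn X Y S hp n (I + J + c * e + 1) := by
  obtain ⟨x₀, rfl⟩ := hx
  obtain ⟨y₀, rfl⟩ := hy
  obtain ⟨i, rfl⟩ : ∃ i, I = h + i := ⟨I - h, by omega⟩
  obtain ⟨k, rfl⟩ : ∃ k, J = h + r + k := ⟨J - (h + r), by omega⟩
  have h3 := pc_xy (hp := hp) (n := n) H hM hα hβ hh (u := W.π M ^ i * x₀)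
    (v := W.π M ^ (r + k) * y₀) (u' := W.π M ^ (i + r) * x₀) (v' := W.π M ^ k * y₀) (by ring)
  have e1 : W.π M ^ h * (W.π M ^ i * x₀) = W.π M ^ (h + i) * x₀ := by ring
  have e2 : W.π M ^ h * (W.π M ^ (r + k) * y₀) = W.π M ^ (h + r + k) * y₀ := by ring
  have e3 : W.π M ^ h * (W.π M ^ (i + r) * x₀) = W.π M ^ (p * j) * x₀ := by
    rw [← hr]
    ring
  have e4 : W.π M ^ h * (W.π M ^ k * y₀) = W.π M ^ (j + (h + k - j)) * y₀ := by
    rw [show j + (h + k - j) = h + k by omega]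
    ring
  rw [e1, e2, e3, e4] at h3
  have h4 := kill_pj (hp := hp) (n := n) H hM hα hβ hj (show h + k - j ≠ 0 by omega)
    (dvd_mul_right (W.π M ^ (p * j)) x₀) (dvd_mul_right (W.π M ^ (j + (h + k - j))) y₀)
  have h5 := fn_pk H c (show 2 * e ≤ p * j + (j + (h + k - j)) + 1 by omega) h4
  have h6 := add_mem (fn_anti (show h + i + (h + r + k) + c * e + 1 ≤ 3 * h from h2) h3)
    (fn_anti (show h + i + (h + r + k) + c * e + 1 ≤ p * j + (j + (h + k - j)) + 1 + c * e by omega)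
      h5)
  rwa [sub_add_cancel] at h6

/-- The middle range begins here. -/
def Jmp (p e c : ℕ) : ℕ := (2 * c + 2) * e + 3 * p

/-- Displacements, in the window `[R, R + e)`, `R = (c + 2) e + 3 p`: `pc_ch` with `h = R + 1 - p`, `r = (p - I % p) % p`. -/
theorem pc_win (H : Rl W p e c X Y S) (hM : W.U M) {I J : ℕ} (hI : (c + 2) * e + 3 * p ≤ I)
    (hI' : I < (c + 2) * e + 3 * p + e) (hJ : (c + 2) * e + 3 * p ≤ J)
    (hJ' : J < (c + 2) * e + 3 * p + e) {a : A} {b : B} (ha : a ∈ X.D M I) (hb : b ∈ Y.D M J) :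
    p ^ c • S.sy M a b ∈ Fn X Y S hp n (I + J + c * e + 1) := by
  have hp2 := H.prime.two_le
  have h11 : (c + 2) * e = c * e + 2 * e := by ring
  refine dd_gen (V := (Fn X Y S hp n (I + J + c * e + 1)).comap (nsmulAddMonoidHom (p ^ c)))
    H.nul₁ H.nul₂ hM (by omega) (by omega) ha hb ?_
  intro M' α β x y hM' _ hα hβ hx hy
  change p ^ c • S.sy M' (α x) (β y) ∈ Fn X Y S hp n (I + J + c * e + 1)
  obtain ⟨r, j, hr, hrp⟩ : ∃ r j, I + r = p * j ∧ r < p := by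
    refine ⟨(p - I % p) % p, (I + (p - I % p) % p) / p, ?_, Nat.mod_lt _ (by omega)⟩
    have h1 : p ∣ I + (p - I % p) % p := by
      rw [Nat.dvd_iff_mod_eq_zero, Nat.add_mod_mod, ← Nat.mod_add_mod]
      have h2 := Nat.mod_lt I (show 0 < p by omega)
      rw [show I % p + (p - I % p) = p by omega, Nat.mod_self]
    exact (Nat.mul_div_cancel' h1).symm
  have hj2 : 2 * j ≤ p * j := Nat.mul_le_mul_right j hp2
  have hj0 : j ≠ 0 := by
    rintro rfl
    omega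
  exact pc_ch H hM' hα hβ (h := (c + 2) * e + 3 * p + 1 - p) (r := r) (j := j) (by omega)
    (by omega) (by omega) hr hj0 (by omega) (by omega) (by omega) hx hy

omit [CharZero K] [IsAlgClosure K Ω] in
private theorem win_p (R e c i : ℕ) (he : e ≠ 0) (hi : R + c * e ≤ i) :
    ∃ I k : ℕ, i = I + (c + k) * e ∧ R ≤ I ∧ I < R + e := by
  have h1 := Nat.div_add_mod (i - R) e
  have h2 := Nat.mod_lt (i - R) (Nat.pos_of_ne_zero he)
  have h4 : c ≤ (i - R) / e := by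
    rw [Nat.le_div_iff_mul_le (Nat.pos_of_ne_zero he)]
    omega
  obtain ⟨k, hk⟩ : ∃ k, (i - R) / e = c + k := ⟨(i - R) / e - c, by omega⟩
  refine ⟨R + (i - R) % e, k, ?_, by omega, by omega⟩
  rw [hk, mul_comm e] at h1
  omega

/-- Proof: as `mid`: the window is `[R, R + e)`, `R = (c + 2) e + 3 p`, with `pc_win`. -/
theorem mid_p (H : Rl W p e c X Y S) (hM : W.U M) {i j : ℕ} (hi : Jmp p e c ≤ i)
    (hj : Jmp p e c ≤ j) {a : A} {b : B} (ha : a ∈ X.D M i)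
    (hb : b ∈ Y.D M j) : S.sy M a b ∈ Fn X Y S hp n (i + j + 1) := by
  have := W.fd hM
  unfold Jmp at hi hj
  have h10 : (2 * c + 2) * e = c * e + (c + 2) * e := by ring
  obtain ⟨I, k, hik, hI1, hI2⟩ := win_p ((c + 2) * e + 3 * p) e c i H.e0 (by omega)
  obtain ⟨J, k', hjk, hJ1, hJ2⟩ := win_p ((c + 2) * e + 3 * p) e c j H.e0 (by omega)
  have h11 : (c + 2) * e = c * e + 2 * e := by ring
  have h12 : (c + k) * e = c * e + k * e := by ring
  have h13 : (c + k') * e = c * e + k' * e := by ring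
  have he := H.e0
  have hp2 := H.prime.two_le
  have hb0 := Y.fx hM hb
  have hbj := hb
  rw [hik] at ha
  rw [hjk] at hb
  obtain ⟨a', ha', a1, ha1, a2, ha2, ea⟩ :=
    pdv_k X H.pe H.pu hM (show e + 1 ≤ I by omega) (i + j + 1) (c + k) ha
  obtain ⟨b', hb', b1, hb1, b2, hb2, eb⟩ :=
    pdv_k Y H.pe H.pu hM (show e + 1 ≤ J by omega) (i + j + 1) (c + k') hb
  have fa' := X.fx hM ha'
  have fa1 := X.fx hM ha1
  have fa2 := X.nx hM ha2
  have fb' := Y.fx hM hb'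
  have fb1 := Y.fx hM hb1
  have fb2 := Y.nx hM hb2
  have fpa := fa'.nsmul (p ^ (c + k))
  have fpb := fb'.nsmul (p ^ (c + k'))
  have e1 : S.sy M a b = S.sy M (p ^ (c + k) • a') b + S.sy M a1 b := by
    have h0 : S.sy M a2 b = 0 := H.nul₁ M a2 b hM ha2 hb0
    rw [ea, S.add₁ M _ _ b (fpa.add fa1) fa2 hb0, S.add₁ M _ _ b fpa fa1 hb0, h0, add_zero]
  have e2 : S.sy M (p ^ (c + k) • a') b = S.sy M (p ^ (c + k) • a') (p ^ (c + k') • b') +
      S.sy M (p ^ (c + k) • a') b1 := by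
    have h0 : S.sy M (p ^ (c + k) • a') b2 = 0 := H.nul₂ M b2 _ hM hb2 fpa
    rw [eb, S.add₂ M _ _ _ fpa (fpb.add fb1) fb2, S.add₂ M _ _ _ fpa fpb fb1, h0, add_zero]
  have e3 : S.sy M (p ^ (c + k) • a') (p ^ (c + k') • b') =
      p ^ (k + (c + k')) • (p ^ c • S.sy M a' b') := by
    rw [sy_smul₁ fa' fpb, sy_smul₂ fa' fb', ← mul_smul, ← mul_smul]
    congr 1
    ring
  have m1 : S.sy M a1 b ∈ Fn X Y S hp n (i + j + 1) :=
    fn_anti (by omega) (fn_dd H.nul₁ H.nul₂ hM (by omega) (show j ≠ 0 by omega) ha1 hbj)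
  have m2 : S.sy M (p ^ (c + k) • a') b1 ∈ Fn X Y S hp n (i + j + 1) :=
    fn_anti (by omega) (fn_dd H.nul₁ H.nul₂ hM (show I ≠ 0 by omega) (by omega)
      ((X.D M I).nsmul_mem ha' _) hb1)
  have m3 : p ^ (k + (c + k')) • (p ^ c • S.sy M a' b') ∈ Fn X Y S hp n (i + j + 1) := by
    have h1 := pc_win (hp := hp) (n := n) H hM hI1 hI2 hJ1 hJ2 ha' hb'
    have h2 := fn_pk H (k + (c + k')) (by omega) h1
    have h3 : (k + (c + k')) * e = k * e + c * e + k' * e := by ring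
    rw [h3] at h2
    exact fn_anti (by omega) h2
  rw [e1, e2, e3]
  exact add_mem (add_mem m3 m2) m1

end CV
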