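import Pool.Agent.Lib.MP_f80667_ag.Ct.EE
import Pool.Agent.Lib.MP_f80667_ag.Ct.PB

/-! # The edges, the bounded exponent -/

set_option autoImplicit false

open PE Finset Polynomial

namespace CV

variable {K Ω : Type} [Field K] [CharZero K] [Field Ω] [Algebra K Ω] [IsAlgClosure K Ω]
  {A B G : Type} [AddCommGroup A] [AddCommGroup B] [AddCommGroup G]
  [DistribMulAction (Ω ≃ₐ[K] Ω) A] [DistribMulAction (Ω ≃ₐ[K] Ω) B]
  {W : Tw K Ω} {p e c : ℕ} {S : Sc K Ω A B G} {X : Lp W p e A} {Y : Lp W p e B}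
  {hp : p ≠ 0} {n : ℕ} {M : IntermediateField K Ω} {α : W.O M → A} {β : W.O M → B}

/-- The filtration is constant from here on. -/
def Sep (p e c : ℕ) : ℕ := (p * Jmp p e c + 3) * Jmp p e c

private theorem ef_t {a j i J P : ℕ} (ha : a = 1 + P * J) (hjJ : j < J)
    (hs : (P * J + 3) * J ≤ i + j) : a * j + J ≤ i := by
  obtain ⟨d, rfl⟩ : ∃ d, J = j + 1 + d := ⟨J - (j + 1), by omega⟩
  subst ha
  obtain ⟨Q, hQ⟩ : ∃ Q, Q = P * (j + 1 + d) := ⟨_, rfl⟩
  rw [← hQ] at hs ⊢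
  have e1 : (Q + 3) * (j + 1 + d) = (1 + Q) * j + (j + 1 + d) + (j + (Q + 2) * (1 + d)) := by ring
  rw [e1] at hs
  have h1 : 0 < (Q + 2) * (1 + d) := by positivity
  omega

/-- Proof: `a = 1 + p Jmp`, `t = i - a j`; `a j ≥ Jmp`, `j + t ≥ Jmp`: the second term of `as_rel` has weight `+ 1` by `mid_p`;
`to_big` with `k = a` (prime to `p`), `fn_div` twice with `m = a` (`ch_T`). -/
theorem edge_p (H : Rl W p e c X Y S) (hM : W.U M) (hα : α ∈ X.Ch M) (hβ : β ∈ Y.Ch M) {i j : ℕ}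
    (hj : j ≠ 0) (hjJ : j < Jmp p e c) (hs : Sep p e c ≤ i + j) {x y : W.O M}
    (hx : W.π M ^ i ∣ x) (hy : W.π M ^ j ∣ y) :
    S.sy M (α x) (β y) ∈ Fn X Y S hp n (i + j + 1) := by
  obtain ⟨a, ha⟩ : ∃ a, a = 1 + p * Jmp p e c := ⟨_, rfl⟩
  have hp2 := H.prime.two_le
  have hJ0 : 0 < Jmp p e c := by
    unfold Jmp
    omega
  have h1 := ef_t ha hjJ hs
  obtain ⟨t, ht⟩ : ∃ t, i = a * j + t := ⟨i - a * j, by omega⟩
  have htJ : Jmp p e c ≤ t := by omega
  have ha0 : a ≠ 0 := by omega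
  have haj : Jmp p e c ≤ a * j := by
    have h2 : a * 1 ≤ a * j := Nat.mul_le_mul_left a (Nat.pos_of_ne_zero hj)
    have h3 : 1 * Jmp p e c ≤ p * Jmp p e c := Nat.mul_le_mul_right _ (Nat.pos_of_ne_zero hp)
    omega
  have hka : ¬ p ∣ a := by
    intro hd
    have h2 : a = p * Jmp p e c + 1 := by omega
    rw [h2] at hd
    exact H.prime.one_lt.ne'
      (Nat.dvd_one.1 ((Nat.dvd_add_right (dvd_mul_right p (Jmp p e c))).1 hd))
  have hcop : Nat.Coprime a p := ((Nat.Prime.coprime_iff_not_dvd H.prime).2 hka).symm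
  have hi0 : i ≠ 0 := by omega
  refine to_big H hM hα hβ hka hi0 hj hx hy fun M' α' β' x' y' hM' hα' hβ' hx' hy' ⟨s, hs'⟩ => ?_
  obtain ⟨x₁, rfl⟩ := hx'
  obtain ⟨y₁, rfl⟩ := hy'
  have h2 := as_rel (hp := hp) (n := n) H hM' hα' hβ' hka hj (show t ≠ 0 by omega) x₁ y₁ hs'
  have h3 : (a + 1) * j + t + 1 = i + j + 1 := by rw [ht]; ring
  have h4 := mid_p (hp := hp) (n := n) H hM' (i := a * j) (j := j + t) haj
    (le_trans htJ (Nat.le_add_left t j)) (X.chD hM' hα' (show a * j ≠ 0 by omega)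
      (dvd_mul_right (W.π M' ^ (a * j)) x₁)) (Y.chD hM' hβ' (show j + t ≠ 0 by omega)
      (dvd_mul_right (W.π M' ^ (j + t)) y₁))
  rw [show a * j + (j + t) + 1 = (a + 1) * j + t + 1 by ring] at h4
  rw [h3, ← ht] at h2
  rw [h3] at h4
  have hT := ch_T H hM' hα' hβ' hi0 hj (dvd_mul_right (W.π M' ^ i) x₁)
    (dvd_mul_right (W.π M' ^ j) y₁)
  have hT' := ch_T H hM' hα' hβ' (show a * j ≠ 0 by omega) (show j + t ≠ 0 by omega)
    (dvd_mul_right (W.π M' ^ (a * j)) x₁) (dvd_mul_right (W.π M' ^ (j + t)) y₁)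
  have h5 := fn_div hcop (S.T.add_mem (S.T.nsmul_mem hT a) hT') h2
  have h6 := sub_mem h5 h4
  rw [add_sub_cancel_right] at h6
  exact fn_div hcop hT h6

/-- Proof: `fn_le`; if the weight is exactly `s`: `mid_p` if both levels are at least `Jmp`; `edge_p` if the second one is
smaller; if the first one is smaller, `line` with `w = π ^ I`, `w' = π ^ J` and `edge_p`. -/
theorem fn_succp (H : Rl W p e c X Y S) {s : ℕ} (hs : Sep p e c ≤ s) :
    Fn X Y S hp n s ≤ Fn X Y S hp n (s + 1) := by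
  refine fn_le (pT_le _) fun M α β x y I J hM hα hβ hI hJ hIJ hx hy => ?_
  rcases hIJ.lt_or_eq with h | h
  · exact fn_anti (show s + 1 ≤ I + J by omega) (ch_mem H hM hα hβ hI hJ hx hy)
  · subst h
    by_cases h1 : J < Jmp p e c
    · exact edge_p H hM hα hβ hJ h1 hs hx hy
    · by_cases h2 : I < Jmp p e c
      · obtain ⟨x₁, rfl⟩ := hx
        obtain ⟨y₁, rfl⟩ := hy
        have h3 := line (hp := hp) (n := n) H hM hα hβ x₁ y₁ hI hJ (dvd_refl (W.π M ^ I))
          (dvd_refl (W.π M ^ J))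
        have h4 := edge_p (hp := hp) (n := n) H hM hα hβ hI h2 (i := J) (by omega)
          (dvd_mul_left (W.π M ^ J) x₁) (dvd_mul_left (W.π M ^ I) y₁)
        rw [Nat.add_comm J I] at h4
        have h5 := (Fn X Y S hp n (I + J + 1)).sub_mem h3 h4
        rwa [add_sub_cancel_right, mul_comm x₁, mul_comm y₁] at h5
      · exact mid_p H hM (not_lt.1 h2) (not_lt.1 h1) (X.chD hM hα hI hx) (Y.chD hM hβ hJ hy)

/-- **Bounded exponent.** Proof: `top_fn`, `fn_p1` iterated: `p ^ Sep • g` is in the filtration at `Sep`; `fn_succp` iterated and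
`fn_end`. -/
theorem ct_mainp (H : Rl W p e c X Y S) (n : ℕ) {g : G} (hg : g ∈ S.T) :
    p ^ Sep p e c • g ∈ mulT (p ^ n) S.T := by
  have hp : p ≠ 0 := H.prime.ne_zero
  have h1 : g ∈ Fn X Y S hp n 2 := top_fn H.nul₁ H.nul₂ H.top hg
  have h2 : ∀ k : ℕ, p ^ k • g ∈ Fn X Y S hp n (2 + k) := by
    intro k
    induction k with
    | zero =>
      rw [pow_zero, one_smul]
      exact h1
    | succ k ih =>
      rw [pow_succ', mul_smul]
      exact fn_p1 H.nul₁ H.nul₂ H.pe H.e0 ih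
  have h3 : ∀ m : ℕ, Fn X Y S hp n (Sep p e c) ≤ Fn X Y S hp n (Sep p e c + m) := by
    intro m
    induction m with
    | zero => exact le_rfl
    | succ m ih => exact ih.trans (fn_succp H (Nat.le_add_right _ m))
  have h4 := fn_anti (show Sep p e c ≤ 2 + Sep p e c by omega) (h2 (Sep p e c))
  exact fn_end H.nul₁ H.nul₂ (show 2 * (n * e + e + 1) ≤ Sep p e c + 2 * (n * e + e + 1) by omega)
    (h3 _ h4)

end CV
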