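import Pool.Agent.Lib.MP_f80667_ag.Ct.Defs
import Pool.Agent.Lib.MP_f80667_ag.ZC.Place

/-! The field is a function field of one variable (Jacobian criterion). -/

open MvPolynomial

namespace Ct

open ZC

universe u

/-- The chain rule. -/
theorem der_aeval {k E : Type u} [Field k] [Field E] [Algebra k E] {n : ℕ}
    (d : Derivation k E E) (x : Fin n → E) (p : MvPolynomial (Fin n) k) :
    d (aeval x p) = ∑ j, aeval x (pderiv j p) * d (x j) := by
  induction p using MvPolynomial.induction_on with
  | C a => simp
  | add p q hp hq => simp only [map_add, hp, hq, add_mul, Finset.sum_add_distrib]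
  | mul_X p i hp =>
    simp only [map_mul, aeval_X, Derivation.leibniz, hp, smul_eq_mul, map_add, pderiv_X, add_mul]
    rw [Finset.sum_add_distrib, Finset.mul_sum]
    congr 1
    · rw [Finset.sum_eq_single i]
      · simp
      · intro j _ hj
        simp [hj.symm]
      · intro h; exact absurd (Finset.mem_univ i) h
    · refine Finset.sum_congr rfl fun j _ => ?_
      ring

/-- A derivation over `k` which kills generators of the field is zero. -/
theorem der_zero {k E : Type u} [Field k] [Field E] [Algebra k E] (d : Derivation k E E)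
    {S : Set E} (hS : IntermediateField.adjoin k S = ⊤) (h : ∀ x ∈ S, d x = 0) (x : E) :
    d x = 0 := by
  let F : IntermediateField k E :=
    { carrier := {x | d x = 0}
      mul_mem' := by
        intro a b ha hb
        change d a = 0 at ha
        change d b = 0 at hb
        change d _ = 0
        simp [ha, hb]
      one_mem' := by simp
      add_mem' := by
        intro a b ha hb
        change d a = 0 at ha
        change d b = 0 at hb
        change d _ = 0
        simp [ha, hb]
      zero_mem' := by simp
      algebraMap_mem' := by intro a; simp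
      inv_mem' := by
        intro a ha
        change d a = 0 at ha
        change d _ = 0
        simp [Derivation.leibniz_inv, ha] }
  have h1 : IntermediateField.adjoin k S ≤ F := by
    rw [IntermediateField.adjoin_le_iff]
    intro y hy
    exact h y hy
  have h2 : x ∈ F := h1 (by rw [hS]; trivial)
  exact h2

section jac

variable {k E Ω : Type u} [Field k] [Field E] [Algebra k E] [Field Ω]
    [Algebra k Ω] {n r : ℕ} {f : Fin r → MvPolynomial (Fin n) k} {P u : Fin n → k}

/-- The Jacobian matrix of the curve. -/
noncomputable def jac (f : Fin r → MvPolynomial (Fin n) k) (P u : Fin n → k) (τ : E)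
    (β : Fin r → E) : Matrix (Fin r) (Fin r) E :=
  Matrix.of fun i i' => ∑ j, aeval (pt f P u 1 τ β) (pderiv j (f i)) *
    algebraMap k E (gr f P i' j)

theorem res_nonunit (w : Place k E Ω) {x : E} (hx : x ∈ w.V.nonunits)
    (h : x ∈ w.V) : w.res ⟨x, h⟩ = 0 := by
  apply w.res_zero
  have := (ValuationSubring.coe_mem_nonunits_iff (A := w.V) (a := ⟨x, h⟩)).1 hx
  rwa [IsLocalRing.mem_maximalIdeal] at this

theorem gram_det (H : Frame f P u) :
    (Matrix.of fun i i' => ∑ j, gr f P i j * gr f P i' j).det ≠ 0 := by
  intro h
  obtain ⟨v, hv, hv0⟩ := Matrix.exists_mulVec_eq_zero_iff.2 h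
  apply hv
  apply H.gram
  intro i
  have := congrFun hv0 i
  simp only [Matrix.mulVec, dotProduct, Matrix.of_apply, Pi.zero_apply] at this
  rw [← this]
  exact Finset.sum_congr rfl fun i' _ => mul_comm _ _

theorem jac_det (H : Frame f P u) {τ : E} {β : Fin r → E} (w : Place k E Ω)
    (hτ : τ ∈ w.V.nonunits) (hβ : ∀ i, β i ∈ w.V.nonunits) : (jac f P u τ β).det ≠ 0 := by
  let ι : k →+* w.V :=
    { toFun := fun c => ⟨algebraMap k E c, w.mem c⟩
      map_one' := by ext; simp
      map_zero' := by ext; simp
      map_mul' := by intro x y; ext; simp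
      map_add' := by intro x y; ext; simp }
  have hι : ∀ c, ((ι c : w.V) : E) = algebraMap k E c := fun c => rfl
  have hιr : ∀ c, w.res (ι c) = algebraMap k Ω c := fun c => w.res_k c
  have hτV : τ ∈ w.V := w.V.nonunits_le hτ
  have hβV : ∀ i, β i ∈ w.V := fun i => w.V.nonunits_le (hβ i)
  let x' : Fin n → w.V := fun j => ι (P j) + ⟨τ, hτV⟩ * ι (u j) +
    ∑ i, (⟨β i, hβV i⟩ : w.V) * ι (gr f P i j)
  have hx' : ∀ j, w.V.subtype (x' j) = pt f P u 1 τ β j := by
    intro j
    simp only [x', pt, one_mul, map_add, map_mul, map_sum]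
    rfl
  have hx'r : ∀ j, w.res (x' j) = algebraMap k Ω (P j) := by
    intro j
    simp only [x', map_add, map_mul, map_sum]
    rw [res_nonunit w hτ hτV]
    rw [Finset.sum_eq_zero (fun i _ => by rw [res_nonunit w (hβ i) (hβV i), zero_mul])]
    simp [hιr]
  let M' : Matrix (Fin r) (Fin r) w.V := Matrix.of fun i i' =>
    ∑ j, eval₂ ι x' (pderiv j (f i)) * ι (gr f P i' j)
  have h1 : w.V.subtype.mapMatrix M' = jac f P u τ β := by
    ext i i'
    simp only [RingHom.mapMatrix_apply, Matrix.map_apply, M', Matrix.of_apply, jac, map_sum,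
      map_mul]
    refine Finset.sum_congr rfl fun j _ => ?_
    rw [hom_eval₂]
    congr 1
    rw [aeval_def]
    congr 1
    funext j
    exact hx' j
  have h2 : w.res.mapMatrix M' = (algebraMap k Ω).mapMatrix
      (Matrix.of fun i i' => ∑ j, gr f P i j * gr f P i' j) := by
    ext i i'
    simp only [RingHom.mapMatrix_apply, Matrix.map_apply, M', Matrix.of_apply, map_sum,
      map_mul, hιr]
    refine Finset.sum_congr rfl fun j _ => ?_
    congr 1
    rw [hom_eval₂]
    have h3 : w.res.comp ι = algebraMap k Ω := RingHom.ext hιr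
    have h4 : (fun j => w.res (x' j)) = fun j => algebraMap k Ω (P j) := funext hx'r
    have h5 : (w.res ∘ x') = fun j => algebraMap k Ω (P j) := h4
    rw [h3, gr, aeval_def, Algebra.algebraMap_self]
    have := hom_eval₂ (pderiv j (f i)) (RingHom.id k) (algebraMap k Ω) P
    rw [this]
    simp only [RingHom.comp_id]
    congr 1
  intro h0
  rw [← h1, ← RingHom.map_det] at h0
  have h6 : M'.det = 0 := by
    apply Subtype.ext
    simpa using h0
  have h7 := congrArg w.res h6
  rw [RingHom.map_det, h2, ← RingHom.map_det, map_zero] at h7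
  exact gram_det H ((map_eq_zero _).1 h7)

/-- A derivation which kills `τ` is zero. -/
theorem der_tau (H : Frame f P u) {τ : E} {β : Fin r → E} (hz : Zer f E (pt f P u 1 τ β))
    (hgen : IntermediateField.adjoin k (insert τ (Set.range β)) = ⊤) (w : Place k E Ω)
    (hτ : τ ∈ w.V.nonunits) (hβ : ∀ i, β i ∈ w.V.nonunits) (d : Derivation k E E)
    (hd : d τ = 0) (x : E) : d x = 0 := by
  have h1 : (jac f P u τ β).mulVec (fun i => d (β i)) = 0 := by
    funext i
    simp only [Matrix.mulVec, dotProduct, jac, Matrix.of_apply, Pi.zero_apply]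
    have h2 := der_aeval d (pt f P u 1 τ β) (f i)
    rw [hz i, map_zero] at h2
    rw [h2]
    simp only [Finset.sum_mul]
    rw [Finset.sum_comm]
    refine Finset.sum_congr rfl fun j _ => ?_
    have h3 : d (pt f P u 1 τ β j) = ∑ i', d (β i') * algebraMap k E (gr f P i' j) := by
      simp only [pt, one_mul, map_add, map_sum, Derivation.leibniz, Derivation.map_algebraMap, hd,
        zero_add, add_zero, smul_eq_mul, mul_zero]
      exact Finset.sum_congr rfl fun i' _ => mul_comm _ _
    rw [h3, Finset.mul_sum]
    refine Finset.sum_congr rfl fun i' _ => ?_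
    ring
  have h4 := Matrix.eq_zero_of_mulVec_eq_zero (jac_det H w hτ hβ) h1
  apply der_zero d hgen
  intro y hy
  rcases hy with rfl | ⟨i, rfl⟩
  · exact hd
  · exact congrFun h4 i

end jac

theorem isFunField {k E Ω : Type u} [Field k] [CharZero k] [Field E] [Algebra k E] [Field Ω]
    [Algebra k Ω] {n r : ℕ} {f : Fin r → MvPolynomial (Fin n) k} {P u : Fin n → k}
    (H : Frame f P u) {τ : E} {β : Fin r → E} (hz : Zer f E (pt f P u 1 τ β))
    (hgen : IntermediateField.adjoin k (insert τ (Set.range β)) = ⊤) (w : Place k E Ω)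
    (hτ0 : τ ≠ 0) (hτ : τ ∈ w.V.nonunits) (hβ : ∀ i, β i ∈ w.V.nonunits) : IsFunField k E := by
  classical
  refine ⟨τ, ?_, ?_⟩
  · intro hcon
    have h1 : Algebra.IsAlgebraic k (IntermediateField.adjoin k {τ}) :=
      IntermediateField.isAlgebraic_adjoin_simple hcon.isIntegral
    have h2 : τ⁻¹ ∈ IntermediateField.adjoin k {τ} :=
      inv_mem (IntermediateField.mem_adjoin_simple_self k τ)
    have h3 := w.mem_M (⟨τ⁻¹, h2⟩ : IntermediateField.adjoin k {τ})
    rw [ValuationSubring.mem_nonunits_iff_or] at hτ
    rcases hτ with h | h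
    · exact hτ0 h
    · exact h h3
  · set K := IntermediateField.adjoin k {τ} with hK
    have hfg : (⊤ : IntermediateField k E).FG := by
      refine ⟨insert τ (Finset.univ.image β), ?_⟩
      rw [← hgen]
      simp
    have e1 : Algebra.EssFiniteType k E := IntermediateField.fg_top_iff.1 hfg
    have e2 : Algebra.EssFiniteType K E := Algebra.EssFiniteType.of_comp k K E
    have hDz : ∀ x : E, KaehlerDifferential.D K E x = 0 := by
      intro x
      rw [← Module.forall_dual_apply_eq_zero_iff E]
      intro φ
      have h1 := der_tau H hz hgen w hτ hβ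
        ((φ.compDer (KaehlerDifferential.D K E)).restrictScalars k) (by
          have h2 : τ = algebraMap K E ⟨τ, IntermediateField.mem_adjoin_simple_self k τ⟩ := rfl
          rw [h2]
          exact Derivation.map_algebraMap (φ.compDer (KaehlerDifferential.D K E)) _) x
      simpa using h1
    have hsub : Subsingleton (Ω[E⁄K]) := by
      rw [← Submodule.subsingleton_iff E, ← subsingleton_iff_bot_eq_top]
      rw [← KaehlerDifferential.span_range_derivation K E]
      symm
      rw [Submodule.span_eq_bot]
      rintro _ ⟨x, rfl⟩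
      exact hDz x
    have e3 : Algebra.FormallyUnramified K E := ⟨hsub⟩
    have e4 : Algebra.IsSeparable K E := Algebra.FormallyUnramified.isSeparable K E
    exact Algebra.finite_of_essFiniteType_of_isAlgebraic

end Ct
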