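import Pool.Agent.Lib.MP_f80667_ag.Ct.Defs

/-! The curve through two nearby real points meets the sphere only in these points. -/

open MvPolynomial Topology Filter

namespace Ct

open ZC

variable {n r : ℕ}

/-- The chain rule for the values of a polynomial. -/
private theorem geo_strict (p : MvPolynomial (Fin n) ℝ) (P : Fin n → ℝ) :
    HasStrictFDerivAt (fun y : Fin n → ℝ => aeval y p)
      (∑ j, aeval P (pderiv j p) • (ContinuousLinearMap.proj j : (Fin n → ℝ) →L[ℝ] ℝ)) P := by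
  induction p using MvPolynomial.induction_on with
  | C a =>
    simp only [algHom_C, pderiv_C, map_zero, zero_smul, Finset.sum_const_zero]
    exact hasStrictFDerivAt_const _ _
  | add p q hp hq =>
    have h := hp.add hq
    simp only [map_add, add_smul, Finset.sum_add_distrib]
    exact h
  | mul_X p i hp =>
    have h := hp.mul (ContinuousLinearMap.proj i : (Fin n → ℝ) →L[ℝ] ℝ).hasStrictFDerivAt
    have e1 : (fun y : Fin n → ℝ => aeval y (p * X i)) = fun y => aeval y p * y i := by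
      funext y
      simp
    have e2 : (∑ j, aeval P (pderiv j (p * X i)) •
        (ContinuousLinearMap.proj j : (Fin n → ℝ) →L[ℝ] ℝ)) =
        aeval P p • (ContinuousLinearMap.proj i : (Fin n → ℝ) →L[ℝ] ℝ) +
          P i • ∑ j, aeval P (pderiv j p) •
            (ContinuousLinearMap.proj j : (Fin n → ℝ) →L[ℝ] ℝ) := by
      have h3 : ∀ j, aeval P (pderiv j (p * X i)) =
          P i * aeval P (pderiv j p) + aeval P p * (if i = j then 1 else 0) := by
        intro j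
        rw [pderiv_mul, map_add, map_mul, map_mul, aeval_X, pderiv_X]
        by_cases hij : i = j
        · subst hij
          simp
          ring
        · simp [hij]
          ring
      simp only [h3, add_smul, Finset.sum_add_distrib, Finset.smul_sum, smul_smul]
      rw [add_comm]
      congr 1
      simp
    rw [e1, e2]
    exact h

private theorem geo_self_nonneg (v : Fin n → ℝ) : 0 ≤ v ⬝ᵥ v :=
  Finset.sum_nonneg fun _ _ => mul_self_nonneg _

private theorem geo_eq_zero {v : Fin n → ℝ} (h : v ⬝ᵥ v ≤ 0) : v = 0 := by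
  have h1 : v ⬝ᵥ v = 0 := le_antisymm h (geo_self_nonneg v)
  exact dotProduct_self_eq_zero.1 h1

/-- The Cauchy inequality. -/
private theorem geo_cauchy (v w : Fin n → ℝ) : (v ⬝ᵥ w) ^ 2 ≤ (v ⬝ᵥ v) * (w ⬝ᵥ w) := by
  have h := Finset.sum_mul_sq_le_sq_mul_sq Finset.univ v w
  simp only [dotProduct, ← sq]
  exact h

/-- The maximum norm and the dot product. -/
private theorem geo_norm_sq (v : Fin n → ℝ) : ‖v‖ ^ 2 ≤ v ⬝ᵥ v := by
  have h0 := geo_self_nonneg v
  have h : ‖v‖ ≤ Real.sqrt (v ⬝ᵥ v) := by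
    refine (pi_norm_le_iff_of_nonneg (Real.sqrt_nonneg _)).2 fun i => ?_
    rw [Real.norm_eq_abs]
    refine Real.abs_le_sqrt ?_
    rw [sq]
    exact Finset.single_le_sum (f := fun j => v j * v j) (fun _ _ => mul_self_nonneg _)
      (Finset.mem_univ i)
  calc ‖v‖ ^ 2 ≤ Real.sqrt (v ⬝ᵥ v) ^ 2 := pow_le_pow_left₀ (norm_nonneg _) h 2
    _ = v ⬝ᵥ v := Real.sq_sqrt h0

section lin

variable (g : Fin r → Fin n → ℝ)

/-- The combination of the vectors `g i`. -/
private def geo_w (a : Fin r → ℝ) : Fin n → ℝ := ∑ i, a i • g i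

private theorem geo_w_apply (a : Fin r → ℝ) (j : Fin n) : geo_w g a j = ∑ i, a i * g i j := by
  simp [geo_w]

private theorem geo_w_dot (a : Fin r → ℝ) (v : Fin n → ℝ) :
    geo_w g a ⬝ᵥ v = ∑ i, a i * (g i ⬝ᵥ v) := by
  rw [geo_w, sum_dotProduct]
  simp only [smul_dotProduct, smul_eq_mul]

private theorem geo_dot_w (a : Fin r → ℝ) (v : Fin n → ℝ) :
    v ⬝ᵥ geo_w g a = ∑ i, a i * (v ⬝ᵥ g i) := by
  rw [geo_w, dotProduct_sum]
  simp only [dotProduct_smul, smul_eq_mul]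

private theorem geo_w_add (a b : Fin r → ℝ) : geo_w g (a + b) = geo_w g a + geo_w g b := by
  simp [geo_w, add_smul, Finset.sum_add_distrib]

private theorem geo_w_smul (c : ℝ) (a : Fin r → ℝ) : geo_w g (c • a) = c • geo_w g a := by
  simp [geo_w, Finset.smul_sum, smul_smul]

private theorem geo_w_sub (a b : Fin r → ℝ) : geo_w g (a - b) = geo_w g a - geo_w g b := by
  simp [geo_w, sub_smul, Finset.sum_sub_distrib]

/-- The Gram matrix. -/
private def geo_T : (Fin r → ℝ) →ₗ[ℝ] (Fin r → ℝ) where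
  toFun a := fun i => g i ⬝ᵥ geo_w g a
  map_add' a b := by
    funext i
    rw [geo_w_add, dotProduct_add]
    rfl
  map_smul' c a := by
    funext i
    rw [geo_w_smul, dotProduct_smul]
    rfl

variable {g} (hg : ∀ c : Fin r → ℝ, geo_w g c = 0 → c = 0)
include hg

private theorem geo_T_inj : Function.Injective (geo_T g) := by
  rw [injective_iff_map_eq_zero]
  intro a ha
  refine hg a (geo_eq_zero ?_)
  have h : ∀ i, g i ⬝ᵥ geo_w g a = 0 := fun i => congrFun ha i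
  rw [geo_w_dot]
  simp [h]

/-- The orthogonal projection to the span of the `g i`. -/
private theorem geo_solve (z : Fin r → ℝ) : ∃ a : Fin r → ℝ, ∀ i, g i ⬝ᵥ geo_w g a = z i := by
  obtain ⟨a, ha⟩ := (LinearMap.injective_iff_surjective.1 (geo_T_inj hg)) z
  exact ⟨a, fun i => congrFun ha i⟩

private theorem geo_bound : ∃ C : ℝ, 0 < C ∧ ∀ a : Fin r → ℝ,
    geo_w g a ⬝ᵥ geo_w g a ≤ C * ∑ i, (g i ⬝ᵥ geo_w g a) ^ 2 := by
  have hb : Function.Bijective (geo_T g) :=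
    ⟨geo_T_inj hg, LinearMap.injective_iff_surjective.1 (geo_T_inj hg)⟩
  let e : (Fin r → ℝ) ≃ₗ[ℝ] (Fin r → ℝ) := LinearEquiv.ofBijective (geo_T g) hb
  let S : (Fin r → ℝ) →L[ℝ] (Fin r → ℝ) := LinearMap.toContinuousLinearMap e.symm.toLinearMap
  refine ⟨r * ‖S‖ + 1, by positivity, fun a => ?_⟩
  have hS : ‖a‖ ≤ ‖S‖ * ‖geo_T g a‖ := by
    have h1 : S (geo_T g a) = a := e.symm_apply_apply a
    calc ‖a‖ = ‖S (geo_T g a)‖ := by rw [h1]
      _ ≤ _ := S.le_opNorm _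
  have hz : ‖geo_T g a‖ ^ 2 ≤ ∑ i, (g i ⬝ᵥ geo_w g a) ^ 2 := by
    have := geo_norm_sq (geo_T g a)
    simp only [dotProduct, ← sq] at this ⊢
    exact this
  have h2 : geo_w g a ⬝ᵥ geo_w g a ≤ r * ‖S‖ * ‖geo_T g a‖ ^ 2 := by
    rw [geo_w_dot]
    calc ∑ i, a i * (g i ⬝ᵥ geo_w g a) ≤ ∑ _i : Fin r, ‖S‖ * ‖geo_T g a‖ * ‖geo_T g a‖ := by
          refine Finset.sum_le_sum fun i _ => ?_
          have k1 : |a i| ≤ ‖S‖ * ‖geo_T g a‖ := (norm_le_pi_norm a i).trans hS
          have k2 : |g i ⬝ᵥ geo_w g a| ≤ ‖geo_T g a‖ := norm_le_pi_norm (geo_T g a) i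
          calc a i * (g i ⬝ᵥ geo_w g a) ≤ |a i| * |g i ⬝ᵥ geo_w g a| := by
                rw [← abs_mul]
                exact le_abs_self _
            _ ≤ _ := mul_le_mul k1 k2 (abs_nonneg _) (by positivity)
      _ = _ := by
        rw [Finset.sum_const, Finset.card_univ, Fintype.card_fin, nsmul_eq_mul]
        ring
  have h3 : 0 ≤ ∑ i, (g i ⬝ᵥ geo_w g a) ^ 2 := Finset.sum_nonneg fun _ _ => sq_nonneg _
  calc _ ≤ r * ‖S‖ * ‖geo_T g a‖ ^ 2 := h2
    _ ≤ r * ‖S‖ * ∑ i, (g i ⬝ᵥ geo_w g a) ^ 2 := mul_le_mul_of_nonneg_left hz (by positivity)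
    _ ≤ (r * ‖S‖ + 1) * ∑ i, (g i ⬝ᵥ geo_w g a) ^ 2 :=
      mul_le_mul_of_nonneg_right (by linarith) h3

end lin

/-- The equations at two nearby zeros. -/
private theorem geo_near (f : Fin r → MvPolynomial (Fin n) ℝ) (P : Fin n → ℝ) {η : ℝ}
    (hη : 0 < η) : ∃ ε : ℝ, 0 < ε ∧ ∀ x x' : Fin n → ℝ, (x - P) ⬝ᵥ (x - P) < ε →
      (x' - P) ⬝ᵥ (x' - P) < ε → Zer f ℝ x → Zer f ℝ x' →
      ∑ i, (gr f P i ⬝ᵥ (x - x')) ^ 2 ≤ η * ((x - x') ⬝ᵥ (x - x')) := by
  have h1 : ∀ᶠ p : (Fin n → ℝ) × (Fin n → ℝ) in 𝓝 (P, P), ∀ i : Fin r,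
      ‖aeval p.1 (f i) - aeval p.2 (f i) - (∑ j, aeval P (pderiv j (f i)) •
        (ContinuousLinearMap.proj j : (Fin n → ℝ) →L[ℝ] ℝ)) (p.1 - p.2)‖ ≤
        Real.sqrt (η / (r + 1)) * ‖p.1 - p.2‖ := by
    rw [eventually_all]
    intro i
    exact (geo_strict (f i) P).isLittleO.def (Real.sqrt_pos.2 (by positivity))
  obtain ⟨ε, hε, h2⟩ := Metric.eventually_nhds_iff.1 h1
  refine ⟨ε ^ 2, by positivity, fun x x' hx hx' hz hz' => ?_⟩
  have hd : ∀ y : Fin n → ℝ, (y - P) ⬝ᵥ (y - P) < ε ^ 2 → dist y P < ε := by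
    intro y hy
    rw [dist_eq_norm]
    exact lt_of_pow_lt_pow_left₀ 2 hε.le ((geo_norm_sq _).trans_lt hy)
  have h3 := h2 (y := (x, x')) (by
    rw [Prod.dist_eq]
    exact max_lt (hd x hx) (hd x' hx'))
  have h4 : ∀ i, (gr f P i ⬝ᵥ (x - x')) ^ 2 ≤ η / (r + 1) * ((x - x') ⬝ᵥ (x - x')) := by
    intro i
    have h5 := h3 i
    simp only [hz i, hz' i, sub_zero] at h5
    have e : (∑ j, aeval P (pderiv j (f i)) •
        (ContinuousLinearMap.proj j : (Fin n → ℝ) →L[ℝ] ℝ)) (x - x') =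
        gr f P i ⬝ᵥ (x - x') := by
      simp [dotProduct, gr]
    rw [e, zero_sub, norm_neg, Real.norm_eq_abs] at h5
    have h6 := pow_le_pow_left₀ (abs_nonneg _) h5 2
    rw [sq_abs, mul_pow, Real.sq_sqrt (by positivity)] at h6
    exact h6.trans (mul_le_mul_of_nonneg_left (geo_norm_sq _) (by positivity))
  have h0 := geo_self_nonneg (x - x')
  calc ∑ i, (gr f P i ⬝ᵥ (x - x')) ^ 2
      ≤ ∑ _i : Fin r, η / (r + 1) * ((x - x') ⬝ᵥ (x - x')) := Finset.sum_le_sum fun i _ => h4 i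
    _ = r / (r + 1) * (η * ((x - x') ⬝ᵥ (x - x'))) := by
      rw [Finset.sum_const, Finset.card_univ, Fintype.card_fin, nsmul_eq_mul]
      ring
    _ ≤ 1 * (η * ((x - x') ⬝ᵥ (x - x'))) := by
      refine mul_le_mul_of_nonneg_right ?_ (by positivity)
      rw [div_le_one (by positivity)]
      linarith
    _ = _ := one_mul _

/-- The normal part of the difference of two nearby zeros is small. -/
private theorem geo_key (f : Fin r → MvPolynomial (Fin n) ℝ) (P : Fin n → ℝ)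
    (hg : ∀ c : Fin r → ℝ, geo_w (gr f P) c = 0 → c = 0) :
    ∃ ε : ℝ, 0 < ε ∧ ∀ x x' : Fin n → ℝ, (x - P) ⬝ᵥ (x - P) < ε →
      (x' - P) ⬝ᵥ (x' - P) < ε → Zer f ℝ x → Zer f ℝ x' →
      ∀ (v : Fin n → ℝ) (a : Fin r → ℝ), x - x' = v + geo_w (gr f P) a →
        (∀ i, gr f P i ⬝ᵥ v = 0) →
        4 * (geo_w (gr f P) a ⬝ᵥ geo_w (gr f P) a) ≤ v ⬝ᵥ v := by
  obtain ⟨C, hC, h1⟩ := geo_bound hg
  obtain ⟨ε, hε, h2⟩ := geo_near f P (η := 1 / (5 * C)) (by positivity)
  refine ⟨ε, hε, fun x x' hx hx' hz hz' v a hv h0 => ?_⟩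
  have h3 := h2 x x' hx hx' hz hz'
  have h4 : ∀ i, gr f P i ⬝ᵥ (x - x') = gr f P i ⬝ᵥ geo_w (gr f P) a := by
    intro i
    rw [hv, dotProduct_add, h0 i, zero_add]
  have h5 : (x - x') ⬝ᵥ (x - x') = v ⬝ᵥ v + geo_w (gr f P) a ⬝ᵥ geo_w (gr f P) a := by
    have k : geo_w (gr f P) a ⬝ᵥ v = 0 := by
      rw [geo_w_dot]
      simp [h0]
    have k' : v ⬝ᵥ geo_w (gr f P) a = 0 := by rw [dotProduct_comm, k]
    rw [hv, add_dotProduct, dotProduct_add, dotProduct_add, k, k']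
    ring
  simp only [h4] at h3
  rw [h5] at h3
  have h6 := h1 a
  have h7 := mul_le_mul_of_nonneg_left h3 hC.le
  have h8 : C * (1 / (5 * C) * (v ⬝ᵥ v + geo_w (gr f P) a ⬝ᵥ geo_w (gr f P) a)) =
      (v ⬝ᵥ v + geo_w (gr f P) a ⬝ᵥ geo_w (gr f P) a) / 5 := by
    field_simp
  rw [h8] at h7
  linarith

private theorem geo_pt (f : Fin r → MvPolynomial (Fin n) ℝ) (P u : Fin n → ℝ) (s t : ℝ)
    (b : Fin r → ℝ) : pt f P u s t b = s • P + t • u + geo_w (gr f P) b := by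
  funext j
  simp [pt, geo_w_apply]

/-- The final computation. -/
private theorem geo_alg {u w w' : Fin n → ℝ} {t : ℝ} (f1 : w' ⬝ᵥ u = 0) (f2 : w ⬝ᵥ u = 0)
    (hU : 0 < u ⬝ᵥ u) (k1 : 4 * (w' ⬝ᵥ w') ≤ t * (t * (u ⬝ᵥ u)))
    (k2 : 4 * ((w' - w) ⬝ᵥ (w' - w)) ≤ (t - 1) * ((t - 1) * (u ⬝ᵥ u)))
    (h : (t • u + w') ⬝ᵥ ((t - 1) • u + (w' - w)) = 0) : t * (t - 1) = 0 := by
  have f3 : u ⬝ᵥ w' = 0 := by rw [dotProduct_comm, f1]
  have f4 : u ⬝ᵥ w = 0 := by rw [dotProduct_comm, f2]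
  have e2 : w' ⬝ᵥ (w' - w) = -(t * (t - 1) * (u ⬝ᵥ u)) := by
    simp only [add_dotProduct, dotProduct_add, smul_dotProduct, dotProduct_smul,
      dotProduct_sub, smul_eq_mul, f1, f3, f4] at h
    rw [dotProduct_sub]
    linear_combination h
  have e3 := geo_cauchy w' (w' - w)
  rw [e2] at e3
  have n1 := geo_self_nonneg w'
  have n2 := geo_self_nonneg (w' - w)
  have e5 := mul_le_mul k1 k2 (by linarith) (by nlinarith [sq_nonneg t])
  have e6 : (t * (t - 1) * (u ⬝ᵥ u)) ^ 2 ≤ 0 := by nlinarith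
  have e7 : t * (t - 1) * (u ⬝ᵥ u) = 0 :=
    (pow_eq_zero_iff two_ne_zero).1 (le_antisymm e6 (sq_nonneg _))
  exact (mul_eq_zero.1 e7).resolve_right hU.ne'

theorem exists_pair (f : Fin r → MvPolynomial (Fin n) ℝ) (hf : ∀ i, ∃ d, (f i).IsHomogeneous d)
    (P : Fin n → ℝ) (hP : P ≠ 0) (hz : Zer f ℝ P)
    (hJ : ∀ c : Fin r → ℝ, (∀ j, ∑ i, c i * gr f P i j = 0) → c = 0) :
    ∀ᶠ Q in 𝓝 P, Zer f ℝ Q → (∃ c : ℝ, Q = c • P) ∨
      ∃ c : ℝ, c ≠ 0 ∧ ∃ u, Pair f P (c • Q) u := by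
  have hg : ∀ c : Fin r → ℝ, geo_w (gr f P) c = 0 → c = 0 := fun c hc =>
    hJ c fun j => by rw [← geo_w_apply, hc, Pi.zero_apply]
  have hPP : 0 < P ⬝ᵥ P := by
    refine lt_of_le_of_ne (geo_self_nonneg P) fun h => hP ?_
    exact geo_eq_zero h.symm.le
  -- Euler
  have hgP : ∀ i, gr f P i ⬝ᵥ P = 0 := by
    intro i
    obtain ⟨d, hd⟩ := hf i
    have h1 := congrArg (aeval P) hd.sum_X_mul_pderiv
    rw [map_sum, map_nsmul, hz i, smul_zero] at h1
    rw [← h1]
    refine Finset.sum_congr rfl fun j _ => ?_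
    rw [map_mul, aeval_X, mul_comm]
    rfl
  obtain ⟨ε, hε, key⟩ := geo_key f P hg
  have ev1 : ∀ᶠ Q in 𝓝 P, 0 < Q ⬝ᵥ P := by
    have hc : ContinuousAt (fun Q : Fin n → ℝ => Q ⬝ᵥ P) P := by fun_prop
    exact hc.eventually_const_lt hPP
  have ev2 : ∀ᶠ Q in 𝓝 P, ((P ⬝ᵥ P / (Q ⬝ᵥ P)) • Q - P) ⬝ᵥ ((P ⬝ᵥ P / (Q ⬝ᵥ P)) • Q - P) < ε := by
    have hc : ContinuousAt (fun Q : Fin n → ℝ =>
        ((P ⬝ᵥ P / (Q ⬝ᵥ P)) • Q - P) ⬝ᵥ ((P ⬝ᵥ P / (Q ⬝ᵥ P)) • Q - P)) P := by
      have h1 : ContinuousAt (fun Q : Fin n → ℝ => (P ⬝ᵥ P / (Q ⬝ᵥ P)) • Q - P) P := by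
        have h2 : ContinuousAt (fun Q : Fin n → ℝ => Q ⬝ᵥ P) P := by fun_prop
        exact ((continuousAt_const.div h2 hPP.ne').smul continuousAt_id).sub continuousAt_const
      have h3 : Continuous fun p : (Fin n → ℝ) × (Fin n → ℝ) => p.1 ⬝ᵥ p.2 :=
        continuous_fst.dotProduct continuous_snd
      exact ContinuousAt.comp (f := fun Q : Fin n → ℝ =>
        ((P ⬝ᵥ P / (Q ⬝ᵥ P)) • Q - P, (P ⬝ᵥ P / (Q ⬝ᵥ P)) • Q - P)) h3.continuousAt
        (h1.prodMk h1)
    refine hc.eventually_lt_const ?_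
    change ((P ⬝ᵥ P / (P ⬝ᵥ P)) • P - P) ⬝ᵥ ((P ⬝ᵥ P / (P ⬝ᵥ P)) • P - P) < ε
    rw [div_self hPP.ne', one_smul, sub_self, zero_dotProduct]
    exact hε
  filter_upwards [ev1, ev2] with Q hQP hq hQ
  set c : ℝ := P ⬝ᵥ P / (Q ⬝ᵥ P) with hc
  have hc0 : c ≠ 0 := (div_pos hPP hQP).ne'
  have hcQ : Zer f ℝ (c • Q) := ZCTr.zer_smul hf c hQ
  obtain ⟨a, ha⟩ := geo_solve hg fun i => gr f P i ⬝ᵥ (c • Q - P)
  set u : Fin n → ℝ := c • Q - P - geo_w (gr f P) a with hu
  have hq' : c • Q - P = u + geo_w (gr f P) a := by rw [hu, sub_add_cancel]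
  have hgu : ∀ i, gr f P i ⬝ᵥ u = 0 := by
    intro i
    rw [hu, dotProduct_sub, ha i, sub_self]
  have hPg : ∀ b : Fin r → ℝ, geo_w (gr f P) b ⬝ᵥ P = 0 := by
    intro b
    rw [geo_w_dot]
    simp [hgP]
  have hug : ∀ b : Fin r → ℝ, geo_w (gr f P) b ⬝ᵥ u = 0 := by
    intro b
    rw [geo_w_dot]
    simp [hgu]
  have hqP : (c • Q - P) ⬝ᵥ P = 0 := by
    rw [sub_dotProduct, smul_dotProduct, smul_eq_mul, hc, div_mul_cancel₀ _ hQP.ne', sub_self]
  have huP : u ⬝ᵥ P = 0 := by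
    rw [hu, sub_dotProduct, hqP, hPg, sub_self]
  have hPε : (P - P) ⬝ᵥ (P - P) < ε := by
    rw [sub_self, zero_dotProduct]
    exact hε
  by_cases huu : u ⬝ᵥ u = 0
  · left
    have h1 := key (c • Q) P hq hPε hcQ hz u a hq' hgu
    rw [huu] at h1
    have h2 : geo_w (gr f P) a = 0 := geo_eq_zero (by linarith)
    have h3 : u = 0 := geo_eq_zero huu.le
    refine ⟨c⁻¹, ?_⟩
    rw [h2, h3, add_zero, sub_eq_zero] at hq'
    rw [← hq', smul_smul, inv_mul_cancel₀ hc0, one_smul]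
  · right
    have hU : 0 < u ⬝ᵥ u := lt_of_le_of_ne (geo_self_nonneg u) (Ne.symm huu)
    refine ⟨c, hc0, u, ?_⟩
    refine
      { hom := hf
        zP := hz
        PP := hPP.ne'
        uu := huu
        Pu := ?_
        gP := hgP
        gu := hgu
        gram := ?_
        zQ := hcQ
        Q_eq := ⟨a, ?_⟩
        only := ?_ }
    · rw [dotProduct_comm] at huP
      exact huP
    · intro d hd
      refine geo_T_inj hg ?_
      rw [map_zero]
      funext i
      have h1 := hd i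
      change gr f P i ⬝ᵥ geo_w (gr f P) d = 0
      rw [geo_dot_w]
      exact h1
    · rw [geo_pt, one_smul, one_smul, add_assoc, ← hq', add_sub_cancel]
    · intro s t b hx hs
      rw [geo_pt] at hx hs ⊢
      have hsph : sph P (c • Q) s (s • P + t • u + geo_w (gr f P) b) =
          (t • u + geo_w (gr f P) b) ⬝ᵥ
            (t • u + geo_w (gr f P) b - s • (c • Q - P)) := by
        refine Finset.sum_congr rfl fun j _ => ?_
        simp only [Pi.add_apply, Pi.smul_apply, Pi.sub_apply, smul_eq_mul, Algebra.algebraMap_self,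
          RingHom.id_apply]
        ring
      rw [hsph] at hs
      rcases eq_or_ne s 0 with rfl | hs0
      · refine ⟨0, Or.inl ?_⟩
        rw [zero_smul, sub_zero] at hs
        rw [zero_smul, zero_add]
        exact geo_eq_zero hs.le
      · set t' : ℝ := s⁻¹ * t with ht'
        set b' : Fin r → ℝ := s⁻¹ • b with hb'
        set y : Fin n → ℝ := t' • u + geo_w (gr f P) b' with hy
        have hyx : t • u + geo_w (gr f P) b = s • y := by
          rw [hy, hb', ht', geo_w_smul, smul_add, smul_smul, smul_smul, mul_inv_cancel_left₀ hs0,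
            mul_inv_cancel₀ hs0, one_smul]
        have hxz : Zer f ℝ (P + y) := by
          have h1 := ZCTr.zer_smul hf s⁻¹ hx
          have h2 : s⁻¹ • (s • P + t • u + geo_w (gr f P) b) = P + y := by
            rw [add_assoc, hyx, ← smul_add, smul_smul, inv_mul_cancel₀ hs0, one_smul]
          rwa [h2] at h1
        have hyq : y ⬝ᵥ (y - (c • Q - P)) = 0 := by
          rw [hyx, ← smul_sub, smul_dotProduct, dotProduct_smul, smul_eq_mul, smul_eq_mul] at hs
          rcases mul_eq_zero.1 hs with h | h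
          · exact absurd h hs0
          · exact (mul_eq_zero.1 h).resolve_left hs0
        have hyε : (P + y - P) ⬝ᵥ (P + y - P) < ε := by
          rw [add_sub_cancel_left]
          refine lt_of_le_of_lt ?_ hq
          have h1 := geo_self_nonneg (y - (c • Q - P))
          rw [sub_dotProduct, hyq, zero_sub, dotProduct_sub] at h1
          have h2 : y ⬝ᵥ y = y ⬝ᵥ (c • Q - P) := by
            rw [dotProduct_sub, sub_eq_zero] at hyq
            exact hyq
          rw [h2, dotProduct_comm y]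
          linarith
        have k1 := key (P + y) P hyε hPε hxz hz (t' • u) b' (by rw [add_sub_cancel_left])
          fun i => by rw [dotProduct_smul, hgu, smul_zero]
        have k2 := key (P + y) (c • Q) hyε hq hxz hcQ ((t' - 1) • u) (b' - a) (by
          have h1 : P + y - c • Q = y - (c • Q - P) := by abel
          rw [h1, hq', geo_w_sub, sub_smul, one_smul, hy]
          abel) fun i => by rw [dotProduct_smul, hgu, smul_zero]
        have e1 := geo_w_sub (g := gr f P) b' a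
        set w' := geo_w (gr f P) b' with hw'
        set w := geo_w (gr f P) a with hw
        rw [e1] at k2
        simp only [smul_dotProduct, dotProduct_smul, smul_eq_mul] at k1 k2
        have h1 : y - (c • Q - P) = (t' - 1) • u + (w' - w) := by
          rw [hq', sub_smul, one_smul, hy]
          abel
        rw [h1] at hyq
        have e7 := geo_alg (hug b') (hug a) hU k1 k2 hyq
        rcases mul_eq_zero.1 e7 with h | h
        · -- `x = s P`
          refine ⟨s, Or.inl ?_⟩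
          rw [h] at k1
          have h1 : w' = 0 := geo_eq_zero (by linarith)
          have h2 : y = 0 := by rw [hy, h1, h, zero_smul, add_zero]
          rw [add_assoc, hyx, h2, smul_zero, add_zero]
        · -- `x = s c Q`
          refine ⟨s, Or.inr ?_⟩
          rw [h] at k2
          have h1 : w' - w = 0 := geo_eq_zero (by linarith)
          have h2 : y = c • Q - P := by
            have h3 : t' = 1 := by linarith
            rw [hy, hq', h3, one_smul, sub_eq_zero.1 h1]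
          rw [add_assoc, hyx, h2, ← smul_add, add_sub_cancel]

end Ct
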