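import Pool.Agent.Lib.MP_f80667_ag.Ct.K
import Pool.Agent.Lib.MP_f80667_ag.Cv.EtA
import Pool.Agent.Lib.MP_f80667_ag.Cv.MdL

/-! # Roots of unity in unramified extensions -/

set_option autoImplicit false

open PE IntermediateField IsLocalRing Polynomial

namespace CV

variable {K Ω : Type} [Field K] [CharZero K] [Field Ω] [Algebra K Ω] [IsAlgClosure K Ω]
  {L : Ld K Ω} {M : IntermediateField K Ω}

/-- Roots of unity of order `k` prime to `p` are in an unramified extension. Proof: a primitive root `ζ` in `Ω` satisfies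
`ζ ^ (p ^ N) = ζ` for some `N ≠ 0` (`p ^ N ≡ 1` modulo `k`), so `ζ` is in `L.Te N`, `M' = L.Ur M N`; the product:
`IsPrimitiveRoot.pow_sub_pow_eq_prod_sub_mul` in `Ω[X]`. -/
theorem om_mu {k : ℕ} (hM : Um L M) (hk : ¬L.p ∣ k) : ∃ M', Em L M M' ∧ ∀ M'', Em L M' M'' →
    ∃ s : Multiset (Om L M''), s.card = k ∧ (∀ z ∈ s, z ^ k = 1) ∧
      ∀ w, lin (s.map (· * w)) = Polynomial.X ^ k - C (w ^ k) := by
  have hac : IsAlgClosed Ω := IsAlgClosure.isAlgClosed K
  have hch : CharZero Ω := charZero_of_injective_algebraMap (algebraMap K Ω).injective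
  have hk0 : 0 < k := by
    rcases Nat.eq_zero_or_pos k with h | h
    · exact absurd (h ▸ dvd_zero L.p) hk
    · exact h
  have hcop : Nat.Coprime L.p k := (Nat.Prime.coprime_iff_not_dvd L.pp).2 hk
  have hN : k.totient ≠ 0 := (Nat.totient_pos.2 hk0).ne'
  have hne : NeZero ((k : ℕ) : Ω) := ⟨Nat.cast_ne_zero.2 hk0.ne'⟩
  obtain ⟨ζ, hζ⟩ := HasEnoughRootsOfUnity.exists_primitiveRoot Ω k
  have hte : ζ ∈ L.Te k.totient := by
    show ζ ^ L.p ^ k.totient = ζ
    have h1 : k ∣ L.p ^ k.totient - 1 :=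
      (Nat.modEq_iff_dvd' (Nat.one_le_pow _ _ L.pp.pos)).1 (Nat.ModEq.pow_totient hcop).symm
    obtain ⟨c, hc⟩ := h1
    have h2 : L.p ^ k.totient = k * c + 1 := by
      have := Nat.one_le_pow k.totient L.p L.pp.pos
      omega
    rw [h2, pow_succ, pow_mul, hζ.pow_eq_one, one_pow, one_mul]
  refine ⟨L.Ur M k.totient, ⟨Ld.ur_le, k.totient, hN, le_rfl⟩, fun M'' hM'' => ?_⟩
  have hmem : ζ ∈ Om L M'' := mem_Om.2 ⟨hM''.1 (Ld.te_ur hte), Ld.te_int hN hte⟩
  obtain ⟨ζ', hζ'⟩ : ∃ ζ' : Om L M'', (Om L M'').subtype ζ' = ζ := ⟨⟨ζ, hmem⟩, rfl⟩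
  have hp : IsPrimitiveRoot ζ' k := by
    refine IsPrimitiveRoot.of_map_of_injective (f := (Om L M'').subtype) ?_ Subtype.val_injective
    rw [hζ']
    exact hζ
  refine ⟨(Multiset.range k).map fun i => ζ' ^ i, ?_, ?_, ?_⟩
  · rw [Multiset.card_map, Multiset.card_range]
  · intro z hz
    obtain ⟨i, -, rfl⟩ := Multiset.mem_map.1 hz
    rw [← pow_mul, mul_comm, pow_mul, hp.pow_eq_one, one_pow]
  · intro w
    rw [X_pow_sub_C_eq_prod hp hk0 rfl, lin, Multiset.map_map, Multiset.map_map]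
    rfl

end CV
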