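import Pool.Agent.Lib.MP_f80667_ag.Ct.DD
import Pool.Agent.Lib.MP_f80667_ag.Cv.EtA
import Pool.Agent.Lib.MP_f80667_ag.Cv.EtV
import Pool.Agent.Lib.MP_f80667_ag.Cv.MdL
import Pool.Agent.Lib.MP_f80667_ag.Cv.Sm5

/-! # The integers of an unramified extension: `p` and the uniformizer, derivations -/

set_option autoImplicit false

open PE IntermediateField IsLocalRing

namespace CV

variable {K Ω : Type} [Field K] [CharZero K] [Field Ω] [Algebra K Ω] [IsAlgClosure K Ω]
  {L : Ld K Ω} {M : IntermediateField K Ω}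

/-- `Om L M` is isomorphic to `OM L M`. -/
private def omE (L : Ld K Ω) (M : IntermediateField K Ω) : OM L M ≃+* Om L M where
  toFun x := ⟨((x : M) : Ω), ⟨(x : M).2, x.2⟩⟩
  invFun x := ⟨⟨x.1, x.2.1⟩, x.2.2⟩
  left_inv _ := rfl
  right_inv _ := rfl
  map_mul' _ _ := rfl
  map_add' _ _ := rfl

/-- Divisibility in `Om L M` is comparison of norms. Proof: as `dvd_iff_nm`. -/
theorem om_dvd {x y : Om L M} : x ∣ y ↔ L.nm (y : Ω) ≤ L.nm (x : Ω) := by
  rw [← map_dvd_iff (omE L M).symm, dvd_iff_nm]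
  rfl

/-- The uniformizer of `K` is irreducible in the integers of an unramified extension. -/
private theorem om_irr {π : K} (hπ : Uf L π) (hM : Um L M) :
    Irreducible (⟨algebraMap K M π, hπ.lt.le⟩ : OM L M) := by
  have h0 : 0 < L.nm (algebraMap K Ω π) := L.pos ((_root_.map_ne_zero _).2 hπ.ne)
  refine irr_of_nm L M h0 hπ.lt fun x hx => ?_
  change ∃ n : ℕ, L.nm ((x : M) : Ω) = L.nm (algebraMap K Ω π) ^ n
  have hx0 : 0 < L.nm ((x : M) : Ω) := L.pos fun h => hx (Subtype.ext (Subtype.ext h))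
  have hx1 : L.nm ((x : M) : Ω) ≤ 1 := x.2
  classical
  have hex : ∃ n : ℕ, L.nm (algebraMap K Ω π) ^ n < L.nm ((x : M) : Ω) :=
    exists_pow_lt_of_lt_one hx0 hπ.lt
  obtain ⟨n, hn⟩ : ∃ n, Nat.find hex = n := ⟨_, rfl⟩
  have h1 := Nat.find_spec hex
  rw [hn] at h1
  cases n with
  | zero =>
    rw [pow_zero] at h1
    exact absurd hx1 (not_le.2 h1)
  | succ k =>
    have h2 := Nat.find_min hex (m := k) (by omega)
    rw [not_lt] at h2
    refine ⟨k, le_antisymm h2 ?_⟩
    by_contra hcon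
    rw [not_le] at hcon
    exact absurd (hM.lt hπ (x : M).2 hcon) (not_le.2 h1)

/-- The Frobenius of the residue field. -/
private theorem om_frob [FiniteDimensional K M] :
    ∃ f : ℕ, f ≠ 0 ∧ ∀ x : OM L M, x ^ L.p ^ f - x ∈ maximalIdeal (OM L M) := by
  classical
  have : Fact L.p.Prime := ⟨L.pp⟩
  have hp : ((L.p : ℕ) : ResidueField (OM L M)) = 0 := by
    rw [← map_natCast (residue (OM L M)), residue_eq_zero_iff, maxOM]
    exact L.lt
  have : CharP (ResidueField (OM L M)) L.p := (CharP.charP_iff_prime_eq_zero L.pp).2 hp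
  have := Fintype.ofFinite (ResidueField (OM L M))
  obtain ⟨n, -, hn⟩ := FiniteField.card (ResidueField (OM L M)) L.p
  refine ⟨n, n.ne_zero, fun x => ?_⟩
  rw [← residue_eq_zero_iff, map_sub, map_pow, sub_eq_zero, ← hn]
  exact FiniteField.pow_card _

/-- Derivations of the integers of an unramified extension. Proof: `dk_dvr`: `Om L M` is a discrete valuation ring with the
uniformizer `w` (as `dvrOM`; the values of `M` are those of `K`: `sm_val`), the residue field is finite (`finOM`), so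
`x ^ q ≡ x` with `q = p ^ f` its cardinality; `w ^ e = p u` by `om_dvd`. (`Om L M` is ring isomorphic to `OM L M`.) -/
theorem om_dk {π : K} (hπ : Uf L π) {e : ℕ} (he0 : e ≠ 0)
    (he : L.nm (L.p : Ω) = L.nm (algebraMap K Ω π) ^ e) (hM : Um L M) :
    DK (Om L M) L.p (padicValNat L.p e + 1) := by
  have hfd : FiniteDimensional K M := hM.fd
  have hdvr : IsDiscreteValuationRing (Om L M) :=
    IsDiscreteValuationRing.RingEquivClass.isDiscreteValuationRing (omE L M)
  have hirr := om_irr hπ hM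
  obtain ⟨w, hw⟩ : ∃ w : OM L M, w = ⟨algebraMap K M π, hπ.lt.le⟩ := ⟨_, rfl⟩
  rw [← hw] at hirr
  have hwn : L.nm ((omE L M w : Om L M) : Ω) = L.nm (algebraMap K Ω π) := by
    rw [hw]
    rfl
  have hirr' : Irreducible (omE L M w) := (MulEquiv.irreducible_iff (omE L M)).2 hirr
  obtain ⟨f, hf, hfx⟩ := om_frob (L := L) (M := M)
  have hnp : L.nm (((L.p : ℕ) : Om L M) : Ω) = L.nm (algebraMap K Ω π) ^ e := by
    rw [← he]
    congr 1
  have hnw : L.nm ((omE L M w ^ e : Om L M) : Ω) = L.nm (algebraMap K Ω π) ^ e := by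
    rw [← hwn, ← L.pow]
    rfl
  have h1 : ((L.p : ℕ) : Om L M) ∣ omE L M w ^ e := om_dvd.2 (by rw [hnp, hnw])
  have h2 : omE L M w ^ e ∣ ((L.p : ℕ) : Om L M) := om_dvd.2 (by rw [hnp, hnw])
  obtain ⟨u, hu⟩ := associated_of_dvd_dvd h1 h2
  refine dk_dvr L.pp hirr' ⟨f, hf, fun x => ?_⟩ he0 hu.symm u.isUnit
  have h3 := hfx ((omE L M).symm x)
  rw [hirr.maximalIdeal_eq, Ideal.mem_span_singleton] at h3
  have h4 := map_dvd (omE L M) h3
  rw [map_sub, map_pow, RingEquiv.apply_symm_apply] at h4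
  exact h4

end CV
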