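import Pool.Agent.Lib.MP_f80667_ag.Ct.K
import Pool.Agent.Lib.MP_f80667_ag.Ct.W
import Pool.Agent.Lib.MP_f80667_ag.Cv.EtA
import Pool.Agent.Lib.MP_f80667_ag.Cv.MdL

/-! # The roots of `z ^ (a + 1) - w ^ a z - w ^ (a + 1) q` -/

set_option autoImplicit false

open PE IntermediateField IsLocalRing Polynomial

namespace CV

variable {K Ω : Type} [Field K] [CharZero K] [Field Ω] [Algebra K Ω] [IsAlgClosure K Ω]
  {L : Ld K Ω} {M : IntermediateField K Ω}

omit [CharZero K] [IsAlgClosure K Ω] in
/-- Hensel's lemma in `Om L M`. -/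
private theorem om_hens [FiniteDimensional K M] {g : (Om L M)[X]} (hg : g.Monic) (x : Om L M)
    (h0 : L.nm ((g.eval x : Om L M) : Ω) < 1)
    (h1 : L.nm ((g.derivative.eval x : Om L M) : Ω) = 1) :
    ∃ η : Om L M, g.eval (x + η) = 0 ∧ L.nm (η : Ω) < 1 := by
  obtain ⟨y, hy, hy0, hyx⟩ := L.hens M inferInstance (g.map (Om L M).subtype) (hg.map _)
    (fun i => by
      rw [coeff_map]
      exact (g.coeff i).2) x (mem_Om.1 x.2).1 (mem_Om.1 x.2).2
    (by
      rw [eval_map, ← Subring.subtype_apply, eval₂_at_apply]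
      exact h0)
    (by
      rw [derivative_map, eval_map, ← Subring.subtype_apply, eval₂_at_apply]
      exact h1)
  have h2 : y - (x : Ω) ∈ Om L M := mem_Om.2 ⟨M.sub_mem hy (mem_Om.1 x.2).1, hyx.le⟩
  refine ⟨⟨_, h2⟩, ?_, hyx⟩
  apply (Subring.subtype_injective (Om L M))
  rw [map_zero, ← eval₂_at_apply, ← eval_map, map_add]
  change eval ((x : Ω) + (y - (x : Ω))) _ = 0
  rw [add_sub_cancel]
  exact hy0

private theorem om_unit {x : Om L M} : IsUnit x ↔ 1 ≤ L.nm (x : Ω) := by
  rw [isUnit_iff_dvd_one, om_dvd]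
  change L.nm 1 ≤ _ ↔ _
  rw [L.one]

omit [CharZero K] [IsAlgClosure K Ω] in
private theorem om_le (x : Om L M) : L.nm (x : Ω) ≤ 1 := (mem_Om.1 x.2).2

omit [CharZero K] [IsAlgClosure K Ω] in
private theorem om_mul (x y : Om L M) :
    L.nm ((x * y : Om L M) : Ω) = L.nm (x : Ω) * L.nm (y : Ω) := by
  rw [← L.mul]
  rfl

omit [CharZero K] [IsAlgClosure K Ω] in
/-- A unit and an element of norm `< 1`. -/
private theorem om_add {x y : Om L M} (hx : 1 ≤ L.nm (x : Ω)) (hy : L.nm (y : Ω) < 1) :
    1 ≤ L.nm ((x + y : Om L M) : Ω) := by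
  have h1 := L.sub (((x + y : Om L M) : Om L M) : Ω) (y : Ω)
  have h2 : (((x + y : Om L M) : Om L M) : Ω) - (y : Ω) = (x : Ω) := by
    change ((x : Ω) + (y : Ω)) - (y : Ω) = _
    ring
  rw [h2] at h1
  rcases le_max_iff.1 h1 with h | h
  · exact hx.trans h
  · exact absurd (hx.trans h) (not_le.2 hy)

/-- The linear factors of a multiset times `w`. -/
private theorem lin_scale {R : Type} [CommRing R] [IsDomain R] (T : Multiset R) (w : R) :
    lin (T.map (· * w)) = (lin T).scaleRoots w := by
  induction T using Multiset.induction with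
  | empty =>
    simp only [lin, Multiset.map_zero, Multiset.prod_zero]
    exact (one_scaleRoots w).symm
  | cons z T ih =>
    simp only [lin, Multiset.map_cons, Multiset.prod_cons] at ih ⊢
    rw [mul_scaleRoots_of_noZeroDivisors, ih, X_sub_C_scaleRoots]

private theorem g_deg {R : Type} [CommRing R] [IsDomain R] {a : ℕ} (ha : a ≠ 0) (q : R) :
    (X ^ (a + 1) - X - C q : R[X]).natDegree = a + 1 := by
  rw [sub_sub, natDegree_sub_eq_left_of_natDegree_lt, natDegree_X_pow]
  rw [natDegree_X_pow, natDegree_X_add_C]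
  omega

private theorem g_monic {R : Type} [CommRing R] [IsDomain R] {a : ℕ} (ha : a ≠ 0) (q : R) :
    (X ^ (a + 1) - X - C q : R[X]).Monic := by
  rw [sub_sub]
  refine monic_X_pow_sub ?_
  rw [degree_X_add_C]
  exact_mod_cast (by omega : 1 < a + 1)

private theorem g_scale {R : Type} [CommRing R] [IsDomain R] {a : ℕ} (ha : a ≠ 0) (q w : R) :
    (X ^ (a + 1) - X - C q : R[X]).scaleRoots w =
      X ^ (a + 1) - C (w ^ a) * X - C (w ^ (a + 1) * q) := by
  ext i
  rw [coeff_scaleRoots, g_deg ha]
  simp only [coeff_sub, coeff_X_pow, coeff_X, coeff_C, coeff_C_mul]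
  rcases Nat.lt_trichotomy i 1 with h | h | h
  · obtain rfl : i = 0 := by omega
    rw [if_neg (by omega), if_neg (by omega), if_pos rfl, if_pos rfl, Nat.sub_zero]
    ring
  · subst h
    rw [if_neg (by omega), if_pos rfl, if_neg (by omega), if_neg (by omega), Nat.add_sub_cancel]
    ring
  · rw [if_neg (by omega : ¬ 1 = i), if_neg (by omega : ¬ i = 0), if_neg (by omega : ¬ i = 0)]
    by_cases h2 : i = a + 1
    · rw [if_pos h2, h2, Nat.sub_self]
      ring
    · rw [if_neg h2]
      ring

/-- The elements of `s` are pairwise incongruent. -/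
private theorem mun_sep [DecidableEq (Om L M)] {a : ℕ} {s : Multiset (Om L M)} (ha : ¬L.p ∣ a) (hs : Mun a s)
    {z z' : Om L M} (hz : z ∈ s) (hz' : z' ∈ s.erase z) : IsUnit (z - z') := by
  have ha0 : a ≠ 0 := by
    rintro rfl
    exact ha (dvd_zero _)
  have h1 : lin s = X ^ a - C 1 := by
    have h := hs.2.2 1
    rw [one_pow] at h
    rw [← h]
    congr 1
    conv_lhs => rw [← Multiset.map_id s]
    exact Multiset.map_congr rfl fun x _ => (mul_one x).symm
  have h2 : lin s = (X - C z) * lin (s.erase z) := by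
    conv_lhs => rw [← Multiset.cons_erase hz]
    simp only [lin, Multiset.map_cons, Multiset.prod_cons]
  have h3 : (lin s).derivative.eval z = (lin (s.erase z)).eval z := by
    rw [h2]
    simp [derivative_mul]
  have h4 : (lin s).derivative.eval z = (a : Om L M) * z ^ (a - 1) := by
    rw [h1]
    simp [derivative_pow]
  have hzu : IsUnit z := by
    refine IsUnit.of_pow_eq_one (hs.2.1 z hz) ha0
  have hau : IsUnit (a : Om L M) := by
    rw [om_unit]
    have h5 := L.nat_unit ha
    exact h5.ge
  have h5 : IsUnit ((lin (s.erase z)).eval z) := by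
    rw [← h3, h4]
    exact hau.mul (hzu.pow _)
  refine isUnit_of_dvd_unit ?_ h5
  rw [lin, eval_multiset_prod, Multiset.map_map]
  refine Multiset.dvd_prod (Multiset.mem_map.2 ⟨z', hz', ?_⟩)
  simp

/-- `π` here is any element of `Om L M` of norm `< 1` (`w₀`), `w₀ ∣ q`. Proof: `g = X ^ (a + 1) - X - q` is monic with integral
coefficients; modulo the maximal ideal it is `X (X ^ a - 1)`, with the distinct roots `0` and the `z` in `s` (`a` is prime to
`p`, so `a z ^ (a - 1)` is a unit and the `z` in `s` are pairwise incongruent: `X ^ a - 1` is their product and is separable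
modulo the maximal ideal). Every root of `g` in `Ω` is congruent to exactly one of them and they are `a + 1` many, so each
residue class contains exactly one root; the Galois group over `M` fixes it (or: Hensel's lemma in the complete ring
`OM L M`, `acOM`). `u` is the root congruent to `0`: `u (u ^ a - 1) = q`, so `q ∣ u`. For `z` in `s` the root is `z + η`:
`(z + η) ^ a = 1 + q / (z + η)`, `a z ^ (a - 1) η + η ^ 2 r = q / (z + η)`, so `q ∣ η` (`η` is in the maximal ideal, induct or
factor) and `a η = q` modulo `w₀ q`. Then `lin` of the roots is `g`; for the multiples by `w`: both sides are monic of degree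
`a + 1` (for `w ≠ 0` compare with `w ^ (a + 1) g (X / w)`, i.e. `scaleRoots`; `w = 0` directly). -/
theorem om_as {a : ℕ} {s : Multiset (Om L M)} [FiniteDimensional K M] {w₀ : Om L M}
    (hw₀ : L.nm (w₀ : Ω) < 1) (q : Om L M) (ha : ¬L.p ∣ a) (hs : Mun a s) (hq : w₀ ∣ q)
    : ∃ (u : Om L M) (s' : Multiset (Om L M × Om L M)), q ∣ u ∧
      s'.map Prod.fst = s ∧ (∀ v ∈ s', q ∣ v.2 ∧ w₀ * q ∣ a * v.2 - q) ∧
      ∀ w, lin ((u * w) ::ₘ s'.map fun v => (v.1 + v.2) * w) =
        Polynomial.X ^ (a + 1) - C (w ^ a) * Polynomial.X - C (w ^ (a + 1) * q) := by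
  classical
  have ha0 : a ≠ 0 := by
    rintro rfl
    exact ha (dvd_zero _)
  have hq1 : L.nm (q : Ω) < 1 := (om_dvd.1 hq).trans_lt hw₀
  obtain ⟨g, hg⟩ : ∃ g : (Om L M)[X], g = X ^ (a + 1) - X - C q := ⟨_, rfl⟩
  have hgm : g.Monic := by
    rw [hg]
    exact g_monic ha0 q
  have hgd : g.natDegree = a + 1 := by
    rw [hg]
    exact g_deg ha0 q
  have hge : ∀ x, g.eval x = x ^ (a + 1) - x - q := fun x => by
    rw [hg]
    simp
  have hgd' : ∀ x, g.derivative.eval x = ((a : Om L M) + 1) * x ^ a - 1 := fun x => by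
    rw [hg]
    simp [derivative_pow]
  -- the root congruent to `0`
  obtain ⟨u, hu0, hu1⟩ := om_hens hgm (0 : Om L M)
    (by
      rw [hge, zero_pow (by omega), sub_zero, zero_sub]
      change L.nm (-(q : Ω)) < 1
      rw [L.neg]
      exact hq1)
    (by
      rw [hgd', zero_pow ha0, mul_zero, zero_sub]
      change L.nm (-(1 : Ω)) = 1
      rw [L.neg, L.one])
  rw [zero_add, hge] at hu0
  have huq : q ∣ u := by
    have h1 : q = u * (u ^ a - 1) := by
      linear_combination -hu0
    have h2 : IsUnit (u ^ a - 1) := by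
      rw [← IsUnit.neg_iff, neg_sub, sub_eq_add_neg, om_unit]
      refine om_add (by rw [← om_unit]; exact isUnit_one) ?_
      change L.nm (-((u : Ω) ^ a)) < 1
      rw [L.neg, L.pow]
      exact pow_lt_one₀ (L.nonneg _) hu1 ha0
    rw [h1]
    exact (h2.mul_right_dvd).2 dvd_rfl
  -- the roots congruent to the elements of `s`
  have hη : ∀ z ∈ s, ∃ η : Om L M, g.eval (z + η) = 0 ∧ L.nm (η : Ω) < 1 := by
    intro z hz
    have hza := hs.2.1 z hz
    refine om_hens hgm z ?_ ?_
    · rw [hge, pow_succ, hza, one_mul, sub_self, zero_sub]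
      change L.nm (-(q : Ω)) < 1
      rw [L.neg]
      exact hq1
    · rw [hgd', hza, mul_one, add_sub_cancel_right]
      exact L.nat_unit ha
  choose! η hη0 hη1 using hη
  have hfac : ∀ z ∈ s, q ∣ η z ∧ w₀ * q ∣ a * η z - q := by
    intro z hz
    obtain ⟨k, hk⟩ := binomExpansion g z (η z)
    rw [hη0 z hz, hge, hgd', pow_succ, hs.2.1 z hz, one_mul, sub_self, zero_sub, mul_one,
      add_sub_cancel_right] at hk
    have h1 : q = η z * (a + k * η z) := by
      linear_combination hk
    have h2 : IsUnit ((a : Om L M) + k * η z) := by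
      rw [om_unit]
      refine om_add (L.nat_unit ha).ge ?_
      rw [om_mul]
      exact mul_lt_one_of_nonneg_of_lt_one_right (om_le k) (L.nonneg _) (hη1 z hz)
    have h3 : q ∣ η z := by
      conv_lhs => rw [h1]
      exact (h2.mul_right_dvd).2 dvd_rfl
    have h3' : η z ∣ q := by
      conv_rhs => rw [h1]
      exact dvd_mul_right _ _
    refine ⟨h3, ?_⟩
    have h4 : (a : Om L M) * η z - q = -(k * (η z * η z)) := by
      linear_combination -hk
    rw [h4, dvd_neg]
    exact Dvd.dvd.mul_left (mul_dvd_mul (hq.trans h3) h3) k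
  refine ⟨u, s.map fun z => (z, η z), huq, ?_, ?_, ?_⟩
  · rw [Multiset.map_map]
    exact Multiset.map_id s
  · intro v hv
    obtain ⟨z, hz, rfl⟩ := Multiset.mem_map.1 hv
    exact hfac z hz
  -- the product
  obtain ⟨T, hT⟩ : ∃ T : Multiset (Om L M), T = u ::ₘ s.map fun z => z + η z := ⟨_, rfl⟩
  have hnds : s.Nodup := by
    rw [Multiset.nodup_iff_count_le_one]
    intro z
    by_contra hcon
    rw [not_le] at hcon
    have hz : z ∈ s := Multiset.count_pos.1 (by omega)
    have hz' : z ∈ s.erase z := by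
      rw [← Multiset.count_pos, Multiset.count_erase_self]
      omega
    have h1 := mun_sep ha hs hz hz'
    rw [sub_self] at h1
    exact not_isUnit_zero h1
  have hTn : T.Nodup := by
    rw [hT, Multiset.nodup_cons]
    constructor
    · intro hmem
      obtain ⟨z, hz, hzu⟩ := Multiset.mem_map.1 hmem
      have h1 : IsUnit z := IsUnit.of_pow_eq_one (hs.2.1 z hz) ha0
      have h2 := om_add (om_unit.1 h1) (hη1 z hz)
      rw [hzu] at h2
      exact absurd hu1 (not_lt.2 h2)
    · refine Multiset.Nodup.map_on ?_ hnds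
      intro z hz z' hz' he
      by_contra hne
      have h1 : z' ∈ s.erase z := (Multiset.mem_erase_of_ne fun h => hne h.symm).2 hz'
      have h2 := om_unit.1 (mun_sep ha hs hz h1)
      have h3 : ((z - z' : Om L M) : Ω) = (η z' : Ω) - (η z : Ω) := by
        have h4 : z - z' = η z' - η z := by linear_combination he
        rw [h4]
        rfl
      rw [h3] at h2
      exact absurd (h2.trans (L.sub _ _)) (not_le.2 (max_lt (hη1 z' hz') (hη1 z hz)))
  have hTr : T ≤ g.roots := by
    rw [Multiset.le_iff_subset hTn]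
    intro x hx
    rw [mem_roots hgm.ne_zero, IsRoot.def]
    rw [hT, Multiset.mem_cons, Multiset.mem_map] at hx
    rcases hx with rfl | ⟨z, hz, rfl⟩
    · rw [hge]
      exact hu0
    · exact hη0 z hz
  have hTc : T.card = a + 1 := by
    rw [hT, Multiset.card_cons, Multiset.card_map, hs.1]
  have hTe : T = g.roots := Multiset.eq_of_le_of_card_le hTr (by
    rw [hTc, ← hgd]
    exact card_roots' g)
  have hlin : lin T = g := by
    rw [lin, hTe]
    exact prod_multiset_X_sub_C_of_monic_of_roots_card_eq hgm (by rw [← hTe, hTc, hgd])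
  intro w
  have h1 : (u * w) ::ₘ (s.map fun z => (z, η z)).map (fun v => (v.1 + v.2) * w) =
      T.map (· * w) := by
    rw [hT, Multiset.map_cons, Multiset.map_map, Multiset.map_map]
    rfl
  rw [h1, lin_scale, hlin, hg]
  exact g_scale ha0 q w

end CV
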