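import Pool.Agent.Lib.MP_f80667_ag.Cv.EtG

/-! # The relations for two curves -/

set_option autoImplicit false

open ZC BE PE Polynomial TensorProduct IntermediateField

namespace CV

variable {F : Type} [Field F] {K Ω : Type} [Field K] [CharZero K] [Field Ω] [Algebra K Ω]
  [Algebra F K] [Algebra F Ω] [IsScalarTower F K Ω] [IsAlgClosure K Ω] {L : Ld K Ω}
  {C₁ C₂ : Crv F} {m₁ : Mod C₁ (Ok L) K} {m₂ : Mod C₂ (Ok L) K} {M : IntermediateField K Ω}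

/-- The comparison for the symbols of the cycles of two polynomials. -/
private theorem rl_sg (hcx : ExC2 m₁ m₂) {π : K} (hπ : Uf L π) (hM : Um L M) (T₁ : Cht m₁ M)
    (T₂ : Cht m₂ M) {r₁ r₂ : Polynomial Ω} (h₁ : Ipo L M r₁) (h₂ : Ipo L M r₂) {N : ℕ}
    (hN : N ≠ 0) {f g : Polynomial Ω} (hf : Dpo L M f) (hg : Dpo L M g)
    (hd : f.natDegree = g.natDegree)
    (hfg : ∀ i, L.nm (f.coeff i - g.coeff i) ≤ L.nm (algebraMap K Ω π) ^ N)
    [FiniteDimensional K M] :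
    sgh M (rcy (V := Vpr C₁.V C₂.V) (fun w => pp (T₁.P (r₁.eval w)) (T₂.P (r₂.eval w))) f) -
    sgh M (rcy (V := Vpr C₁.V C₂.V) (fun w => pp (T₁.P (r₁.eval w)) (T₂.P (r₂.eval w))) g) ∈
      PsD m₁ m₂ π N := by
  set P : Ω → (Vpr C₁.V C₂.V).pt Ω := fun w => pp (T₁.P (r₁.eval w)) (T₂.P (r₂.eval w)) with hP
  have hc0 := L.nonneg (algebraMap K Ω π)
  have hc1 : L.nm (algebraMap K Ω π) ^ N < 1 := pow_lt_one₀ hc0 hπ.lt hN
  have key := hcx M inferInstance T₁ T₂ r₁ r₂ h₁ h₂ f g (L.nm (algebraMap K Ω π) ^ N) hf hg hd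
    hc1 hfg
  obtain ⟨z₁, hz₁, z₂, hz₂, e⟩ := AddSubgroup.mem_sup.1 key
  have hact : ∀ γ ∈ M.fixingSubgroup, ∀ w, L.nm w < 1 →
      (Vpr C₁.V C₂.V).act γ (P w) = P (γ w) := by
    intro γ hγ w hw
    refine Prod.ext ?_ ?_
    · change C₁.V.act γ (T₁.P (r₁.eval w)) = T₁.P (r₁.eval (γ w))
      rw [T₁.eqv γ hγ _ (h₁.eval_lt hw), h₁.eval_act hγ]
    · change C₂.V.act γ (T₂.P (r₂.eval w)) = T₂.P (r₂.eval (γ w))
      rw [T₂.eqv γ hγ _ (h₂.eval_lt hw), h₂.eval_act hγ]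
  have hz1 : Fx M z₁ := by
    have e1 : z₁ = (rcy P f - rcy P g) - z₂ := by
      rw [← e, add_sub_cancel_right]
    rw [e1]
    exact ((rcy_fx hf P hact).sub (rcy_fx hg P hact)).sub (dsp_fx hz₂)
  rw [← map_sub, ← e, map_add]
  have e2 : sgh M z₁ = 0 := sg_ratEq hz₁ hz1
  rw [e2, zero_add]
  exact sg_dsp hM hz₂

/-- The comparison for `f = (X - u) (X - v) X ^ 2`, `g = X (X - u - v) (X ^ 2 + u v)`. -/
private theorem rl_one (hcx : ExC2 m₁ m₂) {π : K} (hπ : Uf L π) (hM : Um L M) (T₁ : Cht m₁ M)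
    (T₂ : Cht m₂ M) {r₁ r₂ : Polynomial Ω} (h₁ : Ipo L M r₁) (h₂ : Ipo L M r₂) {h : ℕ}
    (hh : h ≠ 0) {w u v : Om L M} (hw : (w : Ω) = algebraMap K Ω π) (hu : w ^ h ∣ u)
    (hv : w ^ h ∣ v) [FiniteDimensional K M] {s : Ω → ((Vpr C₁.V C₂.V).pt Ω →₀ ℤ) ⧸
      (Vpr C₁.V C₂.V).ratEq K Ω}
    (hs : ∀ z : Ω, s z = (scC (K := K) C₁.bp C₂.bp).sy M
      (Finsupp.single (T₁.P (r₁.eval z)) 1) (Finsupp.single (T₂.P (r₂.eval z)) 1)) :
    s (u : Ω) + s (v : Ω) + s 0 - s ((u : Ω) + (v : Ω)) - sgh M (rcy (V := Vpr C₁.V C₂.V)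
      (fun w => pp (T₁.P (r₁.eval w)) (T₂.P (r₂.eval w))) (X ^ 2 + C ((u : Ω) * (v : Ω)))) ∈
        PsD m₁ m₂ π (3 * h) := by
  set P : Ω → (Vpr C₁.V C₂.V).pt Ω := fun w => pp (T₁.P (r₁.eval w)) (T₂.P (r₂.eval w)) with hP
  have hc0 := L.nonneg (algebraMap K Ω π)
  have hch : L.nm (algebraMap K Ω π) ^ h < 1 := pow_lt_one₀ hc0 hπ.lt hh
  have hnu : ∀ u : Om L M, w ^ h ∣ u → L.nm (u : Ω) ≤ L.nm (algebraMap K Ω π) ^ h := by
    rintro _ ⟨c, rfl⟩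
    change L.nm ((w : Ω) ^ h * (c : Ω)) ≤ _
    rw [L.mul, L.pow, hw]
    exact mul_le_of_le_one_right (pow_nonneg hc0 h) c.2.2
  have nu := hnu u hu
  have nv := hnu v hv
  have nuv := hnu (u + v) (dvd_add hu hv)
  have nu0 := L.nonneg (u : Ω)
  have nv0 := L.nonneg (v : Ω)
  have nd : L.nm ((u : Ω) * (v : Ω)) < 1 := by
    rw [L.mul]
    exact mul_lt_one_of_nonneg_of_lt_one_left nu0 (nu.trans_lt hch) (nv.trans hch.le)
  have nuv' : L.nm (-(v : Ω) + -(u : Ω)) < 1 := by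
    rw [← neg_add_rev, L.neg]
    exact nuv.trans_lt hch
  have hX2 : (X ^ 2 + C ((u : Ω) * (v : Ω)) : Polynomial Ω).Monic :=
    monic_X_pow_add_C _ two_ne_zero
  have f1 : (X ^ 2 * ((X - C (u : Ω)) * (X - C (v : Ω))) : Polynomial Ω) =
      X ^ 4 - C ((u : Ω) + (v : Ω)) * X ^ 3 + C ((u : Ω) * (v : Ω)) * X ^ 2 := by
    rw [C_add, C_mul]
    ring
  have g1 : (X ^ 1 * (X - C ((u : Ω) + (v : Ω))) * (X ^ 2 + C ((u : Ω) * (v : Ω))) :
      Polynomial Ω) =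
      X ^ 4 - C ((u : Ω) + (v : Ω)) * X ^ 3 + C ((u : Ω) * (v : Ω)) * X ^ 2 -
        C ((u : Ω) * (v : Ω) * ((u : Ω) + (v : Ω))) * X := by
    simp only [C_add, C_mul]
    ring
  have hum : (u : Ω) ∈ M := u.2.1
  have hvm : (v : Ω) ∈ M := v.2.1
  have hfm : (X ^ 2 * ((X - C (u : Ω)) * (X - C (v : Ω))) : Polynomial Ω).Monic :=
    (monic_X_pow 2).mul ((monic_X_sub_C _).mul (monic_X_sub_C _))
  have hgm : (X ^ 1 * (X - C ((u : Ω) + (v : Ω))) * (X ^ 2 + C ((u : Ω) * (v : Ω))) :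
      Polynomial Ω).Monic := ((monic_X_pow 1).mul (monic_X_sub_C _)).mul hX2
  have hfd : (X ^ 2 * ((X - C (u : Ω)) * (X - C (v : Ω))) : Polynomial Ω).natDegree = 4 := by
    rw [f1]
    compute_degree!
  have hgd : (X ^ 1 * (X - C ((u : Ω) + (v : Ω))) * (X ^ 2 + C ((u : Ω) * (v : Ω))) :
      Polynomial Ω).natDegree = 4 := by
    rw [g1]
    compute_degree!
  have z1 : L.nm (0 : Ω) < 1 := nm_zero_lt
  have hf : Dpo L M (X ^ 2 * ((X - C (u : Ω)) * (X - C (v : Ω))) : Polynomial Ω) := by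
    refine ⟨hfm, fun i => ?_, fun i hi => ?_⟩
    · rw [f1, coeff_add, coeff_sub, coeff_X_pow, coeff_C_mul_X_pow, coeff_C_mul_X_pow]
      refine add_mem (sub_mem ?_ ?_) ?_
      · split_ifs
        exacts [one_mem M, zero_mem M]
      · split_ifs
        exacts [add_mem hum hvm, zero_mem M]
      · split_ifs
        exacts [mul_mem hum hvm, zero_mem M]
    · rw [hfd] at hi
      rw [f1, coeff_add, coeff_sub, coeff_X_pow, coeff_C_mul_X_pow, coeff_C_mul_X_pow,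
        if_neg hi.ne]
      interval_cases i
      · simpa using z1
      · simpa using z1
      · simpa using nd
      · simpa using nuv'
  have hg : Dpo L M (X ^ 1 * (X - C ((u : Ω) + (v : Ω))) * (X ^ 2 + C ((u : Ω) * (v : Ω))) :
      Polynomial Ω) := by
    refine ⟨hgm, fun i => ?_, fun i hi => ?_⟩
    · rw [g1, coeff_sub, coeff_add, coeff_sub, coeff_X_pow, coeff_C_mul_X_pow, coeff_C_mul_X_pow,
        coeff_C_mul, coeff_X]
      refine sub_mem (add_mem (sub_mem ?_ ?_) ?_) (mul_mem (mul_mem (mul_mem hum hvm)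
        (add_mem hum hvm)) ?_)
      · split_ifs
        exacts [one_mem M, zero_mem M]
      · split_ifs
        exacts [add_mem hum hvm, zero_mem M]
      · split_ifs
        exacts [mul_mem hum hvm, zero_mem M]
      · split_ifs
        exacts [one_mem M, zero_mem M]
    · rw [hgd] at hi
      rw [g1, coeff_sub, coeff_add, coeff_sub, coeff_X_pow, coeff_C_mul_X_pow, coeff_C_mul_X_pow,
        if_neg hi.ne, coeff_C_mul, coeff_X]
      interval_cases i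
      · simpa using z1
      · have : L.nm ((u : Ω) * (v : Ω) * ((u : Ω) + (v : Ω))) < 1 := by
          rw [L.mul]
          exact mul_lt_one_of_nonneg_of_lt_one_left (L.nonneg _) nd (nuv.trans hch.le)
        simpa [L.neg] using this
      · simpa using nd
      · simpa using nuv'
  have hfg : ∀ i, L.nm ((X ^ 2 * ((X - C (u : Ω)) * (X - C (v : Ω))) : Polynomial Ω).coeff i -
      (X ^ 1 * (X - C ((u : Ω) + (v : Ω))) * (X ^ 2 + C ((u : Ω) * (v : Ω))) :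
      Polynomial Ω).coeff i) ≤ L.nm (algebraMap K Ω π) ^ (3 * h) := by
    intro i
    rw [← coeff_sub, f1, g1, sub_sub_cancel, coeff_C_mul, coeff_X]
    have h3 : L.nm ((u : Ω) * (v : Ω) * ((u : Ω) + (v : Ω))) ≤
        L.nm (algebraMap K Ω π) ^ (3 * h) := by
      rw [L.mul, L.mul]
      have e3 : L.nm (algebraMap K Ω π) ^ (3 * h) = L.nm (algebraMap K Ω π) ^ h *
          L.nm (algebraMap K Ω π) ^ h * L.nm (algebraMap K Ω π) ^ h := by ring
      rw [e3]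
      exact mul_le_mul (mul_le_mul nu nv nv0 (pow_nonneg hc0 h)) nuv (L.nonneg _)
        (mul_nonneg (pow_nonneg hc0 h) (pow_nonneg hc0 h))
    split_ifs
    · rwa [mul_one]
    · rw [mul_zero, L.zero]
      exact pow_nonneg hc0 _
  have key := rl_sg hcx hπ hM T₁ T₂ h₁ h₂ (mul_ne_zero three_ne_zero hh) hf hg
    (hfd.trans hgd.symm) hfg
  have hsP : ∀ z : Ω, sgh M (Finsupp.single (P z) 1) = s z := fun z => by
    rw [hs]
    exact sg_pt M (P z)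
  have ef : sgh M (rcy P (X ^ 2 * ((X - C (u : Ω)) * (X - C (v : Ω))) : Polynomial Ω)) =
      s 0 + s 0 + (s (u : Ω) + s (v : Ω)) := by
    rw [rcy_mul P (monic_X_pow 2).ne_zero ((monic_X_sub_C _).mul (monic_X_sub_C _)).ne_zero,
      rcy_mul P (monic_X_sub_C _).ne_zero (monic_X_sub_C _).ne_zero, rcy_X_sub, rcy_X_sub,
      rcy_X_pow, map_add, map_add, hsP, hsP, ← hsP 0, ← map_add, ← Finsupp.single_add]
    rfl
  have eg : sgh M (rcy P (X ^ 1 * (X - C ((u : Ω) + (v : Ω))) *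
      (X ^ 2 + C ((u : Ω) * (v : Ω))) : Polynomial Ω)) =
      s 0 + s ((u : Ω) + (v : Ω)) + sgh M (rcy P (X ^ 2 + C ((u : Ω) * (v : Ω)))) := by
    rw [rcy_mul P ((monic_X_pow 1).mul (monic_X_sub_C _)).ne_zero hX2.ne_zero,
      rcy_mul P (monic_X_pow 1).ne_zero (monic_X_sub_C _).ne_zero, rcy_X_sub,
      rcy_X_pow, map_add, map_add, hsP, Nat.cast_one, hsP]
  rw [← hP, ef, eg] at key
  convert key using 1
  abel

/-- The symbol of two displacements. -/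
private theorem rl_dsc (hM : Um L M) (T₁ : Cht m₁ M) (T₂ : Cht m₂ M) {p q : Ω} (hp : p ∈ M)
    (hq : q ∈ M) (hp1 : L.nm p < 1) (hq1 : L.nm q < 1) :
    (scC (K := K) C₁.bp C₂.bp).sy M (dsc T₁ p) (dsc T₂ q) =
      (scC (K := K) C₁.bp C₂.bp).sy M (Finsupp.single (T₁.P p) 1) (Finsupp.single (T₂.P q) 1) -
      (scC (K := K) C₁.bp C₂.bp).sy M (Finsupp.single (T₁.P p) 1) (Finsupp.single (T₂.P 0) 1) -
      ((scC (K := K) C₁.bp C₂.bp).sy M (Finsupp.single (T₁.P 0) 1) (Finsupp.single (T₂.P q) 1) -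
      (scC (K := K) C₁.bp C₂.bp).sy M (Finsupp.single (T₁.P 0) 1)
        (Finsupp.single (T₂.P 0) 1)) := by
  have hfd := Um.fd hM
  have f1 : Fx M (Finsupp.single (T₁.P p) 1 : C₁.V.pt Ω →₀ ℤ) :=
    fx_single ((cht_fp T₁ hp1).2 hp) 1
  have f2 : Fx M (Finsupp.single (T₂.P q) 1 : C₂.V.pt Ω →₀ ℤ) :=
    fx_single ((cht_fp T₂ hq1).2 hq) 1
  have f3 : Fx M (Finsupp.single (T₁.P 0) 1 : C₁.V.pt Ω →₀ ℤ) :=
    fx_single ((cht_fp T₁ nm_zero_lt).2 (zero_mem M)) 1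
  have f4 : Fx M (Finsupp.single (T₂.P 0) 1 : C₂.V.pt Ω →₀ ℤ) :=
    fx_single ((cht_fp T₂ nm_zero_lt).2 (zero_mem M)) 1
  rw [dsc, dsc, sy_sub₁ f1 f3 (f2.sub f4), sy_sub₂ f1 f2 f4, sy_sub₂ f3 f2 f4]

/-- The comparison of two polynomials for the displacements. Proof: `cx_sy` for `(r₁, r₂) = (x X ^ a, y X)`, `(x X ^ a, 0)`, `(0, y X)`
(`ipo_mon`) and the bilinear expansion of `S(P - P₀, Q - Q₀)` (the terms `S(P₀, Q₀)` cancel since `s`, `t` have the same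
cardinality). -/
theorem rl_cx (hcx : ExC2 m₁ m₂) {π : K} (hπ : Uf L π) (hM : Um L M) (T₁ : Cht m₁ M)
    (T₂ : Cht m₂ M) (x y : Om L M) {w : Om L M} (hw : (w : Ω) = algebraMap K Ω π) (a N : ℕ)
    (s t : Multiset (Om L M)) (ha : a ≠ 0) (hN : N ≠ 0) (hc : s.card = t.card)
    (hs : ∀ z ∈ s, w ∣ z) (ht : ∀ z ∈ t, w ∣ z) (hst : C (w ^ N) ∣ lin s - lin t) :
    (s.map fun z : Om L M => (scC (K := K) C₁.bp C₂.bp).sy M
      (dsc T₁ ((x * z ^ a : Om L M) : Ω)) (dsc T₂ ((y * z : Om L M) : Ω))).sum -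
    (t.map fun z : Om L M => (scC (K := K) C₁.bp C₂.bp).sy M
      (dsc T₁ ((x * z ^ a : Om L M) : Ω)) (dsc T₂ ((y * z : Om L M) : Ω))).sum ∈
      PsD m₁ m₂ π N := by
  have hfd := Um.fd hM
  have hlt : ∀ c : Om L M, w ∣ c → L.nm (c : Ω) < 1 := by
    rintro _ ⟨c, rfl⟩
    change L.nm ((w : Ω) * (c : Ω)) < 1
    rw [L.mul, hw]
    exact (mul_le_of_le_one_right (L.nonneg _) c.2.2).trans_lt hπ.lt
  have hr₁ : Ipo L M (C (x : Ω) * X ^ a) := ipo_mon x.2.1 x.2.2 fun h => absurd h ha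
  have hr₂ : Ipo L M (C (y : Ω) * X ^ 1) := ipo_mon y.2.1 y.2.2 fun h => absurd h one_ne_zero
  have hr0 : Ipo L M (0 : Polynomial Ω) :=
    ⟨fun i => by rw [coeff_zero]; exact zero_mem M, fun i => by
      rw [coeff_zero, L.zero]; exact zero_le_one, by rw [coeff_zero]; exact nm_zero_lt⟩
  have e₁ : ∀ z : Om L M, (C (x : Ω) * X ^ a : Polynomial Ω).eval (z : Ω) =
      ((x * z ^ a : Om L M) : Ω) := by
    intro z
    simp only [eval_mul, eval_C, eval_pow, eval_X, Subring.coe_mul, Subring.coe_pow]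
  have e₂ : ∀ z : Om L M, (C (y : Ω) * X ^ 1 : Polynomial Ω).eval (z : Ω) =
      ((y * z : Om L M) : Ω) := by
    intro z
    simp only [eval_mul, eval_C, eval_X, Subring.coe_mul, pow_one]
  have m1 := cx_sy hcx hπ hM T₁ T₂ hr₁ hr₂ hN hc (fun c hc => hlt c (hs c hc))
    (fun c hc => hlt c (ht c hc)) hw hst
  have m2 := cx_sy hcx hπ hM T₁ T₂ hr₁ hr0 hN hc (fun c hc => hlt c (hs c hc))
    (fun c hc => hlt c (ht c hc)) hw hst
  have m3 := cx_sy hcx hπ hM T₁ T₂ hr0 hr₂ hN hc (fun c hc => hlt c (hs c hc))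
    (fun c hc => hlt c (ht c hc)) hw hst
  simp only [e₁, e₂, eval_zero] at m1 m2 m3
  have key : ∀ u : Multiset (Om L M), (∀ z ∈ u, w ∣ z) →
      (u.map fun z : Om L M => (scC (K := K) C₁.bp C₂.bp).sy M
      (dsc T₁ ((x * z ^ a : Om L M) : Ω)) (dsc T₂ ((y * z : Om L M) : Ω))).sum =
      (u.map fun z : Om L M => (scC (K := K) C₁.bp C₂.bp).sy M
        (Finsupp.single (T₁.P ((x * z ^ a : Om L M) : Ω)) 1)
        (Finsupp.single (T₂.P ((y * z : Om L M) : Ω)) 1)).sum -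
      (u.map fun z : Om L M => (scC (K := K) C₁.bp C₂.bp).sy M
        (Finsupp.single (T₁.P ((x * z ^ a : Om L M) : Ω)) 1) (Finsupp.single (T₂.P 0) 1)).sum -
      ((u.map fun z : Om L M => (scC (K := K) C₁.bp C₂.bp).sy M
        (Finsupp.single (T₁.P 0) 1) (Finsupp.single (T₂.P ((y * z : Om L M) : Ω)) 1)).sum -
      u.card • (scC (K := K) C₁.bp C₂.bp).sy M (Finsupp.single (T₁.P 0) 1)
        (Finsupp.single (T₂.P 0) 1)) := by
    intro u hu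
    rw [← Multiset.sum_replicate, ← Multiset.map_const', ← Multiset.sum_map_sub,
      ← Multiset.sum_map_sub, ← Multiset.sum_map_sub]
    congr 1
    refine Multiset.map_congr rfl fun z hz => ?_
    exact rl_dsc hM T₁ T₂ (x * z ^ a : Om L M).2.1 (y * z : Om L M).2.1
      (hlt _ ((dvd_pow (hu z hz) ha).mul_left x)) (hlt _ ((hu z hz).mul_left y))
  rw [key s hs, key t ht, hc]
  have := sub_mem m1 (add_mem m2 m3)
  convert this using 1
  abel

/-- The comparison of `f = (X - u) (X - v) X ^ 2` and `g = X (X - u - v) (X ^ 2 + u v)` (`f - g = u v (u + v) X`) on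
`z ↦ (x z, y z)`. Proof: `hcx` for `(r₁, r₂) = (x X, y X)`, `(x X, 0)`, `(0, y X)`; `sg` of the four terms of
`[(P, Q)] - [(P, Q₀)] - [(P₀, Q)] + [(P₀, Q₀)]` at the roots of `f`, `g` (`rcy_mul`, `sg_dsp`, `sg_ratEq`); `Φ d` is `sg M` of this
combination of the cycles `rcy _ (X ^ 2 + d)` (zero points at `0`). -/
theorem rl_key (hcx : ExC2 m₁ m₂) {π : K} (hπ : Uf L π) (hM : Um L M) (T₁ : Cht m₁ M)
    (T₂ : Cht m₂ M) (x y : Om L M) {w : Om L M} (hw : (w : Ω) = algebraMap K Ω π) (h : ℕ)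
    (hh : h ≠ 0) :
    ∃ Φ : Om L M → ((Vpr C₁.V C₂.V).pt Ω →₀ ℤ) ⧸ (Vpr C₁.V C₂.V).ratEq K Ω,
    ∀ u v : Om L M, w ^ h ∣ u → w ^ h ∣ v →
    (scC (K := K) C₁.bp C₂.bp).sy M (dsc T₁ ((x * (u + v) : Om L M) : Ω))
        (dsc T₂ ((y * (u + v) : Om L M) : Ω)) -
      (scC (K := K) C₁.bp C₂.bp).sy M (dsc T₁ ((x * u : Om L M) : Ω))
        (dsc T₂ ((y * u : Om L M) : Ω)) -
      (scC (K := K) C₁.bp C₂.bp).sy M (dsc T₁ ((x * v : Om L M) : Ω))
        (dsc T₂ ((y * v : Om L M) : Ω)) + Φ (u * v) ∈ PsD m₁ m₂ π (3 * h) := by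
  have hfd := Um.fd hM
  have hlt : ∀ c : Om L M, w ∣ c → L.nm (c : Ω) < 1 := by
    rintro _ ⟨c, rfl⟩
    change L.nm ((w : Ω) * (c : Ω)) < 1
    rw [L.mul, hw]
    exact (mul_le_of_le_one_right (L.nonneg _) c.2.2).trans_lt hπ.lt
  have hr₁ : Ipo L M (C (x : Ω) * X ^ 1) := ipo_mon x.2.1 x.2.2 fun h => absurd h one_ne_zero
  have hr₂ : Ipo L M (C (y : Ω) * X ^ 1) := ipo_mon y.2.1 y.2.2 fun h => absurd h one_ne_zero
  have hr0 : Ipo L M (0 : Polynomial Ω) :=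
    ⟨fun i => by rw [coeff_zero]; exact zero_mem M, fun i => by
      rw [coeff_zero, L.zero]; exact zero_le_one, by rw [coeff_zero]; exact nm_zero_lt⟩
  refine ⟨fun d =>
    (scC (K := K) C₁.bp C₂.bp).sy M (Finsupp.single (T₁.P 0) 1) (Finsupp.single (T₂.P 0) 1) +
    (scC (K := K) C₁.bp C₂.bp).sy M (Finsupp.single (T₁.P 0) 1) (Finsupp.single (T₂.P 0) 1) +
    sgh M (rcy (V := Vpr C₁.V C₂.V) (fun w => pp (T₁.P ((C (x : Ω) * X ^ 1 :
      Polynomial Ω).eval w)) (T₂.P ((C (y : Ω) * X ^ 1 : Polynomial Ω).eval w)))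
        (X ^ 2 + C (d : Ω))) -
    sgh M (rcy (V := Vpr C₁.V C₂.V) (fun w => pp (T₁.P ((C (x : Ω) * X ^ 1 :
      Polynomial Ω).eval w)) (T₂.P ((0 : Polynomial Ω).eval w))) (X ^ 2 + C (d : Ω))) -
    sgh M (rcy (V := Vpr C₁.V C₂.V) (fun w => pp (T₁.P ((0 : Polynomial Ω).eval w))
      (T₂.P ((C (y : Ω) * X ^ 1 : Polynomial Ω).eval w))) (X ^ 2 + C (d : Ω))), ?_⟩
  intro u v hu hv
  have m1 := rl_one hcx hπ hM T₁ T₂ hr₁ hr₂ hh hw hu hv (fun _ => rfl)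
  have m2 := rl_one hcx hπ hM T₁ T₂ hr₁ hr0 hh hw hu hv (fun _ => rfl)
  have m3 := rl_one hcx hπ hM T₁ T₂ hr0 hr₂ hh hw hu hv (fun _ => rfl)
  have hwh : w ∣ w ^ h := dvd_pow_self w hh
  have e : ∀ c z : Om L M, (C (c : Ω) * X ^ 1 : Polynomial Ω).eval (z : Ω) =
      ((c * z : Om L M) : Ω) := by
    intro c z
    simp only [eval_mul, eval_C, eval_X, Subring.coe_mul, pow_one]
  have e' : ∀ c u v : Om L M, (C (c : Ω) * X ^ 1 : Polynomial Ω).eval ((u : Ω) + (v : Ω)) =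
      ((c * (u + v) : Om L M) : Ω) := fun c u v => e c (u + v)
  have e0 : ∀ c : Om L M, (C (c : Ω) * X ^ 1 : Polynomial Ω).eval 0 = 0 := by
    intro c
    simp
  simp only [e, e', e0, eval_zero] at m1 m2 m3
  have hd : ∀ z : Om L M, w ∣ z → _ := fun z hz =>
    rl_dsc hM T₁ T₂ (x * z : Om L M).2.1 (y * z : Om L M).2.1 (hlt _ (hz.mul_left x))
      (hlt _ (hz.mul_left y))
  rw [hd u (hwh.trans hu), hd v (hwh.trans hv), hd (u + v) (hwh.trans (dvd_add hu hv))]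
  have := sub_mem (add_mem m2 m3) m1
  convert this using 1
  simp only [eval_zero, Subring.coe_mul]
  abel

end CV
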