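import Pool.Agent.Lib.MP_f80667_ag.Cv.EtF
import Pool.Agent.Lib.MP_f80667_ag.Cv.Sml

/-! # Small displacements are divisible by `p ^ n` -/

set_option autoImplicit false

open ZC BE PE Polynomial TensorProduct IntermediateField

namespace CV

variable {F : Type} [Field F] {K Ω : Type} [Field K] [CharZero K] [Field Ω] [Algebra K Ω]
  [Algebra F K] [Algebra F Ω] [IsScalarTower F K Ω] [IsAlgClosure K Ω] {L : Ld K Ω}
  {C : Crv F} (m : Mod C (Ok L) K) {M : IntermediateField K Ω}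

omit [Algebra F K] [Algebra F Ω] [IsScalarTower F K Ω] in
private theorem dsps_le {π : K} (hπ : Uf L π) (hM : Um L M) {x : Ω} (hx : x ∈ M) (hx0 : x ≠ 0)
    (h1 : L.nm x ≤ 1) : ∃ n : ℕ, L.nm x = L.nm (algebraMap K Ω π) ^ n := by
  classical
  have h0 : 0 < L.nm x := L.pos hx0
  have hex : ∃ n : ℕ, L.nm (algebraMap K Ω π) ^ n ≤ L.nm x := by
    obtain ⟨n, hn⟩ := exists_pow_lt_of_lt_one h0 hπ.lt
    exact ⟨n, hn.le⟩
  refine ⟨Nat.find hex, le_antisymm ?_ (Nat.find_spec hex)⟩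
  rcases Nat.eq_zero_or_pos (Nat.find hex) with h | h
  · rw [h, pow_zero]
    exact h1
  · have h2 := Nat.find_min hex (m := Nat.find hex - 1) (by omega)
    rw [not_le] at h2
    have h3 := Um.lt hπ hM hx h2
    rwa [Nat.sub_add_cancel h] at h3

omit [Algebra F K] [Algebra F Ω] [IsScalarTower F K Ω] in
private theorem dsps_val {π : K} (hπ : Uf L π) (hM : Um L M) (x : Ω) (hx : x ∈ M) (hx0 : x ≠ 0) :
    ∃ n : ℤ, L.nm x = L.nm (algebraMap K Ω π) ^ n := by
  rcases le_total (L.nm x) 1 with h | h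
  · obtain ⟨n, hn⟩ := dsps_le hπ hM hx hx0 h
    exact ⟨n, by rw [hn, zpow_natCast]⟩
  · have hi : L.nm x⁻¹ = (L.nm x)⁻¹ := by
      rw [← one_div, L.div, L.one, one_div]
    obtain ⟨n, hn⟩ := dsps_le hπ hM (inv_mem hx) (inv_ne_zero hx0) (by
      rw [hi]
      exact inv_le_one_of_one_le₀ h)
    exact ⟨-n, by rw [zpow_neg, zpow_natCast, ← hn, hi, inv_inv]⟩

/-- Levels `≥ (n + 1) e + 1` are divisible by `p ^ n` over unramified extensions. Proof: induction on `n`; the step `n + 1`: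
`sml_lev` with `l = p`, `s = (n + 1) e + 1` (the uniformizer of `M` is `π`: `sm_val` for `Um L M`, `hπ.un`), then the
induction hypothesis for the displacement `z'` of level `(n + 1) e + 1`. -/
theorem dsp_small {π : K} (hπ : Uf L π) {e : ℕ}
    (he : L.nm (L.p : Ω) = L.nm (algebraMap K Ω π) ^ e) (n : ℕ) (hM : Um L M) :
    ∀ z ∈ Dsp L C.V (Nr m (L.nm (algebraMap K Ω π) ^ ((n + 1) * e + 1))) M,
      ∃ z' ∈ Zd C.V M, z - L.p ^ n • z' ∈ Pc C Ω := by
  have hfd := hM.fd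
  have h0 : 0 < L.nm (algebraMap K Ω π) := L.pos ((_root_.map_ne_zero _).2 hπ.ne)
  induction n with
  | zero =>
    intro z hz
    refine ⟨z, mem_Zd.2 ⟨dsp_fx hz, dsp_deg hz⟩, ?_⟩
    rw [pow_zero, one_smul, sub_self]
    exact (Pc C Ω).zero_mem
  | succ n ih =>
    intro z hz
    have e1 : (n + 1 + 1) * e + 1 = ((n + 1) * e + 1) + e := by ring
    rw [e1] at hz
    have hs : e < (L.p - 1) * ((n + 1) * e + 1) := by
      have h1 : 0 < L.p - 1 := by
        have := L.pp.two_le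
        omega
      have h2 : e ≤ (n + 1) * e := Nat.le_mul_of_pos_left e (Nat.succ_pos n)
      have h3 : (n + 1) * e + 1 ≤ (L.p - 1) * ((n + 1) * e + 1) := Nat.le_mul_of_pos_left _ h1
      omega
    obtain ⟨z', hz', h1⟩ := sml_lev m (M.algebraMap_mem π) h0 hπ.lt (dsps_val hπ hM) L.pp he hs
      z hz
    obtain ⟨z'', hz'', h2⟩ := ih z' hz'
    refine ⟨z'', hz'', ?_⟩
    have e2 : z - L.p ^ (n + 1) • z'' = (z - L.p • z') + L.p • (z' - L.p ^ n • z'') := by
      rw [smul_sub, smul_smul, pow_succ, mul_comm (L.p ^ n)]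
      abel
    rw [e2]
    exact (Pc C Ω).add_mem h1 ((Pc C Ω).nsmul_mem h2 _)

end CV
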