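import Pool.Agent.Lib.MP_f80667_ag.Ct.IA
import Pool.Agent.Lib.MP_f80667_ag.Ct.S
import Pool.Agent.Lib.MP_f80667_ag.Ct.W
import Pool.Agent.Lib.MP_f80667_ag.Ct.H
import Pool.Agent.Lib.MP_f80667_ag.Cv.AsR
import Pool.Agent.Lib.MP_f80667_ag.Ct.R
import Pool.Agent.Lib.MP_f80667_ag.Ct.EF
import Pool.Agent.Lib.MP_f80667_ag.Cv.S3

/-! # The levels and the relations for two curves -/

set_option autoImplicit false

open ZC BE PE Polynomial TensorProduct IntermediateField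

namespace CV

variable {F : Type} [Field F] {K Ω : Type} [Field K] [CharZero K] [Field Ω] [Algebra K Ω]
  [Algebra F K] [Algebra F Ω] [IsScalarTower F K Ω] [IsAlgClosure K Ω] {L : Ld K Ω}
  {C C₁ C₂ : Crv F} (m : Mod C (Ok L) K)

/-- The case `l = 1` of `lv`. -/
noncomputable def lv1 (π : K) (hπ : Uf L π) (hD : ∀ l, l ≠ 0 → ExDv m l) (hN : ExNm m)
    (hC : ExCh m) (hcl : ExCl m) : Lv (twL L π hπ) 1 0 (C.V.pt Ω →₀ ℤ) :=
  lv m π hπ 1 0 (fun M hM z hz => by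
    have := Um.fd hM
    refine ⟨z, ⟨dsp_fx hz, dsp_deg hz⟩, ?_⟩
    rw [one_smul, sub_self]
    exact zero_mem _) (hD 1 one_ne_zero) hN hC hcl

/-- The levels of a curve. -/
noncomputable def lp (π : K) (hπ : Uf L π) (e : ℕ)
    (he : L.nm (L.p : Ω) = L.nm (algebraMap K Ω π) ^ e) (hD : ∀ l, l ≠ 0 → ExDv m l)
    (hN : ExNm m) (hC : ExCh m) (hcl : ExCl m) : Lp (twL L π hπ) L.p e (C.V.pt Ω →₀ ℤ) where
  D := Dl m π
  Nl := Nn C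
  fx _ h := h.1
  nx _ h := h.1
  small := by
    intro n M r a hM hr ha
    obtain ⟨h1, h2⟩ := mem_Dl.1 ha
    obtain ⟨p, hp, d, hd, e1⟩ := AddSubgroup.mem_sup.1 h2
    obtain ⟨z', hz', hz⟩ := dsp_small m hπ he n hM d (dl_mono_r hπ hr hd)
    refine ⟨z', hz'.1, mem_Nn.2 ⟨h1.sub (Fx.nsmul hz'.1 _), ?_⟩⟩
    rw [map_sub, map_nsmul, rd_of hz'.2, ← e1, add_sub_assoc]
    exact (Pc C Ω).add_mem hp hz
  lift := by
    intro l M a hl hM ha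
    have := Um.fd hM
    obtain ⟨N, hN0, h⟩ := hD l hl M inferInstance (rd C.bp a) ⟨rd_fx C.bp ha, rd_deg C.bp a⟩
    obtain ⟨z', hz', r, hr, h⟩ := h N hN0 dvd_rfl
    have hE : Em L M (L.Ur M N) := ⟨Ld.ur_le, N, hN0, le_rfl⟩
    have := hE.fd
    refine ⟨L.Ur M N, hE, z', hz'.1, mem_Dl.2 ⟨(ha.mono Ld.ur_le).sub (Fx.nsmul hz'.1 l), ?_⟩⟩
    rw [map_sub, map_nsmul, rd_of hz'.2]
    exact sup_le_sup_left (dsp_val hπ (Um.up hM hE) hr) _ h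
  lang := (lv1 m π hπ hD hN hC hcl).lang
  anti := fun _ => dl_anti hπ
  Ch := (lv1 m π hπ hD hN hC hcl).Ch
  chD := (lv1 m π hπ hD hN hC hcl).chD
  gen := (lv1 m π hπ hD hN hC hcl).gen
  res := (lv1 m π hπ hD hN hC hcl).res
  chR := (lv1 m π hπ hD hN hC hcl).chR
  add := by
    rintro M r r' _ x x' hM ⟨T, rfl⟩ hr hr' hx hx'
    have := Um.fd hM
    have h1 : L.nm (x.1 : Ω) ≤ L.nm (algebraMap K Ω π) ^ r := (twL_dvd hπ x r).1 hx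
    have h1' : L.nm (x'.1 : Ω) ≤ L.nm (algebraMap K Ω π) ^ r' := (twL_dvd hπ x' r').1 hx'
    have hc0 := L.nonneg (algebraMap K Ω π)
    have hc : L.nm (algebraMap K Ω π) ^ r < 1 := pow_lt_one₀ hc0 hπ.lt hr
    have hc' : L.nm (algebraMap K Ω π) ^ r' < 1 := pow_lt_one₀ hc0 hπ.lt hr'
    have h2 := h1.trans_lt hc
    have h2' := h1'.trans_lt hc'
    change dsc T (x.1 + x'.1) - dsc T x.1 - dsc T x'.1 ∈ Dl m π M (r + r')
    refine dl_of (((dsc_fx T ((L.add _ _).trans_lt (max_lt h2 h2')) (add_mem x.2.1 x'.2.1)).sub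
      (dsc_fx T h2 x.2.1)).sub (dsc_fx T h2' x'.2.1)) ?_ ?_
    · rw [map_sub, map_sub, dsc_deg, dsc_deg, dsc_deg, sub_zero, sub_zero]
    · rw [pow_add]
      exact cl_add hcl T x.2.1 x'.2.1 h1 hc h1' hc'
  nm := (lv1 m π hπ hD hN hC hcl).nm
  nmD := fun hM hE _ ha => dl_tr hM hE ha

variable {m}

/-- The relations for two curves. -/
theorem rl {m₁ : Mod C₁ (Ok L) K} {m₂ : Mod C₂ (Ok L) K} {π : K} (hπ : Uf L π) {e : ℕ}
    (he0 : e ≠ 0) (he : L.nm (L.p : Ω) = L.nm (algebraMap K Ω π) ^ e)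
    (hP₁ : ExPr C₁ K Ω) (hP₂ : ExPr C₂ K Ω) (hC₁ : ExCh m₁) (hC₂ : ExCh m₂) (hcl₁ : ExCl m₁)
    (hcl₂ : ExCl m₂) (hD₁ : ∀ l, l ≠ 0 → ExDv m₁ l)
    (hD₂ : ∀ l, l ≠ 0 → ExDv m₂ l) (hN₁ : ExNm m₁) (hN₂ : ExNm m₂) (hcx : ExC2 m₁ m₂)
    (hT : (scC (K := K) (Ω := Ω) C₁.bp C₂.bp).T ≤ Tu m₁ m₂) :
    Rl (twL L π hπ) L.p e (padicValNat L.p e + 1) (lp m₁ π hπ e he hD₁ hN₁ hC₁ hcl₁)
      (lp m₂ π hπ e he hD₂ hN₂ hC₂ hcl₂) (scC (K := K) (Ω := Ω) C₁.bp C₂.bp) where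
  prime := L.pp
  e0 := he0
  nul₁ := null_lv (hS := fun M hM z hz => by
    have := Um.fd hM
    refine ⟨z, ⟨dsp_fx hz, dsp_deg hz⟩, ?_⟩
    rw [one_smul, sub_self]
    exact zero_mem _) (hD := hD₁ 1 one_ne_zero) (hN := hN₁) (e := 0) (hπ := hπ) hP₁
  nul₂ := null_lv' (hS := fun M hM z hz => by
    have := Um.fd hM
    refine ⟨z, ⟨dsp_fx hz, dsp_deg hz⟩, ?_⟩
    rw [one_smul, sub_self]
    exact zero_mem _) (hD := hD₂ 1 one_ne_zero) (hN := hN₂) (e := 0) (hπ := hπ) hP₂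
  top := by
    refine hT.trans (AddSubgroup.closure_mono ?_)
    rintro g ⟨N, M, x, y, hN, hM, hx, hy, -, -, rfl⟩
    exact ⟨M, _, _, ⟨N, hN, hM⟩, fx_single hx 1, fx_single hy 1, rfl⟩
  cx := by
    rintro M _ _ x y a N s t hM ⟨T₁, rfl⟩ ⟨T₂, rfl⟩ ha hN hc hs ht hst
    exact rl_cx hcx hπ hM T₁ T₂ x y rfl a N s t ha hN hc hs ht hst
  key := by
    rintro M _ _ x y h hM ⟨T₁, rfl⟩ ⟨T₂, rfl⟩ hh
    exact rl_key hcx hπ hM T₁ T₂ x y rfl h hh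
  mu := fun hM hk => om_mu hM hk
  as := twL_as hπ
  pe := fun M _ => by
    have h := (twL_dvd hπ ((L.p : Om L M)) e).2 (by
      have e1 : (((L.p : Om L M)) : Ω) = (L.p : Ω) := by simp
      rw [e1, he])
    exact h
  pu := fun M _ => by
    have h : (L.p : Om L M) ∣ (⟨algebraMap K Ω π, mem_Om.2 ⟨M.algebraMap_mem π, hπ.lt.le⟩⟩ :
        Om L M) ^ e := by
      rw [om_dvd]
      have e1 : (((L.p : Om L M)) : Ω) = (L.p : Ω) := by simp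
      have e2 : (((⟨algebraMap K Ω π, mem_Om.2 ⟨M.algebraMap_mem π, hπ.lt.le⟩⟩ :
        Om L M) ^ e : Om L M) : Ω) = algebraMap K Ω π ^ e := rfl
      rw [e1, e2, L.pow, he]
    exact h
  dk := fun M hM => om_dk hπ he0 he hM
  tr := fun h h' => h.trans h'

end CV
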