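import Pool.Agent.Lib.MP_f80667_ag.Cv.EtF
import Pool.Agent.Lib.MP_f80667_ag.Cv.Sml

/-! # Displacements: additivity, norms -/

set_option autoImplicit false

open ZC BE PE Polynomial TensorProduct IntermediateField

namespace CV

variable {F : Type} [Field F] {K Ω : Type} [Field K] [CharZero K] [Field Ω] [Algebra K Ω]
  [Algebra F K] [Algebra F Ω] [IsScalarTower F K Ω] [IsAlgClosure K Ω] {L : Ld K Ω}
  {C : Crv F} {m : Mod C (Ok L) K} {M M' : IntermediateField K Ω}

/-- The product of two linear factors. -/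
private theorem ct_ia_q (a b : Ω) : ((X - Polynomial.C a) * (X - Polynomial.C b) : Polynomial Ω) =
    X ^ 2 - Polynomial.C (a + b) * X + Polynomial.C (a * b) := by
  rw [Polynomial.C_add, Polynomial.C_mul]
  ring

private theorem ct_ia_deg (a b : Ω) :
    ((X - Polynomial.C a) * (X - Polynomial.C b) : Polynomial Ω).natDegree = 2 := by
  rw [(monic_X_sub_C a).natDegree_mul (monic_X_sub_C b), natDegree_X_sub_C, natDegree_X_sub_C]

private theorem ct_ia_dpo {a b : Ω} (ha : a ∈ M) (hb : b ∈ M) (h : L.nm a < 1) (h' : L.nm b < 1) :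
    Dpo L M ((X - Polynomial.C a) * (X - Polynomial.C b)) := by
  refine ⟨(monic_X_sub_C a).mul (monic_X_sub_C b), fun i => ?_, fun i hi => ?_⟩
  · have e : ((X - Polynomial.C a) * (X - Polynomial.C b) : Polynomial Ω) =
        ((X - Polynomial.C (⟨a, ha⟩ : M)) * (X - Polynomial.C (⟨b, hb⟩ : M)) :
          Polynomial M).map (algebraMap M Ω) := by
      rw [Polynomial.map_mul, Polynomial.map_sub, Polynomial.map_sub, map_X, map_C, map_C]
      rfl
    rw [e, coeff_map]
    exact SetLike.coe_mem _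
  · rw [ct_ia_deg] at hi
    have h1 := lin_lt (L := L) (a ::ₘ {b}) (fun c hc => by
      rw [Multiset.mem_cons, Multiset.mem_singleton] at hc
      rcases hc with rfl | rfl
      · exact h
      · exact h') i (by rw [Multiset.card_cons, Multiset.card_singleton]; exact hi)
    rwa [Multiset.map_cons, Multiset.prod_cons, Multiset.map_singleton,
      Multiset.prod_singleton] at h1

private theorem ct_ia_rcy {V : Vr F} (P : Ω → V.pt Ω) (a b : Ω) :
    rcy P ((X - Polynomial.C a) * (X - Polynomial.C b) : Polynomial Ω) =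
      Finsupp.single (P a) 1 + Finsupp.single (P b) 1 := by
  rw [rcy_mul P (monic_X_sub_C a).ne_zero (monic_X_sub_C b).ne_zero, rcy_X_sub, rcy_X_sub]

/-- Additivity. Proof: `hcl` for `f = (X - x) (X - x')`, `g = X (X - (x + x'))`, `f - g = x x'` (model: `cl_mul`). -/
theorem cl_add (hcl : ExCl m) [FiniteDimensional K M] (T : Cht m M) {x x' : Ω} (hx : x ∈ M)
    (hx' : x' ∈ M) {r r' : ℝ} (h : L.nm x ≤ r) (h1 : r < 1) (h' : L.nm x' ≤ r') (h1' : r' < 1) :
    dsc T (x + x') - dsc T x - dsc T x' ∈ Pc C Ω ⊔ Dsp L C.V (Nr m (r * r')) M := by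
  have hr0 : 0 ≤ r := (L.nonneg x).trans h
  have hr0' : 0 ≤ r' := (L.nonneg x').trans h'
  have hrr : r * r' < 1 := mul_lt_one_of_nonneg_of_lt_one_left hr0 h1 h1'.le
  have hz : L.nm (0 : Ω) < 1 := by
    rw [L.zero]
    exact zero_lt_one
  have hxx : L.nm (x + x') < 1 := (L.add x x').trans_lt (max_lt (h.trans_lt h1) (h'.trans_lt h1'))
  have hm : L.nm (x * x') ≤ r * r' := by
    rw [L.mul]
    exact mul_le_mul h h' (L.nonneg _) hr0
  have key := hcl M inferInstance T ((X - Polynomial.C 0) * (X - Polynomial.C (x + x')))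
    ((X - Polynomial.C x) * (X - Polynomial.C x')) (r * r')
    (ct_ia_dpo (zero_mem M) (add_mem hx hx') hz hxx)
    (ct_ia_dpo hx hx' (h.trans_lt h1) (h'.trans_lt h1'))
    ((ct_ia_deg _ _).trans (ct_ia_deg _ _).symm) hrr (fun i => by
      have e : ((X - Polynomial.C 0) * (X - Polynomial.C (x + x')) : Polynomial Ω) -
          (X - Polynomial.C x) * (X - Polynomial.C x') = Polynomial.C (-(x * x')) := by
        rw [ct_ia_q, ct_ia_q, zero_add, zero_mul, Polynomial.C_0, Polynomial.C_neg]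
        ring
      rw [← coeff_sub, e, coeff_C]
      split_ifs
      · rw [L.neg]
        exact hm
      · rw [L.zero]
        exact mul_nonneg hr0 hr0')
  rw [ct_ia_rcy, ct_ia_rcy] at key
  have e : dsc T (x + x') - dsc T x - dsc T x' =
      Finsupp.single (T.P 0) 1 + Finsupp.single (T.P (x + x')) 1 -
        (Finsupp.single (T.P x) 1 + Finsupp.single (T.P x') 1) := by
    unfold dsc
    abel
  rw [e]
  exact key

/-- Norms of cycles of level `r`. Proof: `nm_fx`; `rd` commutes with `Nm` (`hom_nm`, `rd_smul`), `rtr_eq`, `rtr_pc`, `dsp_tr`. -/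
theorem dl_tr {π : K} (hM : Um L M) (hE : Em L M M') {r : ℕ} {a : C.V.pt Ω →₀ ℤ}
    (ha : a ∈ Dl m π M' r) : Nm M M' a ∈ Dl m π M r := by
  have := Um.fd hM
  have := hE.fd
  obtain ⟨h1, h2⟩ := mem_Dl.1 ha
  refine mem_Dl.2 ⟨nm_fx hE.1 h1, ?_⟩
  obtain ⟨p, hp, d, hd, e1⟩ := AddSubgroup.mem_sup.1 h2
  rw [hom_nm (rd C.bp) hE.1 (fun γ _ a => (rd_smul C.bp γ a).symm), ← rtr_eq hE.1, ← e1, map_add]
  exact AddSubgroup.add_mem_sup (rtr_pc hE.1 hp) (dsp_tr hE hd)

/-- Proof: `dl_mono_r`. -/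
theorem dl_anti {π : K} (hπ : Uf L π) {r : ℕ} : Dl m π M (r + 1) ≤ Dl m π M r := by
  intro a ha
  obtain ⟨h1, h2⟩ := mem_Dl.1 ha
  have h3 : Dsp L C.V (Nr m (L.nm (algebraMap K Ω π) ^ (r + 1))) M ≤
      Dsp L C.V (Nr m (L.nm (algebraMap K Ω π) ^ r)) M := fun z hz =>
    dl_mono_r hπ (Nat.le_succ r) hz
  exact mem_Dl.2 ⟨h1, sup_le_sup_left h3 _ h2⟩

end CV
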