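import Pool.Agent.Lib.MP_f80667_ag.Ct.LA
import Pool.Agent.Lib.MP_f80667_ag.Ct.B
import Pool.Agent.Lib.MP_f80667_ag.Cv.EraP

/-!
# The relations

`Rl W p e c X Y S`: the comparison of two polynomials `cx`, the four point relation `key`, roots of unity `mu`, the roots of `z ^ (a + 1) - w ^ a z - w ^ (a + 1) q` (`as`), `π ^ e` is
`p` times a unit (`pe`, `pu`), derivations `dk`.

`ch_mem`, `ch_T`, `ch_zero₁`: symbols of chart displacements.
-/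

set_option autoImplicit false

open PE Finset Polynomial

namespace CV

variable {K Ω : Type} [Field K] [CharZero K] [Field Ω] [Algebra K Ω] [IsAlgClosure K Ω]
  {A B G : Type} [AddCommGroup A] [AddCommGroup B] [AddCommGroup G]
  [DistribMulAction (Ω ≃ₐ[K] Ω) A] [DistribMulAction (Ω ≃ₐ[K] Ω) B]

/-- The roots of unity of order `k`. -/
def Mun {R : Type} [CommRing R] (k : ℕ) (s : Multiset R) : Prop :=
  s.card = k ∧ (∀ z ∈ s, z ^ k = 1) ∧ ∀ w, lin (s.map (· * w)) = Polynomial.X ^ k - C (w ^ k)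

/-- The relations. -/
structure Rl (W : Tw K Ω) (p e c : ℕ) (X : Lp W p e A) (Y : Lp W p e B) (S : Sc K Ω A B G) :
    Prop where
  prime : p.Prime
  e0 : e ≠ 0
  nul₁ : Nul X S
  nul₂ : Nul Y S.swap
  top : S.T ≤ AddSubgroup.closure {g | ∃ M a b, W.U M ∧ Fx M a ∧ Fx M b ∧ g = S.sy M a b}
  /-- the comparison of two polynomials on `z ↦ (x z ^ a, y z)` -/
  cx : ∀ {M : IntermediateField K Ω} {α : W.O M → A} {β : W.O M → B} (x y : W.O M) (a N : ℕ)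
    (s t : Multiset (W.O M)), W.U M → α ∈ X.Ch M → β ∈ Y.Ch M → a ≠ 0 → N ≠ 0 →
    s.card = t.card → (∀ z ∈ s, W.π M ∣ z) → (∀ z ∈ t, W.π M ∣ z) →
    C (W.π M ^ N) ∣ lin s - lin t →
    (s.map fun z => S.sy M (α (x * z ^ a)) (β (y * z))).sum -
      (t.map fun z => S.sy M (α (x * z ^ a)) (β (y * z))).sum ∈ Psn X Y S N
  /-- the comparison of `(z - w) (z - w') z ^ 2` and `z (z - w - w') (z ^ 2 + w w')` -/
  key : ∀ {M : IntermediateField K Ω} {α : W.O M → A} {β : W.O M → B} (x y : W.O M) (h : ℕ),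
    W.U M → α ∈ X.Ch M → β ∈ Y.Ch M → h ≠ 0 → ∃ Φ : W.O M → G, ∀ w w' : W.O M,
    W.π M ^ h ∣ w → W.π M ^ h ∣ w' →
    S.sy M (α (x * (w + w'))) (β (y * (w + w'))) - S.sy M (α (x * w)) (β (y * w)) -
      S.sy M (α (x * w')) (β (y * w')) + Φ (w * w') ∈ Psn X Y S (3 * h)
  /-- roots of unity -/
  mu : ∀ {M : IntermediateField K Ω} {k : ℕ}, W.U M → ¬p ∣ k → ∃ M', W.Ex M M' ∧
    ∀ M'', W.Ex M' M'' → ∃ s : Multiset (W.O M''), s.card = k ∧ (∀ z ∈ s, z ^ k = 1) ∧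
      ∀ w, lin (s.map (· * w)) = Polynomial.X ^ k - C (w ^ k)
  /-- the roots of `z ^ (a + 1) - w ^ a z - w ^ (a + 1) q` -/
  as : ∀ {M : IntermediateField K Ω} {a : ℕ} {s : Multiset (W.O M)} (q : W.O M), W.U M →
    ¬p ∣ a → Mun a s → W.π M ∣ q → ∃ (u : W.O M) (s' : Multiset (W.O M × W.O M)), q ∣ u ∧
      s'.map Prod.fst = s ∧ (∀ v ∈ s', q ∣ v.2 ∧ W.π M * q ∣ a * v.2 - q) ∧
      ∀ w, lin ((u * w) ::ₘ s'.map fun v => (v.1 + v.2) * w) =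
        Polynomial.X ^ (a + 1) - C (w ^ a) * Polynomial.X - C (w ^ (a + 1) * q)
  pe : ∀ M, W.U M → W.π M ^ e ∣ (p : W.O M)
  pu : ∀ M, W.U M → (p : W.O M) ∣ W.π M ^ e
  dk : ∀ M, W.U M → DK (W.O M) p c
  tr : ∀ {M M' M'' : IntermediateField K Ω}, W.Ex M M' → W.Ex M' M'' → W.Ex M M''

variable {W : Tw K Ω} {p e c : ℕ} {S : Sc K Ω A B G} {X : Lp W p e A} {Y : Lp W p e B}
  {hp : p ≠ 0} {n : ℕ} {M : IntermediateField K Ω} {α : W.O M → A} {β : W.O M → B}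

/-- Symbols of chart displacements. -/
theorem ch_mem (H : Rl W p e c X Y S) (hM : W.U M) (hα : α ∈ X.Ch M) (hβ : β ∈ Y.Ch M) {I J : ℕ}
    (hI : I ≠ 0) (hJ : J ≠ 0) {x y : W.O M} (hx : W.π M ^ I ∣ x) (hy : W.π M ^ J ∣ y) :
    S.sy M (α x) (β y) ∈ Fn X Y S hp n (I + J) :=
  fn_dd H.nul₁ H.nul₂ hM hI hJ (X.chD hM hα hI hx) (Y.chD hM hβ hJ hy)

omit [CharZero K] [IsAlgClosure K Ω] in
/-- They are in `T`. -/
theorem ch_T (_H : Rl W p e c X Y S) (hM : W.U M) (hα : α ∈ X.Ch M) (hβ : β ∈ Y.Ch M) {I J : ℕ}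
    (hI : I ≠ 0) (hJ : J ≠ 0) {x y : W.O M} (hx : W.π M ^ I ∣ x) (hy : W.π M ^ J ∣ y) :
    S.sy M (α x) (β y) ∈ S.T := by
  have := W.fd hM
  exact sy_memT S (X.fx hM (X.chD hM hα hI hx)) (Y.fx hM (Y.chD hM hβ hJ hy))

/-- Symbols with an entry `0`. -/
theorem ch_zero₁ (H : Rl W p e c X Y S) (hM : W.U M) (hα : α ∈ X.Ch M) (hβ : β ∈ Y.Ch M) {J : ℕ}
    (hJ : J ≠ 0) {y : W.O M} (hy : W.π M ^ J ∣ y) (s : ℕ) :
    S.sy M (α 0) (β y) ∈ Fn X Y S hp n s :=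
  fn_anti (show s ≤ (s + 1) + J by omega)
    (ch_mem H hM hα hβ (Nat.succ_ne_zero s) hJ (dvd_zero _) hy)

/-- The product of two linear factors. -/
theorem lin_pair {R : Type} [CommRing R] (w w' : R) :
    lin ({w, w'} : Multiset R) - lin ({0, w + w'} : Multiset R) = C (w * w') := by
  simp only [lin, Multiset.insert_eq_cons, Multiset.map_cons, Multiset.map_singleton,
    Multiset.prod_cons, Multiset.prod_singleton, C_mul, C_add, C_0]
  ring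

end CV
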