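import Pool.Agent.Lib.MP_f80667_ag.Ct.K

/-! # The bilinear expansion -/

set_option autoImplicit false

open PE Finset Polynomial

namespace CV

variable {K Ω : Type} [Field K] [CharZero K] [Field Ω] [Algebra K Ω] [IsAlgClosure K Ω]
  {A B G : Type} [AddCommGroup A] [AddCommGroup B] [AddCommGroup G]
  [DistribMulAction (Ω ≃ₐ[K] Ω) A] [DistribMulAction (Ω ≃ₐ[K] Ω) B]
  {W : Tw K Ω} {p e c : ℕ} {S : Sc K Ω A B G} {X : Lp W p e A} {Y : Lp W p e B}
  {hp : p ≠ 0} {n : ℕ} {M : IntermediateField K Ω} {α : W.O M → A} {β : W.O M → B}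

/-- The bilinear expansion of `S(x (w + w'), y (w + w'))`. Proof: `fn_add₁`, `fn_add₂`; `I ≤ v(w)`, `J ≤ v(w')`: all errors have
weight at least `I + J + min I J`. -/
theorem expand (H : Rl W p e c X Y S) (hM : W.U M) (hα : α ∈ X.Ch M) (hβ : β ∈ Y.Ch M) (x y : W.O M)
    {w w' : W.O M} {I J k : ℕ} (hI : I ≠ 0) (hJ : J ≠ 0) (hkI : k ≤ I) (hkJ : k ≤ J)
    (hw : W.π M ^ I ∣ w) (hw' : W.π M ^ J ∣ w') :
    S.sy M (α (x * (w + w'))) (β (y * (w + w'))) - S.sy M (α (x * w)) (β (y * w)) -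
      S.sy M (α (x * w')) (β (y * w')) -
      (S.sy M (α (x * w)) (β (y * w')) + S.sy M (α (x * w')) (β (y * w))) ∈
        Fn X Y S hp n (I + J + k) := by
  obtain ⟨m, hm⟩ : ∃ m, m = min I J := ⟨_, rfl⟩
  have hx : W.π M ^ I ∣ x * w := hw.mul_left x
  have hx' : W.π M ^ J ∣ x * w' := hw'.mul_left x
  have hy : W.π M ^ I ∣ y * w := hw.mul_left y
  have hy' : W.π M ^ J ∣ y * w' := hw'.mul_left y
  have hyy : W.π M ^ m ∣ y * w + y * w' := dvd_add ((pow_dvd_pow _ (by omega)).trans hy)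
    ((pow_dvd_pow _ (by omega)).trans hy')
  have h1 := fn_anti (show I + J + k ≤ I + J + m by omega)
    (fn_add₁ (hp := hp) (n := n) H.nul₁ H.nul₂ hM hα hβ hI hJ (show m ≠ 0 by omega) hx hx' hyy)
  have h2 := fn_anti (show I + J + k ≤ I + (I + J) by omega)
    (fn_add₂ (hp := hp) (n := n) H.nul₁ H.nul₂ hM hα hβ hI hJ hI hy hy' hx)
  have h3 := fn_anti (show I + J + k ≤ J + (I + J) by omega)
    (fn_add₂ (hp := hp) (n := n) H.nul₁ H.nul₂ hM hα hβ hI hJ hJ hy hy' hx')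
  have h4 := (Fn X Y S hp n (I + J + k)).add_mem ((Fn X Y S hp n (I + J + k)).add_mem h1 h2) h3
  rw [← mul_add, ← mul_add] at h4
  have h5 : S.sy M (α (x * (w + w'))) (β (y * (w + w'))) - S.sy M (α (x * w)) (β (y * w)) -
      S.sy M (α (x * w')) (β (y * w')) -
      (S.sy M (α (x * w)) (β (y * w')) + S.sy M (α (x * w')) (β (y * w))) =
      (S.sy M (α (x * (w + w'))) (β (y * (w + w'))) - S.sy M (α (x * w)) (β (y * (w + w'))) -
        S.sy M (α (x * w')) (β (y * (w + w')))) +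
      (S.sy M (α (x * w)) (β (y * (w + w'))) - S.sy M (α (x * w)) (β (y * w)) -
        S.sy M (α (x * w)) (β (y * w'))) +
      (S.sy M (α (x * w')) (β (y * (w + w'))) - S.sy M (α (x * w')) (β (y * w)) -
        S.sy M (α (x * w')) (β (y * w'))) := by
    abel
  rw [h5]
  exact h4

end CV
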