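import Pool.Agent.Lib.MP_f80667_ag.Cv.EraL

/-!
# The levels of a curve, all `n` at once

`Lp W p e A`: one curve over the unramified tower `W`, `e` the ramification index (`Lv` without a fixed modulus): `small` for all
`p ^ n`, divisibility by all `l`, additivity of the charts `add`, norms of displacements `nmD`.
`Lp.lv n`: the structure `Lv` for the modulus `p ^ n`. `Fn X Y S n s`: the filtration modulo `p ^ n T`.
-/

set_option autoImplicit false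

open PE Finset Polynomial

namespace CV

variable {K Ω : Type} [Field K] [CharZero K] [Field Ω] [Algebra K Ω] [IsAlgClosure K Ω]

/-- One curve. -/
structure Lp (W : Tw K Ω) (p e : ℕ) (A : Type) [AddCommGroup A]
    [DistribMulAction (Ω ≃ₐ[K] Ω) A] where
  /-- the displacements of level `r` over `M` -/
  D : IntermediateField K Ω → ℕ → AddSubgroup A
  /-- the elements over `M` whose symbols are `0` -/
  Nl : IntermediateField K Ω → AddSubgroup A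
  fx : ∀ {M r a}, W.U M → a ∈ D M r → Fx M a
  nx : ∀ {M a}, W.U M → a ∈ Nl M → Fx M a
  /-- levels above `(n + 1) e` are divisible by `p ^ n` -/
  small : ∀ (n : ℕ) {M r a}, W.U M → (n + 1) * e + 1 ≤ r → a ∈ D M r →
    ∃ a', Fx M a' ∧ a - p ^ n • a' ∈ Nl M
  /-- divisibility of the special fibre -/
  lift : ∀ {l : ℕ} {M a}, l ≠ 0 → W.U M → Fx M a →
    ∃ M', W.Ex M M' ∧ ∃ a', Fx M' a' ∧ a - l • a' ∈ D M' 1
  /-- Lang's theorem -/
  lang : ∀ {M M' a}, W.U M → W.Ex M M' → Fx M a → ∃ a', Fx M' a' ∧ a - Nm M M' a' ∈ D M 1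
  anti : ∀ {M r}, W.U M → D M (r + 1) ≤ D M r
  /-- the functions `x ↦ cl [P x] - cl [P 0]` -/
  Ch : ∀ M, Set (W.O M → A)
  chD : ∀ {M r α x}, W.U M → α ∈ Ch M → r ≠ 0 → W.π M ^ r ∣ x → α x ∈ D M r
  /-- generators of `D M r` -/
  gen : ∀ {M r}, W.U M → r ≠ 0 → D M r ≤ AddSubgroup.closure
    {a | ∃ M', W.Ex M M' ∧ ∃ α ∈ Ch M', ∃ x, W.π M' ^ r ∣ x ∧ a = Nm M M' (α x)} ⊔ Nl M
  /-- restriction -/
  res : ∀ {M M' r}, W.U M → W.Ex M M' → r ≠ 0 → D M r ≤ D M' r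
  chR : ∀ {M M' r α x}, W.U M → W.Ex M M' → r ≠ 0 → α ∈ Ch M → W.π M ^ r ∣ x →
    ∃ α' ∈ Ch M', ∃ x', W.π M' ^ r ∣ x' ∧ α' x' = α x
  /-- additivity -/
  add : ∀ {M r r' α x x'}, W.U M → α ∈ Ch M → r ≠ 0 → r' ≠ 0 → W.π M ^ r ∣ x → W.π M ^ r' ∣ x' →
    α (x + x') - α x - α x' ∈ D M (r + r')
  /-- norms up to the next level -/
  nm : ∀ {M M' r α x}, W.U M → W.Ex M M' → r ≠ 0 → α ∈ Ch M → W.π M ^ r ∣ x →
    ∃ a' ∈ D M' r, α x - Nm M M' a' ∈ D M (r + 1)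
  /-- norms of displacements -/
  nmD : ∀ {M M' r a}, W.U M → W.Ex M M' → r ≠ 0 → a ∈ D M' r → Nm M M' a ∈ D M r

variable {A B G : Type} [AddCommGroup A] [AddCommGroup B] [AddCommGroup G]
  [DistribMulAction (Ω ≃ₐ[K] Ω) A] [DistribMulAction (Ω ≃ₐ[K] Ω) B]
  {W : Tw K Ω} {p e : ℕ}

namespace Lp

variable (X : Lp W p e A)

omit [CharZero K] [IsAlgClosure K Ω] in
theorem anti' {M : IntermediateField K Ω} (hM : W.U M) {r s : ℕ} (h : r ≤ s) :
    X.D M s ≤ X.D M r := by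
  induction s, h using Nat.le_induction with
  | base => exact le_rfl
  | succ s _ ih => exact (X.anti hM).trans ih

omit [CharZero K] [IsAlgClosure K Ω] in
/-- Proof: induction on `h` (`add`, `anti'`; `α 0` is in all levels). -/
theorem mul {M : IntermediateField K Ω} {r : ℕ} {α : W.O M → A} {x : W.O M} (h : ℕ) (hM : W.U M)
    (hα : α ∈ X.Ch M) (hr : r ≠ 0) (hx : W.π M ^ r ∣ x) : α (h * x) - h • α x ∈ X.D M (2 * r) := by
  induction h with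
  | zero =>
    rw [zero_smul, sub_zero, Nat.cast_zero, zero_mul]
    exact X.chD hM hα (by omega) (dvd_zero _)
  | succ h ih =>
    have h1 := X.add hM hα hr hr (hx.mul_left (h : W.O M)) hx
    have h2 : α ((h + 1 : ℕ) * x) - (h + 1) • α x =
        (α ((h : W.O M) * x + x) - α ((h : W.O M) * x) - α x) + (α (h * x) - h • α x) := by
      rw [Nat.cast_succ, add_mul, one_mul, succ_nsmul]
      abel
    rw [h2]
    exact (X.D M _).add_mem (by rwa [← two_mul] at h1) ih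

/-- The structure for the modulus `p ^ n`. -/
def lv (hp : p ≠ 0) (n : ℕ) : Lv W (p ^ n) (n * e + e) A where
  D := X.D
  Nl := X.Nl
  fx := X.fx
  nx := X.nx
  small := fun hM hr ha => X.small n hM (by rw [add_mul, one_mul]; exact hr) ha
  lift := fun hM ha => X.lift (pow_ne_zero n hp) hM ha
  lang := X.lang
  Ch := X.Ch
  chD := X.chD
  gen := X.gen
  res := X.res
  chR := X.chR
  mul := by
    intro M r α x h hM hα hr hx
    exact X.anti' hM (by omega) (X.mul h hM hα hr hx)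
  nm := X.nm

end Lp

/-- The symbols of the null elements are `0`. -/
def Nul (X : Lp W p e A) (S : Sc K Ω A B G) : Prop :=
  ∀ (M : IntermediateField K Ω) (a : A) (b : B), W.U M → a ∈ X.Nl M → Fx M b → S.sy M a b = 0

/-- The filtration modulo `p ^ n T`. -/
noncomputable def Fn (X : Lp W p e A) (Y : Lp W p e B) (S : Sc K Ω A B G) (hp : p ≠ 0)
    (n s : ℕ) : AddSubgroup G := Fil (X.lv hp n) (Y.lv hp n) S s

section fil

variable {S : Sc K Ω A B G} {X : Lp W p e A} {Y : Lp W p e B} {hp : p ≠ 0} {n : ℕ}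

omit [CharZero K] [IsAlgClosure K Ω] in
theorem fn_anti {s t : ℕ} (h : s ≤ t) : Fn X Y S hp n t ≤ Fn X Y S hp n s := Ph_anti h

omit [CharZero K] [IsAlgClosure K Ω] in
theorem pT_le (s : ℕ) : mulT (p ^ n) S.T ≤ Fn X Y S hp n s := mulT_le_Ph s

theorem fn_dd (hX : Nul X S) (hY : Nul Y S.swap) {M : IntermediateField K Ω} {I J : ℕ} {a : A}
    {b : B} (hM : W.U M) (hI : I ≠ 0) (hJ : J ≠ 0) (ha : a ∈ X.D M I) (hb : b ∈ Y.D M J) :
    S.sy M a b ∈ Fn X Y S hp n (I + J) :=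
  dd_mem (X := X.lv hp n) (Y := Y.lv hp n) hX hY hM hI hJ ha hb

theorem fn_d₁ (hX : Nul X S) (hY : Nul Y S.swap) {M : IntermediateField K Ω} {r : ℕ} {a : A}
    {b : B} (hM : W.U M) (hr : r ≠ 0) (ha : a ∈ X.D M r) (hb : Fx M b) :
    S.sy M a b ∈ Fn X Y S hp n (r + 1) :=
  d1_mem (X := X.lv hp n) (Y := Y.lv hp n) hX hY hM hr ha hb

theorem fn_d₂ (hX : Nul X S) (hY : Nul Y S.swap) {M : IntermediateField K Ω} {r : ℕ} {a : A}
    {b : B} (hM : W.U M) (hr : r ≠ 0) (ha : Fx M a) (hb : b ∈ Y.D M r) :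
    S.sy M a b ∈ Fn X Y S hp n (r + 1) :=
  d2_mem (X := X.lv hp n) (Y := Y.lv hp n) hX hY hM hr ha hb

/-- The group generated by the symbols with one entry of level `r`. -/
def Psn (X : Lp W p e A) (Y : Lp W p e B) (S : Sc K Ω A B G) (r : ℕ) : AddSubgroup G :=
  AddSubgroup.closure {g | ∃ M a b, W.U M ∧ ((a ∈ X.D M r ∧ Fx M b) ∨ (Fx M a ∧ b ∈ Y.D M r)) ∧
    g = S.sy M a b}

theorem psn_le (hX : Nul X S) (hY : Nul Y S.swap) {r : ℕ} (hr : r ≠ 0) :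
    Psn X Y S r ≤ Fn X Y S hp n (r + 1) := by
  unfold Psn
  rw [AddSubgroup.closure_le]
  rintro g ⟨M, a, b, hM, h | h, rfl⟩
  · exact fn_d₁ hX hY hM hr h.1 h.2
  · exact fn_d₂ hX hY hM hr h.1 h.2

theorem top_fn (hX : Nul X S) (hY : Nul Y S.swap)
    (hgen : S.T ≤ AddSubgroup.closure {g | ∃ M a b, W.U M ∧ Fx M a ∧ Fx M b ∧ g = S.sy M a b}) :
    S.T ≤ Fn X Y S hp n 2 :=
  top_le (X.lv hp n).toLv₀ (Y.lv hp n).toLv₀ _ (pT_le 2) hgen
    (fun hM ha hb => fn_d₁ hX hY hM one_ne_zero ha hb)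
    (fun hM ha hb => fn_d₂ hX hY hM one_ne_zero ha hb)

omit [CharZero K] [IsAlgClosure K Ω] in
/-- Generators of the filtration. -/
theorem fn_le {V : AddSubgroup G} {s : ℕ} (hV : mulT (p ^ n) S.T ≤ V)
    (h : ∀ (M : IntermediateField K Ω) (α : W.O M → A) (β : W.O M → B) (x y : W.O M) (I J : ℕ),
      W.U M → α ∈ X.Ch M → β ∈ Y.Ch M → I ≠ 0 → J ≠ 0 → s ≤ I + J → W.π M ^ I ∣ x →
      W.π M ^ J ∣ y → S.sy M (α x) (β y) ∈ V) : Fn X Y S hp n s ≤ V := by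
  refine sup_le ?_ hV
  rw [AddSubgroup.closure_le]
  rintro g ⟨i, x, y, I, J, hI, hJ, hs, hx, hy, rfl⟩
  exact h i.M i.α i.β x y I J i.hM i.hα i.hβ hI hJ hs hx hy

/-- Symbols of displacements are generated by the symbols of chart displacements. Proof: as `dd_mem`. -/
theorem dd_gen (hX : Nul X S) (hY : Nul Y S.swap) {V : AddSubgroup G} {M₀ : IntermediateField K Ω}
    {I J : ℕ} {a : A} {b : B} (hM₀ : W.U M₀) (hI : I ≠ 0) (hJ : J ≠ 0) (ha : a ∈ X.D M₀ I)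
    (hb : b ∈ Y.D M₀ J)
    (h : ∀ (M : IntermediateField K Ω) (α : W.O M → A) (β : W.O M → B) (x y : W.O M),
      W.U M → (∃ M', W.Ex M₀ M' ∧ W.Ex M' M) → α ∈ X.Ch M → β ∈ Y.Ch M → W.π M ^ I ∣ x →
      W.π M ^ J ∣ y → S.sy M (α x) (β y) ∈ V) : S.sy M₀ a b ∈ V := by
  have hb0 := Y.fx hM₀ hb
  have := W.fd hM₀
  refine (sy_sup₁ hb0 ?_ (fun a ha => ⟨X.nx hM₀ ha, hX M₀ a b hM₀ ha hb0⟩) (X.gen hM₀ hI ha)).2
  rintro a ⟨M', hM', α, hα, x, hx, rfl⟩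
  have hU' := W.up hM₀ hM'
  have := W.fd hU'
  have hle := W.le hM'
  have hαx := X.fx hU' (X.chD hU' hα hI hx)
  refine ⟨nm_fx hle hαx, ?_⟩
  rw [← S.nm₁ M₀ M' (α x) b hle hαx hb0]
  have hb' := Y.res hM₀ hM' hJ hb
  refine (sy_sup₁ (S := S.swap) hαx ?_
    (fun b hb => ⟨Y.nx hU' hb, hY M' b _ hU' hb hαx⟩) (Y.gen hU' hJ hb')).2
  rintro b ⟨M'', hM'', β, hβ, y, hy, rfl⟩
  have hU'' := W.up hU' hM''
  have := W.fd hU''
  have hle' := W.le hM''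
  have hβy := Y.fx hU'' (Y.chD hU'' hβ hJ hy)
  refine ⟨nm_fx hle' hβy, ?_⟩
  change S.sy M' (α x) (Nm M' M'' (β y)) ∈ _
  rw [← S.nm₂ M' M'' (α x) (β y) hle' hαx hβy]
  obtain ⟨α', hα', x', hx', e⟩ := X.chR hU' hM'' hI hα hx
  rw [← e]
  exact h M'' α' β x' y hU'' ⟨M', hM', hM''⟩ hα' hβ hx' hy

/-- Additivity in the first variable. -/
theorem fn_add₁ (hX : Nul X S) (hY : Nul Y S.swap) {M : IntermediateField K Ω}
    {α : W.O M → A} {β : W.O M → B} (hM : W.U M) (hα : α ∈ X.Ch M) (hβ : β ∈ Y.Ch M)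
    {r r' J : ℕ} (hr : r ≠ 0) (hr' : r' ≠ 0) (hJ : J ≠ 0) {x x' y : W.O M} (hx : W.π M ^ r ∣ x)
    (hx' : W.π M ^ r' ∣ x') (hy : W.π M ^ J ∣ y) :
    S.sy M (α (x + x')) (β y) - S.sy M (α x) (β y) - S.sy M (α x') (β y) ∈
      Fn X Y S hp n (r + r' + J) := by
  have := W.fd hM
  obtain ⟨k, hk⟩ : ∃ k, k = min r r' := ⟨_, rfl⟩
  have h0 : W.π M ^ k ∣ x + x' := dvd_add ((pow_dvd_pow _ (by omega)).trans hx)
    ((pow_dvd_pow _ (by omega)).trans hx')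
  have h1 := X.fx hM (X.chD hM hα (by omega) h0)
  have h2 := X.fx hM (X.chD hM hα hr hx)
  have h3 := X.fx hM (X.chD hM hα hr' hx')
  have h4 := Y.chD hM hβ hJ hy
  rw [← sy_sub₁ h1 h2 (Y.fx hM h4), ← sy_sub₁ (h1.sub h2) h3 (Y.fx hM h4)]
  exact fn_dd hX hY hM (by omega) hJ (X.add hM hα hr hr' hx hx') h4

/-- Additivity in the second variable. -/
theorem fn_add₂ (hX : Nul X S) (hY : Nul Y S.swap) {M : IntermediateField K Ω}
    {α : W.O M → A} {β : W.O M → B} (hM : W.U M) (hα : α ∈ X.Ch M) (hβ : β ∈ Y.Ch M)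
    {r r' I : ℕ} (hr : r ≠ 0) (hr' : r' ≠ 0) (hI : I ≠ 0) {y y' x : W.O M} (hy : W.π M ^ r ∣ y)
    (hy' : W.π M ^ r' ∣ y') (hx : W.π M ^ I ∣ x) :
    S.sy M (α x) (β (y + y')) - S.sy M (α x) (β y) - S.sy M (α x) (β y') ∈
      Fn X Y S hp n (I + (r + r')) := by
  have := W.fd hM
  obtain ⟨k, hk⟩ : ∃ k, k = min r r' := ⟨_, rfl⟩
  have h0 : W.π M ^ k ∣ y + y' := dvd_add ((pow_dvd_pow _ (by omega)).trans hy)
    ((pow_dvd_pow _ (by omega)).trans hy')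
  have h1 := Y.fx hM (Y.chD hM hβ (by omega) h0)
  have h2 := Y.fx hM (Y.chD hM hβ hr hy)
  have h3 := Y.fx hM (Y.chD hM hβ hr' hy')
  have h4 := X.chD hM hα hI hx
  rw [← sy_sub₂ (X.fx hM h4) h1 h2, ← sy_sub₂ (X.fx hM h4) (h1.sub h2) h3]
  exact fn_dd hX hY hM hI (by omega) h4 (Y.add hM hβ hr hr' hy hy')

end fil

end CV
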