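import Pool.Agent.Lib.MP_f80667_ag.Ct.L

/-! # The filtration: multiplication by `p`, the end, division -/

set_option autoImplicit false

open PE Finset Polynomial

namespace CV

variable {K Ω : Type} [Field K] [CharZero K] [Field Ω] [Algebra K Ω] [IsAlgClosure K Ω]
  {A B G : Type} [AddCommGroup A] [AddCommGroup B] [AddCommGroup G]
  [DistribMulAction (Ω ≃ₐ[K] Ω) A] [DistribMulAction (Ω ≃ₐ[K] Ω) B]
  {W : Tw K Ω} {p e : ℕ} {S : Sc K Ω A B G} {X : Lp W p e A} {Y : Lp W p e B} {hp : p ≠ 0} {n : ℕ}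

/-- One generator, first variable. -/
private theorem step₁ (hX : Nul X S) (hY : Nul Y S.swap)
    (hpe : ∀ M, W.U M → W.π M ^ e ∣ (p : W.O M)) {M : IntermediateField K Ω} {α : W.O M → A}
    {β : W.O M → B} {x y : W.O M} {I J c s : ℕ} (hM : W.U M) (hα : α ∈ X.Ch M) (hβ : β ∈ Y.Ch M)
    (hI : I ≠ 0) (hJ : J ≠ 0) (hs : s ≤ I + J) (hx : W.π M ^ I ∣ x) (hy : W.π M ^ J ∣ y)
    (hc : c ≤ e) (hcI : c ≤ I) : p • S.sy M (α x) (β y) ∈ Fn X Y S hp n (s + c) := by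
  have := W.fd hM
  have h1 := X.chD hM hα hI hx
  have h2 := Y.chD hM hβ hJ hy
  have hb := Y.fx hM h2
  have h3 : W.π M ^ (c + I) ∣ (p : W.O M) * x := by
    rw [pow_add]
    exact mul_dvd_mul ((pow_dvd_pow _ hc).trans (hpe M hM)) hx
  have h4 := X.chD hM hα (by omega) h3
  have h5 := X.mul p hM hα hI hx
  have h6 := X.fx hM h4
  have h7 := (X.fx hM h1).nsmul p
  have e1 : p • S.sy M (α x) (β y) = S.sy M (α (p * x)) (β y) -
      S.sy M (α (p * x) - p • α x) (β y) := by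
    rw [sy_sub₁ h6 h7 hb, sy_smul₁ (X.fx hM h1) hb]
    abel
  rw [e1]
  exact (Fn X Y S hp n (s + c)).sub_mem (fn_anti (by omega) (fn_dd hX hY hM (by omega) hJ h4 h2))
    (fn_anti (by omega) (fn_dd hX hY hM (by omega) hJ h5 h2))

/-- One generator, second variable. -/
private theorem step₂ (hX : Nul X S) (hY : Nul Y S.swap)
    (hpe : ∀ M, W.U M → W.π M ^ e ∣ (p : W.O M)) {M : IntermediateField K Ω} {α : W.O M → A}
    {β : W.O M → B} {x y : W.O M} {I J c s : ℕ} (hM : W.U M) (hα : α ∈ X.Ch M) (hβ : β ∈ Y.Ch M)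
    (hI : I ≠ 0) (hJ : J ≠ 0) (hs : s ≤ I + J) (hx : W.π M ^ I ∣ x) (hy : W.π M ^ J ∣ y)
    (hc : c ≤ e) (hcJ : c ≤ J) : p • S.sy M (α x) (β y) ∈ Fn X Y S hp n (s + c) := by
  have := W.fd hM
  have h1 := X.chD hM hα hI hx
  have h2 := Y.chD hM hβ hJ hy
  have ha := X.fx hM h1
  have h3 : W.π M ^ (c + J) ∣ (p : W.O M) * y := by
    rw [pow_add]
    exact mul_dvd_mul ((pow_dvd_pow _ hc).trans (hpe M hM)) hy
  have h4 := Y.chD hM hβ (by omega) h3
  have h5 := Y.mul p hM hβ hJ hy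
  have h6 := Y.fx hM h4
  have h7 := (Y.fx hM h2).nsmul p
  have e1 : p • S.sy M (α x) (β y) = S.sy M (α x) (β (p * y)) -
      S.sy M (α x) (β (p * y) - p • β y) := by
    rw [sy_sub₂ ha h6 h7, sy_smul₂ ha (Y.fx hM h2)]
    abel
  rw [e1]
  exact (Fn X Y S hp n (s + c)).sub_mem (fn_anti (by omega) (fn_dd hX hY hM hI (by omega) h1 h4))
    (fn_anti (by omega) (fn_dd hX hY hM hI (by omega) h1 h5))

/-- Multiplication by `p` raises the weight by `e`. Proof: `fn_le` for the comap of `p •`; if `I ≥ e`, `p • α x` is in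
`D M (I + e)`: `α (p x) - p • α x` is in `D M (2 I)` (`Lp.mul`) and `π ^ (e + I) ∣ p x`; if `J ≥ e` the same for `β`. -/
theorem fn_p (hX : Nul X S) (hY : Nul Y S.swap) (hpe : ∀ M, W.U M → W.π M ^ e ∣ (p : W.O M))
    {s : ℕ} (hs : 2 * e ≤ s) {g : G} (hg : g ∈ Fn X Y S hp n s) :
    p • g ∈ Fn X Y S hp n (s + e) := by
  have h : Fn X Y S hp n s ≤ (Fn X Y S hp n (s + e)).comap (nsmulAddMonoidHom p) := by
    refine fn_le (fun g hg => ?_) fun M α β x y I J hM hα hβ hI hJ hIJ hx hy => ?_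
    · exact (Fn X Y S hp n (s + e)).nsmul_mem (pT_le _ hg) p
    · change p • S.sy M (α x) (β y) ∈ Fn X Y S hp n (s + e)
      rcases le_or_gt e I with h1 | h1
      · exact step₁ hX hY hpe hM hα hβ hI hJ hIJ hx hy le_rfl h1
      · exact step₂ hX hY hpe hM hα hβ hI hJ hIJ hx hy le_rfl (by omega)
  exact h hg

/-- Proof: as `fn_p`, `α (p x) - p • α x` is in `D M (2 I)` and `π ^ (I + 1) ∣ p x`. -/
theorem fn_p1 (hX : Nul X S) (hY : Nul Y S.swap) (hpe : ∀ M, W.U M → W.π M ^ e ∣ (p : W.O M))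
    (he : e ≠ 0) {s : ℕ} {g : G} (hg : g ∈ Fn X Y S hp n s) :
    p • g ∈ Fn X Y S hp n (s + 1) := by
  have h : Fn X Y S hp n s ≤ (Fn X Y S hp n (s + 1)).comap (nsmulAddMonoidHom p) := by
    refine fn_le (fun g hg => ?_) fun M α β x y I J hM hα hβ hI hJ hIJ hx hy => ?_
    · exact (Fn X Y S hp n (s + 1)).nsmul_mem (pT_le _ hg) p
    · exact step₁ hX hY hpe hM hα hβ hI hJ hIJ hx hy (by omega) (by omega)
  exact h hg

/-- Large weights are in `p ^ n T`. Proof: `fn_le`; one of `I`, `J` is at least `n e + e + 1` (`small_mem` for `X.lv`, `Y.lv`, as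
`end₁`, `end₂` in the proof of `era`). -/
theorem fn_end (hX : Nul X S) (hY : Nul Y S.swap) {s : ℕ} (hs : 2 * (n * e + e + 1) ≤ s) :
    Fn X Y S hp n s ≤ mulT (p ^ n) S.T := by
  refine fn_le le_rfl fun M α β x y I J hM hα hβ hI hJ hIJ hx hy => ?_
  have := W.fd hM
  have h1 := X.chD hM hα hI hx
  have h2 := Y.chD hM hβ hJ hy
  rcases le_or_gt (n * e + e + 1) I with h3 | h3
  · exact small_mem (X.lv hp n).toLv₀ hX hM h3 h1 (Y.fx hM h2)
  · have h4 := small_mem (S := S.swap) (Y.lv hp n).toLv₀ hY hM (by omega) h2 (X.fx hM h1)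
    rw [swap_T] at h4
    exact h4

/-- Division by a number prime to `p`. Proof: `u m + v p ^ n = 1`, `p ^ n • g ∈ p ^ n T`. -/
theorem fn_div {m s : ℕ} (hm : Nat.Coprime m p) {g : G} (hg : g ∈ S.T)
    (h : m • g ∈ Fn X Y S hp n s) : g ∈ Fn X Y S hp n s := by
  have h1 : p ^ n • g ∈ Fn X Y S hp n s := pT_le s (smul_mem_mulT hg)
  obtain ⟨u, v, huv⟩ := Nat.isCoprime_iff_coprime.2 (hm.pow_right n)
  have h2 : g = u • (m • g) + v • (p ^ n • g) := by
    rw [← natCast_zsmul g m, ← natCast_zsmul g (p ^ n), smul_smul, smul_smul, ← add_smul, huv,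
      one_smul]
  rw [h2]
  exact (Fn X Y S hp n s).add_mem ((Fn X Y S hp n s).zsmul_mem h u)
    ((Fn X Y S hp n s).zsmul_mem h1 v)

end CV
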