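import Pool.Agent.Lib.MP_f80667_ag.Ct.Defs
import Pool.Agent.Lib.MP_f80667_ag.ZC.Place

/-! The place centred at the smooth point `P` is unique, and the sphere vanishes there to the first
order. -/

open MvPolynomial

namespace Ct

open ZC

universe u

section taylor

/-- Taylor expansion to the first order. -/
theorem loc_taylor {k A : Type*} [CommRing k] [CommRing A] [Algebra k A] {n : ℕ} (J : Ideal A)
    (P : Fin n → k) (y : Fin n → A) (hy : ∀ j, y j ∈ J) (f : MvPolynomial (Fin n) k) :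
    aeval (fun j => algebraMap k A (P j) + y j) f - algebraMap k A (aeval P f) -
      ∑ j, algebraMap k A (aeval P (pderiv j f)) * y j ∈ J ^ 2 := by
  induction f using MvPolynomial.induction_on with
  | C a => simp
  | add p q hp hq =>
    have := (J ^ 2).add_mem hp hq
    convert this using 1
    simp only [map_add, add_mul, Finset.sum_add_distrib]
    ring
  | mul_X p i hp =>
    have hD : ∑ j, algebraMap k A (aeval P (pderiv j p)) * y j ∈ J :=
      J.sum_mem fun j _ => J.mul_mem_left _ (hy j)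
    have h1 := (J ^ 2).mul_mem_right (algebraMap k A (P i) + y i) hp
    have h2 : (∑ j, algebraMap k A (aeval P (pderiv j p)) * y j) * y i ∈ J ^ 2 := by
      rw [pow_two]
      exact Ideal.mul_mem_mul hD (hy i)
    have e : ∑ j, algebraMap k A (aeval P (pderiv j (p * X i))) * y j =
        (∑ j, algebraMap k A (aeval P (pderiv j p)) * y j) * algebraMap k A (P i) +
          algebraMap k A (aeval P p) * y i := by
      have e1 : ∀ j, algebraMap k A (aeval P (pderiv j (p * X i))) * y j =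
          (algebraMap k A (aeval P (pderiv j p)) * y j) * algebraMap k A (P i) +
            (if i = j then algebraMap k A (aeval P p) * y j else 0) := by
        intro j
        rw [Derivation.leibniz, smul_eq_mul, smul_eq_mul, map_add, map_mul, map_mul, aeval_X,
          pderiv_X]
        by_cases h : i = j
        · subst h
          simp
          ring
        · rw [if_neg h, Pi.single_eq_of_ne h]
          simp
          ring
      simp only [e1, Finset.sum_add_distrib, Finset.sum_ite_eq, Finset.mem_univ, if_true,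
        Finset.sum_mul]
    have := (J ^ 2).add_mem h1 h2
    convert this using 1
    rw [e, map_mul, map_mul, aeval_X, aeval_X, map_mul]
    ring

end taylor

section ring

variable {k E : Type u} [Field k] [Field E] [Algebra k E] {r : ℕ} (τ : E) (β : Fin r → E)

/-- The ring generated by the coordinates. -/
abbrev LA (k : Type u) [Field k] {E : Type u} [Field E] [Algebra k E] {r : ℕ} (τ : E)
    (β : Fin r → E) : Subalgebra k E := Algebra.adjoin k (insert τ (Set.range β))

/-- The coordinates. -/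
def lt : LA k τ β := ⟨τ, Algebra.subset_adjoin (Set.mem_insert _ _)⟩

def lb (i : Fin r) : LA k τ β :=
  ⟨β i, Algebra.subset_adjoin (Set.mem_insert_of_mem _ (Set.mem_range_self i))⟩

/-- The ideal generated by the coordinates. -/
def lp : Ideal (LA k τ β) := Ideal.span (insert (lt τ β) (Set.range (lb τ β)))

variable (k) in
theorem lt_mem : lt (k := k) τ β ∈ lp τ β := Ideal.subset_span (Set.mem_insert _ _)

variable (k) in
theorem lb_mem (i : Fin r) : lb (k := k) τ β i ∈ lp τ β :=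
  Ideal.subset_span (Set.mem_insert_of_mem _ (Set.mem_range_self i))

theorem loc_const (a : LA k τ β) : ∃ c : k, a - algebraMap k _ c ∈ lp τ β := by
  obtain ⟨a, ha⟩ := a
  induction ha using Algebra.adjoin_induction with
  | mem x hx =>
    refine ⟨0, ?_⟩
    rw [map_zero, sub_zero]
    rcases hx with rfl | ⟨i, rfl⟩
    · exact lt_mem k x β
    · exact lb_mem k τ β i
  | algebraMap c =>
    refine ⟨c, ?_⟩
    convert (lp (k := k) τ β).zero_mem using 1
    ext
    simp
  | add x y hx hy h1 h2 =>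
    obtain ⟨c, hc⟩ := h1
    obtain ⟨d, hd⟩ := h2
    refine ⟨c + d, ?_⟩
    have := (lp (k := k) τ β).add_mem hc hd
    convert this using 1
    ext
    simp
    ring
  | mul x y hx hy h1 h2 =>
    obtain ⟨c, hc⟩ := h1
    obtain ⟨d, hd⟩ := h2
    refine ⟨c * d, ?_⟩
    have := (lp (k := k) τ β).add_mem ((lp (k := k) τ β).mul_mem_right ⟨y, hy⟩ hc)
      ((lp (k := k) τ β).mul_mem_left (algebraMap k _ c) hd)
    convert this using 1
    ext
    simp
    ring

theorem loc_noeth : IsNoetherianRing (LA k τ β) :=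
  isNoetherianRing_of_fg (Subalgebra.fg_def.2 ⟨_, (Set.finite_range β).insert τ, rfl⟩)

variable {τ β}

theorem lp_le (hb : ∀ i, lb (k := k) τ β i ∈ lp τ β ^ 2) :
    lp (k := k) τ β ≤ Ideal.span {lt τ β} ⊔ lp τ β ^ 2 := by
  conv_lhs => rw [lp]
  rw [Ideal.span_le]
  rintro x (rfl | ⟨i, rfl⟩)
  · exact Ideal.mem_sup_left (Ideal.mem_span_singleton_self _)
  · exact Ideal.mem_sup_right (hb i)

theorem lp_pow_le (hb : ∀ i, lb (k := k) τ β i ∈ lp τ β ^ 2) (n : ℕ) :
    lp (k := k) τ β ^ n ≤ Ideal.span {lt τ β ^ n} ⊔ lp τ β ^ (n + 1) := by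
  have ht : Ideal.span {lt (k := k) τ β} ≤ lp τ β := by
    rw [Ideal.span_singleton_le_iff_mem]
    exact lt_mem k τ β
  induction n with
  | zero => simp
  | succ n ih =>
    have htn : Ideal.span {lt (k := k) τ β ^ n} ≤ lp τ β ^ n := by
      rw [Ideal.span_singleton_le_iff_mem]
      exact Ideal.pow_mem_pow (lt_mem k τ β) n
    calc lp (k := k) τ β ^ (n + 1) = lp τ β ^ n * lp τ β := pow_succ _ _
      _ ≤ (Ideal.span {lt τ β ^ n} ⊔ lp τ β ^ (n + 1)) *
          (Ideal.span {lt τ β} ⊔ lp τ β ^ 2) := Ideal.mul_mono ih (lp_le hb)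
      _ ≤ Ideal.span {lt τ β ^ (n + 1)} ⊔ lp τ β ^ (n + 1 + 1) := by
        rw [Ideal.sup_mul, Ideal.mul_sup, Ideal.mul_sup]
        refine sup_le (sup_le ?_ ?_) (sup_le ?_ ?_)
        · rw [Ideal.span_singleton_mul_span_singleton, ← pow_succ]
          exact le_sup_left
        · refine le_sup_of_le_right ((Ideal.mul_mono_left htn).trans ?_)
          rw [← pow_add]
        · refine le_sup_of_le_right ((Ideal.mul_mono_right ht).trans ?_)
          rw [← pow_succ]
        · refine le_sup_of_le_right ?_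
          rw [← pow_add]
          exact Ideal.pow_le_pow_right (by omega)

theorem loc_lead (hb : ∀ i, lb (k := k) τ β i ∈ lp τ β ^ 2) {n : ℕ} {a : LA k τ β}
    (ha : a ∈ lp τ β ^ n) : ∃ c : k, a - algebraMap k _ c * lt τ β ^ n ∈ lp τ β ^ (n + 1) := by
  obtain ⟨x, hx, e, he, rfl⟩ := Submodule.mem_sup.1 (lp_pow_le hb n ha)
  obtain ⟨b, rfl⟩ := Ideal.mem_span_singleton'.1 hx
  obtain ⟨c, hc⟩ := loc_const τ β b
  refine ⟨c, ?_⟩
  have h1 : (b - algebraMap k _ c) * lt τ β ^ n ∈ lp (k := k) τ β ^ (n + 1) := by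
    rw [pow_succ']
    exact Ideal.mul_mem_mul hc (Ideal.pow_mem_pow (lt_mem k τ β) n)
  convert (lp (k := k) τ β ^ (n + 1)).add_mem h1 he using 1
  ring

theorem loc_order (hb : ∀ i, lb (k := k) τ β i ∈ lp τ β ^ 2) (hne : lp (k := k) τ β ≠ ⊤)
    {a : LA k τ β} (ha : a ≠ 0) :
    ∃ (n : ℕ) (c : k), c ≠ 0 ∧ a - algebraMap k _ c * lt τ β ^ n ∈ lp τ β ^ (n + 1) := by
  classical
  have := loc_noeth (k := k) τ β
  have hK := Ideal.iInf_pow_eq_bot_of_isDomain (I := lp (k := k) τ β) hne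
  have hex : ∃ n : ℕ, a ∉ lp (k := k) τ β ^ n := by
    by_contra h
    push Not at h
    apply ha
    have : a ∈ ⨅ i : ℕ, lp (k := k) τ β ^ i := by
      rw [Ideal.mem_iInf]
      exact h
    rwa [hK] at this
  obtain ⟨n, hn, hmin⟩ : ∃ n, a ∉ lp (k := k) τ β ^ n ∧ ∀ m < n, a ∈ lp (k := k) τ β ^ m :=
    ⟨Nat.find hex, Nat.find_spec hex, fun m hm => by
      have := Nat.find_min hex hm
      rwa [not_not] at this⟩
  obtain ⟨m, rfl⟩ : ∃ m, n = m + 1 := by
    cases n with
    | zero => simp at hn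
    | succ m => exact ⟨m, rfl⟩
  obtain ⟨c, hc⟩ := loc_lead hb (hmin m (Nat.lt_succ_self m))
  refine ⟨m, c, ?_, hc⟩
  rintro rfl
  apply hn
  simpa using hc

end ring

section val

variable {k E Ω : Type u} [Field k] [Field E] [Algebra k E] [Field Ω] [Algebra k Ω] {r : ℕ}
  {τ : E} {β : Fin r → E} (w : Place k E Ω)

theorem loc_mem (hτ : τ ∈ w.V) (hβ : ∀ i, β i ∈ w.V) (a : LA k τ β) : (a : E) ∈ w.V := by
  obtain ⟨a, ha⟩ := a
  induction ha using Algebra.adjoin_induction with
  | mem x hx =>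
    rcases hx with rfl | ⟨i, rfl⟩
    · exact hτ
    · exact hβ i
  | algebraMap c => exact w.mem c
  | add x y hx hy h1 h2 => exact w.V.add_mem _ _ h1 h2
  | mul x y hx hy h1 h2 => exact w.V.mul_mem _ _ h1 h2

theorem loc_val {γ : w.V.ValueGroup} (hτ : τ ∈ w.V) (hβ : ∀ i, β i ∈ w.V)
    (h1 : w.V.valuation τ ≤ γ) (h2 : ∀ i, w.V.valuation (β i) ≤ γ) {a : LA k τ β}
    (ha : a ∈ lp τ β) : w.V.valuation (a : E) ≤ γ := by
  unfold lp at ha
  induction ha using Submodule.span_induction with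
  | mem x hx =>
    rcases hx with rfl | ⟨i, rfl⟩
    · exact h1
    · exact h2 i
  | zero => simp
  | add x y hx hy h1 h2 => exact (w.V.valuation.map_add _ _).trans (max_le h1 h2)
  | smul b x hx h =>
    have hb := (w.V.valuation_le_one_iff _).2 (loc_mem w hτ hβ b)
    rw [smul_eq_mul, MulMemClass.coe_mul, map_mul]
    exact (mul_le_mul' hb h).trans_eq (one_mul γ)

theorem loc_val_pow {γ : w.V.ValueGroup} (hτ : τ ∈ w.V) (hβ : ∀ i, β i ∈ w.V)
    (h1 : w.V.valuation τ ≤ γ) (h2 : ∀ i, w.V.valuation (β i) ≤ γ) {n : ℕ} {a : LA k τ β}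
    (ha : a ∈ lp τ β ^ n) : w.V.valuation (a : E) ≤ γ ^ n := by
  induction n generalizing a with
  | zero =>
    rw [pow_zero]
    exact (w.V.valuation_le_one_iff _).2 (loc_mem w hτ hβ a)
  | succ n ih =>
    rw [pow_succ] at ha
    induction ha using Submodule.mul_induction_on' with
    | mem_mul_mem x hx y hy =>
      rw [MulMemClass.coe_mul, map_mul, pow_succ]
      exact mul_le_mul' (ih hx) (loc_val w hτ hβ h1 h2 hy)
    | add x hx y hy h1 h2 => exact (w.V.valuation.map_add _ _).trans (max_le h1 h2)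

include w in
theorem loc_zero (hgen : IntermediateField.adjoin k (insert τ (Set.range β)) = ⊤)
    (h0 : τ = 0) (h1 : ∀ i, β i = 0) : False := by
  apply w.ne_top
  rw [eq_top_iff]
  intro x _
  have hx : x ∈ IntermediateField.adjoin k (insert τ (Set.range β)) := by
    rw [hgen]
    exact IntermediateField.mem_top
  have hle : IntermediateField.adjoin k (insert τ (Set.range β)) ≤ ⊥ := by
    rw [IntermediateField.adjoin_le_iff]
    rintro y (rfl | ⟨i, rfl⟩)
    · rw [h0]
      exact zero_mem _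
    · rw [h1 i]
      exact zero_mem _
  obtain ⟨c, rfl⟩ := IntermediateField.mem_bot.1 (hle hx)
  exact w.mem c

theorem loc_unif (hgen : IntermediateField.adjoin k (insert τ (Set.range β)) = ⊤)
    (hb : ∀ i, lb (k := k) τ β i ∈ lp τ β ^ 2)
    (hτ : τ ∈ w.V.nonunits) (hβ : ∀ i, β i ∈ w.V.nonunits) :
    w.V.valuation τ ≠ 0 ∧ ∀ i, w.V.valuation (β i) ≤ w.V.valuation τ := by
  have hτ' := w.V.nonunits_le hτ
  have hβ' := fun i => w.V.nonunits_le (hβ i)
  rw [ValuationSubring.mem_nonunits_iff] at hτ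
  simp only [ValuationSubring.mem_nonunits_iff] at hβ
  obtain ⟨o, ho⟩ := Finite.exists_max (fun o : Option (Fin r) => w.V.valuation (o.elim τ β))
  have m1 : w.V.valuation τ ≤ w.V.valuation (o.elim τ β) := ho none
  have m2 : ∀ i, w.V.valuation (β i) ≤ w.V.valuation (o.elim τ β) := fun i => ho (some i)
  have hz : w.V.valuation (o.elim τ β) ≠ 0 := by
    intro h
    rw [h] at m1 m2
    refine loc_zero w hgen ((Valuation.zero_iff _).1 (le_zero_iff.1 m1)) fun i =>
      (Valuation.zero_iff _).1 (le_zero_iff.1 (m2 i))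
  cases o with
  | none => exact ⟨hz, m2⟩
  | some i =>
    exfalso
    have h1 := loc_val_pow w hτ' hβ' m1 m2 (hb i)
    have h2 : w.V.valuation (β i) ≤ w.V.valuation (β i) ^ 2 := h1
    have h3 : w.V.valuation (β i) ^ 2 < w.V.valuation (β i) := by
      have := pow_lt_pow_right_of_lt_one₀ (zero_lt_iff.2 hz) (hβ i) (show 1 < 2 by norm_num)
      rwa [pow_one] at this
    exact absurd h2 (not_le.2 h3)

theorem loc_c {c : k} (hc : c ≠ 0) : w.V.valuation (algebraMap k E c) = 1 := by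
  apply le_antisymm ((w.V.valuation_le_one_iff _).2 (w.mem c))
  have h := (w.V.valuation_le_one_iff _).2 (w.mem c⁻¹)
  rw [map_inv₀, map_inv₀] at h
  have h0 : w.V.valuation (algebraMap k E c) ≠ 0 := by
    rw [Valuation.ne_zero_iff]
    exact (map_ne_zero _).2 hc
  rwa [inv_le_one₀ (zero_lt_iff.2 h0)] at h

variable (hτ : τ ∈ w.V.nonunits) (hβ : ∀ i, β i ∈ w.V.nonunits)
  (hv0 : w.V.valuation τ ≠ 0) (hv : ∀ i, w.V.valuation (β i) ≤ w.V.valuation τ)

include hτ hβ hv in
theorem loc_pow_le {n : ℕ} {a : LA k τ β} (ha : a ∈ lp τ β ^ n) :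
    w.V.valuation (a : E) ≤ w.V.valuation τ ^ n :=
  loc_val_pow w (w.V.nonunits_le hτ) (fun i => w.V.nonunits_le (hβ i)) le_rfl hv ha

include hτ hβ hv hv0 in
theorem loc_val_eq {n : ℕ} {c : k} (hc : c ≠ 0) {a : LA k τ β}
    (ha : a - algebraMap k _ c * lt τ β ^ n ∈ lp τ β ^ (n + 1)) :
    w.V.valuation (a : E) = w.V.valuation τ ^ n := by
  have h1 := loc_pow_le w hτ hβ hv ha
  have h2 : w.V.valuation ((algebraMap k (LA k τ β) c * lt τ β ^ n : LA k τ β) : E) =
      w.V.valuation τ ^ n := by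
    have : ((algebraMap k (LA k τ β) c * lt τ β ^ n : LA k τ β) : E) =
        algebraMap k E c * τ ^ n := by
      simp [lt]
    rw [this, map_mul, loc_c w hc, one_mul, map_pow]
  have h3 : w.V.valuation τ ^ (n + 1) < w.V.valuation τ ^ n :=
    pow_lt_pow_right_of_lt_one₀ (zero_lt_iff.2 hv0) ((ValuationSubring.mem_nonunits_iff _).1 hτ)
      (Nat.lt_succ_self n)
  have e : (a : E) = ((a - algebraMap k _ c * lt τ β ^ n : LA k τ β) : E) +
      ((algebraMap k (LA k τ β) c * lt τ β ^ n : LA k τ β) : E) := by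
    rw [← AddMemClass.coe_add, sub_add_cancel]
  rw [e, Valuation.map_add_eq_of_lt_right _ (by rw [h2]; exact h1.trans_lt h3), h2]

theorem loc_res_zero {x : E} (hx : x ∈ w.V.nonunits) (h : x ∈ w.V) : w.res ⟨x, h⟩ = 0 := by
  apply w.res_zero
  have := (ValuationSubring.coe_mem_nonunits_iff (A := w.V) (a := ⟨x, h⟩)).1 hx
  rwa [IsLocalRing.mem_maximalIdeal] at this

include hτ hβ hv hv0 in
theorem loc_res {n : ℕ} {c : k} {a : LA k τ β}
    (ha : a - algebraMap k _ c * lt τ β ^ n ∈ lp τ β ^ (n + 1)) :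
    ∃ h : (a : E) / τ ^ n ∈ w.V, w.res ⟨_, h⟩ = algebraMap k Ω c := by
  have h1 := loc_pow_le w hτ hβ hv ha
  have hτ0 : τ ≠ 0 := (Valuation.ne_zero_iff _).1 hv0
  obtain ⟨e, he⟩ : ∃ e : E, e = ((a - algebraMap k _ c * lt τ β ^ n : LA k τ β) : E) := ⟨_, rfl⟩
  rw [← he] at h1
  have e1 : (a : E) = algebraMap k E c * τ ^ n + e := by
    rw [he]
    simp [lt]
  have h2 : e / τ ^ n ∈ w.V.nonunits := by
    rw [ValuationSubring.mem_nonunits_iff, map_div₀, map_pow]
    refine lt_of_le_of_lt ?_ ((ValuationSubring.mem_nonunits_iff _).1 hτ)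
    rw [div_le_iff₀ (pow_pos (zero_lt_iff.2 hv0) n), ← pow_succ']
    exact h1
  have h3 := w.V.nonunits_le h2
  have e2 : (a : E) / τ ^ n = algebraMap k E c + e / τ ^ n := by
    rw [e1]
    field_simp
  have h4 : (a : E) / τ ^ n ∈ w.V := by
    rw [e2]
    exact w.V.add_mem _ _ (w.mem c) h3
  refine ⟨h4, ?_⟩
  have e3 : (⟨(a : E) / τ ^ n, h4⟩ : w.V) = ⟨algebraMap k E c, w.mem c⟩ + ⟨e / τ ^ n, h3⟩ := by
    ext
    exact e2
  rw [e3, map_add, w.res_k, loc_res_zero w h2, add_zero]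

end val

section frame

variable {k E Ω : Type u} [Field k] [Field E] [Algebra k E] [Field Ω] [Algebra k Ω] {n r : ℕ}
  {f : Fin r → MvPolynomial (Fin n) k} {P Q u : Fin n → k} {τ : E} {β : Fin r → E}

/-- The affine coordinates relative to `P`. -/
noncomputable def ly (f : Fin r → MvPolynomial (Fin n) k) (P u : Fin n → k) (τ : E)
    (β : Fin r → E) (j : Fin n) : LA k τ β :=
  lt τ β * algebraMap k _ (u j) + ∑ i, lb τ β i * algebraMap k _ (gr f P i j)

theorem ly_mem (j : Fin n) : ly f P u τ β j ∈ lp τ β :=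
  (lp τ β).add_mem ((lp τ β).mul_mem_right _ (lt_mem k τ β))
    ((lp τ β).sum_mem fun i _ => (lp τ β).mul_mem_right _ (lb_mem k τ β i))

theorem ly_coe (j : Fin n) : ((ly f P u τ β j : LA k τ β) : E) =
    τ * algebraMap k E (u j) + ∑ i, β i * algebraMap k E (gr f P i j) := by
  simp [ly, lt, lb]

theorem ly_pt (j : Fin n) : pt f P u (1 : E) τ β j =
    algebraMap k E (P j) + ((ly f P u τ β j : LA k τ β) : E) := by
  rw [ly_coe]
  simp [pt, add_assoc]

/-- The scalar product of `ly` with a vector. -/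
theorem ly_dot (v : Fin n → k) : ∑ j, algebraMap k (LA k τ β) (v j) * ly f P u τ β j =
    algebraMap k _ (∑ j, v j * u j) * lt τ β +
      ∑ i, algebraMap k _ (∑ j, v j * gr f P i j) * lb τ β i := by
  simp only [ly, mul_add, Finset.sum_add_distrib, map_sum, map_mul, Finset.sum_mul,
    Finset.mul_sum]
  congr 1
  · exact Finset.sum_congr rfl fun j _ => by ring
  · rw [Finset.sum_comm]
    exact Finset.sum_congr rfl fun i _ => Finset.sum_congr rfl fun j _ => by ring

theorem ly_gr (H : Frame f P u) (hz : Zer f E (pt f P u 1 τ β)) (i : Fin r) :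
    ∑ j, algebraMap k (LA k τ β) (gr f P i j) * ly f P u τ β j ∈ lp τ β ^ 2 := by
  have h := loc_taylor (lp (k := k) τ β) P (ly f P u τ β) ly_mem (f i)
  have h1 : aeval P (f i) = 0 := H.zP i
  have h2 : aeval (fun j => algebraMap k (LA k τ β) (P j) + ly f P u τ β j) (f i) = 0 := by
    apply Subtype.val_injective
    have h3 : (LA k τ β).val (aeval (fun j => algebraMap k (LA k τ β) (P j) +
        ly f P u τ β j) (f i)) = aeval (pt f P u (1 : E) τ β) (f i) := by
      rw [comp_aeval_apply]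
      congr 2
      funext j
      rw [ly_pt]
      rfl
    have h4 : aeval (pt f P u (1 : E) τ β) (f i) = 0 := hz i
    rw [h4] at h3
    exact h3
  rw [h1, h2, map_zero, sub_zero, zero_sub, neg_mem_iff] at h
  exact h

theorem loc_sq (H : Frame f P u) (hz : Zer f E (pt f P u 1 τ β)) (i₀ : Fin r) :
    lb (k := k) τ β i₀ ∈ lp τ β ^ 2 := by
  classical
  let L : (Fin r → k) →ₗ[k] (Fin r → k) :=
    { toFun := fun c i => ∑ i', c i' * ∑ j, gr f P i j * gr f P i' j
      map_add' := by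
        intro x y
        funext i
        simp [add_mul, Finset.sum_add_distrib]
      map_smul' := by
        intro a x
        funext i
        simp [Finset.mul_sum, mul_assoc] }
  have hL : Function.Injective L := by
    rw [← LinearMap.ker_eq_bot, LinearMap.ker_eq_bot']
    intro c hc
    exact H.gram c fun i => congrFun hc i
  obtain ⟨c, hc⟩ := (LinearMap.injective_iff_surjective.1 hL) (Pi.single i₀ 1)
  have hc' : ∀ i', ∑ i, c i * ∑ j, gr f P i' j * gr f P i j =
      (Pi.single i₀ 1 : Fin r → k) i' := fun i' => congrFun hc i'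
  have h1 : ∀ i, ∑ i', algebraMap k (LA k τ β) (∑ j, gr f P i j * gr f P i' j) * lb τ β i' ∈
      lp τ β ^ 2 := by
    intro i
    have h := ly_gr H hz i
    rw [ly_dot, H.gu i, map_zero, zero_mul, zero_add] at h
    exact h
  have h2 : ∑ i, algebraMap k (LA k τ β) (c i) *
      ∑ i', algebraMap k (LA k τ β) (∑ j, gr f P i j * gr f P i' j) * lb τ β i' ∈
      lp τ β ^ 2 := (lp τ β ^ 2).sum_mem fun i _ => (lp τ β ^ 2).mul_mem_left _ (h1 i)
  have h3 : ∑ i, algebraMap k (LA k τ β) (c i) *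
      ∑ i', algebraMap k (LA k τ β) (∑ j, gr f P i j * gr f P i' j) * lb τ β i' =
      lb τ β i₀ := by
    simp only [Finset.mul_sum]
    rw [Finset.sum_comm]
    have : ∀ i', ∑ i, algebraMap k (LA k τ β) (c i) *
        (algebraMap k (LA k τ β) (∑ j, gr f P i j * gr f P i' j) * lb τ β i') =
        if i' = i₀ then lb τ β i' else 0 := by
      intro i'
      have e : ∑ i, algebraMap k (LA k τ β) (c i) *
          (algebraMap k (LA k τ β) (∑ j, gr f P i j * gr f P i' j) * lb τ β i') =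
          algebraMap k (LA k τ β) (∑ i, c i * ∑ j, gr f P i' j * gr f P i j) * lb τ β i' := by
        rw [map_sum, Finset.sum_mul]
        refine Finset.sum_congr rfl fun i _ => ?_
        have : ∑ j, gr f P i j * gr f P i' j = ∑ j, gr f P i' j * gr f P i j :=
          Finset.sum_congr rfl fun j _ => mul_comm _ _
        rw [map_mul, this]
        ring
      rw [e, hc' i', Pi.single_apply]
      split_ifs
      · rw [map_one, one_mul]
      · rw [map_zero, zero_mul]
    simp only [this, Finset.sum_ite_eq', Finset.mem_univ, if_true]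
  rwa [h3] at h2

theorem lp_ne_top (w : Place k E Ω)
    (hτ : τ ∈ w.V.nonunits) (hβ : ∀ i, β i ∈ w.V.nonunits)
    (hv : ∀ i, w.V.valuation (β i) ≤ w.V.valuation τ) : lp (k := k) τ β ≠ ⊤ := by
  intro h
  have h1 : (1 : LA k τ β) ∈ lp (k := k) τ β ^ 1 := by
    rw [h]
    simp
  have h2 := loc_pow_le w hτ hβ hv h1
  rw [pow_one, OneMemClass.coe_one, map_one] at h2
  exact absurd ((ValuationSubring.mem_nonunits_iff _).1 hτ) (not_lt.2 h2)

theorem loc_frac (hgen : IntermediateField.adjoin k (insert τ (Set.range β)) = ⊤) {x : E}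
    (hx : x ≠ 0) : ∃ a s : LA k τ β, a ≠ 0 ∧ s ≠ 0 ∧ x = (a : E) / (s : E) := by
  have h : x ∈ IntermediateField.adjoin k (insert τ (Set.range β)) := by
    rw [hgen]
    exact IntermediateField.mem_top
  obtain ⟨a, ha, s, hs, e⟩ := IntermediateField.mem_adjoin_iff_div.1 h
  refine ⟨⟨a, ha⟩, ⟨s, hs⟩, ?_, ?_, e⟩
  · intro h0
    have : a = 0 := congrArg Subtype.val h0
    exact hx (by rw [e, this, zero_div])
  · intro h0
    have : s = 0 := congrArg Subtype.val h0
    exact hx (by rw [e, this, div_zero])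

end frame

section frac

variable {k E Ω : Type u} [Field k] [Field E] [Algebra k E] [Field Ω] [Algebra k Ω] {r : ℕ}
  {τ : E} {β : Fin r → E} (w : Place k E Ω)
  (hτ : τ ∈ w.V.nonunits) (hβ : ∀ i, β i ∈ w.V.nonunits)
  (hv0 : w.V.valuation τ ≠ 0) (hv : ∀ i, w.V.valuation (β i) ≤ w.V.valuation τ)
  {a s : LA k τ β} {n m : ℕ} {c d : k} (hc : c ≠ 0) (hd : d ≠ 0)
  (ha : a - algebraMap k _ c * lt τ β ^ n ∈ lp τ β ^ (n + 1))
  (hs : s - algebraMap k _ d * lt τ β ^ m ∈ lp τ β ^ (m + 1))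

include hτ hβ hv0 hv hc hd ha hs in
theorem loc_mem_iff : (a : E) / (s : E) ∈ w.V ↔ m ≤ n := by
  rw [← ValuationSubring.valuation_le_one_iff, map_div₀, loc_val_eq w hτ hβ hv0 hv hc ha,
    loc_val_eq w hτ hβ hv0 hv hd hs, div_le_one₀ (pow_pos (zero_lt_iff.2 hv0) m)]
  exact pow_le_pow_iff_right_of_lt_one₀ (zero_lt_iff.2 hv0)
    ((ValuationSubring.mem_nonunits_iff _).1 hτ)

include hτ hβ hv0 hv hc hd ha hs in
theorem loc_nonunit_iff : (a : E) / (s : E) ∈ w.V.nonunits ↔ m < n := by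
  rw [ValuationSubring.mem_nonunits_iff, map_div₀, loc_val_eq w hτ hβ hv0 hv hc ha,
    loc_val_eq w hτ hβ hv0 hv hd hs, div_lt_one₀ (pow_pos (zero_lt_iff.2 hv0) m)]
  exact pow_lt_pow_iff_right_of_lt_one₀ (zero_lt_iff.2 hv0)
    ((ValuationSubring.mem_nonunits_iff _).1 hτ)

include hτ hβ hv0 hv hd ha hs in
theorem loc_res_frac (hmn : m ≤ n) (h : (a : E) / (s : E) ∈ w.V) :
    w.res ⟨_, h⟩ * algebraMap k Ω d = algebraMap k Ω c * 0 ^ (n - m) := by
  obtain ⟨h1, h2⟩ := loc_res w hτ hβ hv0 hv ha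
  obtain ⟨h3, h4⟩ := loc_res w hτ hβ hv0 hv hs
  have hτ0 : τ ≠ 0 := (Valuation.ne_zero_iff _).1 hv0
  have hs0 : (s : E) ≠ 0 := by
    rw [← Valuation.ne_zero_iff w.V.valuation, loc_val_eq w hτ hβ hv0 hv hd hs]
    exact pow_ne_zero _ hv0
  have hτ' := w.V.nonunits_le hτ
  have e : (⟨(a : E) / s, h⟩ : w.V) * ⟨(s : E) / τ ^ m, h3⟩ =
      ⟨(a : E) / τ ^ n, h1⟩ * ⟨τ, hτ'⟩ ^ (n - m) := by
    ext
    simp only [MulMemClass.coe_mul, SubmonoidClass.coe_pow]
    obtain ⟨l, rfl⟩ := Nat.exists_eq_add_of_le hmn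
    rw [Nat.add_sub_cancel_left, pow_add]
    field_simp
  have e1 := congrArg w.res e
  rw [map_mul, map_mul, map_pow, h2, h4, loc_res_zero w hτ] at e1
  exact e1

end frac

variable {k E Ω : Type u} [Field k] [Field E] [Algebra k E] [Field Ω] [Algebra k Ω] {n r : ℕ}
  {f : Fin r → MvPolynomial (Fin n) k} {P Q u : Fin n → k}

theorem place_unique (H : Frame f P u) {τ : E} {β : Fin r → E} (hz : Zer f E (pt f P u 1 τ β))
    (hgen : IntermediateField.adjoin k (insert τ (Set.range β)) = ⊤) (w w' : Place k E Ω)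
    (hτ : τ ∈ w.V.nonunits) (hβ : ∀ i, β i ∈ w.V.nonunits)
    (hτ' : τ ∈ w'.V.nonunits) (hβ' : ∀ i, β i ∈ w'.V.nonunits) : w' = w := by
  have hb := loc_sq H hz
  obtain ⟨hv0, hv⟩ := loc_unif w hgen hb hτ hβ
  obtain ⟨hv0', hv'⟩ := loc_unif w' hgen hb hτ' hβ'
  have hne := lp_ne_top w hτ hβ hv
  have hV : w'.V = w.V := by
    apply ValuationSubring.ext
    intro x
    by_cases hx : x = 0
    · rw [hx]
      exact iff_of_true (zero_mem _) (zero_mem _)
    obtain ⟨a, s, ha, hs, rfl⟩ := loc_frac hgen hx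
    obtain ⟨i, c, hc, hac⟩ := loc_order hb hne ha
    obtain ⟨j, d, hd, hsd⟩ := loc_order hb hne hs
    rw [loc_mem_iff w' hτ' hβ' hv0' hv' hc hd hac hsd, loc_mem_iff w hτ hβ hv0 hv hc hd hac hsd]
  refine Place.ext' hV fun x h h' => ?_
  by_cases hx : x = 0
  · subst hx
    have e1 : (⟨0, h⟩ : w'.V) = 0 := rfl
    have e2 : (⟨0, h'⟩ : w.V) = 0 := rfl
    rw [e1, e2, map_zero, map_zero]
  obtain ⟨a, s, ha, hs, rfl⟩ := loc_frac hgen hx
  obtain ⟨i, c, hc, hac⟩ := loc_order hb hne ha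
  obtain ⟨j, d, hd, hsd⟩ := loc_order hb hne hs
  have hji := (loc_mem_iff w hτ hβ hv0 hv hc hd hac hsd).1 h'
  have e1 := loc_res_frac w' hτ' hβ' hv0' hv' hd hac hsd hji h
  have e2 := loc_res_frac w hτ hβ hv0 hv hd hac hsd hji h'
  have hd' : algebraMap k Ω d ≠ 0 := (map_ne_zero _).2 hd
  exact mul_right_cancel₀ hd' (e1.trans e2.symm)

theorem ord_one (H : Pair f P Q u) {τ : E} {β : Fin r → E} (hz : Zer f E (pt f P u 1 τ β))
    (hgen : IntermediateField.adjoin k (insert τ (Set.range β)) = ⊤) (w : Place k E Ω)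
    (hτ : τ ∈ w.V.nonunits) (hβ : ∀ i, β i ∈ w.V.nonunits) :
    w.IsOrd (sph P Q 1 (pt f P u 1 τ β)) 1 := by
  have hF := H.toFrame
  have hb := loc_sq hF hz
  obtain ⟨hv0, hv⟩ := loc_unif w hgen hb hτ hβ
  have hne := lp_ne_top w hτ hβ hv
  have hτ0 : τ ≠ 0 := (Valuation.ne_zero_iff _).1 hv0
  obtain ⟨q, hQ⟩ := H.Q_eq
  -- the function in the ring
  obtain ⟨g, hg⟩ : ∃ g : LA k τ β, g = ∑ j, ly f P u τ β j * (ly f P u τ β j -
    algebraMap k _ (u j) - ∑ i, algebraMap k _ (q i) * algebraMap k _ (gr f P i j)) := ⟨_, rfl⟩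
  have hgE : sph P Q (1 : E) (pt f P u 1 τ β) = (g : E) := by
    rw [hg]
    simp only [sph, AddSubmonoidClass.coe_finsetSum, MulMemClass.coe_mul,
      AddSubgroupClass.coe_sub]
    refine Finset.sum_congr rfl fun j _ => ?_
    have e1 : pt f P u (1 : E) τ β j - 1 * algebraMap k E (P j) =
        ((ly f P u τ β j : LA k τ β) : E) := by
      rw [ly_pt]
      ring
    have e2 : algebraMap k E (Q j) = algebraMap k E (P j) + algebraMap k E (u j) +
        ∑ i, algebraMap k E (q i) * algebraMap k E (gr f P i j) := by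
      rw [hQ]
      simp [pt]
    have e3 : pt f P u (1 : E) τ β j - 1 * algebraMap k E (Q j) =
        ((ly f P u τ β j : LA k τ β) : E) - algebraMap k E (u j) -
          ∑ i, algebraMap k E (q i) * algebraMap k E (gr f P i j) := by
      rw [ly_pt, e2]
      ring
    rw [e1, e3]
    congr 1
  have hgo : g - algebraMap k _ (-(∑ j, u j * u j)) * lt τ β ^ 1 ∈ lp τ β ^ (1 + 1) := by
    have h1 : ∑ j, ly f P u τ β j * ly f P u τ β j ∈ lp (k := k) τ β ^ 2 :=
      (lp τ β ^ 2).sum_mem fun j _ => by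
        rw [pow_two]
        exact Ideal.mul_mem_mul (ly_mem j) (ly_mem j)
    have h2 : ∑ i, algebraMap k (LA k τ β) (q i) *
        ∑ j, algebraMap k (LA k τ β) (gr f P i j) * ly f P u τ β j ∈ lp (k := k) τ β ^ 2 :=
      (lp τ β ^ 2).sum_mem fun i _ => (lp τ β ^ 2).mul_mem_left _ (ly_gr hF hz i)
    have h3 := ly_dot (f := f) (P := P) (u := u) (τ := τ) (β := β) u
    have h4 : ∑ i, algebraMap k (LA k τ β) (∑ j, u j * gr f P i j) * lb τ β i = 0 := by
      refine Finset.sum_eq_zero fun i _ => ?_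
      have : ∑ j, u j * gr f P i j = 0 := by
        rw [← H.gu i]
        exact Finset.sum_congr rfl fun j _ => mul_comm _ _
      rw [this, map_zero, zero_mul]
    rw [h4, add_zero] at h3
    have e : g - algebraMap k _ (-(∑ j, u j * u j)) * lt τ β ^ 1 =
        ∑ j, ly f P u τ β j * ly f P u τ β j - ∑ i, algebraMap k (LA k τ β) (q i) *
          ∑ j, algebraMap k (LA k τ β) (gr f P i j) * ly f P u τ β j := by
      rw [map_neg, pow_one, neg_mul, sub_neg_eq_add, ← h3, hg]
      have e5 : ∑ i, algebraMap k (LA k τ β) (q i) *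
          ∑ j, algebraMap k (LA k τ β) (gr f P i j) * ly f P u τ β j =
          ∑ j, ly f P u τ β j * ∑ i, algebraMap k (LA k τ β) (q i) *
            algebraMap k (LA k τ β) (gr f P i j) := by
        simp only [Finset.mul_sum]
        rw [Finset.sum_comm]
        exact Finset.sum_congr rfl fun j _ => Finset.sum_congr rfl fun i _ => by ring
      rw [e5, ← Finset.sum_add_distrib, ← Finset.sum_sub_distrib]
      exact Finset.sum_congr rfl fun j _ => by ring
    rw [e]
    exact (lp τ β ^ 2).sub_mem h1 h2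
  have hc : -(∑ j, u j * u j) ≠ 0 := neg_ne_zero.2 H.uu
  have hvg := loc_val_eq w hτ hβ hv0 hv hc hgo
  rw [pow_one] at hvg
  have hg0 : (g : E) ≠ 0 := by
    rw [← Valuation.ne_zero_iff w.V.valuation, hvg]
    exact hv0
  rw [hgE]
  refine ⟨τ, (g : E) / τ, hτ0, ?_, ?_, ?_, div_ne_zero hg0 hτ0, ?_⟩
  · intro x
    by_cases hx : x = 0
    · rw [hx, zero_div]
      refine iff_of_true ?_ (zero_mem _)
      rw [ValuationSubring.mem_nonunits_iff, map_zero]
      exact zero_lt_one
    obtain ⟨a, s, ha, hs, rfl⟩ := loc_frac hgen hx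
    obtain ⟨i, c, hc, hac⟩ := loc_order hb hne ha
    obtain ⟨j, d, hd, hsd⟩ := loc_order hb hne hs
    rw [loc_nonunit_iff w hτ hβ hv0 hv hc hd hac hsd, ← ValuationSubring.valuation_le_one_iff,
      map_div₀, map_div₀, loc_val_eq w hτ hβ hv0 hv hc hac, loc_val_eq w hτ hβ hv0 hv hd hsd,
      div_div, ← pow_succ, div_le_one₀ (pow_pos (zero_lt_iff.2 hv0) _),
      pow_le_pow_iff_right_of_lt_one₀ (zero_lt_iff.2 hv0)
        ((ValuationSubring.mem_nonunits_iff _).1 hτ)]
    exact Nat.lt_iff_add_one_le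
  · rw [← ValuationSubring.valuation_le_one_iff, map_div₀, hvg, div_self hv0]
  · rw [← ValuationSubring.valuation_le_one_iff, map_inv₀, map_div₀, hvg, div_self hv0, inv_one]
  · rw [zpow_one]
    field_simp

end Ct
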