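import Pool.Agent.Lib.MP_f80667_ag.Ct.K

/-! # Division of the levels by `p` -/

set_option autoImplicit false

open PE Finset Polynomial

namespace CV

variable {K Ω : Type} [Field K] [CharZero K] [Field Ω] [Algebra K Ω] [IsAlgClosure K Ω]
  {A : Type} [AddCommGroup A] [DistribMulAction (Ω ≃ₐ[K] Ω) A]
  {W : Tw K Ω} {p e : ℕ} (X : Lp W p e A) {M : IntermediateField K Ω}

/-- Proof: `X.gen` at the level `r + e`: for a generator `Nm M M' (α x)`, `π ^ (r + e) ∣ x`, `x = p y` with `π ^ r ∣ y` (`hpu`),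
`α (p y) - p • α y` is in `D M' (2 r)` (`X.mul`), `2 r ≥ r + e + 1`; then `X.nmD`, `X.anti'`. The set of these `a` is the
subgroup `(X.D M r).map (p •) ⊔ X.D M (r + e + 1) ⊔ X.Nl M`. -/
theorem pdv (hpe : ∀ M, W.U M → W.π M ^ e ∣ (p : W.O M)) (hpu : ∀ M, W.U M → (p : W.O M) ∣ W.π M ^ e)
    (hM : W.U M) {r : ℕ} (hr : e + 1 ≤ r) {a : A} (ha : a ∈ X.D M (r + e)) :
    ∃ a' ∈ X.D M r, ∃ b ∈ X.D M (r + e + 1), ∃ c ∈ X.Nl M, a = p • a' + b + c := by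
  have := W.fd hM
  have h : X.D M (r + e) ≤
      (X.D M r).map (nsmulAddMonoidHom p) ⊔ X.D M (r + e + 1) ⊔ X.Nl M := by
    refine (X.gen hM (show r + e ≠ 0 by omega)).trans (sup_le ?_ le_sup_right)
    rw [AddSubgroup.closure_le]
    rintro a ⟨M', hM', α, hα, x, hx, rfl⟩
    have hU' := W.up hM hM'
    have := W.fd hU'
    have hle := W.le hM'
    obtain ⟨z, rfl⟩ := hx
    obtain ⟨u, hu⟩ := hpu M' hU'
    have e1 : W.π M' ^ (r + e) * z = (p : W.O M') * (W.π M' ^ r * (u * z)) := by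
      rw [pow_add, hu]
      ring
    have h1 := X.chD hU' hα (show r ≠ 0 by omega) (dvd_mul_right (W.π M' ^ r) (u * z))
    have h2 := X.mul p hU' hα (show r ≠ 0 by omega) (dvd_mul_right (W.π M' ^ r) (u * z))
    have h3 := X.anti' hM (show r + e + 1 ≤ 2 * r by omega)
      (X.nmD hM hM' (show 2 * r ≠ 0 by omega) h2)
    have h4 := X.nmD hM hM' (show r ≠ 0 by omega) h1
    refine AddSubgroup.mem_sup_left ?_
    rw [AddSubgroup.mem_sup]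
    refine ⟨p • Nm M M' (α (W.π M' ^ r * (u * z))), ⟨_, h4, rfl⟩, _, h3, ?_⟩
    rw [e1, ← nm_nsmul hle, ← nm_add hle, add_sub_cancel]
  obtain ⟨y, hy, c, hc, rfl⟩ := AddSubgroup.mem_sup.1 (h ha)
  obtain ⟨_, ⟨a', ha', rfl⟩, b, hb, rfl⟩ := AddSubgroup.mem_sup.1 hy
  exact ⟨a', ha', b, hb, c, hc, rfl⟩

/-- Proof: induction on `t - (r + e)` with `pdv`. -/
theorem pdv_t (hpe : ∀ M, W.U M → W.π M ^ e ∣ (p : W.O M)) (hpu : ∀ M, W.U M → (p : W.O M) ∣ W.π M ^ e)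
    (hM : W.U M) {r : ℕ} (hr : e + 1 ≤ r) (t : ℕ) {a : A} (ha : a ∈ X.D M (r + e)) :
    ∃ a' ∈ X.D M r, ∃ b ∈ X.D M t, ∃ c ∈ X.Nl M, a = p • a' + b + c := by
  have h : ∀ (k r : ℕ), e + 1 ≤ r → ∀ a ∈ X.D M (r + e),
      ∃ a' ∈ X.D M r, ∃ b ∈ X.D M (r + e + k), ∃ c ∈ X.Nl M, a = p • a' + b + c := by
    intro k
    induction k with
    | zero =>
      intro r _ a ha
      exact ⟨0, (X.D M r).zero_mem, a, ha, 0, (X.Nl M).zero_mem, by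
        rw [smul_zero, zero_add, add_zero]⟩
    | succ k ih =>
      intro r hr a ha
      obtain ⟨a₁, ha₁, b₁, hb₁, c₁, hc₁, rfl⟩ := pdv X hpe hpu hM hr ha
      rw [show r + e + 1 = r + 1 + e by omega] at hb₁
      obtain ⟨a₂, ha₂, b₂, hb₂, c₂, hc₂, rfl⟩ := ih (r + 1) (by omega) b₁ hb₁
      refine ⟨a₁ + a₂, (X.D M r).add_mem ha₁ (X.anti hM ha₂), b₂,
        X.anti' hM (by omega) hb₂, c₂ + c₁, (X.Nl M).add_mem hc₂ hc₁, ?_⟩
      rw [smul_add]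
      abel
  obtain ⟨a', ha', b, hb, c, hc, rfl⟩ := h t r hr a ha
  exact ⟨a', ha', b, X.anti' hM (by omega) hb, c, hc, rfl⟩

/-- Proof: induction on `k` with `pdv_t` (for `k + 1`: `a = p • a₁ + b₁ + c₁`, `a₁` of level `r + k e`). -/
theorem pdv_k (hpe : ∀ M, W.U M → W.π M ^ e ∣ (p : W.O M)) (hpu : ∀ M, W.U M → (p : W.O M) ∣ W.π M ^ e)
    (hM : W.U M) {r : ℕ} (hr : e + 1 ≤ r) (t k : ℕ) {a : A} (ha : a ∈ X.D M (r + k * e)) :
    ∃ a' ∈ X.D M r, ∃ b ∈ X.D M t, ∃ c ∈ X.Nl M, a = p ^ k • a' + b + c := by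
  induction k generalizing a with
  | zero =>
    rw [zero_mul, add_zero] at ha
    exact ⟨a, ha, 0, (X.D M t).zero_mem, 0, (X.Nl M).zero_mem, by
      rw [pow_zero, one_smul, add_zero, add_zero]⟩
  | succ k ih =>
    rw [add_mul, one_mul, ← add_assoc] at ha
    obtain ⟨a₁, ha₁, b₁, hb₁, c₁, hc₁, rfl⟩ :=
      pdv_t X hpe hpu hM (show e + 1 ≤ r + k * e by omega) t ha
    obtain ⟨a₂, ha₂, b₂, hb₂, c₂, hc₂, rfl⟩ := ih ha₁
    refine ⟨a₂, ha₂, p • b₂ + b₁, (X.D M t).add_mem ((X.D M t).nsmul_mem hb₂ p) hb₁,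
      p • c₂ + c₁, (X.Nl M).add_mem ((X.Nl M).nsmul_mem hc₂ p) hc₁, ?_⟩
    rw [smul_add, smul_add, smul_smul, ← pow_succ']
    abel

end CV
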