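import Pool.Agent.Lib.MP_f80667_ag.ZC.Tr

/-! A zero-cycle over a real closed field is a sum of real points modulo norms. -/

open MvPolynomial

namespace Ct

open ZC
open scoped LinearAlgebra.Projectivization

universe u

theorem mapPt_inj {K L : Type*} [Field K] [Field L] {n : ℕ} (φ : K →+* L) :
    Function.Injective (mapPt (n := n) φ) := by
  intro x y
  induction x using Projectivization.ind with
  | h v hv =>
    induction y using Projectivization.ind with
    | h w hw =>
      intro h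
      rw [ZCTr.mapPt_mk, ZCTr.mapPt_mk, Projectivization.mk_eq_mk_iff'] at h
      obtain ⟨a, ha⟩ := h
      rw [Projectivization.mk_eq_mk_iff']
      obtain ⟨j, hj⟩ := Function.ne_iff.1 hw
      have hj' : w j ≠ 0 := hj
      have h1 : ∀ i, a * φ (w i) = φ (v i) := fun i => congrFun ha i
      have h2 : a = φ (v j / w j) := by
        rw [map_div₀, eq_div_iff ((map_ne_zero φ).2 hj'), h1]
      refine ⟨v j / w j, ?_⟩
      funext i
      have h3 := h1 i
      rw [h2, ← map_mul] at h3
      exact φ.injective h3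

section

variable {k Ω : Type u} [Field k] [CharZero k] [Field Ω] [Algebra k Ω] [IsAlgClosure k Ω]

include k in
theorem isGalois (h2 : Module.finrank k Ω = 2) : IsGalois k Ω := by
  have hfd : FiniteDimensional k Ω := Module.finite_of_finrank_pos (by omega)
  have hac : IsAlgClosed Ω := IsAlgClosure.isAlgClosed k
  exact IsGalois.mk

theorem card_aut (h2 : Module.finrank k Ω = 2) : Nat.card (Ω ≃ₐ[k] Ω) = 2 := by
  have hfd : FiniteDimensional k Ω := Module.finite_of_finrank_pos (by omega)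
  have := isGalois h2
  rw [IsGalois.card_aut_eq_finrank, h2]

theorem exists_conj (h2 : Module.finrank k Ω = 2) :
    ∃ s : Ω ≃ₐ[k] Ω, s ≠ 1 ∧ ∀ t : Ω ≃ₐ[k] Ω, t = 1 ∨ t = s := by
  have hfd : FiniteDimensional k Ω := Module.finite_of_finrank_pos (by omega)
  have h1 := card_aut h2
  obtain ⟨x, y, hxy, h⟩ := Nat.card_eq_two_iff.1 h1
  have h3 : ∀ t : Ω ≃ₐ[k] Ω, t = x ∨ t = y := by
    intro t
    have h4 : t ∈ ({x, y} : Set (Ω ≃ₐ[k] Ω)) := by rw [h]; trivial
    simpa using h4
  rcases h3 1 with h5 | h5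
  · refine ⟨y, ?_, ?_⟩
    · rw [h5]
      exact fun h6 => hxy h6.symm
    · rw [h5]
      exact h3
  · refine ⟨x, ?_, ?_⟩
    · rw [h5]
      exact hxy
    · rw [h5]
      exact fun t => (h3 t).symm

variable {n : ℕ} {s : Ω ≃ₐ[k] Ω}

omit [CharZero k] [IsAlgClosure k Ω] in
theorem norm_eq (h2 : Module.finrank k Ω = 2) (hs : s ≠ 1)
    (hs' : ∀ t : Ω ≃ₐ[k] Ω, t = 1 ∨ t = s) (y : ℙ Ω (Fin n → Ω)) :
    ∑ᶠ σ : Ω ≃ₐ[k] Ω, Finsupp.single (mapPt (σ : Ω →+* Ω) y) (1 : ℤ) =
      Finsupp.single y 1 + Finsupp.single (mapPt (s : Ω →+* Ω) y) 1 := by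
  classical
  have hfd : FiniteDimensional k Ω := Module.finite_of_finrank_pos (by omega)
  rw [finsum_eq_sum_of_fintype]
  have h1 : (Finset.univ : Finset (Ω ≃ₐ[k] Ω)) = {1, s} := by
    ext t
    simpa using hs' t
  rw [h1, Finset.sum_insert (by simpa using hs.symm), Finset.sum_singleton]
  congr 2
  have h3 : ((1 : Ω ≃ₐ[k] Ω) : Ω →+* Ω) = RingHom.id Ω := rfl
  rw [h3, ZCTr.mapPt_id]

omit [CharZero k] [IsAlgClosure k Ω] in
theorem mapPt_alg (t : Ω ≃ₐ[k] Ω) (x : ℙ k (Fin n → k)) :
    mapPt (t : Ω →+* Ω) (mapPt (algebraMap k Ω) x) = mapPt (algebraMap k Ω) x := by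
  rw [ZCTr.mapPt_comp]
  congr 1
  ext a
  simp

theorem fix_real (h2 : Module.finrank k Ω = 2) (hs' : ∀ t : Ω ≃ₐ[k] Ω, t = 1 ∨ t = s)
    (y : ℙ Ω (Fin n → Ω)) (hy : mapPt (s : Ω →+* Ω) y = y) :
    ∃ x : ℙ k (Fin n → k), mapPt (algebraMap k Ω) x = y := by
  have hfd : FiniteDimensional k Ω := Module.finite_of_finrank_pos (by omega)
  have hgal := isGalois (k := k) (Ω := Ω) h2
  induction y using Projectivization.ind with
  | h v hv =>
    obtain ⟨j, hj⟩ := Function.ne_iff.1 hv
    have hj' : v j ≠ 0 := hj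
    rw [ZCTr.mapPt_mk, Projectivization.mk_eq_mk_iff'] at hy
    obtain ⟨a, ha⟩ := hy
    have h1 : ∀ i, a * v i = s (v i) := fun i => congrFun ha i
    have hfix : ∀ i, s (v i / v j) = v i / v j := by
      intro i
      rw [map_div₀, ← h1, ← h1]
      have ha0 : a ≠ 0 := by
        intro h
        have h3 := h1 j
        rw [h, zero_mul] at h3
        exact hj' ((map_eq_zero s).1 h3.symm)
      rw [mul_div_mul_left _ _ ha0]
    have hc : ∀ i, ∃ c : k, algebraMap k Ω c = v i / v j := by
      intro i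
      have h4 : v i / v j ∈ (⊥ : IntermediateField k Ω) := by
        rw [IsGalois.mem_bot_iff_fixed]
        intro t
        rcases hs' t with h | h
        · rw [h]
          rfl
        · rw [h]
          exact hfix i
      exact IntermediateField.mem_bot.1 h4
    choose c hc using hc
    have hc0 : c ≠ 0 := by
      intro h
      have h5 := hc j
      rw [h, Pi.zero_apply, map_zero, div_self hj'] at h5
      exact zero_ne_one h5
    refine ⟨Projectivization.mk k c hc0, ?_⟩
    rw [ZCTr.mapPt_mk, Projectivization.mk_eq_mk_iff']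
    refine ⟨(v j)⁻¹, ?_⟩
    funext i
    rw [Pi.smul_apply, smul_eq_mul, hc, div_eq_inv_mul]

end

theorem zer_of_mapPt {k Ω : Type u} [Field k] [Field Ω] [Algebra k Ω] {n : ℕ} {ι : Type}
    {f : ι → MvPolynomial (Fin n) k} (hf : ∀ i, ∃ d, (f i).IsHomogeneous d)
    (x : ℙ k (Fin n → k)) (hx : Zer f Ω (mapPt (algebraMap k Ω) x).rep) : Zer f k x.rep := by
  obtain ⟨a, ha⟩ := Projectivization.exists_smul_eq_mk_rep Ω
    (fun i => algebraMap k Ω (x.rep i)) (comp_ne (algebraMap k Ω) x.rep_nonzero)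
  have h1 : (mapPt (algebraMap k Ω) x).rep = (a : Ω) • fun i => algebraMap k Ω (x.rep i) :=
    ha.symm
  have h2 : Zer f Ω (fun i => algebraMap k Ω (x.rep i)) := by
    have h3 := ZCTr.zer_smul hf (a : Ω)⁻¹ hx
    rwa [h1, smul_smul, inv_mul_cancel₀ a.ne_zero, one_smul] at h3
  intro i
  have h4 := h2 i
  have h5 : aeval (fun i => algebraMap k Ω (x.rep i)) (f i) =
      Algebra.ofId k Ω (aeval x.rep (f i)) := by
    rw [MvPolynomial.comp_aeval_apply]
    rfl
  rw [h5] at h4
  exact (algebraMap k Ω).injective (h4.trans (map_zero _).symm)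

theorem two_norm {k Ω : Type u} [Field k] [CharZero k] [Field Ω] [Algebra k Ω]
    [IsAlgClosure k Ω] {n : ℕ} {ι : Type} {f : ι → MvPolynomial (Fin n) k}
    (hf : ∀ i, ∃ d, (f i).IsHomogeneous d) (h2 : Module.finrank k Ω = 2)
    (x : ℙ k (Fin n → k)) (hx : Zer f k x.rep) :
    Finsupp.single (mapPt (algebraMap k Ω) x) 2 ∈ normCyc Ω f := by
  obtain ⟨s, hs, hs'⟩ := exists_conj (k := k) (Ω := Ω) h2
  refine AddSubgroup.subset_closure ⟨mapPt (algebraMap k Ω) x,
    ZCTr.zer_mapPt hf (Algebra.ofId k Ω) hx, ?_⟩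
  rw [norm_eq h2 hs hs', mapPt_alg, ← Finsupp.single_add]
  norm_num

/-- A zero-cycle without real points is a sum of norms. -/
theorem norm_of_no_real {k Ω : Type u} [Field k] [CharZero k] [Field Ω] [Algebra k Ω]
    [IsAlgClosure k Ω] {n : ℕ} {ι : Type} {f : ι → MvPolynomial (Fin n) k}
    (h2 : Module.finrank k Ω = 2) {s : Ω ≃ₐ[k] Ω} (hs : s ≠ 1)
    (hs' : ∀ t : Ω ≃ₐ[k] Ω, t = 1 ∨ t = s) (N : ℕ) (z : ℙ Ω (Fin n → Ω) →₀ ℤ)
    (hN : z.support.card ≤ N) (hz : ∀ x ∈ z.support, Zer f Ω x.rep)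
    (hinv : ∀ x, z (mapPt (s : Ω →+* Ω) x) = z x)
    (hre : ∀ x : ℙ k (Fin n → k), z (mapPt (algebraMap k Ω) x) = 0) :
    z ∈ normCyc Ω f ∧ Even (deg Ω z) := by
  classical
  induction N generalizing z with
  | zero =>
    have h1 : z = 0 := by
      rw [← Finsupp.support_eq_empty, ← Finset.card_eq_zero]
      omega
    rw [h1]
    exact ⟨zero_mem _, by simp⟩
  | succ N ih =>
    by_cases hz0 : z = 0
    · rw [hz0]
      exact ⟨zero_mem _, by simp⟩
    obtain ⟨y, hy⟩ : z.support.Nonempty := Finsupp.support_nonempty_iff.2 hz0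
    have hyz : z y ≠ 0 := Finsupp.mem_support_iff.1 hy
    have hne : mapPt (s : Ω →+* Ω) y ≠ y := by
      intro h
      obtain ⟨x, rfl⟩ := fix_real h2 hs' y h
      exact hyz (hre x)
    have hss : ∀ x : ℙ Ω (Fin n → Ω), mapPt (s : Ω →+* Ω) (mapPt (s : Ω →+* Ω) x) = x := by
      intro x
      rw [ZCTr.mapPt_comp]
      have h3 : s * s = 1 := by
        rcases hs' (s * s) with h | h
        · exact h
        · exact absurd (mul_eq_left.1 h) hs
      have h4 : (s : Ω →+* Ω).comp (s : Ω →+* Ω) = RingHom.id Ω := by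
        ext a
        exact congrArg (fun t : Ω ≃ₐ[k] Ω => t a) h3
      rw [h4, ZCTr.mapPt_id]
    set g : ℙ Ω (Fin n → Ω) →₀ ℤ :=
      Finsupp.single y 1 + Finsupp.single (mapPt (s : Ω →+* Ω) y) 1 with hg
    have hgn : g ∈ normCyc Ω f :=
      AddSubgroup.subset_closure ⟨y, hz y hy, (norm_eq h2 hs hs' y).symm⟩
    have hgd : deg Ω g = 2 := by
      rw [hg, map_add]
      simp [deg]
    have hgy : g y = 1 := by
      rw [hg, Finsupp.add_apply, Finsupp.single_eq_same, Finsupp.single_apply, if_neg hne]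
      norm_num
    have hg0 : ∀ x, z x = 0 → g x = 0 := by
      intro x hx
      rw [hg, Finsupp.add_apply, Finsupp.single_apply, Finsupp.single_apply, if_neg, if_neg]
      · norm_num
      · intro h
        rw [← h, hinv] at hx
        exact hyz hx
      · intro h
        rw [← h] at hx
        exact hyz hx
    have hginv : ∀ x, g (mapPt (s : Ω →+* Ω) x) = g x := by
      intro x
      have h5 : (y = mapPt (s : Ω →+* Ω) x) ↔ (mapPt (s : Ω →+* Ω) y = x) := by
        constructor
        · intro h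
          rw [h, hss]
        · intro h
          rw [← h, hss]
      have h6 : (mapPt (s : Ω →+* Ω) y = mapPt (s : Ω →+* Ω) x) ↔ (y = x) :=
        ⟨fun h => by rw [← hss y, h, hss], fun h => by rw [h]⟩
      rw [hg, Finsupp.add_apply, Finsupp.add_apply, Finsupp.single_apply, Finsupp.single_apply,
        Finsupp.single_apply, Finsupp.single_apply, if_congr h5 rfl rfl, if_congr h6 rfl rfl,
        add_comm]
    have h7 := ih (z - z y • g) ?_ ?_ ?_ ?_
    · have h8 : z = (z - z y • g) + z y • g := by abel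
      refine ⟨?_, ?_⟩
      · rw [h8]
        exact add_mem h7.1 (zsmul_mem hgn _)
      · rw [h8, map_add, map_zsmul, hgd]
        exact h7.2.add (by rw [smul_eq_mul]; exact (even_two).mul_left _)
    · have h9 : (z - z y • g).support ⊆ z.support.erase y := by
        intro x hx
        rw [Finsupp.mem_support_iff] at hx
        rw [Finset.mem_erase, Finsupp.mem_support_iff]
        constructor
        · rintro rfl
          apply hx
          rw [Finsupp.sub_apply, Finsupp.smul_apply, hgy]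
          simp
        · intro h
          apply hx
          rw [Finsupp.sub_apply, Finsupp.smul_apply, hg0 x h, h]
          simp
      have h10 := Finset.card_le_card h9
      rw [Finset.card_erase_of_mem hy] at h10
      omega
    · intro x hx
      refine hz x ?_
      rw [Finsupp.mem_support_iff] at hx ⊢
      intro h
      apply hx
      rw [Finsupp.sub_apply, Finsupp.smul_apply, hg0 x h, h]
      simp
    · intro x
      rw [Finsupp.sub_apply, Finsupp.smul_apply, Finsupp.sub_apply, Finsupp.smul_apply, hginv,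
        hinv]
    · intro x
      rw [Finsupp.sub_apply, Finsupp.smul_apply, hg0 _ (hre x), hre x]
      simp

theorem real_part {k Ω : Type u} [Field k] [CharZero k] [Field Ω] [Algebra k Ω]
    [IsAlgClosure k Ω] {n : ℕ} {ι : Type} {f : ι → MvPolynomial (Fin n) k}
    (hf : ∀ i, ∃ d, (f i).IsHomogeneous d) (h2 : Module.finrank k Ω = 2)
    {z : ℙ Ω (Fin n → Ω) →₀ ℤ} (hz : z ∈ cyc Ω f) :
    ∃ S : Finset (ℙ k (Fin n → k)),
      (∀ x : ℙ k (Fin n → k), x ∈ S ↔ z (mapPt (algebraMap k Ω) x) ≠ 0) ∧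
      (∀ x ∈ S, Zer f k x.rep) ∧
      z - ∑ x ∈ S, Finsupp.single (mapPt (algebraMap k Ω) x) (z (mapPt (algebraMap k Ω) x)) ∈
        normCyc Ω f ∧
      Even (deg Ω z - ∑ x ∈ S, z (mapPt (algebraMap k Ω) x)) := by
  classical
  obtain ⟨s, hs, hs'⟩ := exists_conj (k := k) (Ω := Ω) h2
  have hinj : Function.Injective (mapPt (n := n) (algebraMap k Ω)) := mapPt_inj _
  set S : Finset (ℙ k (Fin n → k)) :=
    z.support.preimage (mapPt (algebraMap k Ω)) hinj.injOn with hS
  have hmem : ∀ x : ℙ k (Fin n → k), x ∈ S ↔ z (mapPt (algebraMap k Ω) x) ≠ 0 := by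
    intro x
    rw [hS, Finset.mem_preimage, Finsupp.mem_support_iff]
  set q : ℙ Ω (Fin n → Ω) →₀ ℤ := ∑ x ∈ S, Finsupp.single (mapPt (algebraMap k Ω) x)
    (z (mapPt (algebraMap k Ω) x)) with hq
  have hqa : ∀ y, q y = ∑ x ∈ S, if mapPt (algebraMap k Ω) x = y then
      z (mapPt (algebraMap k Ω) x) else 0 := by
    intro y
    rw [hq, Finsupp.finsetSum_apply]
    refine Finset.sum_congr rfl fun x _ => ?_
    rw [Finsupp.single_apply]
  have hqr : ∀ x : ℙ k (Fin n → k), q (mapPt (algebraMap k Ω) x) =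
      z (mapPt (algebraMap k Ω) x) := by
    intro x
    rw [hqa]
    by_cases hx : x ∈ S
    · rw [Finset.sum_eq_single x]
      · rw [if_pos rfl]
      · intro b _ hb
        rw [if_neg fun h => hb (hinj h)]
      · intro h
        exact absurd hx h
    · have h3 : z (mapPt (algebraMap k Ω) x) = 0 := by
        by_contra h
        exact hx ((hmem x).2 h)
      rw [h3]
      refine Finset.sum_eq_zero fun b hb => ?_
      rw [if_neg]
      intro h
      have h4 := (hmem b).1 hb
      rw [h] at h4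
      exact h4 h3
  have hq0 : ∀ y, z y = 0 → q y = 0 := by
    intro y hy
    rw [hqa]
    refine Finset.sum_eq_zero fun b _ => ?_
    by_cases h : mapPt (algebraMap k Ω) b = y
    · rw [if_pos h, h, hy]
    · rw [if_neg h]
  have hqi : ∀ y, q (mapPt (s : Ω →+* Ω) y) = q y := by
    intro y
    rw [hqa, hqa]
    refine Finset.sum_congr rfl fun x _ => ?_
    have h5 : (mapPt (algebraMap k Ω) x = mapPt (s : Ω →+* Ω) y) ↔
        (mapPt (algebraMap k Ω) x = y) := by
      rw [← mapPt_alg s x]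
      constructor
      · intro h
        have h6 := mapPt_inj _ h
        rw [mapPt_alg]
        exact h6
      · intro h
        rw [mapPt_alg] at h
        rw [h]
    rw [if_congr h5 rfl rfl]
  have hmain := norm_of_no_real (f := f) h2 hs hs' _ (z - q) le_rfl ?_ ?_ ?_
  · refine ⟨S, hmem, ?_, hmain.1, ?_⟩
    · intro x hx
      refine zer_of_mapPt (Ω := Ω) hf x (hz.1 _ ?_)
      rw [Finsupp.mem_support_iff]
      exact (hmem x).1 hx
    · have h7 : deg Ω z - ∑ x ∈ S, z (mapPt (algebraMap k Ω) x) = deg Ω (z - q) := by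
        rw [map_sub, hq, map_sum]
        congr 1
        refine Finset.sum_congr rfl fun x _ => ?_
        simp [deg]
      rw [h7]
      exact hmain.2
  · intro y hy
    refine hz.1 y ?_
    rw [Finsupp.mem_support_iff] at hy ⊢
    intro h
    apply hy
    rw [Finsupp.sub_apply, hq0 y h, h, sub_zero]
  · intro y
    rw [Finsupp.sub_apply, Finsupp.sub_apply, hqi, hz.2 s y]
  · intro x
    rw [Finsupp.sub_apply, hqr, sub_self]

end Ct
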