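import Pool.Agent.Lib.MP_f80667_ag.Ct.Loc
import Pool.Agent.Lib.MP_f80667_ag.Ct.Div

/-! The divisor of the sphere on the curve: the real points other than `P`, `Q` occur with even
multiplicity and `P` occurs with multiplicity `1`. -/

open MvPolynomial

namespace Ct

open ZC
open scoped LinearAlgebra.Projectivization

universe u

section aux

variable {k E Ω : Type u} [Field k] [Field E] [Algebra k E] [Field Ω] [Algebra k Ω] {n r : ℕ}
  {f : Fin r → MvPolynomial (Fin n) k} {P Q u : Fin n → k}

/-- Algebraic elements are in all valuation rings over `k`. -/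
theorem par_alg (w : Place k E Ω) {a : E} (ha : IsAlgebraic k a) : a ∈ w.V := by
  obtain ⟨p, hp, hy⟩ := isAlgebraic_iff_isIntegral.1 ha
  let φ : k →+* w.V := (algebraMap k E).codRestrict w.V.toSubring w.mem
  have h1 : IsIntegral w.V a := by
    refine ⟨p.map φ, hp.map φ, ?_⟩
    rw [Polynomial.eval₂_map]
    exact hy
  obtain ⟨z, hz⟩ := IsIntegrallyClosed.isIntegral_iff.1 h1
  rw [← hz]
  exact z.2

/-- `a` is in the valuation ring with residue `ρ`. -/
def ParR (w : Place k E Ω) (a : E) (ρ : Ω) : Prop := ∃ h : a ∈ w.V, w.res ⟨a, h⟩ = ρ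

theorem parR_k (w : Place k E Ω) (a : k) : ParR w (algebraMap k E a) (algebraMap k Ω a) :=
  ⟨w.mem a, w.res_k a⟩

theorem ParR.add {w : Place k E Ω} {a b : E} {ρ σ : Ω} (h : ParR w a ρ) (h' : ParR w b σ) :
    ParR w (a + b) (ρ + σ) := by
  obtain ⟨h1, rfl⟩ := h
  obtain ⟨h2, rfl⟩ := h'
  exact ⟨w.V.add_mem _ _ h1 h2, by rw [← map_add]; rfl⟩

theorem ParR.mul {w : Place k E Ω} {a b : E} {ρ σ : Ω} (h : ParR w a ρ) (h' : ParR w b σ) :
    ParR w (a * b) (ρ * σ) := by
  obtain ⟨h1, rfl⟩ := h
  obtain ⟨h2, rfl⟩ := h'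
  exact ⟨w.V.mul_mem _ _ h1 h2, by rw [← map_mul]; rfl⟩

theorem ParR.sum {w : Place k E Ω} {ι : Type*} (s : Finset ι) {a : ι → E} {ρ : ι → Ω}
    (h : ∀ i, ParR w (a i) (ρ i)) : ParR w (∑ i ∈ s, a i) (∑ i ∈ s, ρ i) := by
  classical
  induction s using Finset.induction_on with
  | empty =>
    have := parR_k w (0 : k)
    simpa using this
  | insert i s hi ih =>
    rw [Finset.sum_insert hi, Finset.sum_insert hi]
    exact (h i).add ih

theorem ParR.eq {w : Place k E Ω} {a b : E} {ρ σ : Ω} (h : ParR w a ρ) (h' : ParR w b σ)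
    (hab : a = b) : ρ = σ := by
  subst hab
  obtain ⟨h1, rfl⟩ := h
  obtain ⟨h2, rfl⟩ := h'
  rfl

theorem ParR.congr {w : Place k E Ω} {a b : E} {ρ σ : Ω} (h : ParR w a ρ) (hab : a = b)
    (hρ : ρ = σ) : ParR w b σ := by
  subst hab
  subst hρ
  exact h

theorem ParR.val {w : Place k E Ω} {a : E} {ρ : Ω} (h : ParR w a ρ) (hρ : ρ ≠ 0) :
    w.V.valuation a = 1 := by
  obtain ⟨h1, rfl⟩ := h
  by_contra hcon
  apply hρ
  refine w.res_zero _ fun hu => hcon ?_
  exact (w.V.valuation_eq_one_iff ⟨a, h1⟩).1 hu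

theorem ParR.nonunit {w : Place k E Ω} {a : E} (h : ParR w a 0) : a ∈ w.V.nonunits := by
  obtain ⟨h1, h2⟩ := h
  rw [ValuationSubring.mem_nonunits_iff]
  refine lt_of_le_of_ne ((w.V.valuation_le_one_iff a).2 h1) fun h3 => ?_
  have h4 : IsUnit (⟨a, h1⟩ : w.V) := (w.V.valuation_eq_one_iff ⟨a, h1⟩).2 h3
  exact (h4.map w.res).ne_zero h2

theorem parR_zero {w : Place k E Ω} {a : E} (h : a ∈ w.V.nonunits) : ParR w a 0 := by
  rw [ValuationSubring.mem_nonunits_iff] at h
  have h1 : a ∈ w.V := (w.V.valuation_le_one_iff a).1 h.le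
  refine ⟨h1, w.res_zero _ fun hu => ?_⟩
  exact h.ne ((w.V.valuation_eq_one_iff ⟨a, h1⟩).1 hu)

/-- The dot product with a vector of the linear space. -/
theorem pt_dot {R : Type*} [CommRing R] [Algebra k R] (s t : R) (b : Fin r → R)
    (v : Fin n → k) : ∑ j, pt f P u s t b j * algebraMap k R (v j) =
      s * algebraMap k R (∑ j, P j * v j) + t * algebraMap k R (∑ j, u j * v j) +
        ∑ i, b i * algebraMap k R (∑ j, gr f P i j * v j) := by
  have h1 : ∀ j, pt f P u s t b j * algebraMap k R (v j) =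
      s * algebraMap k R (P j * v j) + t * algebraMap k R (u j * v j) +
        ∑ i, b i * algebraMap k R (gr f P i j * v j) := by
    intro j
    unfold pt
    simp only [map_mul]
    rw [add_mul, add_mul, Finset.sum_mul]
    congr 1
    · ring
    · exact Finset.sum_congr rfl fun i _ => by ring
  rw [Finset.sum_congr rfl fun j _ => h1 j, Finset.sum_add_distrib, Finset.sum_add_distrib,
    ← Finset.mul_sum, ← Finset.mul_sum, ← map_sum, ← map_sum, Finset.sum_comm]
  congr 1
  exact Finset.sum_congr rfl fun i _ => by rw [← Finset.mul_sum, ← map_sum]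

/-- The coordinates of the value at a place. -/
theorem par_data (H : Frame f P u) {w : Place k E Ω} {τ : E} {β : Fin r → E} {c : E}
    {X : Fin n → k} {l : Ω} (hl : l ≠ 0)
    (hX : ∀ j, ParR w (c * pt f P u 1 τ β j) (l * algebraMap k Ω (X j))) :
    ∃ (s t : k) (b : Fin r → k), X = pt f P u s t b ∧ ParR w c (l * algebraMap k Ω s) ∧
      ParR w (c * τ) (l * algebraMap k Ω t) ∧
      (∀ i, ParR w (c * β i) (l * algebraMap k Ω (b i))) ∧
      s * ∑ j, P j * P j = ∑ j, X j * P j ∧ t * ∑ j, u j * u j = ∑ j, X j * u j ∧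
      ∀ i', ∑ i, b i * ∑ j, gr f P i j * gr f P i' j = ∑ j, X j * gr f P i' j := by
  classical
  have hPu' : ∑ j, u j * P j = 0 := by
    rw [← H.Pu]
    exact Finset.sum_congr rfl fun j _ => mul_comm _ _
  have hPg : ∀ i, ∑ j, P j * gr f P i j = 0 := fun i => by
    rw [← H.gP i]
    exact Finset.sum_congr rfl fun j _ => mul_comm _ _
  have hug : ∀ i, ∑ j, u j * gr f P i j = 0 := fun i => by
    rw [← H.gu i]
    exact Finset.sum_congr rfl fun j _ => mul_comm _ _
  -- dot products
  have dot : ∀ v : Fin n → k, ParR w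
      (c * (1 * algebraMap k E (∑ j, P j * v j) + τ * algebraMap k E (∑ j, u j * v j) +
        ∑ i, β i * algebraMap k E (∑ j, gr f P i j * v j)))
      (l * algebraMap k Ω (∑ j, X j * v j)) := by
    intro v
    refine (ParR.sum Finset.univ fun j => (hX j).mul (parR_k w (v j))).congr ?_ ?_
    · rw [← pt_dot, Finset.mul_sum]
      exact Finset.sum_congr rfl fun j _ => by ring
    · rw [map_sum, Finset.mul_sum]
      exact Finset.sum_congr rfl fun j _ => by rw [map_mul]; ring
  have inv : ∀ (a : E) (ρ : Ω) (d : k), d ≠ 0 → ParR w (a * algebraMap k E d) ρ →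
      ParR w a (ρ * algebraMap k Ω d⁻¹) := by
    intro a ρ d hd h
    refine (h.mul (parR_k w d⁻¹)).congr ?_ rfl
    rw [mul_assoc, ← map_mul, mul_inv_cancel₀ hd, map_one, mul_one]
  have hc : ParR w c (l * algebraMap k Ω ((∑ j, X j * P j) * (∑ j, P j * P j)⁻¹)) := by
    refine (inv c _ _ H.PP ((dot P).congr ?_ rfl)).congr rfl ?_
    · have hs : ∑ i, β i * algebraMap k E (∑ j, gr f P i j * P j) = 0 :=
        Finset.sum_eq_zero fun i _ => by rw [H.gP i, map_zero, mul_zero]
      rw [hPu', hs, map_zero, mul_zero, add_zero, add_zero, one_mul]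
    · rw [map_mul]
      ring
  have ht : ParR w (c * τ) (l * algebraMap k Ω ((∑ j, X j * u j) * (∑ j, u j * u j)⁻¹)) := by
    refine (inv (c * τ) _ _ H.uu ((dot u).congr ?_ rfl)).congr rfl ?_
    · have hs : ∑ i, β i * algebraMap k E (∑ j, gr f P i j * u j) = 0 :=
        Finset.sum_eq_zero fun i _ => by rw [H.gu i, map_zero, mul_zero]
      rw [H.Pu, hs, map_zero, mul_zero, zero_add, add_zero, mul_assoc]
    · rw [map_mul]
      ring
  -- the Gram matrix
  let G : Matrix (Fin r) (Fin r) k := fun i i' => ∑ j, gr f P i j * gr f P i' j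
  have hsym : ∀ i i', G i i' = G i' i := fun i i' =>
    Finset.sum_congr rfl fun j _ => mul_comm _ _
  have hG : IsUnit G := by
    rw [← Matrix.mulVec_injective_iff_isUnit]
    refine (injective_iff_map_eq_zero (Matrix.mulVecLin G)).2 fun a ha => H.gram a fun i => ?_
    have h1 := congrFun ha i
    rw [Matrix.mulVecLin_apply] at h1
    exact (Finset.sum_congr rfl fun i' _ => mul_comm _ _).trans h1
  have hGG : G * G⁻¹ = 1 := Matrix.mul_nonsing_inv G ((Matrix.isUnit_iff_isUnit_det G).1 hG)
  have hGG' : G⁻¹ * G = 1 := Matrix.nonsing_inv_mul G ((Matrix.isUnit_iff_isUnit_det G).1 hG)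
  have hg : ∀ i', ParR w (c * ∑ i, β i * algebraMap k E (G i i'))
      (l * algebraMap k Ω (∑ j, X j * gr f P i' j)) := by
    intro i'
    refine (dot (gr f P i')).congr ?_ rfl
    rw [hPg i', hug i', map_zero, mul_zero, mul_zero, add_zero, zero_add]
  have hb : ∀ i, ParR w (c * β i)
      (l * algebraMap k Ω (∑ i', (∑ j, X j * gr f P i' j) * G⁻¹ i' i)) := by
    intro i
    refine (ParR.sum Finset.univ fun i' => (hg i').mul (parR_k w (G⁻¹ i' i))).congr ?_ ?_
    · have h1 : ∀ i', (c * ∑ i'', β i'' * algebraMap k E (G i'' i')) *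
          algebraMap k E (G⁻¹ i' i) =
          ∑ i'', c * β i'' * algebraMap k E (G i'' i' * G⁻¹ i' i) := by
        intro i'
        rw [mul_assoc, Finset.sum_mul, Finset.mul_sum]
        exact Finset.sum_congr rfl fun i'' _ => by rw [map_mul]; ring
      rw [Finset.sum_congr rfl fun i' _ => h1 i', Finset.sum_comm]
      have h2 : ∀ i'', ∑ i', c * β i'' * algebraMap k E (G i'' i' * G⁻¹ i' i) =
          c * β i'' * algebraMap k E ((1 : Matrix (Fin r) (Fin r) k) i'' i) := by
        intro i''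
        rw [← Finset.mul_sum, ← map_sum, ← hGG, Matrix.mul_apply]
      rw [Finset.sum_congr rfl fun i'' _ => h2 i'', Finset.sum_eq_single i]
      · rw [Matrix.one_apply_eq, map_one, mul_one]
      · intro i'' _ hne
        rw [Matrix.one_apply_ne hne, map_zero, mul_zero]
      · intro h
        exact absurd (Finset.mem_univ i) h
    · rw [map_sum, Finset.mul_sum]
      exact Finset.sum_congr rfl fun i' _ => by rw [map_mul]; ring
  refine ⟨_, _, _, ?_, hc, ht, hb, ?_, ?_, ?_⟩
  · funext j
    have h1 : ParR w (c * pt f P u 1 τ β j)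
        (l * algebraMap k Ω (pt f P u ((∑ j, X j * P j) * (∑ j, P j * P j)⁻¹)
          ((∑ j, X j * u j) * (∑ j, u j * u j)⁻¹)
          (fun i => ∑ i', (∑ j, X j * gr f P i' j) * G⁻¹ i' i) j)) := by
      refine (((hc.mul (parR_k w (P j))).add (ht.mul (parR_k w (u j)))).add
        (ParR.sum Finset.univ fun i => (hb i).mul (parR_k w (gr f P i j)))).congr ?_ ?_
      · unfold pt
        rw [one_mul, mul_add, mul_add, Finset.mul_sum]
        congr 1
        · ring
        · exact Finset.sum_congr rfl fun i _ => by ring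
      · unfold pt
        simp only [Algebra.algebraMap_self, RingHom.id_apply]
        rw [map_add, map_add, map_mul _ _ (P j), map_mul _ _ (u j), map_sum, mul_add, mul_add,
          Finset.mul_sum]
        congr 1
        · ring
        · exact Finset.sum_congr rfl fun i _ => by rw [map_mul]; ring
    exact (algebraMap k Ω).injective (mul_left_cancel₀ hl ((hX j).eq h1 rfl))
  · rw [mul_assoc, inv_mul_cancel₀ H.PP, mul_one]
  · rw [mul_assoc, inv_mul_cancel₀ H.uu, mul_one]
  · intro i'
    change ∑ i, (∑ i'', (∑ j, X j * gr f P i'' j) * G⁻¹ i'' i) * G i i' = _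
    have h1 : ∀ i, (∑ i'', (∑ j, X j * gr f P i'' j) * G⁻¹ i'' i) * G i i' =
        ∑ i'', (∑ j, X j * gr f P i'' j) * (G⁻¹ i'' i * G i i') := by
      intro i
      rw [Finset.sum_mul]
      exact Finset.sum_congr rfl fun i'' _ => by ring
    rw [Finset.sum_congr rfl fun i _ => h1 i, Finset.sum_comm]
    have h2 : ∀ i'', ∑ i, (∑ j, X j * gr f P i'' j) * (G⁻¹ i'' i * G i i') =
        (∑ j, X j * gr f P i'' j) * (1 : Matrix (Fin r) (Fin r) k) i'' i' := by
      intro i''
      rw [← Finset.mul_sum, ← hGG', Matrix.mul_apply]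
    rw [Finset.sum_congr rfl fun i'' _ => h2 i'', Finset.sum_eq_single i']
    · rw [Matrix.one_apply_eq, mul_one]
    · intro i'' _ hne
      rw [Matrix.one_apply_ne hne, mul_zero]
    · intro h
      exact absurd (Finset.mem_univ i') h

/-- If `c ^ 2 g` is a unit then the order of `g` is even. -/
theorem par_even {w : Place k E Ω} {g c : E} {m : ℤ} (hm : w.IsOrd g m)
    (h : w.V.valuation (c ^ 2 * g) = 1) : Even m := by
  obtain ⟨π, h1, h2, h3, h4⟩ := Place.ord_aux hm
  rcases Int.even_or_odd' m with ⟨l, rfl | rfl⟩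
  · exact even_two_mul l
  exfalso
  have hπ : π ≠ 0 := (map_ne_zero _).1 h2
  have h5 : w.V.valuation (c * π ^ l) ^ 2 * w.V.valuation π = 1 := by
    rw [← h, map_mul, map_mul, h4, map_pow, map_zpow₀, mul_pow, mul_assoc]
    congr 1
    rw [← zpow_natCast, ← zpow_mul, ← zpow_add_one₀ h2]
    congr 1
    push_cast
    ring
  set d := c * π ^ l with hd
  have hd0 : w.V.valuation d ≠ 0 := by
    intro h6
    rw [h6, zero_pow two_ne_zero, zero_mul] at h5
    exact zero_ne_one h5
  rcases le_or_gt (w.V.valuation d) 1 with h6 | h6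
  · have h7 : w.V.valuation d ^ 2 * w.V.valuation π ≤ 1 * w.V.valuation π :=
      mul_le_mul_left (pow_le_one₀ zero_le h6) _
    rw [h5, one_mul] at h7
    exact absurd h1 (not_lt.2 h7)
  · have h7 : w.V.valuation d⁻¹ < 1 := by
      rw [map_inv₀]
      exact inv_lt_one_of_one_lt₀ h6
    have h8 := h3 _ h7
    rw [map_inv₀] at h8
    have h9 : w.V.valuation d ^ 2 * (w.V.valuation d)⁻¹ ≤
        w.V.valuation d ^ 2 * w.V.valuation π := mul_le_mul_right h8 _
    rw [h5, pow_two, mul_assoc, mul_inv_cancel₀ hd0, mul_one] at h9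
    exact absurd h6 (not_lt.2 h9)

/-- The value at a place is the image of a vector over `k`. -/
theorem par_val {w : Place k E Ω} {p : Fin n → E} {X : Fin n → k}
    (hX : (fun i => algebraMap k Ω (X i)) ≠ 0)
    (h : w.IsVal p (Projectivization.mk Ω (fun i => algebraMap k Ω (X i)) hX)) :
    ∃ (c : E) (l : Ω), l ≠ 0 ∧ ∀ j, ParR w (c * p j) (l * algebraMap k Ω (X j)) := by
  obtain ⟨c, hc, h0, hxc⟩ := h
  rw [Projectivization.mk_eq_mk_iff'] at hxc
  obtain ⟨a, ha⟩ := hxc
  have ha0 : a ≠ 0 := by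
    rintro rfl
    rw [zero_smul] at ha
    exact hX ha.symm
  refine ⟨c, a⁻¹, inv_ne_zero ha0, fun j => ⟨hc j, ?_⟩⟩
  have h1 := congrFun ha j
  rw [Pi.smul_apply, smul_eq_mul] at h1
  rw [← h1, ← mul_assoc, inv_mul_cancel₀ ha0, one_mul]

/-- The residue of the form of the sphere. -/
theorem ParR.sph {w : Place k E Ω} {c : E} {x : Fin n → E} {l : Ω} {s : k} {X : Fin n → k}
    (hc : ParR w c (l * algebraMap k Ω s))
    (hx : ∀ j, ParR w (c * x j) (l * algebraMap k Ω (X j))) :
    ParR w (c ^ 2 * sph P Q 1 x) (l ^ 2 * algebraMap k Ω (sph P Q s X)) := by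
  have neg : ∀ (a : E) (ρ : Ω), ParR w a ρ → ParR w (-a) (-ρ) := by
    intro a ρ h
    refine (h.mul (parR_k w (-1))).congr ?_ ?_ <;> simp
  refine (ParR.sum Finset.univ fun j => ((hx j).add (neg _ _ (hc.mul (parR_k w (P j))))).mul
    ((hx j).add (neg _ _ (hc.mul (parR_k w (Q j)))))).congr ?_ ?_
  · unfold Ct.sph
    rw [Finset.mul_sum]
    exact Finset.sum_congr rfl fun j _ => by ring
  · unfold Ct.sph
    rw [map_sum, Finset.mul_sum]
    refine Finset.sum_congr rfl fun j _ => ?_
    simp only [Algebra.algebraMap_self, RingHom.id_apply, map_mul, map_sub]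
    ring

end aux

theorem exists_cyc {k E Ω : Type u} [Field k] [CharZero k] [Field E] [Algebra k E] [Field Ω]
    [Algebra k Ω] [IsAlgClosed Ω] {n r : ℕ} {f : Fin r → MvPolynomial (Fin n) k}
    {P Q u : Fin n → k} (H : Pair f P Q u) (hP : P ≠ 0) (hE : IsFunField k E) {τ : E}
    {β : Fin r → E} (hz : Zer f E (pt f P u 1 τ β))
    (hgen : IntermediateField.adjoin k (insert τ (Set.range β)) = ⊤) (w : Place k E Ω)
    (hτ : τ ∈ w.V.nonunits) (hβ : ∀ i, β i ∈ w.V.nonunits) :
    ∃ z ∈ ratEq Ω f, z (mapPt (algebraMap k Ω) (Projectivization.mk k P hP)) = 1 ∧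
      ∀ x : ℙ k (Fin n → k), (∀ c : k, x.rep ≠ c • P) → (∀ c : k, x.rep ≠ c • Q) →
        Even (z (mapPt (algebraMap k Ω) x)) := by
  classical
  have hord := ord_one H hz hgen w hτ hβ
  set p := pt f P u 1 τ β with hp
  set g := sph P Q 1 p with hg
  have hnu : ¬ (g ∈ w.V ∧ g⁻¹ ∈ w.V) := fun h =>
    absurd (hord.eq_zero h.1 h.2) one_ne_zero
  have hgt : Transcendental k g := by
    intro halg
    exact hnu ⟨par_alg w halg, par_alg w halg.inv⟩
  have hg0 : g ≠ 0 := fun h0 => hgt (by rw [h0]; exact isAlgebraic_zero)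
  have hp0 : p ≠ 0 := by
    intro h0
    have h1 := pt_dot (f := f) (P := P) (u := u) (1 : E) τ β P
    have hPu' : ∑ j, u j * P j = 0 := by
      rw [← H.Pu]
      exact Finset.sum_congr rfl fun j _ => mul_comm _ _
    have hs : ∑ i, β i * algebraMap k E (∑ j, gr f P i j * P j) = 0 :=
      Finset.sum_eq_zero fun i _ => by rw [H.gP i, map_zero, mul_zero]
    have hs' : ∑ j, (0 : Fin n → E) j * algebraMap k E (P j) = 0 :=
      Finset.sum_eq_zero fun j _ => by rw [Pi.zero_apply, zero_mul]
    rw [← hp, h0, hPu', hs, hs', map_zero, mul_zero, add_zero, add_zero, one_mul] at h1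
    exact H.PP ((map_eq_zero _).1 h1.symm)
  obtain ⟨S, m, x, h1, h2⟩ := exists_div (Ω := Ω) hE hgt hp0
  refine ⟨∑ v ∈ S, Finsupp.single (x v) (m v), AddSubgroup.subset_closure
    ⟨E, _, _, hE, g, p, hg0, hp0, hz, S, m, x, h1, h2, rfl⟩, ?_, ?_⟩
  · -- the multiplicity of `P`
    have hwS : w ∈ S := by
      by_contra hcon
      exact hnu (h1 w hcon)
    have hres : ∀ j, ParR w (1 * p j) (algebraMap k Ω (P j)) := by
      intro j
      refine ((parR_k w (P j)).add (((parR_zero hτ).mul (parR_k w (u j))).add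
        (ParR.sum Finset.univ fun i => (parR_zero (hβ i)).mul (parR_k w (gr f P i j))))).congr
        ?_ ?_
      · rw [hp]
        unfold pt
        ring
      · simp
    have hval : w.IsVal p (mapPt (algebraMap k Ω) (Projectivization.mk k P hP)) := by
      rw [ZCTr.mapPt_mk]
      have h3 : (fun i => w.res ⟨1 * p i, (hres i).1⟩) = fun i => algebraMap k Ω (P i) := by
        funext i
        exact (hres i).2
      refine ⟨1, fun i => (hres i).1, ?_, ?_⟩
      · rw [h3]
        exact comp_ne (algebraMap k Ω) hP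
      · congr 1
        exact h3.symm
    have hxw : x w = mapPt (algebraMap k Ω) (Projectivization.mk k P hP) :=
      (h2 w hwS).2.unique hval
    have hmw : m w = 1 := (h2 w hwS).1.unique rfl hord
    rw [Finsupp.finsetSum_apply, Finset.sum_eq_single w]
    · rw [hxw, Finsupp.single_eq_same, hmw]
    · intro w' hw' hne
      rw [Finsupp.single_apply, if_neg]
      intro hx'
      apply hne
      have h3 := (h2 w' hw').2
      rw [hx', ZCTr.mapPt_mk] at h3
      obtain ⟨c, l, hl, hX⟩ := par_val _ h3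
      obtain ⟨s, t, b, hXe, hcr, htr, hbr, hs, ht, hb⟩ := par_data H.toFrame hl hX
      have hs1 : s = 1 := mul_right_cancel₀ H.PP (by rw [hs, one_mul])
      have ht0 : t = 0 := by
        rw [H.Pu] at ht
        exact (mul_eq_zero.1 ht).resolve_right H.uu
      have hb0 : b = 0 := by
        refine H.gram b fun i' => ?_
        rw [← H.gP i']
        refine Eq.trans ?_ ((hb i').trans (Finset.sum_congr rfl fun j _ => mul_comm _ _))
        refine Finset.sum_congr rfl fun i _ => ?_
        congr 1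
        exact Finset.sum_congr rfl fun j _ => mul_comm _ _
      rw [hs1, map_one, mul_one] at hcr
      have hcv := hcr.val hl
      have unit : ∀ a : E, ParR w' (c * a) (l * algebraMap k Ω 0) → a ∈ w'.V.nonunits := by
        intro a ha
        rw [map_zero, mul_zero] at ha
        have h4 := ha.nonunit
        rw [ValuationSubring.mem_nonunits_iff, map_mul, hcv, one_mul] at h4
        rw [ValuationSubring.mem_nonunits_iff]
        exact h4
      refine place_unique H.toFrame hz hgen w w' hτ hβ (unit τ ?_) fun i => unit (β i) ?_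
      · rw [← ht0]
        exact htr
      · have h5 := hbr i
        rw [hb0] at h5
        exact h5
    · intro h
      exact absurd hwS h
  · intro y hyP hyQ
    rw [Finsupp.finsetSum_apply]
    refine Finset.even_sum _ fun w' hw' => ?_
    rw [Finsupp.single_apply]
    split_ifs with hx'
    swap
    · exact Even.zero
    have h3 := (h2 w' hw').2
    rw [hx'] at h3
    obtain ⟨c, l, hl, hX⟩ := par_val _ h3
    obtain ⟨s, t, b, hXe, hcr, -, -, -, -, -⟩ := par_data H.toFrame hl hX
    have hZ : Zer f k y.rep := by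
      have h4 := w'.zer H.hom hz h3
      exact (zer_mapPt_iff H.hom (Algebra.ofId k Ω) y).1 h4
    have hsph : sph P Q s y.rep ≠ 0 := by
      intro h4
      rw [hXe] at h4 hZ
      obtain ⟨a, ha⟩ := H.only s t b hZ h4
      rw [← hXe] at ha
      rcases ha with ha | ha
      · exact hyP a ha
      · exact hyQ a ha
    have h5 := ParR.sph (P := P) (Q := Q) hcr hX
    exact par_even (h2 w' hw').1 (h5.val (mul_ne_zero (pow_ne_zero 2 hl)
      ((map_ne_zero (algebraMap k Ω)).2 hsph)))

end Ct
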