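import Pool.Agent.Lib.MP_f80667_ag.Ct.Defs

/-! Real points on the curve near the smooth point `P`. -/

open MvPolynomial Topology Filter

namespace Ct

open ZC

variable {n r : ℕ}

/-- The chain rule for the values of a polynomial. -/
theorem strict_aeval {E : Type*} [NormedAddCommGroup E] [NormedSpace ℝ E]
    (p : MvPolynomial (Fin n) ℝ) {x : E → Fin n → ℝ} {L : Fin n → E →L[ℝ] ℝ} {e : E}
    (hx : ∀ j, HasStrictFDerivAt (fun y => x y j) (L j) e) :
    HasStrictFDerivAt (fun y => aeval (x y) p) (∑ j, aeval (x e) (pderiv j p) • L j) e := by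
  induction p using MvPolynomial.induction_on with
  | C a =>
    simp only [algHom_C, pderiv_C, map_zero, zero_smul, Finset.sum_const_zero]
    exact hasStrictFDerivAt_const _ _
  | add p q hp hq =>
    have h := hp.add hq
    simp only [map_add, add_smul, Finset.sum_add_distrib]
    exact h
  | mul_X p i hp =>
    have h := hp.mul (hx i)
    have e1 : (fun y => aeval (x y) (p * X i)) = fun y => aeval (x y) p * x y i := by
      funext y
      simp
    have e2 : (∑ j, aeval (x e) (pderiv j (p * X i)) • L j) =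
        aeval (x e) p • L i + x e i • ∑ j, aeval (x e) (pderiv j p) • L j := by
      have h3 : ∀ j, aeval (x e) (pderiv j (p * X i)) =
          x e i * aeval (x e) (pderiv j p) + aeval (x e) p * (if i = j then 1 else 0) := by
        intro j
        rw [pderiv_mul, map_add, map_mul, map_mul, aeval_X, pderiv_X]
        by_cases hij : i = j
        · subst hij
          simp
          ring
        · simp [hij]
          ring
      simp only [h3, add_smul, Finset.sum_add_distrib, Finset.smul_sum, smul_smul]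
      rw [add_comm]
      congr 1
      simp
    rw [e1, e2]
    exact h

/-- The differential of `(t, b) ↦ pt f P u 1 t b`. -/
noncomputable def dpt (f : Fin r → MvPolynomial (Fin n) ℝ) (P u : Fin n → ℝ) (j : Fin n) :
    (ℝ × (Fin r → ℝ)) →L[ℝ] ℝ :=
  u j • ContinuousLinearMap.fst ℝ ℝ (Fin r → ℝ) +
    ∑ i, gr f P i j • ((ContinuousLinearMap.proj i : (Fin r → ℝ) →L[ℝ] ℝ).comp
      (ContinuousLinearMap.snd ℝ ℝ (Fin r → ℝ)))

theorem dpt_apply (f : Fin r → MvPolynomial (Fin n) ℝ) (P u : Fin n → ℝ) (j : Fin n)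
    (t : ℝ) (b : Fin r → ℝ) : dpt f P u j (t, b) = t * u j + ∑ i, b i * gr f P i j := by
  simp [dpt, mul_comm]

theorem pt_eq (f : Fin r → MvPolynomial (Fin n) ℝ) (P u : Fin n → ℝ) (j : Fin n)
    (e : ℝ × (Fin r → ℝ)) : pt f P u 1 e.1 e.2 j = P j + dpt f P u j e := by
  obtain ⟨t, b⟩ := e
  rw [dpt_apply]
  simp [pt, add_assoc]

theorem strict_pt (f : Fin r → MvPolynomial (Fin n) ℝ) (P u : Fin n → ℝ) (j : Fin n)
    (e : ℝ × (Fin r → ℝ)) :
    HasStrictFDerivAt (fun y : ℝ × (Fin r → ℝ) => pt f P u 1 y.1 y.2 j) (dpt f P u j) e := by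
  have : (fun y : ℝ × (Fin r → ℝ) => pt f P u 1 y.1 y.2 j) = fun y => P j + dpt f P u j y := by
    funext y
    exact pt_eq f P u j y
  rw [this]
  exact (dpt f P u j).hasStrictFDerivAt.const_add _

/-- The values of the forms on the curve. -/
noncomputable def val (f : Fin r → MvPolynomial (Fin n) ℝ) (P u : Fin n → ℝ)
    (e : ℝ × (Fin r → ℝ)) : ℝ × (Fin r → ℝ) :=
  (e.1, fun i => aeval (pt f P u 1 e.1 e.2) (f i))

/-- The differential of `val` at `0`. -/
noncomputable def dval (f : Fin r → MvPolynomial (Fin n) ℝ) (P u : Fin n → ℝ) :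
    (ℝ × (Fin r → ℝ)) →L[ℝ] ℝ × (Fin r → ℝ) :=
  (ContinuousLinearMap.fst ℝ ℝ (Fin r → ℝ)).prod
    (ContinuousLinearMap.pi fun i => ∑ j, gr f P i j • dpt f P u j)

theorem strict_val (f : Fin r → MvPolynomial (Fin n) ℝ) (P u : Fin n → ℝ) :
    HasStrictFDerivAt (val f P u) (dval f P u) 0 := by
  have h0 : pt f P u 1 (0 : ℝ × (Fin r → ℝ)).1 (0 : ℝ × (Fin r → ℝ)).2 = P := by
    funext j
    rw [pt_eq]
    simp
  refine HasStrictFDerivAt.prodMk hasStrictFDerivAt_fst ?_
  rw [hasStrictFDerivAt_pi]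
  intro i
  have h := strict_aeval (f i) (x := fun y : ℝ × (Fin r → ℝ) => pt f P u 1 y.1 y.2)
    (L := dpt f P u) (e := 0) (fun j => strict_pt f P u j 0)
  simp only [h0] at h
  exact h

theorem dval_apply {f : Fin r → MvPolynomial (Fin n) ℝ} {P u : Fin n → ℝ} (H : Frame f P u)
    (t : ℝ) (b : Fin r → ℝ) (i : Fin r) :
    (dval f P u (t, b)).2 i = ∑ i', b i' * ∑ j, gr f P i j * gr f P i' j := by
  have h1 : (dval f P u (t, b)).2 i = ∑ j, gr f P i j * (t * u j + ∑ i, b i * gr f P i j) := by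
    simp [dval, dpt_apply]
  rw [h1]
  have h2 : ∀ j, gr f P i j * (t * u j + ∑ i, b i * gr f P i j) =
      t * (gr f P i j * u j) + ∑ i', b i' * (gr f P i j * gr f P i' j) := by
    intro j
    rw [mul_add, Finset.mul_sum]
    congr 1
    · ring
    · exact Finset.sum_congr rfl fun i' _ => by ring
  rw [Finset.sum_congr rfl fun j _ => h2 j, Finset.sum_add_distrib, ← Finset.mul_sum, H.gu,
    mul_zero, zero_add, Finset.sum_comm]
  exact Finset.sum_congr rfl fun i' _ => by rw [Finset.mul_sum]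

theorem dval_surj {f : Fin r → MvPolynomial (Fin n) ℝ} {P u : Fin n → ℝ} (H : Frame f P u) :
    (dval f P u).range = ⊤ := by
  have hinj : Function.Injective (dval f P u : (ℝ × (Fin r → ℝ)) →ₗ[ℝ] ℝ × (Fin r → ℝ)) := by
    rw [injective_iff_map_eq_zero]
    rintro ⟨t, b⟩ h
    have h' : dval f P u (t, b) = 0 := h
    have ht : t = 0 := by
      have := congrArg Prod.fst h'
      simpa [dval] using this
    have hb : b = 0 := by
      apply H.gram
      intro i
      rw [← dval_apply H t b i, h']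
      rfl
    rw [ht, hb]
    rfl
  have hs := LinearMap.injective_iff_surjective.1 hinj
  exact LinearMap.range_eq_top.2 hs

theorem exists_seq {f : Fin r → MvPolynomial (Fin n) ℝ} {P u : Fin n → ℝ} (H : Frame f P u) :
    ∃ (t : ℕ → ℝ) (b : ℕ → Fin r → ℝ), (∀ j, t j ≠ 0) ∧ Tendsto t atTop (𝓝 0) ∧
      (∀ i, Tendsto (fun j => b j i) atTop (𝓝 0)) ∧ ∀ j, Zer f ℝ (pt f P u 1 (t j) (b j)) := by
  have hmap := (strict_val f P u).map_nhds_eq_of_surj (dval_surj H)
  have h00 : val f P u 0 = 0 := by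
    have h0 : pt f P u 1 (0 : ℝ × (Fin r → ℝ)).1 (0 : ℝ × (Fin r → ℝ)).2 = P := by
      funext j
      rw [pt_eq]
      simp
    refine Prod.ext rfl ?_
    funext i
    show aeval (pt f P u 1 (0 : ℝ × (Fin r → ℝ)).1 (0 : ℝ × (Fin r → ℝ)).2) (f i) = 0
    rw [h0]
    exact H.zP i
  have key : ∀ j : ℕ, ∃ e : ℝ × (Fin r → ℝ), ‖e‖ < 1 / ((j : ℝ) + 1) ∧ e.1 ≠ 0 ∧
      Zer f ℝ (pt f P u 1 e.1 e.2) := by
    intro j
    have hpos : (0 : ℝ) < 1 / ((j : ℝ) + 1) := by positivity
    have h1 : val f P u '' Metric.ball 0 (1 / ((j : ℝ) + 1)) ∈ 𝓝 (0 : ℝ × (Fin r → ℝ)) := by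
      have h5 : val f P u '' Metric.ball 0 (1 / ((j : ℝ) + 1)) ∈ map (val f P u) (𝓝 0) :=
        image_mem_map (Metric.ball_mem_nhds _ hpos)
      rwa [hmap, h00] at h5
    have h2 : Tendsto (fun t : ℝ => ((t, 0) : ℝ × (Fin r → ℝ))) (𝓝 0) (𝓝 0) := by
      have : Continuous fun t : ℝ => ((t, 0) : ℝ × (Fin r → ℝ)) := by fun_prop
      exact this.tendsto' 0 0 rfl
    have h3 : ∀ᶠ t : ℝ in 𝓝[≠] 0, ((t, 0) : ℝ × (Fin r → ℝ)) ∈
        val f P u '' Metric.ball 0 (1 / ((j : ℝ) + 1)) :=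
      (h2.eventually h1).filter_mono nhdsWithin_le_nhds
    obtain ⟨t, ⟨e, he, het⟩, ht⟩ := (h3.and self_mem_nhdsWithin).exists
    refine ⟨e, by simpa using he, ?_, ?_⟩
    · have : e.1 = t := congrArg Prod.fst het
      rw [this]
      exact ht
    · intro i
      exact congrFun (congrArg Prod.snd het) i
  choose e he1 he2 he3 using key
  have hlim : Tendsto e atTop (𝓝 0) := by
    rw [tendsto_zero_iff_norm_tendsto_zero]
    exact squeeze_zero (fun j => norm_nonneg _) (fun j => (he1 j).le)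
      tendsto_one_div_add_atTop_nhds_zero_nat
  refine ⟨fun j => (e j).1, fun j => (e j).2, he2, ?_, ?_, he3⟩
  · exact (continuous_fst.tendsto' _ _ rfl).comp hlim
  · intro i
    have hc : Continuous fun y : ℝ × (Fin r → ℝ) => y.2 i := by fun_prop
    exact (hc.tendsto' _ _ rfl).comp hlim

end Ct
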