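import Pool.Agent.Lib.MP_f80667_ag.Ct.Defs

/-! A field with a real place centred at `P`, from a sequence of real points (an ultrapower of the
real numbers and its standard part map). -/

open MvPolynomial Topology Filter

namespace Ct

open ZC

universe u

section ultra

/-- The ultrapower of `k` along a free ultrafilter on the natural numbers. -/
private def Ul (k : Type u) : Type u := Germ ((hyperfilter ℕ : Ultrafilter ℕ) : Filter ℕ) k

private noncomputable instance {k : Type u} [Field k] : Field (Ul k) :=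
  inferInstanceAs (Field (Germ ((hyperfilter ℕ : Ultrafilter ℕ) : Filter ℕ) k))

/-- The class of a sequence. -/
private noncomputable def toUl (k : Type u) [Field k] : (ℕ → k) →+* Ul k :=
  Germ.coeRingHom ((hyperfilter ℕ : Ultrafilter ℕ) : Filter ℕ)

private noncomputable instance {k : Type u} [Field k] : Algebra k (Ul k) :=
  ((toUl k).comp (Pi.constRingHom ℕ k)).toAlgebra

private noncomputable def toUlA (k : Type u) [Field k] : (ℕ → k) →ₐ[k] Ul k :=
  { toUl k with commutes' := fun _ => rfl }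

variable {k : Type u} [Field k]

private theorem toUl_surj (x : Ul k) : ∃ s, toUl k s = x :=
  Quot.exists_rep x

private theorem toUl_eq {s s' : ℕ → k} :
    toUl k s = toUl k s' ↔ ∀ᶠ j in (hyperfilter ℕ : Filter ℕ), s j = s' j :=
  Germ.coe_eq

private theorem toUl_inv (s : ℕ → k) : (toUl k s)⁻¹ = toUl k (fun j => (s j)⁻¹) := rfl

private theorem algebraMap_Ul (c : k) : algebraMap k (Ul k) c = toUl k (fun _ => c) := rfl

/-- The standard part of `x` is `r`. -/
private def HasLim (e : k ≃+* ℝ) (x : Ul k) (r : ℝ) : Prop :=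
  ∃ s : ℕ → k, toUl k s = x ∧ Tendsto (fun j => e (s j)) (hyperfilter ℕ : Filter ℕ) (𝓝 r)

variable {e : k ≃+* ℝ}

private theorem HasLim.uniq {x : Ul k} {r r' : ℝ} (h : HasLim e x r) (h' : HasLim e x r') :
    r = r' := by
  obtain ⟨s, hs, hl⟩ := h
  obtain ⟨s', hs', hl'⟩ := h'
  have := toUl_eq.1 (hs.trans hs'.symm)
  refine tendsto_nhds_unique hl (hl'.congr' ?_)
  filter_upwards [this] with j hj
  rw [hj]

private theorem HasLim.add {x y : Ul k} {r r' : ℝ} (h : HasLim e x r) (h' : HasLim e y r') :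
    HasLim e (x + y) (r + r') := by
  obtain ⟨s, hs, hl⟩ := h
  obtain ⟨s', hs', hl'⟩ := h'
  refine ⟨s + s', by rw [map_add, hs, hs'], ?_⟩
  simpa using hl.add hl'

private theorem HasLim.mul {x y : Ul k} {r r' : ℝ} (h : HasLim e x r) (h' : HasLim e y r') :
    HasLim e (x * y) (r * r') := by
  obtain ⟨s, hs, hl⟩ := h
  obtain ⟨s', hs', hl'⟩ := h'
  refine ⟨s * s', by rw [map_mul, hs, hs'], ?_⟩
  simpa using hl.mul hl'

private theorem HasLim.neg {x : Ul k} {r : ℝ} (h : HasLim e x r) : HasLim e (-x) (-r) := by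
  obtain ⟨s, hs, hl⟩ := h
  refine ⟨-s, by rw [map_neg, hs], ?_⟩
  simpa using hl.neg

private theorem HasLim.inv {x : Ul k} {r : ℝ} (h : HasLim e x r) (hr : r ≠ 0) :
    HasLim e x⁻¹ r⁻¹ := by
  obtain ⟨s, hs, hl⟩ := h
  refine ⟨fun j => (s j)⁻¹, by rw [← toUl_inv, hs], ?_⟩
  simpa using hl.inv₀ hr

private theorem hasLim_const (e : k ≃+* ℝ) (c : k) : HasLim e (algebraMap k (Ul k) c) (e c) :=
  ⟨fun _ => c, rfl, tendsto_const_nhds⟩

private theorem hasLim_zero (e : k ≃+* ℝ) : HasLim e (0 : Ul k) 0 := by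
  have := hasLim_const e (0 : k)
  rwa [map_zero, map_zero] at this

private theorem hasLim_one (e : k ≃+* ℝ) : HasLim e (1 : Ul k) 1 := by
  have := hasLim_const e (1 : k)
  rwa [map_one, map_one] at this

private theorem hasLim_or (e : k ≃+* ℝ) (x : Ul k) : (∃ r, HasLim e x r) ∨ HasLim e x⁻¹ 0 := by
  obtain ⟨s, hs⟩ := toUl_surj x
  by_cases h : ∃ M : ℝ, ∀ᶠ j in (hyperfilter ℕ : Filter ℕ), |e (s j)| ≤ M
  · left
    obtain ⟨M, hM⟩ := h
    have h1 : ((hyperfilter ℕ).map (fun j => e (s j)) : Ultrafilter ℝ) ≤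
        Filter.principal (Set.Icc (-M) M) := by
      rw [Filter.le_principal_iff]
      change (fun j => e (s j)) ⁻¹' (Set.Icc (-M) M) ∈ (hyperfilter ℕ : Filter ℕ)
      filter_upwards [hM] with j hj
      exact abs_le.1 hj
    obtain ⟨r, -, hr⟩ := isCompact_Icc.ultrafilter_le_nhds _ h1
    exact ⟨r, s, hs, hr⟩
  · right
    push Not at h
    refine ⟨fun j => (s j)⁻¹, by rw [← toUl_inv, hs], ?_⟩
    have h2 : Tendsto (fun j => |e (s j)|) (hyperfilter ℕ : Filter ℕ) atTop := by
      rw [tendsto_atTop]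
      exact fun M => (h M).mono fun _ hj => hj.le
    have h5 : Tendsto (fun j => |e (s j)|⁻¹) (hyperfilter ℕ : Filter ℕ) (𝓝 0) :=
      tendsto_inv_atTop_zero.comp h2
    rw [tendsto_zero_iff_abs_tendsto_zero]
    refine h5.congr ?_
    intro j
    simp

/-- The ring of bounded elements. -/
private def ringV (e : k ≃+* ℝ) : ValuationSubring (Ul k) where
  carrier := {x | ∃ r, HasLim e x r}
  mul_mem' := fun ⟨_, h⟩ ⟨_, h'⟩ => ⟨_, h.mul h'⟩
  one_mem' := ⟨_, hasLim_one e⟩
  add_mem' := fun ⟨_, h⟩ ⟨_, h'⟩ => ⟨_, h.add h'⟩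
  zero_mem' := ⟨_, hasLim_zero e⟩
  neg_mem' := fun ⟨_, h⟩ => ⟨_, h.neg⟩
  mem_or_inv_mem' := fun x => (hasLim_or e x).imp id (fun h => ⟨_, h⟩)

private noncomputable def stV (e : k ≃+* ℝ) : ringV e →+* ℝ where
  toFun x := x.2.choose
  map_one' := HasLim.uniq (Exists.choose_spec (1 : ringV e).2) (hasLim_one e)
  map_zero' := HasLim.uniq (Exists.choose_spec (0 : ringV e).2) (hasLim_zero e)
  map_add' x y := HasLim.uniq (x + y).2.choose_spec (x.2.choose_spec.add y.2.choose_spec)
  map_mul' x y := HasLim.uniq (x * y).2.choose_spec (x.2.choose_spec.mul y.2.choose_spec)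

private theorem stV_spec (e : k ≃+* ℝ) (x : ringV e) : HasLim e x (stV e x) := x.2.choose_spec

private theorem pt_map {n r : ℕ} (f : Fin r → MvPolynomial (Fin n) k) (P u : Fin n → k)
    {R R' : Type*} [CommRing R] [Algebra k R] [CommRing R'] [Algebra k R'] (σ : R →ₐ[k] R')
    (s t : R) (b : Fin r → R) :
    pt f P u (σ s) (σ t) (fun i => σ (b i)) = fun j => σ (pt f P u s t b j) := by
  funext j
  simp [pt]

private theorem zer_of_inj {n r : ℕ} (f : Fin r → MvPolynomial (Fin n) k)
    {R R' : Type*} [CommRing R] [Algebra k R] [CommRing R'] [Algebra k R'] (σ : R →ₐ[k] R')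
    (hσ : Function.Injective σ) {x : Fin n → R} (h : Zer f R' (fun j => σ (x j))) :
    Zer f R x := by
  intro i
  have := h i
  rw [← MvPolynomial.comp_aeval_apply] at this
  exact hσ (this.trans (map_zero σ).symm)

private theorem zer_pi {n r : ℕ} (f : Fin r → MvPolynomial (Fin n) k) {x : Fin n → ℕ → k}
    (h : ∀ j, Zer f k (fun a => x a j)) : Zer f (ℕ → k) x := by
  intro i
  funext j
  have h1 := h j i
  have h2 := MvPolynomial.comp_aeval_apply x (Pi.evalAlgHom k (fun _ : ℕ => k) j) (f i)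
  exact h2.trans h1

end ultra

theorem exists_place {k : Type u} [Field k] (Ω : Type u) [Field Ω] [Algebra k Ω] {n r : ℕ}
    (e : k ≃+* ℝ) {f : Fin r → MvPolynomial (Fin n) k} {P u : Fin n → k}
    (t : ℕ → k) (b : ℕ → Fin r → k) (ht0 : ∀ j, t j ≠ 0)
    (ht : Tendsto (fun j => e (t j)) atTop (𝓝 0))
    (hb : ∀ i, Tendsto (fun j => e (b j i)) atTop (𝓝 0))
    (hz : ∀ j, Zer f k (pt f P u 1 (t j) (b j))) :
    ∃ (E : Type u) (_ : Field E) (_ : Algebra k E) (τ : E) (β : Fin r → E) (w : Place k E Ω),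
      Zer f E (pt f P u 1 τ β) ∧ IntermediateField.adjoin k (insert τ (Set.range β)) = ⊤ ∧
      τ ≠ 0 ∧ τ ∈ w.V.nonunits ∧ ∀ i, β i ∈ w.V.nonunits := by
  classical
  have hle : ((hyperfilter ℕ : Ultrafilter ℕ) : Filter ℕ) ≤ atTop := Nat.hyperfilter_le_atTop
  -- the ambient point
  set τ₀ : Ul k := toUl k t with hτ₀
  set β₀ : Fin r → Ul k := fun i => toUl k (fun j => b j i) with hβ₀
  have hτl : HasLim e τ₀ 0 := ⟨t, rfl, ht.mono_left hle⟩
  have hβl : ∀ i, HasLim e (β₀ i) 0 := fun i => ⟨fun j => b j i, rfl, (hb i).mono_left hle⟩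
  have hτ0 : τ₀ ≠ 0 := by
    intro h
    have h1 : toUl k t = toUl k 0 := h.trans (map_zero _).symm
    obtain ⟨j, hj⟩ := (toUl_eq.1 h1).exists
    exact ht0 j hj
  have hz₀ : Zer f (Ul k) (pt f P u 1 τ₀ β₀) := by
    have h1 : Zer f (ℕ → k) (pt f P u (1 : ℕ → k) t (fun i j => b j i)) := by
      apply zer_pi
      intro j
      have h2 := hz j
      have h3 := pt_map f P u (Pi.evalAlgHom k (fun _ : ℕ => k) j) (1 : ℕ → k) t
        (fun i j => b j i)
      have h4 : (fun a => pt f P u (1 : ℕ → k) t (fun i j => b j i) a j) =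
          pt f P u 1 (t j) (b j) := h3.symm
      rw [h4]
      exact h2
    have h2 := ZCTr.zer_map f (toUlA k) h1
    have h3 := pt_map f P u (toUlA k) (1 : ℕ → k) t (fun i j => b j i)
    rw [← h3, map_one] at h2
    exact h2
  -- the field
  let K : IntermediateField k (Ul k) := IntermediateField.adjoin k (insert τ₀ (Set.range β₀))
  have hτK : τ₀ ∈ K := IntermediateField.subset_adjoin k _ (Set.mem_insert _ _)
  have hβK : ∀ i, β₀ i ∈ K := fun i =>
    IntermediateField.subset_adjoin k _ (Set.mem_insert_of_mem _ ⟨i, rfl⟩)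
  let τ : K := ⟨τ₀, hτK⟩
  let β : Fin r → K := fun i => ⟨β₀ i, hβK i⟩
  have hv : ∀ x : K, (x : Ul k) = K.val x := fun x => rfl
  let V : ValuationSubring K := (ringV e).comap (K.val : K →+* Ul k)
  have hVmem : ∀ x : K, x ∈ V ↔ (x : Ul k) ∈ ringV e := fun x => Iff.rfl
  let ι : V →+* ringV e :=
    { toFun := fun x => ⟨(x : K), x.2⟩
      map_one' := rfl
      map_zero' := rfl
      map_add' := fun _ _ => rfl
      map_mul' := fun _ _ => rfl }
  have hnon : ∀ x : K, x ≠ 0 → HasLim e (x : Ul k) 0 → x⁻¹ ∉ V := by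
    intro x hx h0 h1
    obtain ⟨r, hr⟩ : ∃ r, HasLim e (x : Ul k)⁻¹ r := by
      have := (hVmem _).1 h1
      exact this
    have h2 := h0.mul hr
    rw [mul_inv_cancel₀ (by simpa using hx), zero_mul] at h2
    exact zero_ne_one (h2.uniq (hasLim_one e))
  have hmem : ∀ x : K, HasLim e (x : Ul k) 0 → x ∈ V := fun x h => (hVmem x).2 ⟨0, h⟩
  have hnu : ∀ x : K, HasLim e (x : Ul k) 0 → x ∈ V.nonunits := by
    intro x h
    rw [ValuationSubring.mem_nonunits_iff_exists_mem_maximalIdeal]
    refine ⟨hmem x h, ?_⟩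
    rw [IsLocalRing.mem_maximalIdeal, mem_nonunits_iff]
    intro hu
    obtain ⟨y, hy⟩ := hu.exists_right_inv
    have hx : x ≠ 0 := by
      rintro rfl
      have := congrArg (Subtype.val) hy
      simp at this
    apply hnon x hx h
    have : (y : K) = x⁻¹ := by
      have h1 := congrArg (Subtype.val) hy
      exact eq_inv_of_mul_eq_one_right (by simpa using h1)
    rw [← this]
    exact y.2
  have hconst : ∀ a : k, algebraMap k K a ∈ V := fun a => (hVmem _).2 ⟨e a, hasLim_const e a⟩
  have htop : V ≠ ⊤ := by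
    intro h
    apply hnon τ (fun h => hτ0 (congrArg Subtype.val h)) hτl
    rw [h]
    trivial
  let res : V →+* Ω := ((algebraMap k Ω).comp ((e.symm : ℝ →+* k).comp (stV e))).comp ι
  have hres : ∀ x : V, res x = algebraMap k Ω (e.symm (stV e (ι x))) := fun x => rfl
  let w : Place k K Ω :=
    { V := V
      ne_top := htop
      mem := hconst
      res := res
      res_k := by
        intro a
        rw [hres]
        congr 1
        rw [RingEquiv.symm_apply_eq]
        exact (stV_spec e _).uniq (hasLim_const e a)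
      res_zero := by
        intro x hx
        rw [hres]
        have h1 : stV e (ι x) = 0 := by
          by_contra hne
          apply hx
          have h2 := (stV_spec e (ι x)).inv hne
          have hx0 : (x : K) ≠ 0 := by
            intro h0
            apply hne
            have : ι x = 0 := Subtype.ext (congrArg (Subtype.val : K → Ul k) h0)
            rw [this, map_zero]
          refine IsUnit.of_mul_eq_one ⟨(x : K)⁻¹, (hVmem _).2 ⟨_, h2⟩⟩ ?_
          apply Subtype.ext
          exact mul_inv_cancel₀ hx0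
        rw [h1, map_zero, map_zero] }
  refine ⟨K, inferInstance, inferInstance, τ, β, w, ?_, ?_, ?_, hnu τ hτl, fun i => hnu _ (hβl i)⟩
  · apply zer_of_inj f K.val (Subtype.val_injective)
    rw [← pt_map, map_one]
    exact hz₀
  · have h1 : (Subtype.val : K → Ul k) '' (insert τ (Set.range β)) = insert τ₀ (Set.range β₀) := by
      rw [Set.image_insert_eq, ← Set.range_comp]
      rfl
    apply IntermediateField.lift_injective K
    rw [IntermediateField.lift_adjoin, IntermediateField.lift_top]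
    exact congrArg (IntermediateField.adjoin k) h1
  · intro h
    exact hτ0 (congrArg Subtype.val h)

end Ct
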