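import Pool.Agent.Lib.MP_f80667_ag.Ct.Geo
import Pool.Agent.Lib.MP_f80667_ag.Ct.Seq
import Pool.Agent.Lib.MP_f80667_ag.Ct.Ult
import Pool.Agent.Lib.MP_f80667_ag.Ct.Fun
import Pool.Agent.Lib.MP_f80667_ag.Ct.Par
import Pool.Agent.Lib.MP_f80667_ag.Ct.Nrm
import Pool.Agent.Lib.MP_f80667_ag.ZC.Conn

/-! Zero-cycles of degree `0` on a complete intersection over the real numbers whose real locus is
smooth and connected are rationally equivalent to norms. -/

open MvPolynomial Topology Filter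
open scoped LinearAlgebra.Projectivization

namespace Ct

open ZC

universe u

section transport

variable {k : Type u} [Field k] {n r : ℕ}

/-- The forms over the real numbers. -/
noncomputable def fR (e : k ≃+* ℝ) (f : Fin r → MvPolynomial (Fin n) k) :
    Fin r → MvPolynomial (Fin n) ℝ :=
  fun i => (f i).map (e : k →+* ℝ)

theorem aeval_fR (e : k ≃+* ℝ) (g : MvPolynomial (Fin n) k) (x : Fin n → k) :
    aeval (fun j => e (x j)) (g.map (e : k →+* ℝ)) = e (aeval x g) := by
  rw [aeval_def, aeval_def, eval₂_map, Algebra.algebraMap_self, Algebra.algebraMap_self,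
    RingHom.id_comp]
  have h := (MvPolynomial.eval₂_comp_left (e : k →+* ℝ) (RingHom.id k) x g)
  rw [RingHom.comp_id] at h
  exact h.symm

theorem zer_fR (e : k ≃+* ℝ) (f : Fin r → MvPolynomial (Fin n) k) (x : Fin n → k) :
    Zer (fR e f) ℝ (fun j => e (x j)) ↔ Zer f k x := by
  refine forall_congr' fun i => ?_
  rw [fR, aeval_fR]
  exact map_eq_zero e

theorem gr_fR (e : k ≃+* ℝ) (f : Fin r → MvPolynomial (Fin n) k) (x : Fin n → k) (i : Fin r)
    (j : Fin n) : gr (fR e f) (fun j => e (x j)) i j = e (gr f x i j) := by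
  rw [gr, gr, fR, pderiv_map, aeval_fR]

theorem pt_fR (e : k ≃+* ℝ) (f : Fin r → MvPolynomial (Fin n) k) (P u : Fin n → k) (s t : k)
    (b : Fin r → k) :
    pt (fR e f) (fun j => e (P j)) (fun j => e (u j)) (e s) (e t) (fun i => e (b i)) =
      fun j => e (pt f P u s t b j) := by
  funext j
  simp only [pt, gr_fR, Algebra.algebraMap_self, RingHom.id_apply, map_add, map_mul, map_sum]

theorem sph_fR (e : k ≃+* ℝ) (P Q : Fin n → k) (s : k) (x : Fin n → k) :
    sph (fun j => e (P j)) (fun j => e (Q j)) (e s) (fun j => e (x j)) = e (sph P Q s x) := by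
  simp only [sph, Algebra.algebraMap_self, RingHom.id_apply, map_sub, map_mul, map_sum]

theorem pair_of_real (e : k ≃+* ℝ) {f : Fin r → MvPolynomial (Fin n) k}
    (hf : ∀ i, ∃ d, (f i).IsHomogeneous d) {P Q u : Fin n → k}
    (H : Pair (fR e f) (fun j => e (P j)) (fun j => e (Q j)) (fun j => e (u j))) :
    Pair f P Q u := by
  have h0 : ∀ x : k, e x = 0 → x = 0 := fun x hx => (map_eq_zero e).1 hx
  refine ⟨⟨hf, (zer_fR e f P).1 H.zP, ?_, ?_, ?_, ?_, ?_, ?_⟩, (zer_fR e f Q).1 H.zQ, ?_, ?_⟩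
  · intro h
    apply H.PP
    simp only [← map_mul, ← map_sum, h, map_zero]
  · intro h
    apply H.uu
    simp only [← map_mul, ← map_sum, h, map_zero]
  · apply h0
    rw [map_sum, ← H.Pu]
    simp only [map_mul]
  · intro i
    apply h0
    rw [map_sum, ← H.gP i]
    simp only [map_mul, gr_fR]
  · intro i
    apply h0
    rw [map_sum, ← H.gu i]
    simp only [map_mul, gr_fR]
  · intro c hc
    have h1 := H.gram (fun i => e (c i)) (fun i => by
      have h2 := congrArg e (hc i)
      rw [map_zero] at h2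
      rw [← h2]
      simp only [map_mul, map_sum, gr_fR])
    funext i
    exact h0 _ (congrFun h1 i)
  · obtain ⟨a, ha⟩ := H.Q_eq
    refine ⟨fun i => e.symm (a i), ?_⟩
    have h1 := pt_fR e f P u 1 1 (fun i => e.symm (a i))
    simp only [map_one, RingEquiv.apply_symm_apply] at h1
    rw [h1] at ha
    funext j
    exact e.injective (congrFun ha j)
  · intro s t b hz hs
    have h1 := pt_fR e f P u s t b
    obtain ⟨c, hc⟩ := H.only (e s) (e t) (fun i => e (b i))
      (by rw [h1]; exact (zer_fR e f _).2 hz) (by rw [h1, sph_fR, hs, map_zero])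
    rw [h1] at hc
    refine ⟨e.symm c, ?_⟩
    rcases hc with hc | hc
    · left
      funext j
      apply e.injective
      have h2 := congrFun hc j
      simp only [Pi.smul_apply, smul_eq_mul, map_mul, RingEquiv.apply_symm_apply] at h2 ⊢
      exact h2
    · right
      funext j
      apply e.injective
      have h2 := congrFun hc j
      simp only [Pi.smul_apply, smul_eq_mul, map_mul, RingEquiv.apply_symm_apply] at h2 ⊢
      exact h2

end transport

section loc

variable {k : Type u} [Field k] (Ω : Type u) [Field Ω] [Algebra k Ω] {n r : ℕ}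

/-- The real point of a nonzero vector, as a cycle. -/
noncomputable def pc (x : Fin n → k) (hx : x ≠ 0) : ℙ Ω (Fin n → Ω) →₀ ℤ :=
  Finsupp.single (mapPt (algebraMap k Ω) (Projectivization.mk k x hx)) 1

theorem rel_pair [IsAlgClosure k Ω] (e : k ≃+* ℝ) {f : Fin r → MvPolynomial (Fin n) k}
    {P Q u : Fin n → k} (hf : ∀ i, ∃ d, (f i).IsHomogeneous d)
    (H : Pair (fR e f) (fun j => e (P j)) (fun j => e (Q j)) (fun j => e (u j)))
    (hP : P ≠ 0) (hQ : Q ≠ 0) : pc Ω P hP - pc Ω Q hQ ∈ ratEq Ω f ⊔ normCyc Ω f := by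
  classical
  have hch : CharZero k := charZero_of_injective_ringHom (f := e.symm.toRingHom) e.symm.injective
  have hac : IsAlgClosed Ω := IsAlgClosure.isAlgClosed k
  have h2 : Module.finrank k Ω = 2 := finrank_two k Ω e
  have H' : Pair f P Q u := pair_of_real e hf H
  obtain ⟨t, b, ht0, ht, hb, hz⟩ := exists_seq H.toFrame
  obtain ⟨E, _, _, τ, β, w, hzE, hgen, hτ0, hτ, hβ⟩ := exists_place (P := P) (u := u) Ω e
    (fun j => e.symm (t j))
    (fun j i => e.symm (b j i)) (fun j => (map_ne_zero e.symm).2 (ht0 j)) (by simpa using ht)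
    (by simpa using hb) (f := f) (fun j => by
      rw [← zer_fR e, ← pt_fR]
      simpa using hz j)
  have hE : IsFunField k E := isFunField H'.toFrame hzE hgen w hτ0 hτ hβ
  obtain ⟨z, hz1, hz2, hz3⟩ := exists_cyc (Ω := Ω) H' hP hE hzE hgen w hτ hβ
  have hzc := Dz.ratEq_le_cyc0 hf hz1
  obtain ⟨hzc1, hzc2⟩ := AddSubgroup.mem_inf.1 hzc
  rw [AddMonoidHom.mem_ker] at hzc2
  obtain ⟨S, hS1, hS2, hS3, hS4⟩ := real_part hf h2 hzc1
  rw [hzc2, zero_sub, even_neg] at hS4
  set p : ℙ k (Fin n → k) := Projectivization.mk k P hP with hp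
  set q : ℙ k (Fin n → k) := Projectivization.mk k Q hQ with hq
  by_cases hpq : p = q
  · rw [pc, pc, ← hp, ← hq, hpq, sub_self]
    exact zero_mem _
  have hpr : ∀ x : ℙ k (Fin n → k), x ≠ p → ∀ c : k, x.rep ≠ c • P := by
    intro x hx c hc
    apply hx
    have hc0 : c ≠ 0 := by
      rintro rfl
      rw [zero_smul] at hc
      exact x.rep_nonzero hc
    rw [← x.mk_rep, hp, Projectivization.mk_eq_mk_iff']
    exact ⟨c, hc.symm⟩
  have hqr : ∀ x : ℙ k (Fin n → k), x ≠ q → ∀ c : k, x.rep ≠ c • Q := by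
    intro x hx c hc
    apply hx
    rw [← x.mk_rep, hq, Projectivization.mk_eq_mk_iff']
    exact ⟨c, hc.symm⟩
  -- the sum over the real points
  have hcyc : ∀ x ∈ S, x ≠ p → x ≠ q →
      Finsupp.single (mapPt (algebraMap k Ω) x) (z (mapPt (algebraMap k Ω) x)) ∈
        normCyc Ω f := by
    intro x hx hxp hxq
    obtain ⟨m, hm⟩ := hz3 x (hpr x hxp) (hqr x hxq)
    have h3 := zsmul_mem (two_norm hf h2 x (hS2 x hx)) m
    rw [Finsupp.smul_single] at h3
    rw [hm]
    convert h3 using 2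
    rw [smul_eq_mul]
    ring
  have hpS : p ∈ S := (hS1 p).2 (by rw [hz2]; exact one_ne_zero)
  have hPz : Zer f k p.rep := hS2 p hpS
  have hQz : Zer f k q.rep := ZCTr.zer_rep hf hQ H'.zQ
  -- the multiplicity of `Q`
  set P' := mapPt (algebraMap k Ω) p with hP'
  set Q' := mapPt (algebraMap k Ω) q with hQ'
  have hsum : ∑ x ∈ S.erase p, z (mapPt (algebraMap k Ω) x) + 1 =
      ∑ x ∈ S, z (mapPt (algebraMap k Ω) x) := by
    rw [← hz2]
    exact Finset.sum_erase_add S _ hpS
  have hodd : Odd (z Q') := by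
    by_contra hcon
    rw [Int.not_odd_iff_even] at hcon
    have h3 : Even (∑ x ∈ S.erase p, z (mapPt (algebraMap k Ω) x)) := by
      refine Finset.even_sum _ fun x hx => ?_
      by_cases hxq : x = q
      · rw [hxq]
        exact hcon
      · exact hz3 x (hpr x (Finset.ne_of_mem_erase hx)) (hqr x hxq)
    have h4 : Odd (∑ x ∈ S, z (mapPt (algebraMap k Ω) x)) := by
      rw [← hsum]
      exact h3.add_one
    exact (Int.not_odd_iff_even.2 hS4) h4
  have hqS : q ∈ S := (hS1 q).2 (by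
    intro h0
    rw [← hQ'] at h0
    rw [h0] at hodd
    exact absurd hodd (by decide))
  have hqS' : q ∈ S.erase p := Finset.mem_erase.2 ⟨fun h => hpq h.symm, hqS⟩
  obtain ⟨m, hm⟩ := hodd
  -- everything else is a norm
  have h5 : ∑ x ∈ (S.erase p).erase q, Finsupp.single (mapPt (algebraMap k Ω) x)
      (z (mapPt (algebraMap k Ω) x)) ∈ normCyc Ω f := by
    refine sum_mem fun x hx => ?_
    have hx1 := Finset.mem_of_mem_erase hx
    exact hcyc x (Finset.mem_of_mem_erase hx1) (Finset.ne_of_mem_erase hx1)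
      (Finset.ne_of_mem_erase hx)
  have h6 : z - (Finsupp.single P' 1 + Finsupp.single Q' (2 * m + 1)) ∈ normCyc Ω f := by
    have h7 := add_mem hS3 h5
    convert h7 using 1
    rw [← Finset.sum_erase_add S _ hpS, ← Finset.sum_erase_add (S.erase p) _ hqS', ← hP', ← hQ',
      hz2, hm]
    abel
  have h7 : Finsupp.single Q' (2 * (m + 1)) ∈ normCyc Ω f := by
    have h8 := zsmul_mem (two_norm hf h2 q hQz) (m + 1)
    rw [Finsupp.smul_single, smul_eq_mul, mul_comm] at h8
    exact h8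
  have h8 : pc Ω P hP - pc Ω Q hQ = z - (z - (Finsupp.single P' 1 + Finsupp.single Q' (2 * m + 1)))
      - Finsupp.single Q' (2 * (m + 1)) := by
    have h9 : Finsupp.single Q' (2 * (m + 1)) =
        (Finsupp.single Q' (2 * m + 1) + Finsupp.single Q' 1 : ℙ Ω (Fin n → Ω) →₀ ℤ) := by
      rw [← Finsupp.single_add]
      congr 1
      ring
    rw [h9, pc, pc, ← hp, ← hq, ← hP', ← hQ']
    abel
  rw [h8]
  exact sub_mem (sub_mem (AddSubgroup.mem_sup_left hz1) (AddSubgroup.mem_sup_right h6))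
    (AddSubgroup.mem_sup_right h7)

theorem pc_smul (x : Fin n → k) (hx : x ≠ 0) (c : k) (hcx : c • x ≠ 0) :
    pc Ω (c • x) hcx = pc Ω x hx := by
  rw [pc, pc]
  congr 2
  rw [Projectivization.mk_eq_mk_iff']
  exact ⟨c, rfl⟩

/-- Nearby real points are rationally equivalent modulo norms. -/
theorem rel_near [IsAlgClosure k Ω] [TopologicalSpace k] (e : k ≃+* ℝ) (he : Continuous e)
    {f : Fin r → MvPolynomial (Fin n) k} (hf : ∀ i, ∃ d, (f i).IsHomogeneous d)
    {P : Fin n → k} (hP : P ≠ 0) (hz : Zer f k P)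
    (hJ : ∀ c : Fin r → k, (∀ j, ∑ i, c i * gr f P i j = 0) → c = 0) :
    ∀ᶠ Q in 𝓝 P, Zer f k Q → ∀ hQ : Q ≠ 0,
      pc Ω P hP - pc Ω Q hQ ∈ ratEq Ω f ⊔ normCyc Ω f := by
  have hf' : ∀ i, ∃ d, (fR e f i).IsHomogeneous d := by
    intro i
    obtain ⟨d, hd⟩ := hf i
    exact ⟨d, hd.map _⟩
  have hP' : (fun j => e (P j)) ≠ 0 := by
    obtain ⟨j, hj⟩ := Function.ne_iff.1 hP
    exact Function.ne_iff.2 ⟨j, (map_ne_zero e).2 hj⟩
  have hJ' : ∀ c : Fin r → ℝ, (∀ j, ∑ i, c i * gr (fR e f) (fun j => e (P j)) i j = 0) →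
      c = 0 := by
    intro c hc
    have h1 := hJ (fun i => e.symm (c i)) (fun j => by
      apply e.injective
      rw [map_sum, map_zero, ← hc j]
      refine Finset.sum_congr rfl fun i _ => ?_
      rw [map_mul, RingEquiv.apply_symm_apply, gr_fR])
    funext i
    exact (map_eq_zero e.symm).1 (congrFun h1 i)
  have h := exists_pair (fR e f) hf' (fun j => e (P j)) hP' ((zer_fR e f P).2 hz) hJ'
  have hcont : Continuous (fun (Q : Fin n → k) (j : Fin n) => e (Q j)) :=
    continuous_pi fun j => he.comp (continuous_apply j)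
  filter_upwards [(hcont.tendsto P).eventually h] with Q hQ hzQ hQ0
  rcases hQ ((zer_fR e f Q).2 hzQ) with ⟨c, hc⟩ | ⟨c, hc0, u, H⟩
  · have h1 : Q = e.symm c • P := by
      funext j
      apply e.injective
      have h2 := congrFun hc j
      simp only [Pi.smul_apply, smul_eq_mul, map_mul, RingEquiv.apply_symm_apply] at h2 ⊢
      exact h2
    subst h1
    rw [pc_smul Ω P hP, sub_self]
    exact zero_mem _
  · have h1 : (c • fun j => e (Q j)) = fun j => e ((e.symm c • Q) j) := by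
      funext j
      simp only [Pi.smul_apply, smul_eq_mul, map_mul, RingEquiv.apply_symm_apply]
    have h2 : u = fun j => e (e.symm (u j)) := by
      funext j
      rw [RingEquiv.apply_symm_apply]
    rw [h1, h2] at H
    have hc1 : e.symm c • Q ≠ 0 := smul_ne_zero ((map_ne_zero e.symm).2 hc0) hQ0
    have h3 := rel_pair Ω e (P := P) (Q := e.symm c • Q) (u := fun j => e.symm (u j)) hf H hP hc1
    rwa [pc_smul Ω Q hQ0] at h3

end loc

section main

variable {k Ω : Type u} [Field k] [Field Ω] [Algebra k Ω] [IsAlgClosure k Ω] {n r : ℕ}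

/-- The theorem of Colliot-Thélène and Ischebeck for a complete intersection: if the real locus is
smooth and connected, zero-cycles of degree `0` are rationally equivalent to norms. -/
theorem F1bar_ct [TopologicalSpace k] (e : k ≃+* ℝ) (he : Continuous e)
    (he' : Continuous e.symm) (f : Fin r → MvPolynomial (Fin n) k)
    (hf : ∀ i, ∃ d, (f i).IsHomogeneous d)
    (hJ : ∀ x : Fin n → k, x ≠ 0 → Zer f k x → ∀ c : Fin r → k,
      (∀ j, ∑ i, c i * aeval x (pderiv j (f i)) = 0) → c = 0)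
    (hconn : IsPreconnected ((fun (x : Fin n → k) (i j : Fin n) => x i * x j) ''
      {x | x ≠ 0 ∧ Zer f k x})) : Subsingleton (F1bar Ω f) := by
  classical
  have h2 : Module.finrank k Ω = 2 := finrank_two k Ω e
  have hch : CharZero k := charZero_of_injective_ringHom (f := e.symm.toRingHom) e.symm.injective
  let φ : (Fin n → k) → (ℙ Ω (Fin n → Ω) →₀ ℤ) ⧸ (ratEq Ω f ⊔ normCyc Ω f) := fun x =>
    if hx : x ≠ 0 then QuotientAddGroup.mk (pc Ω x hx) else 0
  have hφ : ∀ x (hx : x ≠ 0), φ x = QuotientAddGroup.mk (pc Ω x hx) := fun x hx => dif_pos hx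
  have hj : ∀ x y : Fin n → k, x ≠ 0 → Zer f k x → y ≠ 0 → Zer f k y → φ x = φ y := by
    intro x y hx hx' hy hy'
    refine rel_of_conn e he he' {x | x ≠ 0 ∧ Zer f k x} (fun a b => φ a = φ b)
      ⟨fun _ => rfl, fun h => h.symm, fun h h' => h.trans h'⟩ ?_ (fun a ha => ha.1) ?_ ?_ hconn x y
        ⟨hx, hx'⟩ ⟨hy, hy'⟩
    · intro a
      by_cases ha : a = 0
      · rw [ha, smul_zero]
      · have h3 : (-1 : k) • a ≠ 0 := smul_ne_zero (neg_ne_zero.2 one_ne_zero) ha
        rw [hφ a ha, hφ _ h3, pc_smul Ω a ha]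
    · rintro a ⟨ha, ha'⟩
      exact ⟨smul_ne_zero (neg_ne_zero.2 one_ne_zero) ha, ZCTr.zer_smul hf _ ha'⟩
    · rintro a ⟨ha, ha'⟩
      filter_upwards [rel_near Ω e he hf ha ha' (hJ a ha ha')] with b hb hbZ
      rw [hφ a ha, hφ b hbZ.1, QuotientAddGroup.eq, neg_add_eq_sub, ← neg_sub]
      exact neg_mem (hb hbZ.2 hbZ.1)
  rw [QuotientAddGroup.subsingleton_iff, AddSubgroup.addSubgroupOf_eq_top]
  intro z hz
  obtain ⟨hzc, hz0⟩ := AddSubgroup.mem_inf.1 hz
  rw [AddMonoidHom.mem_ker] at hz0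
  obtain ⟨S, hS1, hS2, hS3, hS4⟩ := real_part hf h2 hzc
  rw [hz0, zero_sub, even_neg] at hS4
  have hpcS : ∀ x : ℙ k (Fin n → k), pc Ω x.rep x.rep_nonzero =
      Finsupp.single (mapPt (algebraMap k Ω) x) 1 := by
    intro x
    rw [pc, Projectivization.mk_rep]
  rcases S.eq_empty_or_nonempty with hSe | ⟨p, hp⟩
  · rw [hSe, Finset.sum_empty, sub_zero] at hS3
    exact AddSubgroup.mem_sup_right hS3
  have h3 : ∀ x ∈ S, Finsupp.single (mapPt (algebraMap k Ω) x) (z (mapPt (algebraMap k Ω) x)) -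
      Finsupp.single (mapPt (algebraMap k Ω) p) (z (mapPt (algebraMap k Ω) x)) ∈
        ratEq Ω f ⊔ normCyc Ω f := by
    intro x hx
    have h4 := hj p.rep x.rep p.rep_nonzero (hS2 p hp) x.rep_nonzero (hS2 x hx)
    rw [hφ _ p.rep_nonzero, hφ _ x.rep_nonzero, QuotientAddGroup.eq, neg_add_eq_sub, hpcS,
      hpcS] at h4
    have h5 := zsmul_mem h4 (z (mapPt (algebraMap k Ω) x))
    rw [smul_sub, Finsupp.smul_single, Finsupp.smul_single, smul_eq_mul, mul_one] at h5
    exact h5
  have h4 := sum_mem h3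
  have h7 : ∑ x ∈ S, Finsupp.single (mapPt (algebraMap k Ω) p) (z (mapPt (algebraMap k Ω) x)) =
      (Finsupp.single (mapPt (algebraMap k Ω) p) (∑ x ∈ S, z (mapPt (algebraMap k Ω) x)) :
        ℙ Ω (Fin n → Ω) →₀ ℤ) :=
    (map_sum (Finsupp.singleAddHom (mapPt (algebraMap k Ω) p)) _ _).symm
  rw [Finset.sum_sub_distrib, h7] at h4
  obtain ⟨m, hm⟩ := hS4
  have h5 : Finsupp.single (mapPt (algebraMap k Ω) p) (∑ x ∈ S, z (mapPt (algebraMap k Ω) x)) ∈
      normCyc Ω f := by
    have h6 := zsmul_mem (two_norm hf h2 p (hS2 p hp)) m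
    rw [Finsupp.smul_single, smul_eq_mul] at h6
    rw [hm]
    convert h6 using 2
    ring
  have h6 := add_mem (add_mem (AddSubgroup.mem_sup_right hS3 : _ ∈ ratEq Ω f ⊔ normCyc Ω f) h4)
    (AddSubgroup.mem_sup_right h5 : _ ∈ ratEq Ω f ⊔ normCyc Ω f)
  convert h6 using 1
  abel

end main

end Ct
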