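import Pool.Agent.Lib.MP_f80667_ag.Ct.I
import Pool.Agent.Lib.MP_f80667_ag.Ct.NA
import Pool.Agent.Lib.MP_f80667_ag.Cv.LocN
import Pool.Agent.Lib.MP_f80667_ag.Cv.GlbC

/-!
The local theorem for any ramification index: the Albanese kernel of a product of curves with good reduction is the sum of a
divisible group and a group of bounded exponent.
-/

set_option autoImplicit false

open ZC BE PE Polynomial IntermediateField

namespace CV

variable {F : Type} [Field F] {K Ω : Type} [Field K] [CharZero K] [Field Ω] [Algebra K Ω]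
  [Algebra F K] [Algebra F Ω] [IsScalarTower F K Ω] [IsAlgClosure K Ω] {L : Ld K Ω}

/-- Divisibility by the numbers prime to `p`. -/
theorem t_le_m {C₁ C₂ : Crv F} (m₁ : Mod C₁ (Ok L) K) (m₂ : Mod C₂ (Ok L) K) {π : K}
    (hπ : Uf L π) (m : ℕ) : m ≠ 0 → ¬L.p ∣ m →
    (scC (K := K) (Ω := Ω) C₁.bp C₂.bp).T ≤ mulT m (scC (K := K) (Ω := Ω) C₁.bp C₂.bp).T := by
  induction m using Nat.strong_induction_on with
  | _ m ih =>
    intro h0 hp g hg
    by_cases h1 : m = 1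
    · rw [h1]
      exact ⟨g, hg, one_smul ℕ g⟩
    · have hl := Nat.minFac_prime h1
      obtain ⟨m', hm'⟩ := Nat.minFac_dvd m
      obtain ⟨l, hl'⟩ : ∃ l, l = m.minFac := ⟨_, rfl⟩
      rw [← hl'] at hm' hl
      have hlp : l ≠ L.p := by
        rintro rfl
        exact hp (hm' ▸ dvd_mul_right _ _)
      have h0' : m' ≠ 0 := by
        rintro rfl
        exact h0 (by rw [hm', mul_zero])
      have hlt : m' < m := by
        rw [hm']
        exact (Nat.lt_mul_iff_one_lt_left (Nat.pos_of_ne_zero h0')).2 hl.one_lt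
      obtain ⟨g₁, hg₁, e₁⟩ := t_le_l hπ (exPr C₁) (exPr C₂) (exSl m₁ hl hlp)
        (exSl m₂ hl hlp) (exDv m₁ hl.ne_zero) (exDv m₂ hl.ne_zero) (exNm m₁) (exNm m₂)
        (t_le_tu (Ω := Ω) m₁ m₂) hg
      obtain ⟨g₂, hg₂, e₂⟩ := ih m' hlt h0' (fun h => hp (hm' ▸ h.mul_left _)) hg₁
      refine ⟨g₂, hg₂, ?_⟩
      change m • g₂ = g
      change m' • g₂ = g₁ at e₂
      change l • g₁ = g at e₁
      rw [hm', mul_smul, e₂, e₁]

/-- **Two curves, any ramification index.** -/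
theorem ct₂ {C₁ C₂ : Crv F} (m₁ : Mod C₁ (Ok L) K) (m₂ : Mod C₂ (Ok L) K) {π : K}
    (hπ : Uf L π) {e : ℕ} (he0 : e ≠ 0) (he : L.nm (L.p : Ω) = L.nm (algebraMap K Ω π) ^ e)
    {n : ℕ} (hn : n ≠ 0) :
    BdR C₁.V C₂.V K Ω (L.p ^ Sep L.p e (padicValNat L.p e + 1)) n := by
  refine bdR_of fun g hg => ?_
  obtain ⟨k, m, hm, hnm⟩ := Nat.exists_eq_pow_mul_and_not_dvd hn L.p L.pp.ne_one
  have hm0 : m ≠ 0 := by
    rintro rfl
    exact hm (dvd_zero _)
  have hc : ExC2 m₁ m₂ := cx2 (mod₂ m₁ m₂) false true (fun k => by cases k <;> simp) (by simp)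
    (exCx _)
  have H := rl (m₁ := m₁) (m₂ := m₂) hπ he0 he (exPr C₁) (exPr C₂) (exCh m₁) (exCh m₂)
    (exCl m₁) (exCl m₂) (fun l hl => exDv m₁ hl) (fun l hl => exDv m₂ hl) (exNm m₁) (exNm m₂) hc
    (t_le_tu m₁ m₂)
  obtain ⟨g₁, hg₁, e₁⟩ := ct_mainp H k hg
  obtain ⟨g₂, hg₂, e₂⟩ := t_le_m m₁ m₂ hπ m hm0 hm hg₁
  refine ⟨g₂, hg₂, ?_⟩
  change L.p ^ k • g₁ = _ at e₁
  change m • g₂ = g₁ at e₂
  rw [← e₁, ← e₂, hnm, mul_smul]

/-- The uniformizer and the ramification index. -/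
theorem exists_pe (L : Ld K Ω) : ∃ (π : K) (e : ℕ), e ≠ 0 ∧ 0 < L.nm (algebraMap K Ω π) ∧
    L.nm (algebraMap K Ω π) < 1 ∧
    (∀ x : K, x ≠ 0 → ∃ n : ℤ, L.nm (algebraMap K Ω x) = L.nm (algebraMap K Ω π) ^ n) ∧
    L.nm (L.p : Ω) = L.nm (algebraMap K Ω π) ^ e := by
  obtain ⟨π, h0, h1, h⟩ := exists_pi L
  obtain ⟨n, hn⟩ := h (L.p : K) (Nat.cast_ne_zero.2 L.pp.ne_zero)
  rw [map_natCast] at hn
  have hlt := L.lt
  have hn0 : 0 < n := by
    by_contra hneg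
    rw [not_lt] at hneg
    rw [hn] at hlt
    exact absurd hlt (not_lt.2 (one_le_zpow_of_nonpos₀ h0 h1.le hneg))
  obtain ⟨k, rfl⟩ := Int.eq_ofNat_of_zero_le hn0.le
  refine ⟨π, k, by omega, h0, h1, h, ?_⟩
  rw [hn]
  exact zpow_natCast _ _

/-- **The local theorem, any ramification index.** -/
theorem lcA {ι : Type} [Finite ι] (C : ι → Crv F) : LcA C := by
  intro K Ω _ _ _ _ _ _ _ _ L hm
  have m : ∀ i, Mod (C i) (Ok L) K := fun i => (hm i).some
  obtain ⟨π, e, he0, h0, h1, hπ, he⟩ := exists_pe L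
  refine ⟨L.p ^ Sep L.p e (padicValNat L.p e + 1), pow_ne_zero _ L.pp.ne_zero, fun n hn => ?_⟩
  refine loc_nB (L := L) (fun N M hN hM hle i j hij => ?_) fun M x hM hx => ?_
  · obtain ⟨L', hp, hL⟩ := L.exists_bsL M
    have halg : Algebra.IsAlgebraic K Ω := IsAlgClosure.isAlgebraic
    have i1 : IsAlgClosure M Ω := ⟨IsAlgClosure.isAlgClosed K, halg.tower_top M⟩
    have e0 : algebraMap M Ω (algebraMap K M π) = algebraMap K Ω π :=
      (IsScalarTower.algebraMap_apply K M Ω π).symm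
    have h0' : 0 < L'.nm (algebraMap M Ω (algebraMap K M π)) := by
      rw [e0, hL]
      exact h0
    have h1' : L'.nm (algebraMap M Ω (algebraMap K M π)) < 1 := by
      rw [e0, hL]
      exact h1
    have hπ' : ∀ x : M, x ≠ 0 → ∃ n : ℤ, L'.nm (algebraMap M Ω x) =
        L'.nm (algebraMap M Ω (algebraMap K M π)) ^ n := by
      intro x hx
      have hx0 : (x : Ω) ≠ 0 := fun h3 => hx (Subtype.ext h3)
      obtain ⟨k, hk, hxk⟩ := sm_val hN (hle x.2) hx0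
      obtain ⟨n, hn⟩ := hπ k hk
      refine ⟨n, ?_⟩
      rw [e0, hL, hL, ← hn, ← hxk]
      rfl
    have he' : L'.nm (L'.p : Ω) = L'.nm (algebraMap M Ω (algebraMap K M π)) ^ e := by
      rw [e0, hL, hL, hp]
      exact he
    have h2 := ct₂ (L := L') ((m i).upL hL) ((m j).upL hL) (uf_of h0' h1' hπ') he0 he' hn
    rw [hp] at h2
    exact h2
  · have h1 := move m (fun i => exPr (C i)) (fun i => exIf (m i)) hx
    have h2 := io_le m (fun J _ σ => exCx fun j => m (σ j)) (fun i => exRs (m i))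
      fun i => exCh (m i)
    have h3 : (Vpi fun i => (C i).V).ratEq K Ω ⊔ Io m ≤
        (Vpi fun i => (C i).V).ratEq K Ω ⊔ Uo L C := sup_le le_sup_left h2
    exact h3 h1

end CV
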