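import Pool.Agent.Lib.MP_f80667_ag.Ct.EB

/-! # The monomial relation -/

set_option autoImplicit false

open PE Finset Polynomial

namespace CV

variable {K Ω : Type} [Field K] [CharZero K] [Field Ω] [Algebra K Ω] [IsAlgClosure K Ω]
  {A B G : Type} [AddCommGroup A] [AddCommGroup B] [AddCommGroup G]
  [DistribMulAction (Ω ≃ₐ[K] Ω) A] [DistribMulAction (Ω ≃ₐ[K] Ω) B]
  {W : Tw K Ω} {p e c : ℕ} {S : Sc K Ω A B G} {X : Lp W p e A} {Y : Lp W p e B}
  {hp : p ≠ 0} {n : ℕ} {M : IntermediateField K Ω} {α : W.O M → A} {β : W.O M → B}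

/-- The first two terms of the power of a binomial. -/
private theorem one_add_pow_two {R : Type} [CommRing R] (q : R) (a : ℕ) :
    ∃ r : R, (1 + q) ^ a = 1 + a * q + q ^ 2 * r := by
  induction a with
  | zero => exact ⟨0, by simp⟩
  | succ a ih =>
    obtain ⟨r, hr⟩ := ih
    refine ⟨a + r + q * r, ?_⟩
    rw [pow_succ, hr]
    push_cast
    ring

/-- One root of unity `z`: `w = π ^ j`, `q = π ^ t`. Proof: `X₀ = x (z w) ^ a` has level `a j`, `x (z w (1 + q)) ^ a = X₀ + a q X₀ + δ`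
with `π ^ (a j + 2 t) ∣ δ`, `Y₀ = y z w`; expand with `fn_add₁`, `fn_add₂`: all terms except `S(X₀, Y₀)`, `S(X₀, q Y₀)` and
`S(a q X₀, Y₀)` have weight `≥ (a + 1) j + t + 1` (`ch_mem`); `S(a q X₀, Y₀) = a S(q X₀, Y₀)` up to this weight (`X.mul`), and
`bal` with `u = z ^ a`, `v = z`. -/
theorem mono_tg (H : Rl W p e c X Y S) (hM : W.U M) (hα : α ∈ X.Ch M) (hβ : β ∈ Y.Ch M)
    {a j t : ℕ} (ha : a ≠ 0) (hj : j ≠ 0) (ht : t ≠ 0) (x y : W.O M)
    {z : W.O M} (hz : z ^ (a + 1) = 1) :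
    S.sy M (α (x * (z * (W.π M ^ j * (1 + W.π M ^ t))) ^ a))
        (β (y * (z * (W.π M ^ j * (1 + W.π M ^ t))))) -
      S.sy M (α (x * (z * W.π M ^ j) ^ a)) (β (y * (z * W.π M ^ j))) -
      (a • S.sy M (α (W.π M ^ (a * j + t) * x)) (β (W.π M ^ j * y)) +
        S.sy M (α (W.π M ^ (a * j) * x)) (β (W.π M ^ (j + t) * y))) ∈
        Fn X Y S hp n ((a + 1) * j + t + 1) := by
  have hfd := W.fd hM
  obtain ⟨r, hr⟩ := one_add_pow_two (W.π M ^ t) a
  obtain ⟨V, hV⟩ : ∃ V, V = Fn X Y S hp n ((a + 1) * j + t + 1) := ⟨_, rfl⟩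
  have haj : 0 < a * j := Nat.mul_pos (Nat.pos_of_ne_zero ha) (Nat.pos_of_ne_zero hj)
  have hN : (a + 1) * j = a * j + j := by ring
  -- the elements
  obtain ⟨X0, hX0⟩ : ∃ X0, X0 = x * (z * W.π M ^ j) ^ a := ⟨_, rfl⟩
  obtain ⟨Y0, hY0⟩ : ∃ Y0, Y0 = y * (z * W.π M ^ j) := ⟨_, rfl⟩
  obtain ⟨q, hq⟩ : ∃ q, q = W.π M ^ t := ⟨_, rfl⟩
  have eX : x * (z * (W.π M ^ j * (1 + W.π M ^ t))) ^ a = X0 + (a * (q * X0) + q ^ 2 * r * X0) := by
    rw [hX0, hq, ← mul_assoc z, mul_pow (z * W.π M ^ j), hr]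
    ring
  have eY : y * (z * (W.π M ^ j * (1 + W.π M ^ t))) = Y0 + q * Y0 := by
    rw [hY0, hq]
    ring
  have dX0 : W.π M ^ (a * j) ∣ X0 := by
    rw [hX0, mul_pow, ← pow_mul, mul_comm j a]
    exact (dvd_mul_left _ _).mul_left _
  have dY0 : W.π M ^ j ∣ Y0 := by
    rw [hY0]
    exact (dvd_mul_left _ _).mul_left _
  have dq : W.π M ^ t ∣ q := hq ▸ dvd_refl _
  have dqX : W.π M ^ (a * j + t) ∣ q * X0 := by
    rw [add_comm, pow_add]
    exact mul_dvd_mul dq dX0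
  have daX : W.π M ^ (a * j + t) ∣ (a : W.O M) * (q * X0) := dqX.mul_left _
  have dd : W.π M ^ (a * j + 2 * t) ∣ q ^ 2 * r * X0 := by
    rw [add_comm, pow_add, mul_comm 2 t, pow_mul]
    exact mul_dvd_mul ((pow_dvd_pow_of_dvd dq 2).mul_right r) dX0
  have dd' : W.π M ^ (a * j + t) ∣ q ^ 2 * r * X0 := (pow_dvd_pow _ (by omega)).trans dd
  have dX1 : W.π M ^ (a * j + t) ∣ a * (q * X0) + q ^ 2 * r * X0 := dvd_add daX dd'
  have dqY : W.π M ^ (j + t) ∣ q * Y0 := by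
    rw [add_comm, pow_add]
    exact mul_dvd_mul dq dY0
  have dY : W.π M ^ j ∣ Y0 + q * Y0 := dvd_add dY0 ((pow_dvd_pow _ (by omega)).trans dqY)
  -- the terms
  have h1 : S.sy M (α (X0 + (a * (q * X0) + q ^ 2 * r * X0))) (β (Y0 + q * Y0)) -
      S.sy M (α X0) (β (Y0 + q * Y0)) -
        S.sy M (α (a * (q * X0) + q ^ 2 * r * X0)) (β (Y0 + q * Y0)) ∈ V := by
    rw [hV]
    exact fn_anti (by omega) (fn_add₁ (hp := hp) (n := n) H.nul₁ H.nul₂ hM hα hβ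
      (show a * j ≠ 0 by omega) (show a * j + t ≠ 0 by omega) hj dX0 dX1 dY)
  have h2 : S.sy M (α X0) (β (Y0 + q * Y0)) - S.sy M (α X0) (β Y0) -
      S.sy M (α X0) (β (q * Y0)) ∈ V := by
    rw [hV]
    exact fn_anti (by omega) (fn_add₂ (hp := hp) (n := n) H.nul₁ H.nul₂ hM hα hβ hj
      (show j + t ≠ 0 by omega) (show a * j ≠ 0 by omega) dY0 dqY dX0)
  have h3 : S.sy M (α X0) (β (q * Y0)) -
      S.sy M (α (W.π M ^ (a * j) * x)) (β (W.π M ^ (j + t) * y)) ∈ V := by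
    have k1 := bal (hp := hp) (n := n) H hM hα hβ (show a * j ≠ 0 by omega)
      (show j + t ≠ 0 by omega) x y (z ^ a) z
    have e1 : W.π M ^ (a * j) * (x * z ^ a) = X0 := by
      rw [hX0, mul_pow, ← pow_mul, mul_comm j a]
      ring
    have e2 : W.π M ^ (j + t) * (y * z) = q * Y0 := by
      rw [hq, hY0, pow_add]
      ring
    have e3 : x * z ^ a * z = x := by
      rw [mul_assoc, ← pow_succ, hz, mul_one]
    rw [e1, e2, e3] at k1
    rw [hV]
    exact fn_anti (by omega) k1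
  have h4 : S.sy M (α (a * (q * X0) + q ^ 2 * r * X0)) (β (Y0 + q * Y0)) -
      S.sy M (α (a * (q * X0) + q ^ 2 * r * X0)) (β Y0) -
        S.sy M (α (a * (q * X0) + q ^ 2 * r * X0)) (β (q * Y0)) ∈ V := by
    rw [hV]
    exact fn_anti (by omega) (fn_add₂ (hp := hp) (n := n) H.nul₁ H.nul₂ hM hα hβ hj
      (show j + t ≠ 0 by omega) (show a * j + t ≠ 0 by omega) dY0 dqY dX1)
  have h5 : S.sy M (α (a * (q * X0) + q ^ 2 * r * X0)) (β (q * Y0)) ∈ V := by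
    rw [hV]
    exact fn_anti (by omega) (ch_mem (hp := hp) (n := n) H hM hα hβ
      (show a * j + t ≠ 0 by omega) (show j + t ≠ 0 by omega) dX1 dqY)
  have h6 : S.sy M (α (a * (q * X0) + q ^ 2 * r * X0)) (β Y0) - S.sy M (α (a * (q * X0))) (β Y0) -
      S.sy M (α (q ^ 2 * r * X0)) (β Y0) ∈ V := by
    rw [hV]
    exact fn_anti (by omega) (fn_add₁ (hp := hp) (n := n) H.nul₁ H.nul₂ hM hα hβ
      (show a * j + t ≠ 0 by omega) (show a * j + 2 * t ≠ 0 by omega) hj daX dd dY0)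
  have h7 : S.sy M (α (q ^ 2 * r * X0)) (β Y0) ∈ V := by
    rw [hV]
    exact fn_anti (by omega) (ch_mem (hp := hp) (n := n) H hM hα hβ
      (show a * j + 2 * t ≠ 0 by omega) hj dd dY0)
  have h8 : S.sy M (α (a * (q * X0))) (β Y0) - a • S.sy M (α (q * X0)) (β Y0) ∈ V := by
    have k1 := X.chD hM hα (show a * j + t ≠ 0 by omega) dqX
    have k2 := X.chD hM hα (show a * j + t ≠ 0 by omega) daX
    have k3 := Y.chD hM hβ hj dY0
    have k4 := X.mul a hM hα (show a * j + t ≠ 0 by omega) dqX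
    have k5 := Y.fx hM k3
    rw [← sy_smul₁ (X.fx hM k1) k5, ← sy_sub₁ (X.fx hM k2) ((X.fx hM k1).nsmul a) k5, hV]
    exact fn_anti (by omega) (fn_dd H.nul₁ H.nul₂ hM (show 2 * (a * j + t) ≠ 0 by omega) hj k4 k3)
  have h9 : S.sy M (α (q * X0)) (β Y0) -
      S.sy M (α (W.π M ^ (a * j + t) * x)) (β (W.π M ^ j * y)) ∈ V := by
    have k1 := bal (hp := hp) (n := n) H hM hα hβ (show a * j + t ≠ 0 by omega) hj x y (z ^ a) z
    have e1 : W.π M ^ (a * j + t) * (x * z ^ a) = q * X0 := by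
      rw [hq, hX0, mul_pow, ← pow_mul, mul_comm j a, pow_add]
      ring
    have e2 : W.π M ^ j * (y * z) = Y0 := by
      rw [hY0]
      ring
    have e3 : x * z ^ a * z = x := by
      rw [mul_assoc, ← pow_succ, hz, mul_one]
    rw [e1, e2, e3] at k1
    rw [hV]
    exact fn_anti (by omega) k1
  rw [eX, eY, ← hX0, ← hY0, ← hV]
  have h10 := V.nsmul_mem h9 a
  have h11 := V.add_mem (V.add_mem (V.add_mem (V.add_mem (V.add_mem (V.add_mem (V.add_mem
    (V.add_mem h1 h2) h3) h4) h5) h6) h7) h8) h10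
  refine (congrArg (fun g => g ∈ V) ?_).mp h11
  rw [smul_sub]
  abel

/-- The relation. Proof: `cx` on `z ↦ (x z ^ a, y z)` for the multisets of the `z w (1 + q)` and of the `z w`, `z` in `s`,
`w = π ^ j`, `q = π ^ t` (`Mun`: `lin` is `X ^ (a + 1) - w ^ (a + 1) (1 + q) ^ (a + 1)` and `X ^ (a + 1) - w ^ (a + 1)`),
`N = (a + 1) j + t`, `psn_le`; the sum of `mono_tg` over `s`. -/
theorem mono_g (H : Rl W p e c X Y S) (hM : W.U M) (hα : α ∈ X.Ch M) (hβ : β ∈ Y.Ch M)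
    {a j t : ℕ} (ha : a ≠ 0) (hj : j ≠ 0) (ht : t ≠ 0) (x y : W.O M)
    {s : Multiset (W.O M)} (hs : Mun (a + 1) s) :
    (a + 1) • (a • S.sy M (α (W.π M ^ (a * j + t) * x)) (β (W.π M ^ j * y)) +
      S.sy M (α (W.π M ^ (a * j) * x)) (β (W.π M ^ (j + t) * y))) ∈
        Fn X Y S hp n ((a + 1) * j + t + 1) := by
  obtain ⟨hcard, hroot, hlin⟩ := hs
  have hπj : W.π M ∣ W.π M ^ j := dvd_pow_self _ hj
  have hN : (a + 1) * j + t ≠ 0 := by omega
  have h1 := H.cx x y a ((a + 1) * j + t)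
    (s.map (· * (W.π M ^ j * (1 + W.π M ^ t)))) (s.map (· * W.π M ^ j)) hM hα hβ ha hN
    (by rw [Multiset.card_map, Multiset.card_map])
    (by
      intro z hz
      obtain ⟨z', -, rfl⟩ := Multiset.mem_map.1 hz
      exact (hπj.mul_right _).mul_left _)
    (by
      intro z hz
      obtain ⟨z', -, rfl⟩ := Multiset.mem_map.1 hz
      exact hπj.mul_left _)
    (by
      rw [hlin, hlin]
      have e : Polynomial.X ^ (a + 1) - C ((W.π M ^ j * (1 + W.π M ^ t)) ^ (a + 1)) -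
          (Polynomial.X ^ (a + 1) - C ((W.π M ^ j) ^ (a + 1))) =
          C ((W.π M ^ j) ^ (a + 1) * (1 - (1 + W.π M ^ t) ^ (a + 1))) := by
        rw [mul_pow, mul_sub, C_sub, mul_one]
        ring
      rw [e]
      refine map_dvd C ?_
      rw [pow_add]
      refine mul_dvd_mul ?_ ?_
      · rw [← pow_mul, mul_comm j (a + 1)]
      · have h2 : (1 + W.π M ^ t) - 1 ∣ (1 + W.π M ^ t) ^ (a + 1) - 1 :=
          sub_one_dvd_pow_sub_one _ _
        rw [add_sub_cancel_left] at h2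
        rw [← neg_sub]
        exact (dvd_neg).2 h2)
  have h2 := psn_le (hp := hp) (n := n) H.nul₁ H.nul₂ hN h1
  rw [Multiset.map_map, Multiset.map_map] at h2
  -- the sum of `mono_term`
  have h3 : (s.map fun z =>
      S.sy M (α (x * (z * (W.π M ^ j * (1 + W.π M ^ t))) ^ a))
          (β (y * (z * (W.π M ^ j * (1 + W.π M ^ t))))) -
        S.sy M (α (x * (z * W.π M ^ j) ^ a)) (β (y * (z * W.π M ^ j))) -
        (a • S.sy M (α (W.π M ^ (a * j + t) * x)) (β (W.π M ^ j * y)) +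
          S.sy M (α (W.π M ^ (a * j) * x)) (β (W.π M ^ (j + t) * y)))).sum ∈
      Fn X Y S hp n ((a + 1) * j + t + 1) := by
    refine AddSubgroup.multiset_sum_mem _ _ ?_
    intro g hg
    obtain ⟨z, hz, rfl⟩ := Multiset.mem_map.1 hg
    exact mono_tg H hM hα hβ ha hj ht x y (hroot z hz)
  rw [Multiset.sum_map_sub, Multiset.sum_map_sub, Multiset.map_const', Multiset.sum_replicate,
    hcard] at h3
  have h4 := sub_mem h2 h3
  refine (congrArg (fun g => g ∈ Fn X Y S hp n ((a + 1) * j + t + 1)) ?_).mp h4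
  simp only [Function.comp_def]
  rw [sub_sub_cancel]

/-- Proof: `mono_g` with `a = p`: `p • S` has weight `+ 1` (`fn_p1`, `ch_mem`), so `(p + 1) • S(π ^ (p j) x, π ^ (j + t) y)` has, and
`p + 1` is prime to `p` (`fn_div`, `ch_T`); first `to_big` with `k = p + 1`. -/
theorem kill_pj (H : Rl W p e c X Y S) (hM : W.U M) (hα : α ∈ X.Ch M) (hβ : β ∈ Y.Ch M)
    {j t : ℕ} (hj : j ≠ 0) (ht : t ≠ 0) {x y : W.O M} (hx : W.π M ^ (p * j) ∣ x)
    (hy : W.π M ^ (j + t) ∣ y) :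
    S.sy M (α x) (β y) ∈ Fn X Y S hp n (p * j + (j + t) + 1) := by
  refine to_big H hM hα hβ (k := p + 1) ?_ ?_ (by omega) hx hy ?_
  · intro h
    have h1 := (Nat.dvd_add_right (dvd_refl p)).1 h
    exact H.prime.one_lt.ne' (Nat.dvd_one.1 h1)
  · exact Nat.mul_ne_zero hp hj
  intro M' α' β' x' y' hM' hα' hβ' hx' hy' ⟨s, hs⟩
  obtain ⟨x₀, rfl⟩ := hx'
  obtain ⟨y₀, rfl⟩ := hy'
  have hpj : p * j ≠ 0 := Nat.mul_ne_zero hp hj
  have hN : (p + 1) * j + t + 1 = p * j + (j + t) + 1 := by ring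
  have h1 := mono_g (hp := hp) (n := n) H hM' hα' hβ' hp hj ht x₀ y₀ hs
  rw [hN] at h1
  have h2 := fn_p1 H.nul₁ H.nul₂ H.pe H.e0 (ch_mem (hp := hp) (n := n) H hM' hα' hβ'
    (show p * j + t ≠ 0 by omega) hj (dvd_mul_right (W.π M' ^ (p * j + t)) x₀)
    (dvd_mul_right (W.π M' ^ j) y₀))
  have h3 := (Fn X Y S hp n (p * j + (j + t) + 1)).nsmul_mem
    (fn_anti (show p * j + (j + t) + 1 ≤ p * j + t + j + 1 by omega) h2) (p + 1)
  rw [smul_add] at h1
  have h4 := (AddSubgroup.add_mem_cancel_left _ h3).1 h1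
  refine fn_div (m := p + 1) ?_ ?_ h4
  · simp
  · exact ch_T H hM' hα' hβ' hpj (show j + t ≠ 0 by omega) (dvd_mul_right _ _) (dvd_mul_right _ _)

end CV
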